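import Mathlib
import Pool.Agent.N315.PL.Tri
import Pool.Agent.N740.HK.Conc
import Pool.Agent.R528.RM.BHFinal

/-!
# Patterns in windows
-/

set_option autoImplicit false
set_option linter.unusedSectionVars false

open MeasureTheory Filter Set
open scoped ENNReal Topology

namespace Pool.Agent.N315.PS

open Pool.Agent.R528.RM Pool.Agent.N740.HK Pool.Agent.N315.CC Pool.Agent.N315.PL

variable {Ω : Type} {m0 : MeasurableSpace Ω} {μ : Measure Ω} [IsProbabilityMeasure μ]
  {ℱ : Filtration ℕ m0} {A : ℕ → Set Ω} {F : ℕ → ℕ → ℕ} {G : ℕ → Prop} {L : ℕ → ℕ}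

/-- `F 0 n, ..., F (i - 1) n` are chosen -/
def ch (A : ℕ → Set Ω) (F : ℕ → ℕ → ℕ) (i n : ℕ) : Set Ω := {ω | ∀ j < i, ω ∈ A (F j n)}

/-- `t + 1` is the place of a trial -/
def TW (A : ℕ → Set Ω) (F : ℕ → ℕ → ℕ) (G : ℕ → Prop) (L : ℕ → ℕ) (i x t : ℕ) : Set Ω :=
  {ω | ∃ n, x < n ∧ n ≤ x + L x ∧ G n ∧ F i n = t + 1 ∧ ω ∈ ch A F i n}

open Classical in
/-- the patterns in the window -/
noncomputable def WS (A : ℕ → Set Ω) (F : ℕ → ℕ → ℕ) (G : ℕ → Prop) (L : ℕ → ℕ) (i x : ℕ) (ω : Ω) : Finset ℕ :=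
  (Finset.Ioc x (x + L x)).filter (fun n => G n ∧ ω ∈ ch A F i n)

/-- the number of patterns in the window -/
noncomputable def NW (A : ℕ → Set Ω) (F : ℕ → ℕ → ℕ) (G : ℕ → Prop) (L : ℕ → ℕ) (i x : ℕ) (ω : Ω) : ℕ :=
  (WS A F G L i x ω).card

lemma mem_WS {i x n : ℕ} {ω : Ω} : n ∈ WS A F G L i x ω ↔ (x < n ∧ n ≤ x + L x) ∧ G n ∧ ω ∈ ch A F i n := by
  classical
  unfold WS
  rw [Finset.mem_filter, Finset.mem_Ioc]

lemma F_lt (hF1 : ∀ i n, F i n < F (i + 1) n) {i j n : ℕ} (h : i < j) : F i n < F j n := by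
  have : StrictMono (fun i => F i n) := strictMono_nat_of_lt_succ fun i => hF1 i n
  exact this h

lemma F_ge (hF : ∀ i, StrictMono (F i)) (i n : ℕ) : n ≤ F i n := (hF i).le_apply

lemma ch_meas (hA : ∀ n, MeasurableSet[ℱ n] (A n)) (hF1 : ∀ i n, F i n < F (i + 1) n) {i n t : ℕ} (h : F i n ≤ t + 1) :
    MeasurableSet[ℱ t] (ch A F i n) := by
  have e : ch A F i n = ⋂ j ∈ Finset.range i, A (F j n) := by
    ext ω
    simp only [ch, mem_ofPred_eq, mem_iInter, Finset.mem_range]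
  rw [e]
  refine Finset.measurableSet_biInter _ fun j hj => ?_
  have hj := Finset.mem_range.1 hj
  have := F_lt hF1 (n := n) hj
  exact ℱ.mono (by omega) _ (hA _)

lemma TW_meas (hA : ∀ n, MeasurableSet[ℱ n] (A n)) (hF1 : ∀ i n, F i n < F (i + 1) n) (i x t : ℕ) :
    MeasurableSet[ℱ t] (TW A F G L i x t) := by
  classical
  have e : TW A F G L i x t = ⋃ n ∈ (Finset.Ioc x (x + L x)).filter (fun n => G n ∧ F i n = t + 1), ch A F i n := by
    ext ω
    simp only [TW, mem_ofPred_eq, mem_iUnion, Finset.mem_filter, Finset.mem_Ioc, exists_prop]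
    constructor
    · rintro ⟨n, h1, h2, h3, h4, h5⟩
      exact ⟨n, ⟨⟨h1, h2⟩, h3, h4⟩, h5⟩
    · rintro ⟨n, ⟨⟨h1, h2⟩, h3, h4⟩, h5⟩
      exact ⟨n, h1, h2, h3, h4, h5⟩
  rw [e]
  refine Finset.measurableSet_biUnion _ fun n hn => ?_
  exact ch_meas hA hF1 (Finset.mem_filter.1 hn).2.2.le

lemma ch_succ {i n : ℕ} {ω : Ω} : ω ∈ ch A F (i + 1) n ↔ ω ∈ ch A F i n ∧ ω ∈ A (F i n) := by
  constructor
  · intro h
    exact ⟨fun j hj => h j (by omega), h i (by omega)⟩
  · rintro ⟨h1, h2⟩ j hj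
    rcases Nat.lt_succ_iff_lt_or_eq.1 hj with h | h
    · exact h1 j h
    · subst h
      exact h2

open Classical in
lemma sum_TW {M : Type} [AddCommMonoid M] (hF : ∀ i, StrictMono (F i)) (i x : ℕ) (ω : Ω) (T : Finset ℕ)
    (hT : ∀ n, x < n → n ≤ x + L x → F i n - 1 ∈ T) (h : ℕ → M) :
    ∑ t ∈ T, (if ω ∈ TW A F G L i x t then h t else 0) = ∑ n ∈ WS A F G L i x ω, h (F i n - 1) := by
  rw [← Finset.sum_filter]
  symm
  refine Finset.sum_nbij (fun n => F i n - 1) ?_ ?_ ?_ ?_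
  · intro n hn
    rw [mem_WS] at hn
    rw [Finset.mem_filter]
    have := F_ge hF i n
    exact ⟨hT n hn.1.1 hn.1.2, n, hn.1.1, hn.1.2, hn.2.1, by omega, hn.2.2⟩
  · intro a ha b hb hab
    rw [Finset.mem_coe, mem_WS] at ha hb
    have h1 := F_ge hF i a
    have h2 := F_ge hF i b
    have hab : F i a - 1 = F i b - 1 := hab
    exact (hF i).injective (by omega)
  · intro t ht
    rw [Finset.mem_coe, Finset.mem_filter] at ht
    obtain ⟨h1, n, h2, h3, h4, h5, h6⟩ := ht
    refine ⟨n, ?_, ?_⟩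
    · rw [Finset.mem_coe, mem_WS]
      exact ⟨⟨h2, h3⟩, h4, h6⟩
    · show F i n - 1 = t
      omega
  · intro n _
    rfl

/-- the number of trials -/
lemma cG_TW (hF : ∀ i, StrictMono (F i)) (i x : ℕ) (ω : Ω) :
    cG (TW A F G L i x) (F i x) (F i (x + L x) - F i x) ω = NW A F G L i x ω := by
  classical
  unfold cG NW
  have h1 : F i x ≤ F i (x + L x) := (hF i).monotone (by omega)
  have h2 := sum_TW (A := A) (G := G) (L := L) (M := ℕ) hF i x ω (Finset.Ico (F i x) (F i (x + L x))) (fun n hn1 hn2 => by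
    rw [Finset.mem_Ico]
    have h3 : F i x < F i n := (hF i) hn1
    have h4 : F i n ≤ F i (x + L x) := (hF i).monotone hn2
    omega) (fun _ => 1)
  rw [Finset.card_eq_sum_ones, ← h2, Finset.sum_Ico_eq_sum_range]

lemma WS_succ (i x : ℕ) (ω : Ω) [DecidablePred fun n => ω ∈ A (F i n)] :
    WS A F G L (i + 1) x ω = (WS A F G L i x ω).filter (fun n => ω ∈ A (F i n)) := by
  classical
  ext n
  rw [Finset.mem_filter, mem_WS, mem_WS, ch_succ]
  tauto

/-- the number of successes -/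
lemma SG_TW (hF : ∀ i, StrictMono (F i)) (i x : ℕ) (ω : Ω) :
    SG A (TW A F G L i x) (F i x) (F i (x + L x) - F i x) ω = NW A F G L (i + 1) x ω := by
  classical
  have h1 : F i x ≤ F i (x + L x) := (hF i).monotone (by omega)
  have h2 := sum_TW (A := A) (G := G) (L := L) (M := ℕ) hF i x ω (Finset.Ico (F i x) (F i (x + L x))) (fun n hn1 hn2 => by
    rw [Finset.mem_Ico]
    have h3 : F i x < F i n := (hF i) hn1
    have h4 : F i n ≤ F i (x + L x) := (hF i).monotone hn2
    omega) (fun t => if ω ∈ A (t + 1) then 1 else 0)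
  rw [Finset.sum_Ico_eq_sum_range] at h2
  have h3 : SG A (TW A F G L i x) (F i x) (F i (x + L x) - F i x) ω =
      ∑ r ∈ Finset.range (F i (x + L x) - F i x), (if ω ∈ TW A F G L i x (F i x + r) then
        (if ω ∈ A (F i x + r + 1) then 1 else 0) else 0) := by
    unfold SG
    refine Finset.sum_congr rfl fun r _ => ?_
    by_cases g1 : ω ∈ TW A F G L i x (F i x + r)
    · by_cases g2 : ω ∈ A (F i x + r + 1)
      · rw [if_pos ⟨g1, g2⟩, if_pos g1, if_pos g2]
      · rw [if_neg (fun h => g2 h.2), if_pos g1, if_neg g2]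
    · rw [if_neg (fun h => g1 h.1), if_neg g1]
  rw [h3, h2]
  unfold NW
  rw [WS_succ, Finset.card_filter]
  refine Finset.sum_congr rfl fun n hn => ?_
  rw [mem_WS] at hn
  have h5 := F_ge hF i n
  rw [show F i n - 1 + 1 = F i n by omega]

/-- the sums of the concentration theorem -/
lemma sum_J (hF : ∀ i, StrictMono (F i)) (i x : ℕ) (ω : Ω) :
    ∑ t ∈ Finset.range (F i (x + L x)), (TW A F G L i x t).indicator (fun _ => (1 : ℝ)) ω * J1 A (t + 1) ω =
      NW A F G L (i + 1) x ω := by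
  classical
  have h2 := sum_TW (A := A) (G := G) (L := L) hF i x ω (Finset.range (F i (x + L x))) (fun n hn1 hn2 => by
    rw [Finset.mem_range]
    have h3 : F i x < F i n := (hF i) hn1
    have h4 : F i n ≤ F i (x + L x) := (hF i).monotone hn2
    omega) (fun t => J1 A (t + 1) ω)
  have h3 : ∑ t ∈ Finset.range (F i (x + L x)), (TW A F G L i x t).indicator (fun _ => (1 : ℝ)) ω * J1 A (t + 1) ω =
      ∑ t ∈ Finset.range (F i (x + L x)), (if ω ∈ TW A F G L i x t then J1 A (t + 1) ω else 0) := by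
    refine Finset.sum_congr rfl fun t _ => ?_
    by_cases h : ω ∈ TW A F G L i x t
    · rw [indicator_of_mem h, if_pos h, one_mul]
    · rw [indicator_of_notMem h, if_neg h, zero_mul]
  rw [h3, h2]
  unfold NW
  rw [WS_succ, Finset.card_filter]
  push_cast
  refine Finset.sum_congr rfl fun n hn => ?_
  rw [mem_WS] at hn
  have h5 := F_ge hF i n
  rw [show F i n - 1 + 1 = F i n by omega]
  unfold J1
  by_cases h : ω ∈ A (F i n)
  · rw [indicator_of_mem h, if_pos h]
  · rw [indicator_of_notMem h, if_neg h]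

/-- the compensators: `c` is `W / φ W` -/
lemma sum_rho (hF : ∀ i, StrictMono (F i)) {W : ℕ} {c : ℝ} (hc : c = (W : ℝ) / Nat.totient W) (hc0 : 0 ≤ c) (i x : ℕ) (hx : 2 ≤ x)
    (hxc : c ≤ Real.log x) (hG : ∀ n, G n → Nat.Coprime (F i n) W) (ω : Ω) :
    (NW A F G L i x ω : ℝ) * c / Real.log (F i (x + L x) : ℕ) ≤
      ∑ t ∈ Finset.range (F i (x + L x)), (TW A F G L i x t).indicator (fun _ => (1 : ℝ)) ω * rhoW W (t + 1) ∧
    ∑ t ∈ Finset.range (F i (x + L x)), (TW A F G L i x t).indicator (fun _ => (1 : ℝ)) ω * rhoW W (t + 1) ≤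
      (NW A F G L i x ω : ℝ) * c / Real.log (F i x : ℕ) := by
  classical
  have h2 := sum_TW (A := A) (G := G) (L := L) hF i x ω (Finset.range (F i (x + L x))) (fun n hn1 hn2 => by
    rw [Finset.mem_range]
    have h3 : F i x < F i n := (hF i) hn1
    have h4 : F i n ≤ F i (x + L x) := (hF i).monotone hn2
    omega) (fun t => rhoW W (t + 1))
  have h3 : ∑ t ∈ Finset.range (F i (x + L x)), (TW A F G L i x t).indicator (fun _ => (1 : ℝ)) ω * rhoW W (t + 1) =
      ∑ t ∈ Finset.range (F i (x + L x)), (if ω ∈ TW A F G L i x t then rhoW W (t + 1) else 0) := by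
    refine Finset.sum_congr rfl fun t _ => ?_
    by_cases h : ω ∈ TW A F G L i x t
    · rw [indicator_of_mem h, if_pos h, one_mul]
    · rw [indicator_of_notMem h, if_neg h, zero_mul]
  rw [h3, h2]
  have hx2 := F_ge hF i x
  have hb : ∀ n ∈ WS A F G L i x ω,
      c / Real.log (F i (x + L x) : ℕ) ≤ rhoW W (F i n - 1 + 1) ∧ rhoW W (F i n - 1 + 1) ≤ c / Real.log (F i x : ℕ) := by
    intro n hn
    rw [mem_WS] at hn
    have h3 : F i x < F i n := (hF i) hn.1.1
    have h4 : F i n ≤ F i (x + L x) := (hF i).monotone hn.1.2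
    rw [show F i n - 1 + 1 = F i n by omega]
    have h5 : (F i x : ℝ) ≤ (F i n : ℝ) := by exact_mod_cast h3.le
    have h6 : (F i n : ℝ) ≤ (F i (x + L x) : ℝ) := by exact_mod_cast h4
    have h7 : (2 : ℝ) ≤ (F i x : ℝ) := by exact_mod_cast (by omega : 2 ≤ F i x)
    have h7' : (x : ℝ) ≤ (F i x : ℝ) := by exact_mod_cast hx2
    have hx' : (2 : ℝ) ≤ x := by exact_mod_cast hx
    have h8 : 0 < Real.log (F i x : ℕ) := Real.log_pos (by linarith)
    have h8' : Real.log x ≤ Real.log (F i x : ℕ) := Real.log_le_log (by linarith) h7'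
    have h9 := Real.log_le_log (by linarith) h5
    have h10 := Real.log_le_log (by linarith) h6
    have e : rhoW W (F i n) = c / Real.log (F i n : ℕ) := by
      unfold rhoW
      rw [if_pos (hG n hn.2.1), ← hc, min_eq_right]
      rw [div_le_one (by linarith)]
      linarith
    rw [e]
    exact ⟨div_le_div_of_nonneg_left hc0 (by linarith) h10, div_le_div_of_nonneg_left hc0 h8 h9⟩
  constructor
  · have := Finset.card_nsmul_le_sum _ _ _ fun n hn => (hb n hn).1
    rw [nsmul_eq_mul, ← mul_div_assoc] at this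
    exact this
  · have := Finset.sum_le_card_nsmul _ _ _ fun n hn => (hb n hn).2
    rw [nsmul_eq_mul, ← mul_div_assoc] at this
    exact this

end Pool.Agent.N315.PS
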