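import Mathlib
import Pool.Agent.N315.PS.Win
import Pool.Agent.N315.CC.Law

/-!
# The number of partial patterns in all long windows
-/

set_option autoImplicit false
set_option linter.unusedSectionVars false

open MeasureTheory Filter Set
open scoped ENNReal Topology

namespace Pool.Agent.N315.PS

open Pool.Agent.R528.RM Pool.Agent.N740.HK Pool.Agent.N315.CC Pool.Agent.N315.PL

variable {Ω : Type} {m0 : MeasurableSpace Ω} {μ : Measure Ω} [IsProbabilityMeasure μ]
  {ℱ : Filtration ℕ m0} {A : ℕ → Set Ω} {F : ℕ → ℕ → ℕ} {G : ℕ → Prop} {L : ℕ → ℕ} {lam : ℝ} {D : ℕ → ℝ}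

lemma F_tendsto (hF : ∀ i, StrictMono (F i)) (i : ℕ) : Tendsto (fun x => F i x) atTop atTop :=
  tendsto_atTop_mono (fun x => F_ge hF i x) tendsto_id

lemma logF_shift (hlog : ∀ i, Tendsto (fun z : ℕ => Real.log (F i z : ℕ) / Real.log z) atTop (𝓝 (D i))) {m : ℕ}
    (hL : Tendsto (fun x : ℕ => (L x : ℝ) / Real.log x ^ m) atTop (𝓝 lam)) (i : ℕ) :
    Tendsto (fun x : ℕ => Real.log (F i (x + L x) : ℕ) / Real.log x) atTop (𝓝 (D i)) := by
  have h1 := ((hlog i).comp (shift_tendsto (L := L))).mul (log_shift hL)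
  rw [mul_one] at h1
  refine h1.congr' ?_
  filter_upwards [log_pos_ev, (shift_tendsto (L := L)).eventually log_pos_ev] with x hx hx2
  show Real.log (F i (x + L x) : ℕ) / Real.log ((x + L x : ℕ) : ℝ) * (Real.log ((x + L x : ℕ) : ℝ) / Real.log x) = _
  field_simp

lemma per_card {W : ℕ} (hG : Function.Periodic G W) [DecidablePred G] (n q : ℕ) :
    ((Finset.Ico n (n + q * W)).filter G).card = q * Nat.count G W := by
  induction q with
  | zero => simp
  | succ q ih =>
    have h1 : Finset.Ico n (n + (q + 1) * W) = Finset.Ico n (n + q * W) ∪ Finset.Ico (n + q * W) (n + q * W + W) := by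
      rw [Finset.Ico_union_Ico_eq_Ico (by omega) (by omega)]
      congr 1
      ring
    rw [h1, Finset.filter_union, Finset.card_union_of_disjoint, ih, Nat.filter_Ico_card_eq_of_periodic _ _ _ hG]
    · ring
    · exact (Finset.Ico_disjoint_Ico_consecutive _ _ _).mono (Finset.filter_subset _ _) (Finset.filter_subset _ _)

/-- the density of a periodic property -/
noncomputable def gd (G : ℕ → Prop) [DecidablePred G] (W : ℕ) : ℝ := (Nat.count G W : ℝ) / W

lemma NW_zero {W : ℕ} (hW : 0 < W) [DecidablePred G] (hG : Function.Periodic G W) (x : ℕ) (ω : Ω) :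
    |(NW A F G L 0 x ω : ℝ) - gd G W * L x| ≤ W := by
  have e : NW A F G L 0 x ω = ((Finset.Ico (x + 1) (x + 1 + L x)).filter G).card := by
    unfold NW
    congr 1
    ext n
    rw [mem_WS, Finset.mem_filter, Finset.mem_Ico]
    constructor
    · rintro ⟨⟨h1, h2⟩, h3, _⟩
      exact ⟨⟨by omega, by omega⟩, h3⟩
    · rintro ⟨⟨h1, h2⟩, h3⟩
      exact ⟨⟨by omega, by omega⟩, h3, fun j hj => absurd hj (Nat.not_lt_zero j)⟩
  have hc : Nat.count G W ≤ W := Nat.count_le G
  set q := L x / W with hq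
  have hq1 : q * W ≤ L x := Nat.div_mul_le_self _ _
  have hq2 : L x < (q + 1) * W := by
    rw [hq, mul_comm]
    exact Nat.lt_mul_div_succ _ hW
  have h1 : q * Nat.count G W ≤ NW A F G L 0 x ω := by
    rw [e, ← per_card hG (x + 1) q]
    refine Finset.card_le_card (Finset.filter_subset_filter _ (Finset.Ico_subset_Ico le_rfl (by omega)))
  have h2 : NW A F G L 0 x ω ≤ (q + 1) * Nat.count G W := by
    rw [e, ← per_card hG (x + 1) (q + 1)]
    refine Finset.card_le_card (Finset.filter_subset_filter _ (Finset.Ico_subset_Ico le_rfl (by omega)))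
  have hW' : (0 : ℝ) < W := by exact_mod_cast hW
  have hc' : (Nat.count G W : ℝ) ≤ W := by exact_mod_cast hc
  have h1' : (q : ℝ) * Nat.count G W ≤ NW A F G L 0 x ω := by exact_mod_cast h1
  have h2' : (NW A F G L 0 x ω : ℝ) ≤ (q + 1) * Nat.count G W := by exact_mod_cast h2
  have hq1' : (q : ℝ) * W ≤ L x := by exact_mod_cast hq1
  have hq2' : (L x : ℝ) ≤ (q + 1) * W := by exact_mod_cast hq2.le
  have hcn : (0 : ℝ) ≤ Nat.count G W := Nat.cast_nonneg _
  have e2 : gd G W * L x = (L x / W) * Nat.count G W := by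
    unfold gd
    ring
  have h3 : (q : ℝ) ≤ L x / W := by rwa [le_div_iff₀ hW']
  have h4 : (L x : ℝ) / W ≤ q + 1 := by rwa [div_le_iff₀ hW']
  have h5 := mul_le_mul_of_nonneg_right h3 hcn
  have h6 := mul_le_mul_of_nonneg_right h4 hcn
  rw [e2, abs_le]
  constructor <;> nlinarith

lemma NW_zero_lim {W : ℕ} (hW : 0 < W) [DecidablePred G] (hG : Function.Periodic G W) {m : ℕ} (hm : m ≠ 0)
    (hL : Tendsto (fun x : ℕ => (L x : ℝ) / Real.log x ^ m) atTop (𝓝 lam)) (ω : Ω) :
    Tendsto (fun x : ℕ => (NW A F G L 0 x ω : ℝ) / Real.log x ^ m) atTop (𝓝 (lam * gd G W)) := by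
  have h1 := hL.const_mul (gd G W)
  have h2 : Tendsto (fun x : ℕ => ((NW A F G L 0 x ω : ℝ) - gd G W * L x) / Real.log x ^ m) atTop (𝓝 0) := by
    have h3 : Tendsto (fun x : ℕ => (W : ℝ) / Real.log x ^ m) atTop (𝓝 0) :=
      tendsto_const_nhds.div_atTop ((tendsto_pow_atTop hm).comp tendsto_logN)
    refine squeeze_zero_norm' ?_ h3
    filter_upwards [log_pos_ev] with x hx
    rw [Real.norm_eq_abs, abs_div, abs_of_pos (show 0 < Real.log (x : ℝ) ^ m by positivity)]
    exact div_le_div_of_nonneg_right (NW_zero hW hG x ω) (by positivity)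
  have h4 := h2.add h1
  rw [zero_add, mul_comm] at h4
  refine h4.congr fun x => ?_
  ring

/-- the sums of the densities -/
lemma S_lim {W : ℕ} {c : ℝ} (hF : ∀ i, StrictMono (F i)) (hc : c = (W : ℝ) / Nat.totient W) (hc0 : 0 ≤ c)
    (hD : ∀ i, 0 < D i)
    (hlog : ∀ i, Tendsto (fun z : ℕ => Real.log (F i z : ℕ) / Real.log z) atTop (𝓝 (D i))) {m : ℕ}
    (hL : Tendsto (fun x : ℕ => (L x : ℝ) / Real.log x ^ m) atTop (𝓝 lam)) (i : ℕ)
    (hG : ∀ n, G n → Nat.Coprime (F i n) W) {e : ℕ} {b : ℝ}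
    {ω : Ω} (h1 : Tendsto (fun x : ℕ => (NW A F G L i x ω : ℝ) / Real.log x ^ (e + 1)) atTop (𝓝 b)) :
    Tendsto (fun x : ℕ => (∑ t ∈ Finset.range (F i (x + L x)), (TW A F G L i x t).indicator (fun _ => (1 : ℝ)) ω * rhoW W (t + 1)) /
      Real.log x ^ e) atTop (𝓝 (b * c / D i)) := by
  have hM : ∀ x : ℕ, 2 ≤ x → 0 < Real.log (F i x : ℕ) := by
    intro x hx
    have h3 := F_ge hF i x
    have h4 : (2 : ℝ) ≤ (F i x : ℝ) := by exact_mod_cast (by omega : 2 ≤ F i x)
    exact Real.log_pos (by linarith)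
  have g1 : Tendsto (fun x : ℕ => ((NW A F G L i x ω : ℝ) / Real.log x ^ (e + 1)) * c / (Real.log (F i (x + L x) : ℕ) / Real.log x))
      atTop (𝓝 (b * c / D i)) := (h1.mul_const c).div (logF_shift hlog hL i) (hD i).ne'
  have g2 : Tendsto (fun x : ℕ => ((NW A F G L i x ω : ℝ) / Real.log x ^ (e + 1)) * c / (Real.log (F i x : ℕ) / Real.log x))
      atTop (𝓝 (b * c / D i)) := (h1.mul_const c).div (hlog i) (hD i).ne'
  have aux : ∀ {N l M : ℝ}, l ≠ 0 → M ≠ 0 → N / l ^ (e + 1) * c / (M / l) = N * c / M / l ^ e := by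
    intro N l M hl hM
    field_simp
    ring
  refine tendsto_of_tendsto_of_tendsto_of_le_of_le' g1 g2 ?_ ?_
  · filter_upwards [log_pos_ev, eventually_ge_atTop 2, tendsto_logN.eventually_ge_atTop c] with x hx hx2 hxc
    have h3 := (sum_rho (A := A) (F := F) (G := G) (L := L) hF hc hc0 i x hx2 hxc hG ω).1
    rw [aux hx.ne' (hM (x + L x) (by omega)).ne']
    exact div_le_div_of_nonneg_right h3 (by positivity)
  · filter_upwards [log_pos_ev, eventually_ge_atTop 2, tendsto_logN.eventually_ge_atTop c] with x hx hx2 hxc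
    have h3 := (sum_rho (A := A) (F := F) (G := G) (L := L) hF hc hc0 i x hx2 hxc hG ω).2
    rw [aux hx.ne' (hM x hx2).ne']
    exact div_le_div_of_nonneg_right h3 (by positivity)

/-- the constants -/
noncomputable def kap (g c : ℝ) (D : ℕ → ℝ) : ℕ → ℝ
  | 0 => g
  | i + 1 => kap g c D i * c / D i

lemma kap_nonneg {g c : ℝ} (hg : 0 ≤ g) (hc : 0 ≤ c) (hD : ∀ i, 0 < D i) (i : ℕ) : 0 ≤ kap g c D i := by
  induction i with
  | zero => exact hg
  | succ i ih =>
    unfold kap
    have := hD i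
    positivity

lemma kap_pos {g c : ℝ} (hg : 0 < g) (hc : 0 < c) (hD : ∀ i, 0 < D i) (i : ℕ) : 0 < kap g c D i := by
  induction i with
  | zero => exact hg
  | succ i ih =>
    unfold kap
    have := hD i
    positivity

lemma gd_nonneg (G : ℕ → Prop) [DecidablePred G] (W : ℕ) : 0 ≤ gd G W := by
  unfold gd
  positivity

/-- **the number of partial patterns in long windows** -/
theorem law {W : ℕ} (hW : 0 < W) {c : ℝ} (hc : c = (W : ℝ) / Nat.totient W) [DecidablePred G] (hGp : Function.Periodic G W)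
    (hA : ∀ n, MeasurableSet[ℱ n] (A n))
    (hd : ∀ᵐ ω ∂μ, ∀ ε : ℝ, 0 < ε → ∀ᶠ n : ℕ in atTop, |dens μ ℱ A n ω - rhoW W (n + 1)| ≤ ε * rhoW W (n + 1))
    (hF : ∀ i, StrictMono (F i)) (hF1 : ∀ i n, F i n < F (i + 1) n) (hD : ∀ i, 0 < D i)
    (hlog : ∀ i, Tendsto (fun z : ℕ => Real.log (F i z : ℕ) / Real.log z) atTop (𝓝 (D i))) (k : ℕ)
    (hG : ∀ i, i + 1 < k → ∀ n, G n → Nat.Coprime (F i n) W) (hlam : 0 ≤ lam)
    (hL : Tendsto (fun x : ℕ => (L x : ℝ) / Real.log x ^ (k + 1)) atTop (𝓝 lam)) :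
    ∀ᵐ ω ∂μ, ∀ i, i + 1 ≤ k → Tendsto (fun x : ℕ => (NW A F G L i x ω : ℝ) / Real.log x ^ (k + 1 - i)) atTop
      (𝓝 (lam * kap (gd G W) c D i)) := by
  have hc0 : 0 ≤ c := by
    rw [hc]
    positivity
  have h0 : ∀ᵐ ω ∂μ, ∀ i, ∀ ε : ℝ, 0 < ε → ∃ C : ℝ, ∀ᶠ n : ℕ in atTop,
      |∑ t ∈ Finset.range (F i (n + L n)), (TW A F G L i n t).indicator (fun _ => (1 : ℝ)) ω * J1 A (t + 1) ω -
        ∑ t ∈ Finset.range (F i (n + L n)), (TW A F G L i n t).indicator (fun _ => (1 : ℝ)) ω * rhoW W (t + 1)| ≤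
        ε * (∑ t ∈ Finset.range (F i (n + L n)), (TW A F G L i n t).indicator (fun _ => (1 : ℝ)) ω * rhoW W (t + 1)) +
          C * Real.log n := by
    rw [ae_all_iff]
    intro i
    exact conc_rho (μ := μ) hA (ρ := fun t => rhoW W (t + 1)) (fun t => rhoW_nonneg W _) ⟨1, fun t => rhoW_le W _⟩ hd
      (fun n t => (TW A F G L i n t).indicator (fun _ => (1 : ℝ))) (fun n => F i (n + L n))
      (fun n t => (@stronglyMeasurable_const _ _ (ℱ t) _ _).indicator (TW_meas hA hF1 i n t))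
      (fun n t ω => by
        by_cases h : ω ∈ TW A F G L i n t
        · rw [indicator_of_mem h]; norm_num
        · rw [indicator_of_notMem h]; norm_num)
  filter_upwards [h0] with ω hω
  intro i
  induction i with
  | zero =>
    intro _
    exact NW_zero_lim hW hGp (by omega) hL ω
  | succ i ih =>
    intro hi
    have ih := ih (by omega)
    obtain ⟨e, he⟩ : ∃ e, k + 1 - (i + 1) = e + 2 := ⟨k + 1 - (i + 1) - 2, by omega⟩
    rw [show k + 1 - i = (e + 2) + 1 by omega] at ih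
    rw [he]
    set b : ℝ := lam * kap (gd G W) c D i with hb
    have hb0 : 0 ≤ b := mul_nonneg hlam (kap_nonneg (gd_nonneg G W) hc0 hD i)
    set S : ℕ → ℝ := fun x => ∑ t ∈ Finset.range (F i (x + L x)), (TW A F G L i x t).indicator (fun _ => (1 : ℝ)) ω * rhoW W (t + 1) with hS
    have hS1 : Tendsto (fun x : ℕ => S x / Real.log x ^ (e + 2)) atTop (𝓝 (b * c / D i)) :=
      S_lim hF hc hc0 hD hlog hL i (hG i (by omega)) ih
    have hc' : 0 ≤ b * c / D i := div_nonneg (mul_nonneg hb0 hc0) (hD i).le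
    have key : Tendsto (fun x : ℕ => ((NW A F G L (i + 1) x ω : ℝ) - S x) / Real.log x ^ (e + 2)) atTop (𝓝 0) := by
      rw [Metric.tendsto_nhds]
      intro η hη
      set ε : ℝ := η / (2 * (b * c / D i + 1)) with hε
      have hε0 : 0 < ε := by positivity
      obtain ⟨C, hC⟩ := hω i ε hε0
      have h5 : Tendsto (fun x : ℕ => |C| / Real.log x ^ (e + 1)) atTop (𝓝 0) :=
        tendsto_const_nhds.div_atTop ((tendsto_pow_atTop (by omega)).comp tendsto_logN)
      filter_upwards [hC, log_pos_ev, hS1.eventually_lt_const (show b * c / D i < b * c / D i + 1 by linarith),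
        h5.eventually_lt_const (show (0 : ℝ) < η / 2 by positivity)] with x h6 hx h7 h8
      rw [sum_J hF] at h6
      have h6 : |(NW A F G L (i + 1) x ω : ℝ) - S x| ≤ ε * S x + C * Real.log x := h6
      rw [Real.dist_eq, sub_zero, abs_div, abs_of_pos (show 0 < Real.log (x : ℝ) ^ (e + 2) by positivity), div_lt_iff₀ (by positivity)]
      have h9 : |C| < η / 2 * Real.log x ^ (e + 1) := by rwa [div_lt_iff₀ (by positivity)] at h8
      have h10 : S x < (b * c / D i + 1) * Real.log x ^ (e + 2) := by rwa [div_lt_iff₀ (by positivity)] at h7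
      have h11 : Real.log (x : ℝ) ^ (e + 2) = Real.log x ^ (e + 1) * Real.log x := pow_succ _ _
      have h12 : C * Real.log x ≤ η / 2 * Real.log x ^ (e + 2) := by
        rw [h11, ← mul_assoc]
        exact mul_le_mul_of_nonneg_right ((le_abs_self C).trans h9.le) hx.le
      have h13 : ε * S x < η / 2 * Real.log x ^ (e + 2) := by
        calc ε * S x < ε * ((b * c / D i + 1) * Real.log x ^ (e + 2)) := mul_lt_mul_of_pos_left h10 hε0
          _ = η / 2 * Real.log x ^ (e + 2) := by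
            rw [hε]
            field_simp
      linarith
    have h3 := key.add hS1
    rw [zero_add] at h3
    have e3 : b * c / D i = lam * kap (gd G W) c D (i + 1) := by
      rw [hb]
      show _ = lam * (kap (gd G W) c D i * c / D i)
      ring
    rw [e3] at h3
    refine h3.congr fun x => ?_
    ring

end Pool.Agent.N315.PS
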