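import Mathlib
import Pool.Agent.N315.PL.Most
import Pool.Agent.N315.PL.Lln
import Pool.Agent.N315.PS.Law
import Pool.Agent.N315.CC.Up

/-!
# The number of candidates in most short windows
-/

set_option autoImplicit false
set_option linter.unusedSectionVars false

open MeasureTheory Filter Set
open scoped ENNReal Topology

namespace Pool.Agent.N315.PS

open Pool.Agent.R528.RM Pool.Agent.N740.HK Pool.Agent.N315.CC Pool.Agent.N315.PL

variable {Ω : Type} {m0 : MeasurableSpace Ω} {μ : Measure Ω} [IsProbabilityMeasure μ]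
  {ℱ : Filtration ℕ m0} {A : ℕ → Set Ω} {F : ℕ → ℕ → ℕ} {G : ℕ → Prop} {L : ℕ → ℕ} {lam : ℝ} {D : ℕ → ℝ}

/-- **concentration for most members**, for a profile of the density -/
theorem conc_most_rho (hA : ∀ n, MeasurableSet[ℱ n] (A n)) {ρ : ℕ → ℝ} (hρ0 : ∀ n, 0 ≤ ρ n) (hρ1 : ∀ n, ρ n ≤ 1)
    (hd : ∀ᵐ ω ∂μ, ∀ ε : ℝ, 0 < ε → ∀ᶠ n : ℕ in atTop, |dens μ ℱ A n ω - ρ n| ≤ ε * ρ n)
    (w : ℕ → ℕ → Ω → ℝ) (E : ℕ → ℕ)
    (hw : ∀ n t, StronglyMeasurable[ℱ t] (w n t)) (h01 : ∀ n t ω, 0 ≤ w n t ω ∧ w n t ω ≤ 1) :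
    ∀ᵐ ω ∂μ, ∀ ε : ℝ, 0 < ε → UB {n |
      ¬ |∑ t ∈ Finset.range (E n), w n t ω * J1 A (t + 1) ω - ∑ t ∈ Finset.range (E n), w n t ω * ρ t| ≤
        ε * (∑ t ∈ Finset.range (E n), w n t ω * ρ t) + ε * Real.log n} 0 := by
  set e : ℕ → ℝ := fun k => 1 / ((k : ℝ) + 1) with he
  have he0 : ∀ k, 0 < e k := fun k => by simp only [he]; positivity
  have he1 : ∀ k, e k ≤ 1 := fun k => by
    simp only [he]
    rw [div_le_one (by positivity)]
    have : (0 : ℝ) ≤ k := Nat.cast_nonneg k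
    linarith
  have hall : ∀ᵐ ω ∂μ, ∀ k, UB {n | ¬ |∑ t ∈ Finset.range (E n), w n t ω * J1 A (t + 1) ω -
        ∑ t ∈ Finset.range (E n), w n t ω * dens μ ℱ A t ω| ≤
        e k * (∑ t ∈ Finset.range (E n), w n t ω * dens μ ℱ A t ω) + e k * Real.log n} 0 :=
    ae_all_iff.2 fun k => conc_V hA (he0 k) (he1 k) w E hw h01
  filter_upwards [hall, hd, DD'_ae (μ := μ) hA] with ω h1 h2 h3
  intro ε hε
  obtain ⟨k, hk⟩ : ∃ k : ℕ, e k ≤ ε / 4 := by
    obtain ⟨k, hk⟩ := exists_nat_gt (1 / (ε / 4))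
    refine ⟨k, ?_⟩
    simp only [he]
    rw [div_le_iff₀ (by positivity)]
    rw [div_lt_iff₀ (by positivity)] at hk
    nlinarith
  have hD1 : ∀ t, 0 ≤ dens μ ℱ A t ω ∧ dens μ ℱ A t ω ≤ 1 := fun t => by
    rw [← h3 t]
    exact DD'_bd t ω
  have hk2 := he1 k
  obtain ⟨t₀, ht₀⟩ := eventually_atTop.1 (h2 (e k) (he0 k))
  have hcmp : ∀ n, |∑ t ∈ Finset.range (E n), w n t ω * dens μ ℱ A t ω - ∑ t ∈ Finset.range (E n), w n t ω * ρ t| ≤
      e k * (∑ t ∈ Finset.range (E n), w n t ω * ρ t) + t₀ * (1 + 1) := by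
    intro n
    rw [← Finset.sum_sub_distrib]
    refine (Finset.abs_sum_le_sum_abs _ _).trans ?_
    have h4 : ∀ t ∈ Finset.range (E n), |w n t ω * dens μ ℱ A t ω - w n t ω * ρ t| ≤
        e k * (w n t ω * ρ t) + (if t < t₀ then (1 + 1) else 0) := by
      intro t _
      have h5 := h01 n t ω
      rw [← mul_sub, abs_mul, abs_of_nonneg h5.1]
      by_cases ht : t < t₀
      · rw [if_pos ht]
        have h6 : |dens μ ℱ A t ω - ρ t| ≤ 1 + 1 := by
          rw [abs_le]
          have := hD1 t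
          have := hρ0 t
          have := hρ1 t
          constructor <;> linarith
        have h7 : w n t ω * |dens μ ℱ A t ω - ρ t| ≤ 1 * (1 + 1) :=
          mul_le_mul h5.2 h6 (abs_nonneg _) zero_le_one
        have h8 : 0 ≤ e k * (w n t ω * ρ t) := mul_nonneg (he0 k).le (mul_nonneg h5.1 (hρ0 t))
        linarith
      · rw [if_neg ht, add_zero]
        have h6 := ht₀ t (by omega)
        calc w n t ω * |dens μ ℱ A t ω - ρ t| ≤ w n t ω * (e k * ρ t) := mul_le_mul_of_nonneg_left h6 h5.1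
          _ = _ := by ring
    refine (Finset.sum_le_sum h4).trans ?_
    rw [Finset.sum_add_distrib, ← Finset.mul_sum]
    apply add_le_add le_rfl
    rw [← Finset.sum_filter, Finset.sum_const, nsmul_eq_mul]
    apply mul_le_mul_of_nonneg_right _ (by norm_num)
    have : ((Finset.range (E n)).filter (fun t => t < t₀)).card ≤ (Finset.range t₀).card :=
      Finset.card_le_card fun t ht => Finset.mem_range.2 (Finset.mem_filter.1 ht).2
    rw [Finset.card_range] at this
    exact_mod_cast this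
  have h5 : ∀ᶠ n : ℕ in atTop, (t₀ : ℝ) * (1 + 1) ≤ e k * Real.log n :=
    (tendsto_logN.const_mul_atTop (he0 k)).eventually_ge_atTop _
  refine (h1 k).of_dz (UB_of_eventually (E := {n : ℕ | ¬ (t₀ : ℝ) * (1 + 1) ≤ e k * Real.log n}) ?_) ?_
  · filter_upwards [h5] with n hn hn'
    exact hn' hn
  · intro n hn
    by_contra hcon
    rw [mem_union, not_or] at hcon
    apply hn
    have h4 := not_not.1 hcon.1
    have h5 : (t₀ : ℝ) * (1 + 1) ≤ e k * Real.log n := not_not.1 hcon.2
    have h6 := hcmp n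
    set V := ∑ t ∈ Finset.range (E n), w n t ω * dens μ ℱ A t ω with hV
    set U := ∑ t ∈ Finset.range (E n), w n t ω * ρ t with hU
    set M := ∑ t ∈ Finset.range (E n), w n t ω * J1 A (t + 1) ω with hM
    have hU0 : 0 ≤ U := Finset.sum_nonneg fun t _ => mul_nonneg (h01 n t ω).1 (hρ0 t)
    have hT : 0 ≤ (t₀ : ℝ) * (1 + 1) := by positivity
    have h7 := abs_le.1 h6
    have h8 : V ≤ 2 * U + t₀ * (1 + 1) := by
      have : e k * U ≤ 1 * U := mul_le_mul_of_nonneg_right hk2 hU0
      linarith [h7.2]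
    have h9 : e k * V ≤ e k * (2 * U + t₀ * (1 + 1)) := mul_le_mul_of_nonneg_left h8 (he0 k).le
    have h10 : e k * (t₀ * (1 + 1)) ≤ 1 * (t₀ * (1 + 1)) := mul_le_mul_of_nonneg_right hk2 hT
    have h11 : |M - U| ≤ |M - V| + |V - U| := abs_sub_le _ _ _
    have h12 : e k * U ≤ ε / 4 * U := mul_le_mul_of_nonneg_right hk hU0
    have h13 : e k * Real.log n ≤ ε / 4 * Real.log n := mul_le_mul_of_nonneg_right hk (Real.log_natCast_nonneg n)
    nlinarith

/-- the number of the candidates, in most windows -/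
theorem most_NW {W : ℕ} (hW : 0 < W) {c : ℝ} (hc : c = (W : ℝ) / Nat.totient W) [DecidablePred G] (hGp : Function.Periodic G W)
    (hA : ∀ n, MeasurableSet[ℱ n] (A n))
    (hd : ∀ᵐ ω ∂μ, ∀ ε : ℝ, 0 < ε → ∀ᶠ n : ℕ in atTop, |dens μ ℱ A n ω - rhoW W (n + 1)| ≤ ε * rhoW W (n + 1))
    (hF : ∀ i, StrictMono (F i)) (hF1 : ∀ i n, F i n < F (i + 1) n) (hD : ∀ i, 0 < D i)
    (hlog : ∀ i, Tendsto (fun z : ℕ => Real.log (F i z : ℕ) / Real.log z) atTop (𝓝 (D i))) (i : ℕ)
    (hG : ∀ j, j < i → ∀ n, G n → Nat.Coprime (F j n) W) (hlam : 0 ≤ lam)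
    (hL : Tendsto (fun x : ℕ => (L x : ℝ) / Real.log x ^ (i + 1)) atTop (𝓝 lam)) :
    ∀ᵐ ω ∂μ, ∀ ε : ℝ, 0 < ε →
      UB {x | ¬ |(NW A F G L i x ω : ℝ) - lam * kap (gd G W) c D i * Real.log x| ≤ ε * Real.log x} 0 := by
  have hcn : 0 ≤ c := by
    rw [hc]
    positivity
  rcases i with _ | i
  · refine Eventually.of_forall fun ω ε hε => UB_of_eventually ?_
    have h1 := NW_zero_lim (A := A) (F := F) hW hGp (m := 0 + 1) (by omega) hL ω
    filter_upwards [h1.eventually (Metric.ball_mem_nhds _ hε), log_pos_ev] with x hx h0 hcon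
    apply hcon
    have hx : dist ((NW A F G L 0 x ω : ℝ) / Real.log x ^ (0 + 1)) (lam * gd G W) < ε := hx
    rw [Real.dist_eq, zero_add, pow_one] at hx
    have e : (NW A F G L 0 x ω : ℝ) - lam * kap (gd G W) c D 0 * Real.log x =
        ((NW A F G L 0 x ω : ℝ) / Real.log x - lam * gd G W) * Real.log x := by
      show _ - lam * gd G W * Real.log x = _
      field_simp
    rw [e, abs_mul, abs_of_pos h0]
    exact mul_le_mul_of_nonneg_right hx.le h0.le
  · have h0 := conc_most_rho (μ := μ) hA (ρ := fun t => rhoW W (t + 1)) (fun t => rhoW_nonneg W _) (fun t => rhoW_le W _) hd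
      (fun n t => (TW A F G L i n t).indicator (fun _ => (1 : ℝ))) (fun n => F i (n + L n))
      (fun n t => (@stronglyMeasurable_const _ _ (ℱ t) _ _).indicator (TW_meas hA hF1 i n t))
      (fun n t ω => by
        by_cases h : ω ∈ TW A F G L i n t
        · rw [indicator_of_mem h]; norm_num
        · rw [indicator_of_notMem h]; norm_num)
    filter_upwards [h0, law (μ := μ) hW hc hGp hA hd hF hF1 hD hlog (i + 1) (fun j hj => hG j (by omega)) hlam hL] with ω h1 h2 ε hε
    have h3 := h2 i le_rfl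
    rw [show i + 1 + 1 - i = 1 + 1 by omega] at h3
    have h4 := S_lim hF hc hcn hD hlog hL i (hG i (by omega)) h3
    set S : ℕ → ℝ := fun x => ∑ t ∈ Finset.range (F i (x + L x)), (TW A F G L i x t).indicator (fun _ => (1 : ℝ)) ω * rhoW W (t + 1) with hS
    set b : ℝ := lam * kap (gd G W) c D (i + 1) with hb
    have hb0 : 0 ≤ b := mul_nonneg hlam (kap_nonneg (gd_nonneg G W) hcn hD _)
    have eb : lam * kap (gd G W) c D i * c / D i = b := by
      rw [hb]
      show _ = lam * (kap (gd G W) c D i * c / D i)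
      ring
    rw [eb] at h4
    have h4 : Tendsto (fun x : ℕ => S x / Real.log x ^ 1) atTop (𝓝 b) := h4
    set η : ℝ := ε / (2 * (b + 3)) with hη
    have hη0 : 0 < η := by positivity
    set η' : ℝ := min η 1 with hη'
    have hη'0 : 0 < η' := lt_min hη0 one_pos
    have h5 := h4.eventually (Metric.ball_mem_nhds b hη'0)
    refine (h1 η' hη'0).of_dz (UB_of_eventually (E := {x : ℕ | ¬ |S x - b * Real.log x| ≤ η' * Real.log x}) ?_) ?_
    · filter_upwards [h5, log_pos_ev] with x hx hx0 hcon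
      apply hcon
      have hx : dist (S x / Real.log x ^ 1) b < η' := hx
      rw [Real.dist_eq, pow_one] at hx
      have e : S x - b * Real.log x = (S x / Real.log x - b) * Real.log x := by
        field_simp
      rw [e, abs_mul, abs_of_pos hx0]
      exact mul_le_mul_of_nonneg_right hx.le hx0.le
    · intro x hx
      by_contra hcon
      rw [mem_union, not_or] at hcon
      apply hx
      have h6 := not_not.1 hcon.1
      have h7 : |S x - b * Real.log x| ≤ η' * Real.log x := not_not.1 hcon.2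
      have h8 := sum_J (A := A) (F := F) (G := G) (L := L) hF i x ω
      rw [h8] at h6
      have h6 : |(NW A F G L (i + 1) x ω : ℝ) - S x| ≤ η' * S x + η' * Real.log x := h6
      have hl : 0 ≤ Real.log x := Real.log_natCast_nonneg x
      have h9 : S x ≤ (b + 1) * Real.log x := by
        have h10 := (abs_le.1 h7).2
        have h11 : η' * Real.log x ≤ 1 * Real.log x := mul_le_mul_of_nonneg_right (min_le_right _ _) hl
        linarith
      have h10 : η' * S x ≤ η' * ((b + 1) * Real.log x) := mul_le_mul_of_nonneg_left h9 hη'0.le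
      have h11 : |(NW A F G L (i + 1) x ω : ℝ) - b * Real.log x| ≤
          |(NW A F G L (i + 1) x ω : ℝ) - S x| + |S x - b * Real.log x| := abs_sub_le _ _ _
      have h12 : η' * (b + 3) ≤ ε := by
        have : η' * (b + 3) ≤ η * (b + 3) := mul_le_mul_of_nonneg_right (min_le_left _ _) (by linarith)
        refine this.trans ?_
        rw [hη, div_mul_eq_mul_div, div_le_iff₀ (by positivity)]
        nlinarith
      have h13 : η' * (b + 3) * Real.log x ≤ ε * Real.log x := mul_le_mul_of_nonneg_right h12 hl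
      refine h11.trans ((add_le_add h6 h7).trans ?_)
      linarith

end Pool.Agent.N315.PS
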