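import Mathlib
import Pool.Agent.N315.PS.Most
import Pool.Agent.N315.PL.PoisB

/-!
# The numbers of patterns in short windows
-/

set_option autoImplicit false
set_option linter.unusedSectionVars false

open MeasureTheory Filter Set
open scoped ENNReal Topology

namespace Pool.Agent.N315.PS

open Pool.Agent.R528.RM Pool.Agent.N740.HK Pool.Agent.N315.CC Pool.Agent.N315.PL

variable {Ω : Type} {m0 : MeasurableSpace Ω} {μ : Measure Ω} [IsProbabilityMeasure μ]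
  {ℱ : Filtration ℕ m0} {A : ℕ → Set Ω} {F : ℕ → ℕ → ℕ} {G : ℕ → Prop} {L : ℕ → ℕ} {Lam : ℝ} {D : ℕ → ℝ}

variable (μ ℱ A) in
/-- violations -/
def VQ (W : ℕ) (δ : ℝ) (n : ℕ) : Set Ω :=
  {ω | ¬ (Nat.Coprime (n + 1) W ∧ |dens μ ℱ A n ω - rhoW W (n + 1)| ≤ δ * rhoW W (n + 1))}

lemma VQ_meas (W : ℕ) (δ : ℝ) (n : ℕ) : MeasurableSet[ℱ n] (VQ μ ℱ A W δ n) := by
  have h1 : MeasurableSet[ℱ n] {ω | |dens μ ℱ A n ω - rhoW W (n + 1)| ≤ δ * rhoW W (n + 1)} := by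
    have h2 : StronglyMeasurable[ℱ n] (fun ω => |dens μ ℱ A n ω - rhoW W (n + 1)|) := by
      have h3 : StronglyMeasurable[ℱ n] (fun ω => dens μ ℱ A n ω - rhoW W (n + 1)) :=
        (dens_meas n).sub stronglyMeasurable_const
      have h4 := h3.norm
      simpa only [Real.norm_eq_abs] using h4
    exact h2.measurable (measurableSet_Iic (a := δ * rhoW W (n + 1)))
  by_cases h : Nat.Coprime (n + 1) W
  · have e : VQ μ ℱ A W δ n = {ω | |dens μ ℱ A n ω - rhoW W (n + 1)| ≤ δ * rhoW W (n + 1)}ᶜ := by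
      ext ω
      simp only [VQ, mem_ofPred_eq, mem_compl_iff]
      tauto
    rw [e]
    exact h1.compl
  · have e : VQ μ ℱ A W δ n = univ := by
      ext ω
      simp only [VQ, mem_ofPred_eq, mem_univ, iff_true]
      exact fun h' => h h'.1
    rw [e]
    exact MeasurableSet.univ

/-- the bounds for the densities in the windows -/
lemma win_facts {W : ℕ} {c : ℝ} (hc : c = (W : ℝ) / Nat.totient W) (hc0 : 0 ≤ c) (hF : ∀ i, StrictMono (F i))
    {δ : ℝ} (hδ0 : 0 ≤ δ) (hδ1 : δ ≤ 1) (i : ℕ) :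
    ∀ x : ℕ, 3 ≤ x → c ≤ Real.log x → ∀ n, F i x ≤ n → n < F i x + (F i (x + L x) - F i x) → ∀ ω, ω ∉ VQ μ ℱ A W δ n →
      (1 - δ) * c / Real.log (F i (x + L x) : ℕ) ≤ dens μ ℱ A n ω ∧ dens μ ℱ A n ω ≤ (1 + δ) * c / Real.log (F i x : ℕ) := by
  intro x hx hxc n hn1 hn2 ω hω
  simp only [VQ, mem_ofPred_eq, not_not] at hω
  obtain ⟨hcop, hω⟩ := hω
  have h1 : F i x ≤ F i (x + L x) := (hF i).monotone (by omega)
  have h2 := F_ge hF i x
  have h3 : (3 : ℝ) ≤ (F i x : ℕ) := by exact_mod_cast hx.trans h2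
  have h3' : (x : ℝ) ≤ (F i x : ℕ) := by exact_mod_cast h2
  have hx3 : (3 : ℝ) ≤ x := by exact_mod_cast hx
  have h4 : ((F i x : ℕ) : ℝ) ≤ ((n + 1 : ℕ) : ℝ) := by exact_mod_cast (by omega : F i x ≤ n + 1)
  have h5 : ((n + 1 : ℕ) : ℝ) ≤ (F i (x + L x) : ℕ) := by exact_mod_cast (by omega : n + 1 ≤ F i (x + L x))
  have h6 : 0 < Real.log (F i x : ℕ) := Real.log_pos (by linarith)
  have h6' : Real.log x ≤ Real.log (F i x : ℕ) := Real.log_le_log (by linarith) h3'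
  have h7 : Real.log (F i x : ℕ) ≤ Real.log ((n + 1 : ℕ) : ℝ) := Real.log_le_log (by linarith) h4
  have h8 : Real.log ((n + 1 : ℕ) : ℝ) ≤ Real.log (F i (x + L x) : ℕ) := Real.log_le_log (by linarith) h5
  have e : rhoW W (n + 1) = c / Real.log ((n + 1 : ℕ) : ℝ) := by
    unfold rhoW
    rw [if_pos hcop, ← hc, min_eq_right]
    rw [div_le_one (by linarith)]
    linarith
  rw [e] at hω
  have h9 := abs_le.1 hω
  have h10 : c / Real.log (F i (x + L x) : ℕ) ≤ c / Real.log ((n + 1 : ℕ) : ℝ) := div_le_div_of_nonneg_left hc0 (by linarith) h8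
  have h11 : c / Real.log ((n + 1 : ℕ) : ℝ) ≤ c / Real.log (F i x : ℕ) := div_le_div_of_nonneg_left hc0 h6 h7
  have h12 := mul_le_mul_of_nonneg_left h10 (show 0 ≤ 1 - δ by linarith)
  have h13 := mul_le_mul_of_nonneg_left h11 (show 0 ≤ 1 + δ by linarith)
  rw [mul_div_assoc, mul_div_assoc]
  constructor <;> linarith

lemma P_lim {c b : ℝ} (hF : ∀ i, StrictMono (F i)) (hD : ∀ i, 0 < D i)
    (hlog : ∀ i, Tendsto (fun z : ℕ => Real.log (F i z : ℕ) / Real.log z) atTop (𝓝 (D i))) (i : ℕ) {m : ℕ}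
    (hL : Tendsto (fun x : ℕ => (L x : ℝ) / Real.log x ^ m) atTop (𝓝 Lam)) (δ : ℝ) :
    Tendsto (fun x : ℕ => (1 + δ) * b * Real.log x * ((1 + δ) * c / Real.log (F i x : ℕ))) atTop (𝓝 ((1 + δ) ^ 2 * (b * c / D i))) ∧
    Tendsto (fun x : ℕ => (1 - δ) * b * Real.log x * ((1 - δ) * c / Real.log (F i (x + L x) : ℕ))) atTop
      (𝓝 ((1 - δ) ^ 2 * (b * c / D i))) ∧
    Tendsto (fun x : ℕ => (1 - δ) * c / Real.log (F i (x + L x) : ℕ)) atTop (𝓝 0) := by
  refine ⟨?_, ?_, ?_⟩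
  · have h1 := (tendsto_const_nhds (x := (1 + δ) ^ 2 * (b * c))).div (hlog i) (hD i).ne'
    have e : (1 + δ) ^ 2 * (b * c) / D i = (1 + δ) ^ 2 * (b * c / D i) := by ring
    rw [e] at h1
    refine h1.congr' ?_
    filter_upwards [log_pos_ev, (F_tendsto hF i).eventually log_pos_ev] with x hx hx2
    simp only [Pi.div_apply]
    field_simp
  · have h1 := (tendsto_const_nhds (x := (1 - δ) ^ 2 * (b * c))).div (logF_shift hlog hL i) (hD i).ne'
    have e : (1 - δ) ^ 2 * (b * c) / D i = (1 - δ) ^ 2 * (b * c / D i) := by ring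
    rw [e] at h1
    refine h1.congr' ?_
    filter_upwards [log_pos_ev, ((F_tendsto hF i).comp (shift_tendsto (L := L))).eventually log_pos_ev] with x hx hx2
    have hx2 : 0 < Real.log (F i (x + L x) : ℕ) := hx2
    simp only [Pi.div_apply]
    field_simp
  · refine tendsto_const_nhds.div_atTop ?_
    exact tendsto_logN.comp ((F_tendsto hF i).comp (shift_tendsto (L := L)))

lemma L_sqrt {m : ℕ} (hL : Tendsto (fun x : ℕ => (L x : ℝ) / Real.log x ^ m) atTop (𝓝 Lam)) :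
    ∀ᶠ X : ℕ in atTop, ((L X + 1 : ℕ) : ℝ) ≤ Real.sqrt X := by
  have h1 : ∀ᶠ x : ℝ in atTop, (|Lam| + 1) * Real.log x ^ m + 1 ≤ Real.sqrt x := by
    have h2 := (isLittleO_log_rpow_rpow_atTop (s := 1 / 2) (m : ℝ) (by norm_num)).def
      (show (0 : ℝ) < 1 / (2 * (|Lam| + 1)) by positivity)
    filter_upwards [h2, eventually_gt_atTop 1, Real.tendsto_sqrt_atTop.eventually_ge_atTop 2] with x hx hx0 hx2
    have hl : 0 ≤ Real.log x := Real.log_nonneg hx0.le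
    rw [Real.norm_of_nonneg (by positivity), Real.norm_of_nonneg (by positivity), Real.rpow_natCast, ← Real.sqrt_eq_rpow] at hx
    have h4 : (|Lam| + 1) * Real.log x ^ m ≤ Real.sqrt x / 2 := by
      calc (|Lam| + 1) * Real.log x ^ m ≤ (|Lam| + 1) * (1 / (2 * (|Lam| + 1)) * Real.sqrt x) := mul_le_mul_of_nonneg_left hx (by positivity)
        _ = _ := by field_simp
    linarith
  filter_upwards [tendsto_natCast_atTop_atTop.eventually h1, log_pos_ev,
    hL.eventually_lt_const (show Lam < |Lam| + 1 by linarith [le_abs_self Lam])] with X hX h0 h2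
  rw [div_lt_iff₀ (by positivity)] at h2
  push_cast
  linarith

variable (μ ℱ A) in
/-- exactly `r` successes -/
def DE (F : ℕ → ℕ → ℕ) (G : ℕ → Prop) (L : ℕ → ℕ) (W : ℕ) (b δ : ℝ) (i r x : ℕ) : Set Ω :=
  EQ A (TW A F G L i x) (VQ μ ℱ A W δ) (F i x) (F i (x + L x) - F i x)
    ⌈(1 - δ) * b * Real.log x⌉₊ ⌊(1 + δ) * b * Real.log x⌋₊ r

variable (μ ℱ A) in
/-- at least `r` successes -/
def DT (F : ℕ → ℕ → ℕ) (G : ℕ → Prop) (L : ℕ → ℕ) (W : ℕ) (b δ : ℝ) (i r x : ℕ) : Set Ω :=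
  TL A (TW A F G L i x) (VQ μ ℱ A W δ) (F i x) (F i (x + L x) - F i x) ⌊(1 + δ) * b * Real.log x⌋₊ r

lemma meas_aux (hF : ∀ i, StrictMono (F i)) (hLm : Monotone L) (i X x : ℕ) (hx : x < X) :
    F i x + (F i (x + L x) - F i x) ≤ F i (x + (L X + 1)) := by
  have h1 : F i x ≤ F i (x + L x) := (hF i).monotone (by omega)
  have h2 : L x ≤ L X := hLm hx.le
  have h3 : F i (x + L x) ≤ F i (x + (L X + 1)) := (hF i).monotone (by omega)
  omega

section

variable {W : ℕ} {c b : ℝ}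

theorem UB_DE (hc : c = (W : ℝ) / Nat.totient W) (hc0 : 0 ≤ c) (hb0 : 0 ≤ b) (hA : ∀ n, MeasurableSet[ℱ n] (A n))
    (hF : ∀ i, StrictMono (F i)) (hF1 : ∀ i n, F i n < F (i + 1) n) (hD : ∀ i, 0 < D i)
    (hlog : ∀ i, Tendsto (fun z : ℕ => Real.log (F i z : ℕ) / Real.log z) atTop (𝓝 (D i))) (i : ℕ)
    (hLm : Monotone L) (hL : Tendsto (fun x : ℕ => (L x : ℝ) / Real.log x ^ (i + 1)) atTop (𝓝 Lam))
    {δ : ℝ} (hδ0 : 0 < δ) (hδ1 : δ ≤ 1 / 2) (r : ℕ) :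
    ∀ᵐ ω ∂μ, UB {x | ω ∈ DE μ ℱ A F G L W b δ i r x}
      (((1 + δ) ^ 2 * (b * c / D i)) ^ r / (r.factorial : ℝ) * Real.exp (-((1 - δ) ^ 2 * (b * c / D i))) + δ) := by
  obtain ⟨l1, l2, l3⟩ := P_lim (c := c) (b := b) hF hD hlog i hL δ
  have hlim := ((l1.pow r).div_const (r.factorial : ℝ)).mul
    ((Real.continuous_exp.tendsto _).comp (l2.neg.add (l3.const_mul (r : ℝ))))
  rw [mul_zero, add_zero] at hlim
  have hDi := hD i
  refine lln (μ := μ) (ℱ := ℱ) (t := fun x => F i x) (R := fun X => L X + 1) (hF i).monotone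
    (fun X => Nat.succ_pos _) (L_sqrt hL) ?_ (by positivity) ?_
  · intro X x hx
    exact ℱ.mono (meas_aux hF hLm i X x hx) _ (EQ_meas hA (fun t => TW_meas hA hF1 i x t) (fun n => VQ_meas W δ n) _ _ _ _ _)
  · filter_upwards [hlim.eventually_lt_const (lt_add_of_pos_right _ hδ0), eventually_ge_atTop 3,
      tendsto_logN.eventually_ge_atTop (2 * c + 1)] with x hx hx3 hxc B hB
    have hx0 : x ≤ F i x := F_ge hF i x
    have hx0' : x ≤ F i (x + L x) := by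
      have := F_ge hF i (x + L x)
      omega
    have hx3' : (3 : ℝ) ≤ x := by exact_mod_cast hx3
    have hM1 : 2 * c + 1 ≤ Real.log (F i x : ℕ) := hxc.trans (Real.log_le_log (by linarith) (by exact_mod_cast hx0))
    have hM2 : 2 * c + 1 ≤ Real.log (F i (x + L x) : ℕ) := hxc.trans (Real.log_le_log (by linarith) (by exact_mod_cast hx0'))
    have hl0 : 0 ≤ (1 - δ) * c / Real.log (F i (x + L x) : ℕ) := div_nonneg (mul_nonneg (by linarith) hc0) (by linarith)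
    have hl1 : (1 - δ) * c / Real.log (F i (x + L x) : ℕ) ≤ 1 := by
      rw [div_le_one (by linarith)]
      nlinarith
    have hu0 : 0 ≤ (1 + δ) * c / Real.log (F i x : ℕ) := div_nonneg (mul_nonneg (by linarith) hc0) (by linarith)
    have h1 := trial_eq (μ := μ) (ℱ := ℱ) hA (fun t => TW_meas (G := G) (L := L) hA hF1 i x t) (fun n => VQ_meas (A := A) W δ n) hl0 hl1 hu0
      (F i (x + L x) - F i x) (F i x)
      (win_facts (μ := μ) (ℱ := ℱ) (A := A) (L := L) hc hc0 hF hδ0.le (by linarith) i x hx3 (by linarith))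
      ⌈(1 - δ) * b * Real.log x⌉₊ ⌊(1 + δ) * b * Real.log x⌋₊ r B hB
    refine h1.trans (mul_le_mul_of_nonneg_right ?_ measureReal_nonneg)
    have hlx : 0 ≤ Real.log (x : ℝ) := by linarith
    have hf : (⌊(1 + δ) * b * Real.log x⌋₊ : ℝ) ≤ (1 + δ) * b * Real.log x := Nat.floor_le (by positivity)
    have hcl : (1 - δ) * b * Real.log x ≤ (⌈(1 - δ) * b * Real.log x⌉₊ : ℝ) := Nat.le_ceil _
    refine (be_le hl0 hl1 hu0 (mul_le_mul_of_nonneg_right hf hu0) (mul_le_mul_of_nonneg_right hcl hl0)).trans ?_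
    exact hx.le

theorem UB_DT (hc : c = (W : ℝ) / Nat.totient W) (hc0 : 0 ≤ c) (hb0 : 0 ≤ b) (hA : ∀ n, MeasurableSet[ℱ n] (A n))
    (hF : ∀ i, StrictMono (F i)) (hF1 : ∀ i n, F i n < F (i + 1) n) (hD : ∀ i, 0 < D i)
    (hlog : ∀ i, Tendsto (fun z : ℕ => Real.log (F i z : ℕ) / Real.log z) atTop (𝓝 (D i))) (i : ℕ)
    (hLm : Monotone L) (hL : Tendsto (fun x : ℕ => (L x : ℝ) / Real.log x ^ (i + 1)) atTop (𝓝 Lam))
    {δ : ℝ} (hδ0 : 0 < δ) (hδ1 : δ ≤ 1 / 2) (r : ℕ) :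
    ∀ᵐ ω ∂μ, UB {x | ω ∈ DT μ ℱ A F G L W b δ i r x}
      (((1 + δ) ^ 2 * (b * c / D i)) ^ r / (r.factorial : ℝ) + δ) := by
  obtain ⟨l1, l2, l3⟩ := P_lim (c := c) (b := b) hF hD hlog i hL δ
  have hlim := (l1.pow r).div_const (r.factorial : ℝ)
  have hDi := hD i
  refine lln (μ := μ) (ℱ := ℱ) (t := fun x => F i x) (R := fun X => L X + 1) (hF i).monotone
    (fun X => Nat.succ_pos _) (L_sqrt hL) ?_ (by positivity) ?_
  · intro X x hx
    exact ℱ.mono (meas_aux hF hLm i X x hx) _ (TL_meas hA (fun t => TW_meas hA hF1 i x t) (fun n => VQ_meas W δ n) _ _ _ _)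
  · filter_upwards [hlim.eventually_lt_const (lt_add_of_pos_right _ hδ0), eventually_ge_atTop 3,
      tendsto_logN.eventually_ge_atTop (2 * c + 1)] with x hx hx3 hxc B hB
    have hx0 : x ≤ F i x := F_ge hF i x
    have hx3' : (3 : ℝ) ≤ x := by exact_mod_cast hx3
    have hM1 : 2 * c + 1 ≤ Real.log (F i x : ℕ) := hxc.trans (Real.log_le_log (by linarith) (by exact_mod_cast hx0))
    have hu0 : 0 ≤ (1 + δ) * c / Real.log (F i x : ℕ) := div_nonneg (mul_nonneg (by linarith) hc0) (by linarith)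
    have h1 := trial_tl (μ := μ) (ℱ := ℱ) hA (fun t => TW_meas (G := G) (L := L) hA hF1 i x t) (fun n => VQ_meas (A := A) W δ n) hu0
      (F i (x + L x) - F i x) (F i x)
      (fun n h1 h2 ω h3 => (win_facts (μ := μ) (ℱ := ℱ) (A := A) (L := L) hc hc0 hF hδ0.le (by linarith) i x hx3 (by linarith) n h1 h2 ω h3).2)
      ⌊(1 + δ) * b * Real.log x⌋₊ r B hB
    refine h1.trans (mul_le_mul_of_nonneg_right ?_ measureReal_nonneg)
    have hlx : 0 ≤ Real.log (x : ℝ) := by linarith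
    have hf : (⌊(1 + δ) * b * Real.log x⌋₊ : ℝ) ≤ (1 + δ) * b * Real.log x := Nat.floor_le (by positivity)
    exact (ch_le hu0 (mul_le_mul_of_nonneg_right hf hu0)).trans hx.le

/-- **the numbers of patterns in short windows follow the Poisson law** -/
theorem poisson (hW : 0 < W) (hc : c = (W : ℝ) / Nat.totient W) [DecidablePred G] (hGp : Function.Periodic G W)
    (hA : ∀ n, MeasurableSet[ℱ n] (A n))
    (hd : ∀ᵐ ω ∂μ, ∀ ε : ℝ, 0 < ε → ∀ᶠ n : ℕ in atTop, |dens μ ℱ A n ω - rhoW W (n + 1)| ≤ ε * rhoW W (n + 1))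
    (hF : ∀ i, StrictMono (F i)) (hF1 : ∀ i n, F i n < F (i + 1) n) (hD : ∀ i, 0 < D i)
    (hlog : ∀ i, Tendsto (fun z : ℕ => Real.log (F i z : ℕ) / Real.log z) atTop (𝓝 (D i))) (i : ℕ)
    (hG : ∀ j, j < i + 1 → ∀ n, G n → Nat.Coprime (F j n) W) (hg0 : 0 < gd G W)
    (hLm : Monotone L) (hLam : 0 < Lam) (hL : Tendsto (fun x : ℕ => (L x : ℝ) / Real.log x ^ (i + 1)) atTop (𝓝 Lam)) :
    ∀ᵐ ω ∂μ, ∀ r : ℕ, Tendsto (fun X : ℕ => (cn {x | NW A F G L (i + 1) x ω = r} X : ℝ) / X) atTop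
      (𝓝 ((Lam * kap (gd G W) c D (i + 1)) ^ r / (r.factorial : ℝ) * Real.exp (-(Lam * kap (gd G W) c D (i + 1))))) := by
  have hc0 : 0 < c := by
    rw [hc]
    exact div_pos (by exact_mod_cast hW) (by exact_mod_cast Nat.totient_pos.2 hW)
  set b : ℝ := Lam * kap (gd G W) c D i with hb
  have hb0 : 0 < b := mul_pos hLam (kap_pos hg0 hc0 hD i)
  set lam : ℝ := b * c / D i with hlamdef
  have hlam : 0 < lam := div_pos (mul_pos hb0 hc0) (hD i)
  have elam : Lam * kap (gd G W) c D (i + 1) = lam := by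
    rw [hlamdef, hb]
    show Lam * (kap (gd G W) c D i * c / D i) = _
    ring
  rw [elam]
  have h1 : ∀ᵐ ω ∂μ, ∀ j r, UB {x | ω ∈ DE μ ℱ A F G L W b (dj j) i r x}
      (((1 + dj j) ^ 2 * lam) ^ r / (r.factorial : ℝ) * Real.exp (-((1 - dj j) ^ 2 * lam)) + dj j) :=
    ae_all_iff.2 fun j => ae_all_iff.2 fun r => UB_DE hc hc0.le hb0.le hA hF hF1 hD hlog i hLm hL (dj_pos j) (dj_le j) r
  have h2 : ∀ᵐ ω ∂μ, ∀ j r, UB {x | ω ∈ DT μ ℱ A F G L W b (dj j) i r x}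
      (((1 + dj j) ^ 2 * lam) ^ r / (r.factorial : ℝ) + dj j) :=
    ae_all_iff.2 fun j => ae_all_iff.2 fun r => UB_DT hc hc0.le hb0.le hA hF hF1 hD hlog i hLm hL (dj_pos j) (dj_le j) r
  filter_upwards [h1, h2, hd, most_NW (μ := μ) hW hc hGp hA hd hF hF1 hD hlog i (fun j hj => hG j (by omega)) hLam.le hL] with ω g1 g2 g3 g4
  have g4 : ∀ ε : ℝ, 0 < ε → UB {x | ¬ |(NW A F G L i x ω : ℝ) - b * Real.log x| ≤ ε * Real.log x} 0 := g4
  have hZ : ∀ j, UB ({x | ¬ |(NW A F G L i x ω : ℝ) - b * Real.log x| ≤ dj j * b * Real.log x} ∪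
      {x | ∃ t, x ≤ t ∧ ¬ |dens μ ℱ A t ω - rhoW W (t + 1)| ≤ dj j * rhoW W (t + 1)}) 0 := by
    intro j
    refine (g4 _ (mul_pos (dj_pos j) hb0)).of_dz (UB_of_eventually
      (E := {x | ∃ t, x ≤ t ∧ ¬ |dens μ ℱ A t ω - rhoW W (t + 1)| ≤ dj j * rhoW W (t + 1)}) ?_) (subset_refl _)
    obtain ⟨m₀, hm₀⟩ := eventually_atTop.1 (g3 (dj j) (dj_pos j))
    filter_upwards [eventually_ge_atTop m₀] with x hx hcon
    obtain ⟨t, ht1, ht2⟩ := hcon
    exact ht2 (hm₀ t (by omega))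
  have hmem : ∀ j x, x ∉ ({x | ¬ |(NW A F G L i x ω : ℝ) - b * Real.log x| ≤ dj j * b * Real.log x} ∪
      {x | ∃ t, x ≤ t ∧ ¬ |dens μ ℱ A t ω - rhoW W (t + 1)| ≤ dj j * rhoW W (t + 1)}) →
      ⌈(1 - dj j) * b * Real.log x⌉₊ ≤ cG (TW A F G L i x) (F i x) (F i (x + L x) - F i x) ω ∧
      cG (TW A F G L i x) (F i x) (F i (x + L x) - F i x) ω ≤ ⌊(1 + dj j) * b * Real.log x⌋₊ ∧
      ω ∉ vG (TW A F G L i x) (VQ μ ℱ A W (dj j)) (F i x) (F i (x + L x) - F i x) := by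
    intro j x hx
    rw [mem_union, not_or] at hx
    have h3 := not_not.1 hx.1
    have h4 := abs_le.1 h3
    rw [cG_TW hF]
    refine ⟨Nat.ceil_le.2 (by linarith), Nat.le_floor (by linarith), ?_⟩
    rintro ⟨t, ht1, _, ⟨n, _, _, hn3, hn4, _⟩, ht4⟩
    apply ht4
    refine ⟨?_, ?_⟩
    · rw [← hn4]
      exact hG i (Nat.lt_succ_self i) n hn3
    · by_contra hcon
      exact hx.2 ⟨t, (F_ge hF i x).trans ht1, hcon⟩
  refine freq_lim (fun x => NW A F G L (i + 1) x ω) (p := fun r => lam ^ r / (r.factorial : ℝ) * Real.exp (-lam))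
    (τ := fun r => lam ^ r / (r.factorial : ℝ)) (fun r => by positivity) ?_ ?_ ?_ ?_
  · have h5 := (NormedSpace.expSeries_div_hasSum_exp (𝔸 := ℝ) lam).mul_right (Real.exp (-lam))
    rw [← Real.exp_eq_exp_ℝ, ← Real.exp_add, add_neg_cancel, Real.exp_zero] at h5
    exact h5
  · exact FloorSemiring.tendsto_pow_div_factorial_atTop lam
  · intro r
    refine UB_lim (p := fun j => ((1 + dj j) ^ 2 * lam) ^ r / (r.factorial : ℝ) * Real.exp (-((1 - dj j) ^ 2 * lam)) + dj j) (fun j => ?_) ?_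
    · refine (g1 j r).of_dz (hZ j) ?_
      intro x hx
      by_contra hcon
      rw [mem_union, not_or] at hcon
      obtain ⟨k1, k2, k3⟩ := hmem j x hcon.2
      exact hcon.1 ⟨⟨(SG_TW hF i x ω).trans hx, k1, k2⟩, k3⟩
    · have h6 : Tendsto (fun j => ((1 + dj j) ^ 2 * lam) ^ r / (r.factorial : ℝ) * Real.exp (-((1 - dj j) ^ 2 * lam)) + dj j) atTop
          (𝓝 (((1 + 0) ^ 2 * lam) ^ r / (r.factorial : ℝ) * Real.exp (-((1 - 0) ^ 2 * lam)) + 0)) :=
        (((((dj_lim.const_add 1).pow 2).mul_const lam).pow r).div_const _ |>.mul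
          ((Real.continuous_exp.tendsto _).comp (((dj_lim.const_sub 1).pow 2).mul_const lam).neg)).add dj_lim
      simpa using h6
  · intro r
    refine UB_lim (p := fun j => ((1 + dj j) ^ 2 * lam) ^ r / (r.factorial : ℝ) + dj j) (fun j => ?_) ?_
    · refine (g2 j r).of_dz (hZ j) ?_
      intro x hx
      by_contra hcon
      rw [mem_union, not_or] at hcon
      obtain ⟨k1, k2, k3⟩ := hmem j x hcon.2
      have hx : r ≤ NW A F G L (i + 1) x ω := hx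
      rw [← SG_TW hF i x ω] at hx
      exact hcon.1 ⟨⟨hx, k2⟩, k3⟩
    · have h6 : Tendsto (fun j => ((1 + dj j) ^ 2 * lam) ^ r / (r.factorial : ℝ) + dj j) atTop
          (𝓝 (((1 + 0) ^ 2 * lam) ^ r / (r.factorial : ℝ) + 0)) :=
        ((((dj_lim.const_add 1).pow 2).mul_const lam).pow r).div_const _ |>.add dj_lim
      simpa using h6

end

end Pool.Agent.N315.PS
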