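import Mathlib
import Pool.Agent.N315.PS.Pois

/-!
# The Poisson law for the numbers of successes, general form
-/

set_option autoImplicit false
set_option linter.unusedSectionVars false

open MeasureTheory Filter Set
open scoped ENNReal Topology

namespace Pool.Agent.N315.PS

open Pool.Agent.R528.RM Pool.Agent.N740.HK Pool.Agent.N315.CC Pool.Agent.N315.PL

variable {Ω : Type} {m0 : MeasurableSpace Ω} {μ : Measure Ω} [IsProbabilityMeasure μ]
  {ℱ : Filtration ℕ m0} {A : ℕ → Set Ω} {tp : ℕ → ℕ} {T : ℕ → ℕ → Set Ω} {L : ℕ → ℕ} {Lam Dt : ℝ}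

variable (μ ℱ A) in
/-- exactly `r` successes -/
def AE (tp : ℕ → ℕ) (T : ℕ → ℕ → Set Ω) (L : ℕ → ℕ) (W : ℕ) (b δ : ℝ) (r x : ℕ) : Set Ω :=
  EQ A (T x) (VQ μ ℱ A W δ) (tp x) (tp (x + L x) - tp x) ⌈(1 - δ) * b * Real.log x⌉₊ ⌊(1 + δ) * b * Real.log x⌋₊ r

variable (μ ℱ A) in
/-- at least `r` successes -/
def AT (tp : ℕ → ℕ) (T : ℕ → ℕ → Set Ω) (L : ℕ → ℕ) (W : ℕ) (b δ : ℝ) (r x : ℕ) : Set Ω :=
  TL A (T x) (VQ μ ℱ A W δ) (tp x) (tp (x + L x) - tp x) ⌊(1 + δ) * b * Real.log x⌋₊ r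

section

variable {W : ℕ} {c b : ℝ}

theorem UB_AE (hc : c = (W : ℝ) / Nat.totient W) (hc0 : 0 ≤ c) (hb0 : 0 ≤ b) (hA : ∀ n, MeasurableSet[ℱ n] (A n))
    (htp : StrictMono tp) (hT : ∀ x t, MeasurableSet[ℱ t] (T x t)) (hD : 0 < Dt)
    (hlog : Tendsto (fun z : ℕ => Real.log (tp z : ℕ) / Real.log z) atTop (𝓝 Dt)) {m : ℕ}
    (hLm : Monotone L) (hL : Tendsto (fun x : ℕ => (L x : ℝ) / Real.log x ^ m) atTop (𝓝 Lam))
    {δ : ℝ} (hδ0 : 0 < δ) (hδ1 : δ ≤ 1 / 2) (r : ℕ) :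
    ∀ᵐ ω ∂μ, UB {x | ω ∈ AE μ ℱ A tp T L W b δ r x}
      (((1 + δ) ^ 2 * (b * c / Dt)) ^ r / (r.factorial : ℝ) * Real.exp (-((1 - δ) ^ 2 * (b * c / Dt))) + δ) := by
  have hF : ∀ i : ℕ, StrictMono ((fun _ => tp : ℕ → ℕ → ℕ) i) := fun _ => htp
  obtain ⟨l1, l2, l3⟩ := P_lim (F := fun _ => tp) (D := fun _ => Dt) (c := c) (b := b) hF (fun _ => hD) (fun _ => hlog) 0 hL δ
  have hlim := ((l1.pow r).div_const (r.factorial : ℝ)).mul
    ((Real.continuous_exp.tendsto _).comp (l2.neg.add (l3.const_mul (r : ℝ))))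
  rw [mul_zero, add_zero] at hlim
  refine lln (μ := μ) (ℱ := ℱ) (t := fun x => tp x) (R := fun X => L X + 1) htp.monotone
    (fun X => Nat.succ_pos _) (L_sqrt hL) ?_ (by positivity) ?_
  · intro X x hx
    exact ℱ.mono (meas_aux (F := fun _ => tp) hF hLm 0 X x hx) _ (EQ_meas hA (fun t => hT x t) (fun n => VQ_meas W δ n) _ _ _ _ _)
  · filter_upwards [hlim.eventually_lt_const (lt_add_of_pos_right _ hδ0), eventually_ge_atTop 3,
      tendsto_logN.eventually_ge_atTop (2 * c + 1)] with x hx hx3 hxc B hB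
    have hx0 : x ≤ tp x := htp.le_apply
    have hx0' : x ≤ tp (x + L x) := by
      have : x + L x ≤ tp (x + L x) := htp.le_apply
      omega
    have hx3' : (3 : ℝ) ≤ x := by exact_mod_cast hx3
    have hM1 : 2 * c + 1 ≤ Real.log (tp x : ℕ) := hxc.trans (Real.log_le_log (by linarith) (by exact_mod_cast hx0))
    have hM2 : 2 * c + 1 ≤ Real.log (tp (x + L x) : ℕ) := hxc.trans (Real.log_le_log (by linarith) (by exact_mod_cast hx0'))
    have hl0 : 0 ≤ (1 - δ) * c / Real.log (tp (x + L x) : ℕ) := div_nonneg (mul_nonneg (by linarith) hc0) (by linarith)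
    have hl1 : (1 - δ) * c / Real.log (tp (x + L x) : ℕ) ≤ 1 := by
      rw [div_le_one (by linarith)]
      nlinarith
    have hu0 : 0 ≤ (1 + δ) * c / Real.log (tp x : ℕ) := div_nonneg (mul_nonneg (by linarith) hc0) (by linarith)
    have h1 := trial_eq (μ := μ) (ℱ := ℱ) hA (fun t => hT x t) (fun n => VQ_meas (A := A) W δ n) hl0 hl1 hu0
      (tp (x + L x) - tp x) (tp x)
      (win_facts (μ := μ) (ℱ := ℱ) (A := A) (F := fun _ => tp) (L := L) hc hc0 hF hδ0.le (by linarith) 0 x hx3 (by linarith))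
      ⌈(1 - δ) * b * Real.log x⌉₊ ⌊(1 + δ) * b * Real.log x⌋₊ r B hB
    refine h1.trans (mul_le_mul_of_nonneg_right ?_ measureReal_nonneg)
    have hlx : 0 ≤ Real.log (x : ℝ) := by linarith
    have hf : (⌊(1 + δ) * b * Real.log x⌋₊ : ℝ) ≤ (1 + δ) * b * Real.log x := Nat.floor_le (by positivity)
    have hcl : (1 - δ) * b * Real.log x ≤ (⌈(1 - δ) * b * Real.log x⌉₊ : ℝ) := Nat.le_ceil _
    refine (be_le hl0 hl1 hu0 (mul_le_mul_of_nonneg_right hf hu0) (mul_le_mul_of_nonneg_right hcl hl0)).trans ?_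
    exact hx.le

theorem UB_AT (hc : c = (W : ℝ) / Nat.totient W) (hc0 : 0 ≤ c) (hb0 : 0 ≤ b) (hA : ∀ n, MeasurableSet[ℱ n] (A n))
    (htp : StrictMono tp) (hT : ∀ x t, MeasurableSet[ℱ t] (T x t)) (hD : 0 < Dt)
    (hlog : Tendsto (fun z : ℕ => Real.log (tp z : ℕ) / Real.log z) atTop (𝓝 Dt)) {m : ℕ}
    (hLm : Monotone L) (hL : Tendsto (fun x : ℕ => (L x : ℝ) / Real.log x ^ m) atTop (𝓝 Lam))
    {δ : ℝ} (hδ0 : 0 < δ) (hδ1 : δ ≤ 1 / 2) (r : ℕ) :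
    ∀ᵐ ω ∂μ, UB {x | ω ∈ AT μ ℱ A tp T L W b δ r x}
      (((1 + δ) ^ 2 * (b * c / Dt)) ^ r / (r.factorial : ℝ) + δ) := by
  have hF : ∀ i : ℕ, StrictMono ((fun _ => tp : ℕ → ℕ → ℕ) i) := fun _ => htp
  obtain ⟨l1, l2, l3⟩ := P_lim (F := fun _ => tp) (D := fun _ => Dt) (c := c) (b := b) hF (fun _ => hD) (fun _ => hlog) 0 hL δ
  have hlim := (l1.pow r).div_const (r.factorial : ℝ)
  refine lln (μ := μ) (ℱ := ℱ) (t := fun x => tp x) (R := fun X => L X + 1) htp.monotone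
    (fun X => Nat.succ_pos _) (L_sqrt hL) ?_ (by positivity) ?_
  · intro X x hx
    exact ℱ.mono (meas_aux (F := fun _ => tp) hF hLm 0 X x hx) _ (TL_meas hA (fun t => hT x t) (fun n => VQ_meas W δ n) _ _ _ _)
  · filter_upwards [hlim.eventually_lt_const (lt_add_of_pos_right _ hδ0), eventually_ge_atTop 3,
      tendsto_logN.eventually_ge_atTop (2 * c + 1)] with x hx hx3 hxc B hB
    have hx0 : x ≤ tp x := htp.le_apply
    have hx3' : (3 : ℝ) ≤ x := by exact_mod_cast hx3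
    have hM1 : 2 * c + 1 ≤ Real.log (tp x : ℕ) := hxc.trans (Real.log_le_log (by linarith) (by exact_mod_cast hx0))
    have hu0 : 0 ≤ (1 + δ) * c / Real.log (tp x : ℕ) := div_nonneg (mul_nonneg (by linarith) hc0) (by linarith)
    have h1 := trial_tl (μ := μ) (ℱ := ℱ) hA (fun t => hT x t) (fun n => VQ_meas (A := A) W δ n) hu0
      (tp (x + L x) - tp x) (tp x)
      (fun n h1 h2 ω h3 => (win_facts (μ := μ) (ℱ := ℱ) (A := A) (F := fun _ => tp) (L := L) hc hc0 hF hδ0.le (by linarith) 0 x hx3 (by linarith) n h1 h2 ω h3).2)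
      ⌊(1 + δ) * b * Real.log x⌋₊ r B hB
    refine h1.trans (mul_le_mul_of_nonneg_right ?_ measureReal_nonneg)
    have hlx : 0 ≤ Real.log (x : ℝ) := by linarith
    have hf : (⌊(1 + δ) * b * Real.log x⌋₊ : ℝ) ≤ (1 + δ) * b * Real.log x := Nat.floor_le (by positivity)
    exact (ch_le hu0 (mul_le_mul_of_nonneg_right hf hu0)).trans hx.le

/-- **the numbers of successes in short windows follow the Poisson law** -/
theorem poisson_abs (hW : 0 < W) (hc : c = (W : ℝ) / Nat.totient W)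
    (hA : ∀ n, MeasurableSet[ℱ n] (A n))
    (hd : ∀ᵐ ω ∂μ, ∀ ε : ℝ, 0 < ε → ∀ᶠ n : ℕ in atTop, |dens μ ℱ A n ω - rhoW W (n + 1)| ≤ ε * rhoW W (n + 1))
    (htp : StrictMono tp) (hT : ∀ x t, MeasurableSet[ℱ t] (T x t)) (hTc : ∀ x t ω, ω ∈ T x t → Nat.Coprime (t + 1) W)
    (hD : 0 < Dt) (hlog : Tendsto (fun z : ℕ => Real.log (tp z : ℕ) / Real.log z) atTop (𝓝 Dt)) {m : ℕ}
    (hLm : Monotone L) (hL : Tendsto (fun x : ℕ => (L x : ℝ) / Real.log x ^ m) atTop (𝓝 Lam)) (hb0 : 0 < b)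
    (hcand : ∀ᵐ ω ∂μ, ∀ ε : ℝ, 0 < ε →
      UB {x | ¬ |(cG (T x) (tp x) (tp (x + L x) - tp x) ω : ℝ) - b * Real.log x| ≤ ε * Real.log x} 0) :
    ∀ᵐ ω ∂μ, ∀ r : ℕ, Tendsto (fun X : ℕ => (cn {x | SG A (T x) (tp x) (tp (x + L x) - tp x) ω = r} X : ℝ) / X) atTop
      (𝓝 ((b * c / Dt) ^ r / (r.factorial : ℝ) * Real.exp (-(b * c / Dt)))) := by
  have hc0 : 0 < c := by
    rw [hc]
    exact div_pos (by exact_mod_cast hW) (by exact_mod_cast Nat.totient_pos.2 hW)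
  set lam : ℝ := b * c / Dt with hlamdef
  have hlam : 0 < lam := div_pos (mul_pos hb0 hc0) hD
  have h1 : ∀ᵐ ω ∂μ, ∀ j r, UB {x | ω ∈ AE μ ℱ A tp T L W b (dj j) r x}
      (((1 + dj j) ^ 2 * lam) ^ r / (r.factorial : ℝ) * Real.exp (-((1 - dj j) ^ 2 * lam)) + dj j) :=
    ae_all_iff.2 fun j => ae_all_iff.2 fun r => UB_AE hc hc0.le hb0.le hA htp hT hD hlog hLm hL (dj_pos j) (dj_le j) r
  have h2 : ∀ᵐ ω ∂μ, ∀ j r, UB {x | ω ∈ AT μ ℱ A tp T L W b (dj j) r x}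
      (((1 + dj j) ^ 2 * lam) ^ r / (r.factorial : ℝ) + dj j) :=
    ae_all_iff.2 fun j => ae_all_iff.2 fun r => UB_AT hc hc0.le hb0.le hA htp hT hD hlog hLm hL (dj_pos j) (dj_le j) r
  filter_upwards [h1, h2, hd, hcand] with ω g1 g2 g3 g4
  have hZ : ∀ j, UB ({x | ¬ |(cG (T x) (tp x) (tp (x + L x) - tp x) ω : ℝ) - b * Real.log x| ≤ dj j * b * Real.log x} ∪
      {x | ∃ t, x ≤ t ∧ ¬ |dens μ ℱ A t ω - rhoW W (t + 1)| ≤ dj j * rhoW W (t + 1)}) 0 := by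
    intro j
    refine (g4 _ (mul_pos (dj_pos j) hb0)).of_dz (UB_of_eventually
      (E := {x | ∃ t, x ≤ t ∧ ¬ |dens μ ℱ A t ω - rhoW W (t + 1)| ≤ dj j * rhoW W (t + 1)}) ?_) (subset_refl _)
    obtain ⟨m₀, hm₀⟩ := eventually_atTop.1 (g3 (dj j) (dj_pos j))
    filter_upwards [eventually_ge_atTop m₀] with x hx hcon
    obtain ⟨t, ht1, ht2⟩ := hcon
    exact ht2 (hm₀ t (by omega))
  have hmem : ∀ j x, x ∉ ({x | ¬ |(cG (T x) (tp x) (tp (x + L x) - tp x) ω : ℝ) - b * Real.log x| ≤ dj j * b * Real.log x} ∪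
      {x | ∃ t, x ≤ t ∧ ¬ |dens μ ℱ A t ω - rhoW W (t + 1)| ≤ dj j * rhoW W (t + 1)}) →
      ⌈(1 - dj j) * b * Real.log x⌉₊ ≤ cG (T x) (tp x) (tp (x + L x) - tp x) ω ∧
      cG (T x) (tp x) (tp (x + L x) - tp x) ω ≤ ⌊(1 + dj j) * b * Real.log x⌋₊ ∧
      ω ∉ vG (T x) (VQ μ ℱ A W (dj j)) (tp x) (tp (x + L x) - tp x) := by
    intro j x hx
    rw [mem_union, not_or] at hx
    have h3 := not_not.1 hx.1
    have h4 := abs_le.1 h3
    refine ⟨Nat.ceil_le.2 (by linarith), Nat.le_floor (by linarith), ?_⟩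
    rintro ⟨t, ht1, _, ht3, ht4⟩
    apply ht4
    refine ⟨hTc x t ω ht3, ?_⟩
    by_contra hcon
    exact hx.2 ⟨t, (htp.le_apply (x := x)).trans ht1, hcon⟩
  refine freq_lim (fun x => SG A (T x) (tp x) (tp (x + L x) - tp x) ω) (p := fun r => lam ^ r / (r.factorial : ℝ) * Real.exp (-lam))
    (τ := fun r => lam ^ r / (r.factorial : ℝ)) (fun r => by positivity) ?_ ?_ ?_ ?_
  · have h5 := (NormedSpace.expSeries_div_hasSum_exp (𝔸 := ℝ) lam).mul_right (Real.exp (-lam))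
    rw [← Real.exp_eq_exp_ℝ, ← Real.exp_add, add_neg_cancel, Real.exp_zero] at h5
    exact h5
  · exact FloorSemiring.tendsto_pow_div_factorial_atTop lam
  · intro r
    refine UB_lim (p := fun j => ((1 + dj j) ^ 2 * lam) ^ r / (r.factorial : ℝ) * Real.exp (-((1 - dj j) ^ 2 * lam)) + dj j) (fun j => ?_) ?_
    · refine (g1 j r).of_dz (hZ j) ?_
      intro x hx
      by_contra hcon
      rw [mem_union, not_or] at hcon
      obtain ⟨k1, k2, k3⟩ := hmem j x hcon.2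
      exact hcon.1 ⟨⟨hx, k1, k2⟩, k3⟩
    · have h6 : Tendsto (fun j => ((1 + dj j) ^ 2 * lam) ^ r / (r.factorial : ℝ) * Real.exp (-((1 - dj j) ^ 2 * lam)) + dj j) atTop
          (𝓝 (((1 + 0) ^ 2 * lam) ^ r / (r.factorial : ℝ) * Real.exp (-((1 - 0) ^ 2 * lam)) + 0)) :=
        (((((dj_lim.const_add 1).pow 2).mul_const lam).pow r).div_const _ |>.mul
          ((Real.continuous_exp.tendsto _).comp (((dj_lim.const_sub 1).pow 2).mul_const lam).neg)).add dj_lim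
      simpa using h6
  · intro r
    refine UB_lim (p := fun j => ((1 + dj j) ^ 2 * lam) ^ r / (r.factorial : ℝ) + dj j) (fun j => ?_) ?_
    · refine (g2 j r).of_dz (hZ j) ?_
      intro x hx
      by_contra hcon
      rw [mem_union, not_or] at hcon
      obtain ⟨k1, k2, k3⟩ := hmem j x hcon.2
      exact hcon.1 ⟨⟨hx, k2⟩, k3⟩
    · have h6 : Tendsto (fun j => ((1 + dj j) ^ 2 * lam) ^ r / (r.factorial : ℝ) + dj j) atTop
          (𝓝 (((1 + 0) ^ 2 * lam) ^ r / (r.factorial : ℝ) + 0)) :=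
        ((((dj_lim.const_add 1).pow 2).mul_const lam).pow r).div_const _ |>.add dj_lim
      simpa using h6

end

end Pool.Agent.N315.PS
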