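import Mathlib
import Pool.Agent.N315.PS.Pois
import Pool.Agent.R528.RM.BHOut

/-!
# Systems of polynomials
-/

set_option autoImplicit false
set_option linter.unusedSectionVars false

open MeasureTheory Filter Set Polynomial
open scoped ENNReal Topology

namespace Pool.Agent.N315.PS

open Pool.Agent.R528.RM Pool.Agent.N740.HK Pool.Agent.N315.CC Pool.Agent.N315.PL

lemma sort_aux (N : ℕ) (k : ℕ) : ∀ P : Finset ℤ[X], P.card = k →
    (∀ f ∈ P, ∀ g ∈ P, f ≠ g → (∀ n, N ≤ n → pv f n < pv g n) ∨ (∀ n, N ≤ n → pv g n < pv f n)) →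
    ∃ g : ℕ → ℤ[X], (∀ j < k, g j ∈ P) ∧ (∀ f ∈ P, ∃ j < k, g j = f) ∧
      ∀ i j, i < j → j < k → ∀ n, N ≤ n → pv (g i) n < pv (g j) n := by
  classical
  induction k with
  | zero =>
    intro P hP _
    have := Finset.card_eq_zero.1 hP
    subst this
    exact ⟨fun _ => 0, fun j hj => absurd hj (Nat.not_lt_zero j), fun f hf => absurd hf (Finset.notMem_empty f),
      fun i j _ hj => absurd hj (Nat.not_lt_zero j)⟩
  | succ k ih =>
    intro P hP hord
    have hne : P.Nonempty := by
      rw [← Finset.card_pos]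
      omega
    obtain ⟨f, hf, hmax⟩ := Finset.exists_max_image P (fun f => pv f N) hne
    obtain ⟨g, h1, h2, h3⟩ := ih (P.erase f) (by rw [Finset.card_erase_of_mem hf, hP]; rfl)
      (fun a ha b hb hab => hord a (Finset.mem_of_mem_erase ha) b (Finset.mem_of_mem_erase hb) hab)
    refine ⟨fun j => if j < k then g j else f, ?_, ?_, ?_⟩
    · intro j _
      by_cases h : j < k
      · simp only [if_pos h]
        exact Finset.mem_of_mem_erase (h1 j h)
      · simp only [if_neg h]
        exact hf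
    · intro a ha
      by_cases haf : a = f
      · exact ⟨k, Nat.lt_succ_self k, by simp only [if_neg (lt_irrefl k)]; exact haf.symm⟩
      · obtain ⟨j, hj, hj2⟩ := h2 a (Finset.mem_erase.2 ⟨haf, ha⟩)
        exact ⟨j, by omega, by simp only [if_pos hj]; exact hj2⟩
    · intro i j hij hj n hn
      have hi : i < k := by omega
      simp only [if_pos hi]
      by_cases h : j < k
      · simp only [if_pos h]
        exact h3 i j hij h n hn
      · simp only [if_neg h]
        have h4 := Finset.mem_erase.1 (h1 i hi)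
        rcases hord _ h4.2 f hf h4.1 with h5 | h5
        · exact h5 n hn
        · have h6 := hmax _ h4.2
          have h7 := h5 N le_rfl
          omega

/-- the maps of a system -/
theorem exists_F (P : Finset ℤ[X]) (hne : P.Nonempty) (hP : ∀ f ∈ P, 0 < f.natDegree ∧ 0 < f.leadingCoeff) :
    ∃ (m : ℕ) (F : ℕ → ℕ → ℕ) (D : ℕ → ℝ), (∀ i, StrictMono (F i)) ∧ (∀ i n, F i n < F (i + 1) n) ∧ (∀ i, 0 < D i) ∧
      (∀ i, Tendsto (fun z : ℕ => Real.log (F i z : ℕ) / Real.log z) atTop (𝓝 (D i))) ∧
      (∀ n (Q : ℕ → Prop), (∀ j < P.card, Q (F j n)) ↔ ∀ f ∈ P, Q (pv f (n + m))) ∧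
      ∏ i ∈ Finset.range P.card, D i = ∏ f ∈ P, (f.natDegree : ℝ) ∧
      (∀ n, ∀ f ∈ P, ((pv f (n + m) : ℕ) : ℤ) = f.eval ((n + m : ℕ) : ℤ)) := by
  classical
  have hk : 0 < P.card := Finset.card_pos.2 hne
  have e1 : ∀ᶠ N : ℕ in atTop, ∀ f ∈ P, ∀ g ∈ P, f ≠ g →
      (∀ n, N ≤ n → pv f n < pv g n) ∨ (∀ n, N ≤ n → pv g n < pv f n) := by
    rw [eventually_all_finset]
    intro f hf
    rw [eventually_all_finset]
    intro g hg
    by_cases hfg : f = g
    · exact Eventually.of_forall fun N h => absurd hfg h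
    · rcases pv_ord f g (hP f hf).2 (hP g hg).2 hfg with h | h
      · filter_upwards [eventually_forall_ge_atTop.2 h] with N hN _
        exact Or.inl hN
      · filter_upwards [eventually_forall_ge_atTop.2 h] with N hN _
        exact Or.inr hN
  have e2 : ∀ᶠ N : ℕ in atTop, ∀ f ∈ P, ∀ n, N ≤ n → pv f n < pv f (n + 1) := by
    rw [eventually_all_finset]
    exact fun f hf => eventually_forall_ge_atTop.2 (pv_mono f (hP f hf).1 (hP f hf).2)
  have e3 : ∀ᶠ N : ℕ in atTop, ∀ f ∈ P, ∀ n, N ≤ n → 0 < f.eval (n : ℤ) := by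
    rw [eventually_all_finset]
    exact fun f hf => eventually_forall_ge_atTop.2 (ev_pos_int f (hP f hf).2)
  obtain ⟨m, hm1, hm2, hm3⟩ := (e1.and (e2.and e3)).exists
  obtain ⟨g, g1, g2, g3⟩ := sort_aux m P.card P rfl hm1
  have hmin : ∀ i, min i (P.card - 1) < P.card := fun i => by omega
  have hgP : ∀ i, g (min i (P.card - 1)) ∈ P := fun i => g1 _ (hmin i)
  have hcast : ∀ n, ∀ f ∈ P, ((pv f (n + m) : ℕ) : ℤ) = f.eval ((n + m : ℕ) : ℤ) := fun n f hf =>
    Int.toNat_of_nonneg (hm3 f hf (n + m) (by omega)).le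
  have hpos : ∀ n, ∀ f ∈ P, 0 < pv f (n + m) := by
    intro n f hf
    have h1 := hcast n f hf
    have h2 := hm3 f hf (n + m) (by omega)
    rw [← h1] at h2
    exact_mod_cast h2
  refine ⟨m, fun i n => pv (g (min i (P.card - 1))) (n + m) * 2 ^ (i - (P.card - 1)),
    fun i => ((g (min i (P.card - 1))).natDegree : ℝ), ?_, ?_, ?_, ?_, ?_, ?_, hcast⟩
  · intro i
    refine strictMono_nat_of_lt_succ fun n => ?_
    have h1 := hm2 _ (hgP i) (n + m) (by omega)
    rw [show n + m + 1 = n + 1 + m by ring] at h1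
    exact Nat.mul_lt_mul_of_pos_right h1 (by positivity)
  · intro i n
    show pv (g (min i (P.card - 1))) (n + m) * 2 ^ (i - (P.card - 1)) < pv (g (min (i + 1) (P.card - 1))) (n + m) * 2 ^ (i + 1 - (P.card - 1))
    by_cases h : i < P.card - 1
    · rw [min_eq_left h.le, min_eq_left (by omega : i + 1 ≤ P.card - 1), show i - (P.card - 1) = 0 by omega,
        show i + 1 - (P.card - 1) = 0 by omega, pow_zero, mul_one, mul_one]
      exact g3 i (i + 1) (Nat.lt_succ_self i) (by omega) (n + m) (by omega)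
    · rw [min_eq_right (by omega), min_eq_right (by omega), show i + 1 - (P.card - 1) = (i - (P.card - 1)) + 1 by omega, pow_succ,
        ← mul_assoc]
      have h1 := hpos n _ (g1 (P.card - 1) (by omega))
      have h2 : 0 < pv (g (P.card - 1)) (n + m) * 2 ^ (i - (P.card - 1)) := by positivity
      omega
  · intro i
    exact Nat.cast_pos.2 (hP _ (hgP i)).1
  · intro i
    have h1 := pv_log _ (hP _ (hgP i)).2
    have h2 : Tendsto (fun n : ℕ => n + m) atTop atTop := tendsto_add_atTop_nat m
    have h3 := h1.comp h2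
    have h4 : Tendsto (fun n : ℕ => Real.log ((n + m : ℕ) : ℝ) / Real.log n) atTop (𝓝 1) := by
      have hL : Tendsto (fun x : ℕ => (((fun _ => m : ℕ → ℕ) x : ℕ) : ℝ) / Real.log x ^ 1) atTop (𝓝 0) := by
        simp only [pow_one]
        exact tendsto_const_nhds.div_atTop tendsto_logN
      exact log_shift hL
    have h5 : Tendsto (fun n : ℕ => ((i - (P.card - 1) : ℕ) : ℝ) * Real.log 2 / Real.log n) atTop (𝓝 0) :=
      tendsto_const_nhds.div_atTop tendsto_logN
    have h6 := (h3.mul h4).add h5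
    rw [mul_one, add_zero] at h6
    refine h6.congr' ?_
    filter_upwards [log_pos_ev, h2.eventually log_pos_ev] with n hn hn2
    have h7 : (0 : ℝ) < (pv (g (min i (P.card - 1))) (n + m) : ℕ) := by exact_mod_cast hpos n _ (hgP i)
    simp only [Function.comp]
    push_cast
    rw [Real.log_mul h7.ne' (by positivity), Real.log_pow]
    have hn2 : 0 < Real.log ((n + m : ℕ) : ℝ) := hn2
    push_cast at hn2
    field_simp
  · intro n Q
    constructor
    · intro h f hf
      obtain ⟨j, hj, rfl⟩ := g2 f hf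
      have := h j hj
      simp only [min_eq_left (show j ≤ P.card - 1 by omega), show j - (P.card - 1) = 0 by omega, pow_zero, mul_one] at this
      exact this
    · intro h j hj
      simp only [min_eq_left (show j ≤ P.card - 1 by omega), show j - (P.card - 1) = 0 by omega, pow_zero, mul_one]
      exact h _ (g1 j hj)
  · refine Finset.prod_nbij g ?_ ?_ ?_ ?_
    · intro j hj
      exact g1 j (Finset.mem_range.1 hj)
    · intro a ha b hb hab
      rw [Finset.mem_coe, Finset.mem_range] at ha hb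
      rcases lt_trichotomy a b with h | h | h
      · have := g3 a b h hb m le_rfl
        rw [hab] at this
        exact absurd this (lt_irrefl _)
      · exact h
      · have := g3 b a h ha m le_rfl
        rw [hab] at this
        exact absurd this (lt_irrefl _)
    · intro f hf
      obtain ⟨j, hj, hj2⟩ := g2 f hf
      exact ⟨j, Finset.mem_coe.2 (Finset.mem_range.2 hj), hj2⟩
    · intro j hj
      have hj := Finset.mem_range.1 hj
      rw [min_eq_left (show j ≤ P.card - 1 by omega)]

/-- the `n` at which all the polynomials have values in `S` -/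
def PM (S : Set ℕ) (P : Finset ℤ[X]) : Set ℕ := {n | ∀ f ∈ P, ∃ a ∈ S, (a : ℤ) = f.eval (n : ℤ)}

open Classical in
/-- the number of elements of `M` in the window -/
noncomputable def wn (M : Set ℕ) (L : ℕ → ℕ) (x : ℕ) : ℕ := ((Finset.Ioc x (x + L x)).filter (fun n => n ∈ M)).card

open Classical in
lemma cn_shift (E : Set ℕ) (m X : ℕ) : |(cn E X : ℝ) - cn {y | y + m ∈ E} X| ≤ m := by
  have h1 : cn {y | y + m ∈ E} X = ((Finset.Ico m (X + m)).filter (fun x => x ∈ E)).card := by
    unfold cn
    refine Finset.card_bij (fun y _ => y + m) ?_ ?_ ?_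
    · intro y hy
      have hy := Finset.mem_filter.1 hy
      have h2 := Finset.mem_range.1 hy.1
      exact Finset.mem_filter.2 ⟨Finset.mem_Ico.2 ⟨by omega, by omega⟩, hy.2⟩
    · intro a _ b _ hab
      have hab : a + m = b + m := hab
      omega
    · intro x hx
      have hx := Finset.mem_filter.1 hx
      have h2 := Finset.mem_Ico.1 hx.1
      refine ⟨x - m, Finset.mem_filter.2 ⟨Finset.mem_range.2 (by omega), ?_⟩, by omega⟩
      show x - m + m ∈ E
      rw [Nat.sub_add_cancel h2.1]
      exact hx.2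
  have h2 : cn E X ≤ cn {y | y + m ∈ E} X + m := by
    rw [h1]
    unfold cn
    have h3 : (Finset.range X).filter (fun x => x ∈ E) ⊆ (Finset.Ico m (X + m)).filter (fun x => x ∈ E) ∪ Finset.range m := by
      intro x hx
      have hx := Finset.mem_filter.1 hx
      have h4 := Finset.mem_range.1 hx.1
      by_cases h : x < m
      · exact Finset.mem_union_right _ (Finset.mem_range.2 h)
      · exact Finset.mem_union_left _ (Finset.mem_filter.2 ⟨Finset.mem_Ico.2 ⟨by omega, by omega⟩, hx.2⟩)
    refine (Finset.card_le_card h3).trans ((Finset.card_union_le _ _).trans ?_)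
    rw [Finset.card_range]
  have h3 : cn {y | y + m ∈ E} X ≤ cn E X + m := by
    rw [h1]
    unfold cn
    have h3 : (Finset.Ico m (X + m)).filter (fun x => x ∈ E) ⊆ (Finset.range X).filter (fun x => x ∈ E) ∪ Finset.Ico X (X + m) := by
      intro x hx
      have hx := Finset.mem_filter.1 hx
      have h4 := Finset.mem_Ico.1 hx.1
      by_cases h : x < X
      · exact Finset.mem_union_left _ (Finset.mem_filter.2 ⟨Finset.mem_range.2 h, hx.2⟩)
      · exact Finset.mem_union_right _ (Finset.mem_Ico.2 ⟨by omega, h4.2⟩)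
    refine (Finset.card_le_card h3).trans ((Finset.card_union_le _ _).trans ?_)
    rw [Nat.card_Ico]
    omega
  have h2' : (cn E X : ℝ) ≤ cn {y | y + m ∈ E} X + m := by exact_mod_cast h2
  have h3' : (cn {y | y + m ∈ E} X : ℝ) ≤ cn E X + m := by exact_mod_cast h3
  rw [abs_le]
  constructor <;> linarith

variable {Ω : Type} {m0 : MeasurableSpace Ω} {μ : Measure Ω} [IsProbabilityMeasure μ]
  {ℱ : Filtration ℕ m0} {A : ℕ → Set Ω} {L : ℕ → ℕ} {Lam : ℝ}

lemma kap_eq (g c : ℝ) (D : ℕ → ℝ) (hD : ∀ i, 0 < D i) (k : ℕ) : kap g c D k = g * (c ^ k * (∏ i ∈ Finset.range k, D i)⁻¹) := by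
  induction k with
  | zero => simp [kap]
  | succ k ih =>
    have h1 := (hD k).ne'
    have h2 : ∏ i ∈ Finset.range k, D i ≠ 0 := Finset.prod_ne_zero_iff.2 fun i _ => (hD i).ne'
    unfold kap
    rw [ih, Finset.prod_range_succ, pow_succ]
    field_simp

/-- **Poisson law for systems of polynomials** -/
theorem poisson_poly {W : ℕ} (hW : 0 < W) (hA : ∀ n, MeasurableSet[ℱ n] (A n)) (hcop : ∀ n, ¬ Nat.Coprime n W → A n = ∅)
    (hd : ∀ᵐ ω ∂μ, ∀ ε : ℝ, 0 < ε → ∀ᶠ n : ℕ in atTop, |dens μ ℱ A n ω - rhoW W (n + 1)| ≤ ε * rhoW W (n + 1))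
    (P : Finset ℤ[X]) (hne : P.Nonempty) (hP : ∀ f ∈ P, 0 < f.natDegree ∧ 0 < f.leadingCoeff) (hC : 0 < bhConst W P)
    (hLm : Monotone L) (hLam : 0 < Lam) (hL : Tendsto (fun x : ℕ => (L x : ℝ) / Real.log x ^ P.card) atTop (𝓝 Lam)) :
    ∀ᵐ ω ∂μ, ∀ r : ℕ, Tendsto (fun X : ℕ => (cn {x | wn (PM {a | ω ∈ A a} P) L x = r} X : ℝ) / X) atTop
      (𝓝 ((Lam * bhConst W P) ^ r / (r.factorial : ℝ) * Real.exp (-(Lam * bhConst W P)))) := by
  classical
  obtain ⟨m, F, D, f1, f2, f3, f4, f5, f6, f7⟩ := exists_F P hne hP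
  obtain ⟨i, hi⟩ : ∃ i, P.card = i + 1 := ⟨P.card - 1, by have := Finset.card_pos.2 hne; omega⟩
  set G : ℕ → Prop := fun n => good P W (n + m) with hG
  have hGd : ∀ n, G n ↔ ∀ f ∈ P, Nat.Coprime (pv f (n + m)) W := by
    intro n
    simp only [hG]
    unfold good
    refine forall₂_congr fun f hf => ?_
    rw [← f7 n f hf, Int.gcd_natCast_natCast]
  have hGp : Function.Periodic G W := by
    intro n
    simp only [hG]
    rw [show n + W + m = n + m + W by ring]
    exact good_periodic P W (n + m)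
  have hgd : gd G W = (Nat.count (good P W) W : ℝ) / W := by
    unfold gd
    congr 2
    have h1 := Nat.filter_Ico_card_eq_of_periodic m W (good P W) (good_periodic P W)
    rw [← h1, Nat.count_eq_card_filter_range]
    refine Finset.card_bij (fun y _ => y + m) ?_ ?_ ?_
    · intro y hy
      have hy := Finset.mem_filter.1 hy
      have h2 := Finset.mem_range.1 hy.1
      exact Finset.mem_filter.2 ⟨Finset.mem_Ico.2 ⟨by omega, by omega⟩, hy.2⟩
    · intro a _ b _ hab
      have hab : a + m = b + m := hab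
      omega
    · intro x hx
      have hx := Finset.mem_filter.1 hx
      have h2 := Finset.mem_Ico.1 hx.1
      refine ⟨x - m, Finset.mem_filter.2 ⟨Finset.mem_range.2 (by omega), ?_⟩, by omega⟩
      show good P W (x - m + m)
      rw [Nat.sub_add_cancel h2.1]
      exact hx.2
  have hk : kap (gd G W) ((W : ℝ) / Nat.totient W) D (i + 1) = bhConst W P := by
    rw [kap_eq _ _ _ f3, ← hi, f6, hgd]
    unfold bhConst
    rw [Finset.prod_inv_distrib]
  have hg0 : 0 < gd G W := by
    rw [hgd]
    refine lt_of_le_of_ne (by positivity) fun h => ?_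
    unfold bhConst at hC
    rw [← h, zero_mul] at hC
    exact lt_irrefl _ hC
  set L' : ℕ → ℕ := fun y => L (y + m) with hL'
  have hL'm : Monotone L' := fun a b hab => hLm (by omega)
  have hlogm : Tendsto (fun n : ℕ => Real.log ((n + m : ℕ) : ℝ) / Real.log n) atTop (𝓝 1) := by
    have hL0 : Tendsto (fun x : ℕ => (((fun _ => m : ℕ → ℕ) x : ℕ) : ℝ) / Real.log x ^ 1) atTop (𝓝 0) := by
      simp only [pow_one]
      exact tendsto_const_nhds.div_atTop tendsto_logN
    exact log_shift hL0
  have hL'l : Tendsto (fun x : ℕ => (L' x : ℝ) / Real.log x ^ (i + 1)) atTop (𝓝 Lam) := by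
    rw [hi] at hL
    have h1 := (hL.comp (tendsto_add_atTop_nat m)).mul (hlogm.pow (i + 1))
    rw [one_pow, mul_one] at h1
    refine h1.congr' ?_
    filter_upwards [log_pos_ev, (tendsto_add_atTop_nat m).eventually log_pos_ev] with n hn hn2
    have hn2 : 0 < Real.log ((n + m : ℕ) : ℝ) := hn2
    simp only [Function.comp, hL']
    rw [div_pow]
    field_simp
  have h0 := poisson (μ := μ) (ℱ := ℱ) (A := A) (F := F) (G := G) (L := L') (Lam := Lam) (D := D) hW rfl hGp hA hd f1 f2 f3 f4 i
    (fun j hj n hn => ((f5 n (fun z => Nat.Coprime z W)).2 ((hGd n).1 hn)) j (by omega)) hg0 hL'm hLam hL'l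
  filter_upwards [h0] with ω hω r
  have h1 := hω r
  rw [hk] at h1
  have h2 : ∀ y, NW A F G L' (i + 1) y ω = wn (PM {a | ω ∈ A a} P) L (y + m) := by
    intro y
    unfold NW wn
    refine Finset.card_bij (fun n _ => n + m) ?_ ?_ ?_
    · intro n hn
      rw [mem_WS] at hn
      have hn1 : n ≤ y + L (y + m) := hn.1.2
      refine Finset.mem_filter.2 ⟨Finset.mem_Ioc.2 ⟨by omega, by omega⟩, ?_⟩
      intro f hf
      have h3 := (f5 n (fun z => ω ∈ A z)).1 (fun j hj => hn.2.2 j (by omega)) f hf
      exact ⟨pv f (n + m), h3, f7 n f hf⟩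
    · intro a _ b _ hab
      have hab : a + m = b + m := hab
      omega
    · intro x hx
      have hx := Finset.mem_filter.1 hx
      have h3 := Finset.mem_Ioc.1 hx.1
      refine ⟨x - m, ?_, by omega⟩
      have hxm : x - m + m = x := by omega
      have h4 : ∀ f ∈ P, ω ∈ A (pv f (x - m + m)) := by
        intro f hf
        obtain ⟨a, ha, ha2⟩ := hx.2 f hf
        have h5 := f7 (x - m) f hf
        rw [hxm] at h5 ⊢
        rw [← h5] at ha2
        have h6 : a = pv f x := by exact_mod_cast ha2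
        rw [← h6]
        exact ha
      rw [mem_WS]
      refine ⟨⟨by omega, ?_⟩, ?_, ?_⟩
      · show x - m ≤ y + L (y + m)
        omega
      · rw [hGd]
        intro f hf
        by_contra hcon
        have h5 := h4 f hf
        rw [hcop _ hcon] at h5
        exact h5
      · intro j hj
        exact (f5 (x - m) (fun z => ω ∈ A z)).2 h4 j (by omega)
  have h3 : ∀ X, |(cn {x | wn (PM {a | ω ∈ A a} P) L x = r} X : ℝ) - cn {x | NW A F G L' (i + 1) x ω = r} X| ≤ m := by
    intro X
    have h4 := cn_shift {x | wn (PM {a | ω ∈ A a} P) L x = r} m X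
    have e : {y | y + m ∈ {x | wn (PM {a | ω ∈ A a} P) L x = r}} = {x | NW A F G L' (i + 1) x ω = r} := by
      ext y
      simp only [mem_ofPred_eq, h2]
    rwa [e] at h4
  have h4 : Tendsto (fun X : ℕ => ((cn {x | wn (PM {a | ω ∈ A a} P) L x = r} X : ℝ) - cn {x | NW A F G L' (i + 1) x ω = r} X) / X)
      atTop (𝓝 0) := by
    refine squeeze_zero_norm' ?_ (tendsto_const_nhds.div_atTop tendsto_natCast_atTop_atTop (a := (m : ℝ)))
    filter_upwards with X
    rw [Real.norm_eq_abs, abs_div, abs_of_nonneg (Nat.cast_nonneg X : (0 : ℝ) ≤ X)]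
    exact div_le_div_of_nonneg_right (h3 X) (Nat.cast_nonneg X)
  have h5 := h4.add h1
  rw [zero_add] at h5
  refine h5.congr fun X => ?_
  ring

end Pool.Agent.N315.PS
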