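import Mathlib
import Pool.Agent.N315.PS.Poly
import Pool.Agent.N315.CC.Gaps

/-!
# From the empty windows to the gaps
-/

set_option autoImplicit false
set_option linter.unusedSectionVars false

open Filter Set
open scoped Topology

namespace Pool.Agent.N315.PS

open Pool.Agent.N740.HK Pool.Agent.N315.CC Pool.Agent.N315.PL

variable {M : Set ℕ} {L L' : ℕ → ℕ}

lemma wn_zero {x : ℕ} : wn M L x = 0 ↔ ∀ n, x < n → n ≤ x + L x → n ∉ M := by
  classical
  unfold wn
  rw [Finset.card_eq_zero, Finset.filter_eq_empty_iff]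
  constructor
  · intro h n h1 h2
    exact h (Finset.mem_Ioc.2 ⟨h1, h2⟩)
  · intro h n hn
    have hn := Finset.mem_Ioc.1 hn
    exact h n hn.1 hn.2

lemma wn_mono {x : ℕ} (h : L x ≤ L' x) : wn M L x ≤ wn M L' x := by
  classical
  unfold wn
  exact Finset.card_le_card (Finset.filter_subset_filter _ (Finset.Ioc_subset_Ioc le_rfl (by omega)))

lemma cn_disj {E F V : Set ℕ} (h : Disjoint E F) (hE : E ⊆ V) (hF : F ⊆ V) (X : ℕ) : cn E X + cn F X ≤ cn V X := by
  classical
  unfold cn
  rw [← Finset.card_union_of_disjoint]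
  · refine Finset.card_le_card fun x hx => ?_
    rcases Finset.mem_union.1 hx with h1 | h1
    · obtain ⟨h2, h3⟩ := Finset.mem_filter.1 h1
      exact Finset.mem_filter.2 ⟨h2, hE h3⟩
    · obtain ⟨h2, h3⟩ := Finset.mem_filter.1 h1
      exact Finset.mem_filter.2 ⟨h2, hF h3⟩
  · rw [Finset.disjoint_left]
    intro x hx hx2
    exact Set.disjoint_left.1 h (Finset.mem_filter.1 hx).2 (Finset.mem_filter.1 hx2).2

lemma cn_sub {E : Set ℕ} {s : Finset ℕ} (h : ∀ x ∈ E, x ∈ s) (X : ℕ) : cn E X ≤ s.card := by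
  classical
  unfold cn
  exact Finset.card_le_card fun x hx => h x (Finset.mem_filter.1 hx).2

lemma cn_lt (m X : ℕ) : cn {x | x < m} X ≤ m := by
  have h1 := cn_sub (E := {x | x < m}) (s := Finset.range m) (fun x hx => Finset.mem_range.2 hx) X
  rwa [Finset.card_range] at h1

open Classical in
/-- the last element up to `x` -/
noncomputable def prv (M : Set ℕ) (x : ℕ) : ℕ := Nat.findGreatest (fun t => t ∈ M) x

lemma prv_facts {x₀ x : ℕ} (h0 : x₀ ∈ M) (hx : x₀ ≤ x) :
    prv M x ∈ M ∧ prv M x ≤ x ∧ x₀ ≤ prv M x ∧ ∀ n, prv M x < n → n ≤ x → n ∉ M := by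
  classical
  refine ⟨Nat.findGreatest_spec (P := fun t => t ∈ M) hx h0, Nat.findGreatest_le x, Nat.le_findGreatest hx h0, ?_⟩
  intro n h1 h2 h3
  exact Nat.findGreatest_is_greatest (P := fun t => t ∈ M) h1 h2 h3

lemma prv_eq {s x : ℕ} (hs : s ∈ M) (hsx : s ≤ x) (h : ∀ n, s < n → n ≤ x → n ∉ M) : prv M x = s := by
  obtain ⟨h1, h2, h3, h4⟩ := prv_facts hs hsx
  by_contra hne
  exact h (prv M x) (by omega) h2 h1

lemma next_facts (hM : M.Infinite) (s : ℕ) :
    nextMember M s ∈ M ∧ s < nextMember M s ∧ ∀ n, s < n → n < nextMember M s → n ∉ M := by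
  have hne : {t | t ∈ M ∧ s < t}.Nonempty := by
    obtain ⟨q, hq1, hq2⟩ := hM.exists_gt s
    exact ⟨q, hq1, hq2⟩
  have h7 := Nat.sInf_mem hne
  refine ⟨h7.1, h7.2, fun n h1 h2 h3 => ?_⟩
  exact absurd (Nat.sInf_le (show n ∈ {t | t ∈ M ∧ s < t} from ⟨h3, h1⟩)) (not_le.2 h2)

/-- the elements followed by a gap larger than `α log ^ k` -/
def GS (M : Set ℕ) (α : ℝ) (k : ℕ) : Set ℕ := {s | s ∈ M ∧ α * Real.log s ^ k < (nextMember M s : ℝ) - s}

lemma gap_iff (hM : M.Infinite) {α : ℝ} (hα : 0 ≤ α) (k s : ℕ) :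
    α * Real.log s ^ k < (nextMember M s : ℝ) - s ↔ s + LL α k s < nextMember M s := by
  have h1 := (next_facts hM s).2.1
  have hl : 0 ≤ α * Real.log s ^ k := mul_nonneg hα (pow_nonneg (Real.log_natCast_nonneg s) k)
  have e : (nextMember M s : ℝ) - s = ((nextMember M s - s : ℕ) : ℝ) := by
    rw [Nat.cast_sub h1.le]
  rw [e, ← Nat.floor_lt hl]
  unfold LL
  omega

/-- many empty windows give many gaps -/
lemma count_up (hM : M.Infinite) {x₀ : ℕ} (h0 : x₀ ∈ M) {α β : ℝ} (hα : 0 ≤ α) (hαβ : α ≤ β) {k : ℕ} (hk : k ≠ 0) (X : ℕ) :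
    (cn {x | wn M (LL α k) x = 0} X : ℝ) - cn {x | wn M (LL β k) x = 0} X ≤
      x₀ + cn (GS M α k) X * ((β - α) * Real.log X ^ k + 1) := by
  classical
  set K : ℕ := ⌊(β - α) * Real.log X ^ k + 1⌋₊ with hK
  have hlX : 0 ≤ Real.log (X : ℝ) := Real.log_natCast_nonneg X
  have hK0 : 0 ≤ (β - α) * Real.log X ^ k + 1 := by
    have : 0 ≤ (β - α) * Real.log X ^ k := mul_nonneg (by linarith) (pow_nonneg hlX k)
    linarith
  set E' : Set ℕ := {x | x₀ ≤ x ∧ wn M (LL α k) x = 0 ∧ wn M (LL β k) x ≠ 0} with hE'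
  set E : Finset ℕ := (Finset.range X).filter (fun x => x ∈ E') with hE
  set T : Finset ℕ := (Finset.range X).filter (fun s => s ∈ GS M α k) with hT
  have hmono := LL_mono (lam := α) hα hk
  have hkey : ∀ x ∈ E, prv M x ∈ M ∧ prv M x ≤ x ∧ x + LL α k x < nextMember M (prv M x) ∧ nextMember M (prv M x) ≤ x + LL β k x := by
    intro x hx
    obtain ⟨hx1, hx2, hx3, hx4⟩ := Finset.mem_filter.1 hx
    obtain ⟨p1, p2, p3, p4⟩ := prv_facts h0 hx2
    obtain ⟨n1, n2, n3⟩ := next_facts hM (prv M x)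
    rw [wn_zero] at hx3
    have h5 : x < nextMember M (prv M x) := by
      by_contra hcon
      exact p4 _ n2 (not_lt.1 hcon) n1
    refine ⟨p1, p2, ?_, ?_⟩
    · by_contra hcon
      exact hx3 _ h5 (not_lt.1 hcon) n1
    · by_contra hcon
      apply hx4
      rw [wn_zero]
      intro n hn1 hn2
      exact n3 n (by omega) (by omega)
  have hmaps : ∀ x ∈ E, prv M x ∈ T := by
    intro x hx
    obtain ⟨q1, q2, q3, q4⟩ := hkey x hx
    have hx1 := Finset.mem_range.1 (Finset.mem_filter.1 hx).1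
    refine Finset.mem_filter.2 ⟨Finset.mem_range.2 (by omega), q1, ?_⟩
    rw [gap_iff hM hα]
    have := hmono q2
    omega
  have hfib : ∀ s ∈ T, (E.filter (fun x => prv M x = s)).card ≤ K := by
    intro s _
    rcases (E.filter (fun x => prv M x = s)).eq_empty_or_nonempty with h | h
    · rw [h, Finset.card_empty]
      exact Nat.zero_le _
    · set a := (E.filter (fun x => prv M x = s)).min' h with ha
      have ha1 := Finset.min'_mem _ h
      rw [← ha, Finset.mem_filter] at ha1
      obtain ⟨_, _, _, a4⟩ := hkey a ha1.1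
      rw [ha1.2] at a4
      have hsub : E.filter (fun x => prv M x = s) ⊆ Finset.Ico a (a + (LL β k a - LL α k a)) := by
        intro x hx
        have h1 := Finset.min'_le _ x hx
        rw [← ha] at h1
        have hx := Finset.mem_filter.1 hx
        obtain ⟨_, _, b3, _⟩ := hkey x hx.1
        rw [hx.2] at b3
        have h2 := hmono h1
        exact Finset.mem_Ico.2 ⟨h1, by omega⟩
      refine (Finset.card_le_card hsub).trans ?_
      rw [Nat.card_Ico, Nat.add_sub_cancel_left]
      refine Nat.le_floor ?_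
      have haX : a < X := Finset.mem_range.1 (Finset.mem_filter.1 ha1.1).1
      have hla : 0 ≤ Real.log (a : ℝ) := Real.log_natCast_nonneg a
      have hlaX : Real.log (a : ℝ) ^ k ≤ Real.log X ^ k := by
        refine pow_le_pow_left₀ hla ?_ k
        rcases Nat.eq_zero_or_pos a with h3 | h3
        · rw [h3, Nat.cast_zero, Real.log_zero]
          exact hlX
        · exact Real.log_le_log (by exact_mod_cast h3) (by exact_mod_cast haX.le)
      have h3 : (LL β k a : ℝ) ≤ β * Real.log a ^ k := Nat.floor_le (mul_nonneg (by linarith) (pow_nonneg hla k))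
      have h4 : α * Real.log a ^ k < (LL α k a : ℝ) + 1 := Nat.lt_floor_add_one _
      have h5 : LL α k a ≤ LL β k a := Nat.floor_mono (mul_le_mul_of_nonneg_right hαβ (pow_nonneg hla k))
      rw [Nat.cast_sub h5]
      have h6 := mul_le_mul_of_nonneg_left hlaX (show 0 ≤ β - α by linarith)
      linarith
  have hcard := Finset.card_le_mul_card_image_of_maps_to hmaps K hfib
  have hsub : cn {x | wn M (LL α k) x = 0} X ≤ x₀ + E.card + cn {x | wn M (LL β k) x = 0} X := by
    have h1 : {x | wn M (LL α k) x = 0} ⊆ ({x | x < x₀} ∪ E') ∪ {x | wn M (LL β k) x = 0} := by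
      intro x h2
      by_cases h3 : wn M (LL β k) x = 0
      · exact Or.inr h3
      · refine Or.inl ?_
        by_cases h4 : x < x₀
        · exact Or.inl h4
        · exact Or.inr ⟨not_lt.1 h4, h2, h3⟩
    refine (cn_mono h1 X).trans ((cn_union _ _ X).trans ?_)
    have h5 := cn_union {x | x < x₀} E' X
    have h6 := cn_lt x₀ X
    have h7 : cn E' X = E.card := by
      unfold cn
      congr!
    omega
  have hTc : T.card = cn (GS M α k) X := rfl
  rw [hTc] at hcard
  have h1 : (cn {x | wn M (LL α k) x = 0} X : ℝ) ≤ x₀ + E.card + cn {x | wn M (LL β k) x = 0} X := by exact_mod_cast hsub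
  have h2 : (E.card : ℝ) ≤ K * cn (GS M α k) X := by exact_mod_cast hcard
  have h3 : (K : ℝ) ≤ (β - α) * Real.log X ^ k + 1 := Nat.floor_le hK0
  have h4 := mul_le_mul_of_nonneg_right h3 (Nat.cast_nonneg (cn (GS M α k) X) : (0 : ℝ) ≤ _)
  linarith

/-- many gaps give many empty windows -/
lemma count_down (hM : M.Infinite) {α β : ℝ} (hα : 0 ≤ α) (hαβ : α ≤ β) {k : ℕ} (hk : k ≠ 0) (X Y : ℕ) :
    ((LL β k Y - LL α k X : ℕ) : ℝ) * ((cn (GS M β k) X : ℝ) - Y - 1) ≤
      (cn {x | wn M (LL α k) x = 0} X : ℝ) - cn {x | wn M (LL β k) x = 0} X := by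
  classical
  have hβ : 0 ≤ β := hα.trans hαβ
  have hmα := LL_mono (lam := α) hα hk
  have hmβ := LL_mono (lam := β) hβ hk
  set T' : Set ℕ := {s | s ∈ GS M β k ∧ Y ≤ s ∧ nextMember M s ≤ X} with hT'
  set T : Finset ℕ := (Finset.range X).filter (fun s => s ∈ T') with hT
  set E' : Set ℕ := {x | (wn M (LL α k) x = 0 ∧ wn M (LL β k) x ≠ 0) ∧ prv M x ∈ T} with hE'
  set E : Finset ℕ := (Finset.range X).filter (fun x => x ∈ E') with hE
  have hfib : ∀ s ∈ T, LL β k Y - LL α k X ≤ (E.filter (fun x => prv M x = s)).card := by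
    intro s hs
    obtain ⟨s1, ⟨s2, s3⟩, s4, s5⟩ := Finset.mem_filter.1 hs
    rw [gap_iff hM hβ] at s3
    obtain ⟨n1, n2, n3⟩ := next_facts hM s
    have h1 : LL β k Y ≤ LL β k s := hmβ s4
    have hsub : Finset.Ico (nextMember M s - LL β k Y) (nextMember M s - LL α k X) ⊆ E.filter (fun x => prv M x = s) := by
      intro x hx
      have hx := Finset.mem_Ico.1 hx
      have hsx : s ≤ x := by omega
      have hp : prv M x = s := prv_eq s2 hsx fun n hn1 hn2 => n3 n hn1 (by omega)
      have hxX : x < X := by omega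
      have h2 : LL α k x ≤ LL α k X := hmα hxX.le
      have h3 : LL β k Y ≤ LL β k x := hmβ (s4.trans hsx)
      refine Finset.mem_filter.2 ⟨Finset.mem_filter.2 ⟨Finset.mem_range.2 hxX, ⟨?_, ?_⟩, by rw [hp]; exact hs⟩, hp⟩
      · rw [wn_zero]
        intro n hn1 hn2
        exact n3 n (by omega) (by omega)
      · rw [Ne, wn_zero]
        intro hcon
        exact hcon (nextMember M s) (by omega) (by omega) n1
    refine le_trans ?_ (Finset.card_le_card hsub)
    rw [Nat.card_Ico]
    omega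
  have hmaps : ∀ x ∈ E, prv M x ∈ T := fun x hx => (Finset.mem_filter.1 hx).2.2
  have hcard := Finset.mul_card_image_le_card_of_maps_to hmaps _ hfib
  have hsub : cn {x | wn M (LL β k) x = 0} X + E.card ≤ cn {x | wn M (LL α k) x = 0} X := by
    have h7 : cn E' X = E.card := by
      unfold cn
      congr!
    rw [← h7]
    refine cn_disj (E := {x | wn M (LL β k) x = 0}) (F := E') ?_ ?_ ?_ X
    · rw [Set.disjoint_left]
      intro x hx hx2
      exact hx2.1.2 hx
    · intro x h2
      have h3 : LL α k x ≤ LL β k x := Nat.floor_mono (mul_le_mul_of_nonneg_right hαβ (pow_nonneg (Real.log_natCast_nonneg x) k))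
      have h4 := wn_mono (M := M) h3
      have h2 : wn M (LL β k) x = 0 := h2
      show wn M (LL α k) x = 0
      omega
    · intro x hx
      exact hx.1.1
  have hTc : cn (GS M β k) X ≤ Y + 1 + T.card := by
    unfold cn
    have h1 : (Finset.range X).filter (fun s => s ∈ GS M β k) ⊆ (Finset.range Y ∪ {prv M (X - 1)}) ∪ T := by
      intro s hs
      obtain ⟨h1, h2⟩ := Finset.mem_filter.1 hs
      have h1' := Finset.mem_range.1 h1
      by_cases h3 : s < Y
      · exact Finset.mem_union_left _ (Finset.mem_union_left _ (Finset.mem_range.2 h3))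
      · by_cases h4 : nextMember M s ≤ X
        · exact Finset.mem_union_right _ (Finset.mem_filter.2 ⟨h1, h2, not_lt.1 h3, h4⟩)
        · refine Finset.mem_union_left _ (Finset.mem_union_right _ (Finset.mem_singleton.2 ?_))
          obtain ⟨n1, n2, n3⟩ := next_facts hM s
          exact (prv_eq h2.1 (by omega) fun n hn1 hn2 => n3 n hn1 (by omega)).symm
    refine (Finset.card_le_card h1).trans ((Finset.card_union_le _ _).trans ?_)
    have := Finset.card_union_le (Finset.range Y) {prv M (X - 1)}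
    rw [Finset.card_range, Finset.card_singleton] at this
    exact Nat.add_le_add_right this _
  have h1 : (cn {x | wn M (LL β k) x = 0} X : ℝ) + E.card ≤ cn {x | wn M (LL α k) x = 0} X := by exact_mod_cast hsub
  have hTE : ((LL β k Y - LL α k X : ℕ) : ℝ) * T.card ≤ E.card := by
    have hle : (LL β k Y - LL α k X) * T.card ≤ E.card := by
      exact hcard
    exact_mod_cast hle
  have h2 : (cn (GS M β k) X : ℝ) ≤ Y + 1 + T.card := by exact_mod_cast hTc
  have h3 := mul_le_mul_of_nonneg_left (show (cn (GS M β k) X : ℝ) - Y - 1 ≤ T.card by linarith)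
    (Nat.cast_nonneg (LL β k Y - LL α k X) : (0 : ℝ) ≤ _)
  linarith

end Pool.Agent.N315.PS
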