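import Mathlib
import Pool.Agent.N315.PS.Det

/-!
# The exponential law of the gaps
-/

set_option autoImplicit false
set_option linter.unusedSectionVars false

open Filter Set
open scoped Topology

namespace Pool.Agent.N315.PS

open Pool.Agent.N740.HK Pool.Agent.N315.CC Pool.Agent.N315.PL

variable {M : Set ℕ}

/-- a slightly smaller number -/
noncomputable def YY (k X : ℕ) : ℕ := ⌊(X : ℝ) / Real.log X ^ (k + 1)⌋₊

lemma YY_log (k : ℕ) : Tendsto (fun X : ℕ => Real.log (YY k X) / Real.log X) atTop (𝓝 1) := by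
  have h1 : Tendsto (fun X : ℕ => 1 - Real.log 2 / Real.log X - (k + 1) * (Real.log (Real.log X) / Real.log X)) atTop (𝓝 1) := by
    have h2 : Tendsto (fun X : ℕ => Real.log 2 / Real.log X) atTop (𝓝 0) := tendsto_const_nhds.div_atTop tendsto_logN
    have h3 : Tendsto (fun X : ℕ => Real.log (Real.log X) / Real.log X) atTop (𝓝 0) :=
      Real.isLittleO_log_id_atTop.tendsto_div_nhds_zero.comp tendsto_logN
    have h4 := (h2.const_sub 1).sub (h3.const_mul ((k : ℝ) + 1))
    simpa using h4
  have h5 : ∀ᶠ x : ℝ in atTop, 2 * Real.log x ^ (k + 1) ≤ x := by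
    have h2 := (Real.isLittleO_pow_log_id_atTop (n := k + 1)).def (show (0 : ℝ) < 1 / 2 by norm_num)
    filter_upwards [h2, eventually_gt_atTop 1] with x hx hx0
    have hl : 0 ≤ Real.log x := Real.log_nonneg hx0.le
    rw [Real.norm_of_nonneg (by positivity), id, Real.norm_of_nonneg (by linarith)] at hx
    linarith
  refine tendsto_of_tendsto_of_tendsto_of_le_of_le' h1 (tendsto_const_nhds (x := (1 : ℝ))) ?_ ?_
  · filter_upwards [tendsto_natCast_atTop_atTop.eventually h5, tendsto_logN.eventually_ge_atTop 1, eventually_gt_atTop 0] with X hX hl hX0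
    have hX0' : (0 : ℝ) < X := by exact_mod_cast hX0
    have hl0 : 0 < Real.log (X : ℝ) := by linarith
    have hp : 0 < Real.log (X : ℝ) ^ (k + 1) := by positivity
    have h6 : 2 ≤ (X : ℝ) / Real.log X ^ (k + 1) := by rwa [le_div_iff₀ hp]
    have h7 : (X : ℝ) / Real.log X ^ (k + 1) < (YY k X : ℝ) + 1 := Nat.lt_floor_add_one _
    have h8 : (X : ℝ) / Real.log X ^ (k + 1) / 2 ≤ YY k X := by linarith
    have h9 : Real.log ((X : ℝ) / Real.log X ^ (k + 1) / 2) ≤ Real.log (YY k X) := Real.log_le_log (by positivity) h8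
    have h10 : Real.log ((X : ℝ) / Real.log X ^ (k + 1) / 2) = Real.log X - (k + 1) * Real.log (Real.log X) - Real.log 2 := by
      rw [Real.log_div (by positivity) (by norm_num), Real.log_div hX0'.ne' hp.ne', Real.log_pow]
      push_cast
      ring
    rw [h10] at h9
    rw [le_div_iff₀ hl0]
    have e : (1 - Real.log 2 / Real.log X - (k + 1) * (Real.log (Real.log X) / Real.log X)) * Real.log X =
        Real.log X - (k + 1) * Real.log (Real.log X) - Real.log 2 := by
      field_simp
      ring
    rw [e]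
    exact h9
  · filter_upwards [tendsto_logN.eventually_ge_atTop 1, eventually_gt_atTop 0] with X hl hX0
    have hX0' : (0 : ℝ) < X := by exact_mod_cast hX0
    rw [div_le_one (by linarith)]
    have h1 : (YY k X : ℝ) ≤ X := by
      refine (Nat.floor_le (by positivity)).trans ?_
      exact div_le_self hX0'.le (one_le_pow₀ hl)
    rcases Nat.eq_zero_or_pos (YY k X) with h | h
    · rw [h, Nat.cast_zero, Real.log_zero]
      linarith
    · exact Real.log_le_log (by exact_mod_cast h) h1

lemma YY_top (k : ℕ) : Tendsto (YY k) atTop atTop := by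
  have h1 : Tendsto (fun X : ℕ => Real.log (YY k X)) atTop atTop := by
    have h2 := Tendsto.pos_mul_atTop one_pos (YY_log k) tendsto_logN
    refine h2.congr' ?_
    filter_upwards [log_pos_ev] with X hX
    field_simp
  have h2 : Tendsto (fun X : ℕ => ((YY k X : ℕ) : ℝ)) atTop atTop :=
    tendsto_atTop_mono (fun X => Real.log_le_self (Nat.cast_nonneg _)) h1
  exact tendsto_natCast_atTop_iff.1 h2

lemma YY_small (k : ℕ) : Tendsto (fun X : ℕ => ((YY k X : ℝ) + 1) * Real.log X ^ k / X) atTop (𝓝 0) := by
  have h1 : Tendsto (fun X : ℕ => 1 / Real.log X + Real.log X ^ k / X) atTop (𝓝 (0 + 0)) := by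
    refine (tendsto_const_nhds.div_atTop tendsto_logN).add ?_
    exact (Real.isLittleO_pow_log_id_atTop (n := k)).tendsto_div_nhds_zero.comp tendsto_natCast_atTop_atTop
  rw [add_zero] at h1
  refine squeeze_zero' ?_ ?_ h1
  · filter_upwards [log_pos_ev] with X hX
    positivity
  · filter_upwards [log_pos_ev, eventually_gt_atTop 0] with X hX hX0
    have hX0' : (0 : ℝ) < X := by exact_mod_cast hX0
    have h2 : (YY k X : ℝ) ≤ X / Real.log X ^ (k + 1) := Nat.floor_le (by positivity)
    have h3 : (YY k X : ℝ) * Real.log X ^ k / X ≤ 1 / Real.log X := by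
      rw [div_le_div_iff₀ hX0' hX, one_mul]
      have h4 := mul_le_mul_of_nonneg_right h2 (show 0 ≤ Real.log (X : ℝ) ^ (k + 1) by positivity)
      rw [div_mul_cancel₀ _ (by positivity), pow_succ, ← mul_assoc] at h4
      exact h4
    rw [add_mul, one_mul, add_div]
    linarith

theorem gap_count (hM : M.Infinite) {C : ℝ} (hC : 0 < C) {k : ℕ} (hk : k ≠ 0)
    (hV : ∀ η : ℝ, 0 < η → Tendsto (fun X : ℕ => (cn {x | wn M (LL (η / C) k) x = 0} X : ℝ) / X) atTop (𝓝 (Real.exp (-η))))
    {lam : ℝ} (hlam : 0 < lam) :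
    Tendsto (fun X : ℕ => (cn (GS M (lam / C) k) X : ℝ) * Real.log X ^ k / X) atTop (𝓝 (C * Real.exp (-lam))) := by
  have hE1 : Real.exp (-lam) ≤ 1 := Real.exp_le_one_iff.2 (by linarith)
  have hE0 : 0 < Real.exp (-lam) := Real.exp_pos _
  have hinvk : Tendsto (fun X : ℕ => 1 / Real.log (X : ℝ) ^ k) atTop (𝓝 0) :=
    tendsto_const_nhds.div_atTop ((tendsto_pow_atTop hk).comp tendsto_logN)
  -- choice of `h`
  have hchoice : ∀ ε : ℝ, 0 < ε → ∃ h : ℝ, 0 < h ∧ h < lam ∧ h ≤ 1 ∧ C * h < ε := by
    intro ε hε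
    refine ⟨min (min (lam / 2) 1) (ε / (2 * C)), by positivity, ?_, ?_, ?_⟩
    · exact ((min_le_left _ _).trans (min_le_left _ _)).trans_lt (by linarith)
    · exact (min_le_left _ _).trans (min_le_right _ _)
    · have h1 : C * min (min (lam / 2) 1) (ε / (2 * C)) ≤ C * (ε / (2 * C)) := mul_le_mul_of_nonneg_left (min_le_right _ _) hC.le
      have h2 : C * (ε / (2 * C)) = ε / 2 := by field_simp
      linarith
  refine tendsto_order.2 ⟨fun a ha => ?_, fun b hb => ?_⟩
  · obtain ⟨h, h0, _, h1, h2⟩ := hchoice (C * Real.exp (-lam) - a) (by linarith)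
    obtain ⟨x₀, hx₀⟩ := hM.nonempty
    have e1 := hV lam hlam
    have e2 := hV (lam + h) (by linarith)
    have e3 : Tendsto (fun X : ℕ => (x₀ : ℝ) / X) atTop (𝓝 0) := tendsto_const_nhds.div_atTop tendsto_natCast_atTop_atTop
    have e4 := ((e1.sub e2).sub e3).div (hinvk.const_add (h / C)) (by positivity : h / C + 0 ≠ 0)
    rw [sub_zero, add_zero] at e4
    have hval : a < (Real.exp (-lam) - Real.exp (-(lam + h))) / (h / C) := by
      rw [lt_div_iff₀ (by positivity)]
      have h3 : Real.exp (-(lam + h)) = Real.exp (-lam) * Real.exp (-h) := by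
        rw [← Real.exp_add]
        congr 1
        ring
      have h4 : Real.exp (-h) ≤ 1 - h + h ^ 2 := by
        have h5 := (phi_facts (θ := -h) (by rw [abs_neg, abs_of_pos h0]; exact h1)).2
        nlinarith
      have h5 : Real.exp (-lam) * (h - h ^ 2) ≤ Real.exp (-lam) - Real.exp (-(lam + h)) := by
        rw [h3]
        have := mul_le_mul_of_nonneg_left h4 hE0.le
        nlinarith
      refine lt_of_lt_of_le ?_ h5
      rw [mul_div_assoc', div_lt_iff₀ hC]
      have h6 : a < C * Real.exp (-lam) - C * h := by linarith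
      have h7 : a * h < (C * Real.exp (-lam) - C * h) * h := mul_lt_mul_of_pos_right h6 h0
      have h8 : C * (h * (h * Real.exp (-lam))) ≤ C * (h * h) :=
        mul_le_mul_of_nonneg_left (mul_le_mul_of_nonneg_left (mul_le_of_le_one_right h0.le hE1) h0.le) hC.le
      nlinarith
    filter_upwards [e4.eventually_const_lt hval, log_pos_ev, eventually_gt_atTop 0] with X hX hl hX0
    refine hX.trans_le ?_
    have hX0' : (0 : ℝ) < X := by exact_mod_cast hX0
    have hp : 0 < Real.log (X : ℝ) ^ k := by positivity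
    have h5 := count_up hM hx₀ (α := lam / C) (β := (lam + h) / C) (by positivity)
      (div_le_div_of_nonneg_right (by linarith) hC.le) hk X
    simp only [Pi.div_apply, Pi.sub_apply]
    rw [div_le_iff₀ (by positivity)]
    have e5 : (lam + h) / C - lam / C = h / C := by ring
    rw [e5] at h5
    have e6 : (cn (GS M (lam / C) k) X : ℝ) * Real.log X ^ k / X * (h / C + 1 / Real.log X ^ k) =
        cn (GS M (lam / C) k) X * (h / C * Real.log X ^ k + 1) / X := by
      field_simp
    rw [e6, ← sub_div, ← sub_div]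
    exact div_le_div_of_nonneg_right (by linarith) hX0'.le
  · obtain ⟨h, h0, hhl, h1, h2⟩ := hchoice (b - C * Real.exp (-lam)) (by linarith)
    have hlh : 0 < lam - h := by linarith
    have e1 := hV (lam - h) hlh
    have e2 := hV lam hlam
    -- the size of the windows
    have u1 : Tendsto (fun X : ℕ => (LL (lam / C) k (YY k X) : ℝ) / Real.log X ^ k) atTop (𝓝 (lam / C)) := by
      have h3 := ((LL_lim (lam := lam / C) (by positivity) hk).comp (YY_top k)).mul ((YY_log k).pow k)
      rw [one_pow, mul_one] at h3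
      refine h3.congr' ?_
      filter_upwards [log_pos_ev, (YY_top k).eventually log_pos_ev] with X hX hX2
      simp only [Function.comp]
      rw [div_pow]
      field_simp
    have u2 : Tendsto (fun X : ℕ => (LL ((lam - h) / C) k X : ℝ) / Real.log X ^ k) atTop (𝓝 ((lam - h) / C)) :=
      LL_lim (by positivity) hk
    have u3 := u1.sub u2
    have e5 : lam / C - (lam - h) / C = h / C := by ring
    rw [e5] at u3
    have hpos : 0 < h / C := by positivity
    have e4 := (YY_small k).add ((e1.sub e2).div u3 hpos.ne')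
    rw [zero_add] at e4
    have hval : (Real.exp (-(lam - h)) - Real.exp (-lam)) / (h / C) < b := by
      rw [div_lt_iff₀ hpos]
      have h3 : Real.exp (-(lam - h)) = Real.exp (-lam) * Real.exp h := by
        rw [← Real.exp_add]
        congr 1
        ring
      have h4 : Real.exp h ≤ 1 + h + h ^ 2 := by
        have h5 := (phi_facts (θ := h) (by rw [abs_of_pos h0]; exact h1)).2
        nlinarith
      have h5 : Real.exp (-(lam - h)) - Real.exp (-lam) ≤ Real.exp (-lam) * (h + h ^ 2) := by
        rw [h3]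
        have := mul_le_mul_of_nonneg_left h4 hE0.le
        nlinarith
      refine lt_of_le_of_lt h5 ?_
      rw [mul_div_assoc', lt_div_iff₀ hC]
      have h6 : C * Real.exp (-lam) + C * h < b := by linarith
      have h7 : (C * Real.exp (-lam) + C * h) * h < b * h := mul_lt_mul_of_pos_right h6 h0
      have h8 : C * (h * (h * Real.exp (-lam))) ≤ C * (h * h) :=
        mul_le_mul_of_nonneg_left (mul_le_mul_of_nonneg_left (mul_le_of_le_one_right h0.le hE1) h0.le) hC.le
      nlinarith
    filter_upwards [e4.eventually_lt_const hval, log_pos_ev, eventually_gt_atTop 0, u3.eventually_const_lt hpos] with X hX hl hX0 hu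
    refine lt_of_le_of_lt ?_ hX
    have hX0' : (0 : ℝ) < X := by exact_mod_cast hX0
    have hp : 0 < Real.log (X : ℝ) ^ k := by positivity
    have h5 := count_down hM (α := (lam - h) / C) (β := lam / C) (by positivity)
      (div_le_div_of_nonneg_right (by linarith) hC.le) hk X (YY k X)
    have hu' : (LL ((lam - h) / C) k X : ℝ) < LL (lam / C) k (YY k X) := by
      rw [← sub_div] at hu
      have := (div_pos_iff_of_pos_right hp).1 hu
      linarith
    have hu'' : LL ((lam - h) / C) k X ≤ LL (lam / C) k (YY k X) := by exact_mod_cast hu'.le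
    rw [Nat.cast_sub hu''] at h5
    simp only [Pi.div_apply, Pi.sub_apply]
    set u : ℝ := (LL (lam / C) k (YY k X) : ℝ) - LL ((lam - h) / C) k X with hudef
    have hu0 : 0 < u := by linarith
    have h6 : (cn (GS M (lam / C) k) X : ℝ) ≤ (YY k X + 1) +
        ((cn {x | wn M (LL ((lam - h) / C) k) x = 0} X : ℝ) - cn {x | wn M (LL (lam / C) k) x = 0} X) / u := by
      have h7 : (cn (GS M (lam / C) k) X : ℝ) - YY k X - 1 ≤
          ((cn {x | wn M (LL ((lam - h) / C) k) x = 0} X : ℝ) - cn {x | wn M (LL (lam / C) k) x = 0} X) / u := by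
        rw [le_div_iff₀ hu0]
        linarith
      linarith
    have h7 := div_le_div_of_nonneg_right (mul_le_mul_of_nonneg_right h6 hp.le) hX0'.le
    refine h7.trans (le_of_eq ?_)
    rw [add_mul, add_div, ← sub_div, ← sub_div]
    congr 1
    rw [← hudef]
    field_simp

/-- **the exponential law of the gaps** -/
theorem gap_law (hM : M.Infinite) {C : ℝ} (hC : 0 < C) {k : ℕ} (hk : k ≠ 0)
    (hcount : Tendsto (fun X : ℕ => (cn M X : ℝ) * Real.log X ^ k / X) atTop (𝓝 C))
    (hV : ∀ η : ℝ, 0 < η → Tendsto (fun X : ℕ => (cn {x | wn M (LL (η / C) k) x = 0} X : ℝ) / X) atTop (𝓝 (Real.exp (-η))))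
    {lam : ℝ} (hlam : 0 < lam) :
    Tendsto (fun X : ℕ => (cn (GS M (lam / C) k) X : ℝ) / cn M X) atTop (𝓝 (Real.exp (-lam))) := by
  have h1 := (gap_count hM hC hk hV hlam).div hcount hC.ne'
  have e : C * Real.exp (-lam) / C = Real.exp (-lam) := by field_simp
  rw [e] at h1
  refine h1.congr' ?_
  filter_upwards [log_pos_ev, eventually_gt_atTop 0] with X hl hX0
  have hX0' : (0 : ℝ) < X := by exact_mod_cast hX0
  simp only [Pi.div_apply]
  rcases eq_or_ne (cn M X : ℝ) 0 with h | h
  · rw [h]
    simp
  · field_simp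

end Pool.Agent.N315.PS
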