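import Mathlib
import Pool.Agent.N315.PS.GapLaw

/-!
# All window lengths at once; small changes of the set
-/

set_option autoImplicit false
set_option linter.unusedSectionVars false

open Filter Set
open scoped Topology

namespace Pool.Agent.N315.PS

open Pool.Agent.N740.HK Pool.Agent.N315.CC Pool.Agent.N315.PL

variable {M : Set ℕ}

lemma cn_mono_lt {E E' : Set ℕ} {X : ℕ} (h : ∀ x < X, x ∈ E → x ∈ E') : cn E X ≤ cn E' X := by
  classical
  unfold cn
  refine Finset.card_le_card fun x hx => ?_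
  obtain ⟨a1, a2⟩ := Finset.mem_filter.1 hx
  exact Finset.mem_filter.2 ⟨a1, h x (Finset.mem_range.1 a1) a2⟩

lemma cn_compl (E : Set ℕ) (X : ℕ) : cn E X + cn Eᶜ X = X := by
  classical
  have h := Finset.card_filter_add_card_filter_not (s := Finset.range X) (fun x => x ∈ E)
  rw [Finset.card_range] at h
  have h1 : cn E X = ((Finset.range X).filter (fun x => x ∈ E)).card := by unfold cn; congr!
  have h2 : cn Eᶜ X = ((Finset.range X).filter (fun x => ¬ x ∈ E)).card := by unfold cn; congr!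
  rw [h1, h2]
  exact h

lemma cn_le_sum (N : ℕ → ℕ) (r X : ℕ) : (cn {x | N x ≤ r} X : ℝ) = ∑ j ∈ Finset.range (r + 1), (cn {x | N x = j} X : ℝ) := by
  have h1 := cn_split N (r + 1) X
  have h2 := cn_compl {x | N x ≤ r} X
  have e : {x | N x ≤ r}ᶜ = {x | r + 1 ≤ N x} := by
    ext x
    simp only [mem_compl_iff, mem_ofPred_eq]
    omega
  rw [e] at h2
  have h3 : (cn {x | N x ≤ r} X : ℝ) + cn {x | r + 1 ≤ N x} X = X := by exact_mod_cast h2
  linarith

/-- the weights of the Poisson law -/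
noncomputable def po (lam : ℝ) (r : ℕ) : ℝ := lam ^ r / (r.factorial : ℝ) * Real.exp (-lam)

lemma po_cont (r : ℕ) : Continuous (fun lam : ℝ => po lam r) := by
  unfold po
  fun_prop

/-- from rational to real lengths of the windows -/
theorem all_real {C : ℝ} (hC : 0 < C) {k : ℕ}
    (h : ∀ q : ℚ, 0 < q → ∀ r : ℕ, Tendsto (fun X : ℕ => (cn {x | wn M (LL ((q : ℝ) / C) k) x = r} X : ℝ) / X) atTop (𝓝 (po q r)))
    {lam : ℝ} (hlam : 0 < lam) (r : ℕ) :
    Tendsto (fun X : ℕ => (cn {x | wn M (LL (lam / C) k) x = r} X : ℝ) / X) atTop (𝓝 (po lam r)) := by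
  have hq : ∀ q : ℚ, 0 < q → ∀ r : ℕ, Tendsto (fun X : ℕ => (cn {x | wn M (LL ((q : ℝ) / C) k) x ≤ r} X : ℝ) / X) atTop
      (𝓝 (∑ j ∈ Finset.range (r + 1), po q j)) := by
    intro q hq r
    have h1 := tendsto_finset_sum (Finset.range (r + 1)) (fun j _ => h q hq j)
    refine h1.congr fun X => ?_
    rw [← Finset.sum_div, ← cn_le_sum (fun x => wn M (LL ((q : ℝ) / C) k) x) r X]
  have hLm : ∀ {a b : ℝ}, a ≤ b → ∀ x, LL (a / C) k x ≤ LL (b / C) k x := fun hab x =>
    Nat.floor_mono (mul_le_mul_of_nonneg_right (div_le_div_of_nonneg_right hab hC.le) (pow_nonneg (Real.log_natCast_nonneg x) k))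
  have hcdf : ∀ r : ℕ, Tendsto (fun X : ℕ => (cn {x | wn M (LL (lam / C) k) x ≤ r} X : ℝ) / X) atTop
      (𝓝 (∑ j ∈ Finset.range (r + 1), po lam j)) := by
    intro r
    have hcont : Continuous (fun l : ℝ => ∑ j ∈ Finset.range (r + 1), po l j) := continuous_finsetSum _ fun j _ => po_cont j
    refine tendsto_order.2 ⟨fun a ha => ?_, fun b hb => ?_⟩
    · -- a longer window
      have h1 : ∀ᶠ l in 𝓝 lam, a < ∑ j ∈ Finset.range (r + 1), po l j := hcont.continuousAt.eventually_const_lt ha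
      obtain ⟨δ, hδ, hb⟩ := Metric.eventually_nhds_iff.1 h1
      obtain ⟨q, hq1, hq2⟩ := exists_rat_btwn (show lam < lam + δ by linarith)
      have hq0 : (0 : ℚ) < q := by exact_mod_cast hlam.trans hq1
      have h2 := hb (y := (q : ℝ)) (by rw [Real.dist_eq, abs_of_pos (by linarith)]; linarith)
      filter_upwards [(hq q hq0 r).eventually_const_lt h2] with X hX
      refine hX.trans_le (div_le_div_of_nonneg_right ?_ (Nat.cast_nonneg X))
      have h3 : {x | wn M (LL ((q : ℝ) / C) k) x ≤ r} ⊆ {x | wn M (LL (lam / C) k) x ≤ r} := fun x hx =>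
        (wn_mono (hLm hq1.le x)).trans hx
      exact_mod_cast cn_mono h3 X
    · have h1 : ∀ᶠ l in 𝓝 lam, ∑ j ∈ Finset.range (r + 1), po l j < b := hcont.continuousAt.eventually_lt_const hb
      obtain ⟨δ, hδ, hb⟩ := Metric.eventually_nhds_iff.1 h1
      obtain ⟨q, hq1, hq2⟩ := exists_rat_btwn (show max 0 (lam - δ) < lam from max_lt hlam (by linarith))
      have hq0 : (0 : ℚ) < q := by exact_mod_cast (le_max_left _ _).trans_lt hq1
      have hq1' : lam - δ < q := (le_max_right _ _).trans_lt hq1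
      have h2 := hb (y := (q : ℝ)) (by rw [Real.dist_eq, abs_sub_comm, abs_of_pos (by linarith)]; linarith)
      filter_upwards [(hq q hq0 r).eventually_lt_const h2] with X hX
      refine lt_of_le_of_lt (div_le_div_of_nonneg_right ?_ (Nat.cast_nonneg X)) hX
      have h3 : {x | wn M (LL (lam / C) k) x ≤ r} ⊆ {x | wn M (LL ((q : ℝ) / C) k) x ≤ r} := fun x hx =>
        (wn_mono (hLm hq2.le x)).trans hx
      exact_mod_cast cn_mono h3 X
  rcases r with _ | r
  · have h1 := hcdf 0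
    simp only [Nat.le_zero, zero_add, Finset.range_one, Finset.sum_singleton] at h1
    exact h1
  · have h1 := (hcdf (r + 1)).sub (hcdf r)
    rw [Finset.sum_range_succ _ (r + 1), add_sub_cancel_left] at h1
    refine h1.congr fun X => ?_
    rw [cn_le_sum, cn_le_sum, Finset.sum_range_succ _ (r + 1), ← sub_div, add_sub_cancel_left]

/-- a sparse set meets few windows -/
lemma sparse {E : Set ℕ} {k : ℕ} (hE : Tendsto (fun X : ℕ => (cn E X : ℝ) * Real.log X ^ k / X) atTop (𝓝 0))
    {α : ℝ} (hα : 0 ≤ α) (hk : k ≠ 0) : UB {x | wn E (LL α k) x ≠ 0} 0 := by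
  classical
  -- every element is in few windows
  have h1 : ∀ X : ℕ, cn {x | wn E (LL α k) x ≠ 0} X ≤ cn E (X + (LL α k X + 1)) * LL α k X := by
    intro X
    set B : Finset ℕ := (Finset.range (X + (LL α k X + 1))).filter (fun n => n ∈ E) with hB
    have h2 : ∀ x ∈ {x | wn E (LL α k) x ≠ 0} ∩ {x | x < X}, x ∈ B.biUnion (fun n => Finset.Ico (n - LL α k X) n) := by
      intro x hx
      obtain ⟨hx1, hx2⟩ := hx
      have hx2 : x < X := hx2
      have hx1 : wn E (LL α k) x ≠ 0 := hx1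
      rw [Ne, wn_zero] at hx1
      push Not at hx1
      obtain ⟨n, hn1, hn2, hn3⟩ := hx1
      have h3 : LL α k x ≤ LL α k X := LL_mono hα hk hx2.le
      exact Finset.mem_biUnion.2 ⟨n, Finset.mem_filter.2 ⟨Finset.mem_range.2 (by omega), hn3⟩, Finset.mem_Ico.2 ⟨by omega, hn1⟩⟩
    have h3 : cn {x | wn E (LL α k) x ≠ 0} X ≤ cn ({x | wn E (LL α k) x ≠ 0} ∩ {x | x < X}) X :=
      cn_mono_lt fun x hx hx2 => ⟨hx2, hx⟩
    refine h3.trans ((cn_sub h2 X).trans (Finset.card_biUnion_le.trans ?_))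
    refine (Finset.sum_le_card_nsmul _ _ (LL α k X) fun n _ => ?_).trans (le_of_eq ?_)
    · rw [Nat.card_Ico]
      omega
    · rw [smul_eq_mul]
      congr 1
  intro ε hε
  have hL : Tendsto (fun x : ℕ => (LL α k x : ℝ) / Real.log x ^ k) atTop (𝓝 α) := LL_lim hα hk
  have hsh : Tendsto (fun X : ℕ => X + (LL α k X + 1)) atTop atTop :=
    tendsto_atTop_mono (fun X => Nat.le_add_right X _) tendsto_id
  have h2 := hE.comp hsh
  have hη : 0 < ε / (2 * (α + 1)) := by positivity
  filter_upwards [h2.eventually_lt_const hη, hL.eventually_lt_const (show α < α + 1 by linarith), log_pos_ev, L_sqrt hL,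
    eventually_gt_atTop 3] with X g1 g2 hl g3 hX0
  rw [zero_add]
  have hX0' : (1 : ℝ) < X := by exact_mod_cast (by omega : 1 < X)
  set Z : ℕ := X + (LL α k X + 1) with hZ
  have hZX : (X : ℝ) ≤ Z := by
    have : X ≤ Z := by omega
    exact_mod_cast this
  have hsq : Real.sqrt X ≤ X := by
    rw [Real.sqrt_le_left (by linarith)]
    nlinarith
  have hZ2 : (Z : ℝ) ≤ 2 * X := by
    have : (Z : ℝ) = X + ((LL α k X + 1 : ℕ) : ℝ) := by rw [hZ]; push_cast; ring
    rw [this]
    linarith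
  have hlZ : Real.log (X : ℝ) ^ k ≤ Real.log Z ^ k := pow_le_pow_left₀ hl.le (Real.log_le_log (by linarith) hZX) k
  simp only [Function.comp] at g1
  have hZ0 : (0 : ℝ) < Z := by linarith
  rw [div_lt_iff₀ hZ0] at g1
  rw [div_lt_iff₀ (by positivity)] at g2
  have h3 : (cn {x | wn E (LL α k) x ≠ 0} X : ℝ) ≤ cn E Z * LL α k X := by exact_mod_cast h1 X
  have hcE : (0 : ℝ) ≤ cn E Z := Nat.cast_nonneg _
  have h4 : (cn E Z : ℝ) * LL α k X ≤ (α + 1) * (cn E Z * Real.log Z ^ k) := by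
    have h5 : (LL α k X : ℝ) ≤ (α + 1) * Real.log Z ^ k := g2.le.trans (mul_le_mul_of_nonneg_left hlZ (by linarith))
    have := mul_le_mul_of_nonneg_left h5 hcE
    linarith
  have h5 : (α + 1) * (cn E Z * Real.log Z ^ k) ≤ (α + 1) * (ε / (2 * (α + 1)) * Z) := mul_le_mul_of_nonneg_left g1.le (by linarith)
  have h6 : (α + 1) * (ε / (2 * (α + 1)) * Z) = ε / 2 * Z := by field_simp
  have h7 : ε / 2 * Z ≤ ε / 2 * (2 * X) := mul_le_mul_of_nonneg_left hZ2 (by positivity)
  linarith

lemma wn_union {E F : Set ℕ} {L : ℕ → ℕ} {x : ℕ} (hEF : F ⊆ M) (hE : M ⊆ F ∪ E) (h : wn E L x = 0) : wn F L x = wn M L x := by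
  classical
  unfold wn
  congr 1
  rw [wn_zero] at h
  refine Finset.filter_congr fun n hn => ?_
  have hn := Finset.mem_Ioc.1 hn
  constructor
  · exact fun h2 => hEF h2
  · intro h2
    rcases hE h2 with h3 | h3
    · exact h3
    · exact absurd h3 (h n hn.1 hn.2)

/-- a sparse change of the set does not change the laws -/
theorem change {F E : Set ℕ} {k : ℕ} (hk : k ≠ 0) (hEF : F ⊆ M) (hE : M ⊆ F ∪ E)
    (hs : Tendsto (fun X : ℕ => (cn E X : ℝ) * Real.log X ^ k / X) atTop (𝓝 0)) {α p : ℝ} (hα : 0 ≤ α) (r : ℕ)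
    (h : Tendsto (fun X : ℕ => (cn {x | wn M (LL α k) x = r} X : ℝ) / X) atTop (𝓝 p)) :
    Tendsto (fun X : ℕ => (cn {x | wn F (LL α k) x = r} X : ℝ) / X) atTop (𝓝 p) := by
  have h1 := sparse hs hα hk
  have h2 : ∀ X, |(cn {x | wn F (LL α k) x = r} X : ℝ) - cn {x | wn M (LL α k) x = r} X| ≤ cn {x | wn E (LL α k) x ≠ 0} X := by
    intro X
    have a1 : {x | wn F (LL α k) x = r} ⊆ {x | wn M (LL α k) x = r} ∪ {x | wn E (LL α k) x ≠ 0} := by
      intro x hx
      by_cases h3 : wn E (LL α k) x = 0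
      · left
        rw [mem_ofPred_eq, ← wn_union hEF hE h3]
        exact hx
      · exact Or.inr h3
    have a2 : {x | wn M (LL α k) x = r} ⊆ {x | wn F (LL α k) x = r} ∪ {x | wn E (LL α k) x ≠ 0} := by
      intro x hx
      by_cases h3 : wn E (LL α k) x = 0
      · left
        rw [mem_ofPred_eq, wn_union hEF hE h3]
        exact hx
      · exact Or.inr h3
    have b1 := (cn_mono a1 X).trans (cn_union _ _ X)
    have b2 := (cn_mono a2 X).trans (cn_union _ _ X)
    have b1' : (cn {x | wn F (LL α k) x = r} X : ℝ) ≤ cn {x | wn M (LL α k) x = r} X + cn {x | wn E (LL α k) x ≠ 0} X := by exact_mod_cast b1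
    have b2' : (cn {x | wn M (LL α k) x = r} X : ℝ) ≤ cn {x | wn F (LL α k) x = r} X + cn {x | wn E (LL α k) x ≠ 0} X := by exact_mod_cast b2
    rw [abs_le]
    constructor <;> linarith
  have h3 : Tendsto (fun X : ℕ => (cn {x | wn E (LL α k) x ≠ 0} X : ℝ) / X) atTop (𝓝 0) := by
    refine tendsto_order.2 ⟨fun a ha => Eventually.of_forall fun X => lt_of_lt_of_le ha (by positivity), fun b hb => ?_⟩
    filter_upwards [h1 (b / 2) (by positivity), eventually_gt_atTop 0] with X hX hX0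
    have hX0' : (0 : ℝ) < X := by exact_mod_cast hX0
    rw [div_lt_iff₀ hX0']
    have : (0 + b / 2) * X < b * X := mul_lt_mul_of_pos_right (by linarith) hX0'
    linarith
  have h4 : Tendsto (fun X : ℕ => ((cn {x | wn F (LL α k) x = r} X : ℝ) - cn {x | wn M (LL α k) x = r} X) / X) atTop (𝓝 0) := by
    refine squeeze_zero_norm' ?_ h3
    filter_upwards with X
    rw [Real.norm_eq_abs, abs_div, abs_of_nonneg (Nat.cast_nonneg X : (0 : ℝ) ≤ X)]
    exact div_le_div_of_nonneg_right (h2 X) (Nat.cast_nonneg X)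
  have h5 := h4.add h
  rw [zero_add] at h5
  refine h5.congr fun X => ?_
  ring

end Pool.Agent.N315.PS
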