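import Mathlib
import Pool.Agent.N315.PS.Real
import Pool.Agent.R528.RM.BHOut

/-!
# The Poisson law for all systems of polynomials in all sieved sequential models
-/

set_option autoImplicit false
set_option linter.unusedSectionVars false

open MeasureTheory Filter Set Polynomial
open scoped ENNReal Topology

namespace Pool.Agent.N315.PS

open Pool.Agent.R528.RM Pool.Agent.N740.HK Pool.Agent.N315.CC Pool.Agent.N315.PL

variable {Ω : Type} {m0 : MeasurableSpace Ω} {μ : Measure Ω} [IsProbabilityMeasure μ]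
  {ℱ : Filtration ℕ m0} {A : ℕ → Set Ω}

/-- the constant -/
noncomputable def bc (Q : Finset ℕ) (P : Finset ℤ[X]) : ℝ :=
  (∏ p ∈ Q, (1 - (omegaF P p : ℝ) / p) / (1 - 1 / (p : ℝ)) ^ P.card) * ∏ f ∈ P, ((f.natDegree : ℝ))⁻¹

lemma cn_ncard (E : Set ℕ) (X : ℕ) : cn E X = {n | n < X ∧ n ∈ E}.ncard := by
  classical
  unfold cn
  rw [← Set.ncard_coe_finset]
  congr 1
  ext n
  simp only [Finset.coe_filter, Finset.mem_range]

lemma bc_eq (Q : Finset ℕ) (hQ : ∀ p ∈ Q, p.Prime) (P : Finset ℤ[X]) : bhConst (∏ p ∈ Q, p) P = bc Q P := by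
  unfold bhConst bc
  rw [← mul_assoc, const_prod P Q hQ]
  congr 1
  refine Finset.prod_congr rfl fun p hp => ?_
  have h4 := omega_good P (hQ p hp)
  have h5 : (Nat.count (good P p) p : ℝ) + omegaF P p = p := by exact_mod_cast h4
  have h6 : (0 : ℝ) < p := by exact_mod_cast (hQ p hp).pos
  have h7 : (Nat.count (good P p) p : ℝ) / p = 1 - (omegaF P p : ℝ) / p := by
    field_simp
    linarith
  rw [h7, inv_pow]
  exact (div_eq_mul_inv _ _).symm

lemma inf_of_count {M : Set ℕ} {k : ℕ} {c : ℝ} (hc : 0 < c)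
    (h : Tendsto (fun X : ℕ => (cn M X : ℝ) * Real.log X ^ k / X) atTop (𝓝 c)) : M.Infinite := by
  intro hfin
  have h1 : Tendsto (fun X : ℕ => (hfin.toFinset.card : ℝ) * (Real.log X ^ k / X)) atTop (𝓝 0) := by
    have h3 := ((Real.isLittleO_pow_log_id_atTop (n := k)).tendsto_div_nhds_zero.comp tendsto_natCast_atTop_atTop).const_mul (hfin.toFinset.card : ℝ)
    rw [mul_zero] at h3
    exact h3
  have h2 : c ≤ 0 := by
    refine le_of_tendsto_of_tendsto h h1 ?_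
    filter_upwards with X
    rw [mul_div_assoc]
    refine mul_le_mul_of_nonneg_right ?_ (div_nonneg (pow_nonneg (Real.log_natCast_nonneg X) k) (Nat.cast_nonneg X))
    exact_mod_cast cn_sub (fun x hx => hfin.mem_toFinset.2 hx) X
  linarith

/-- **the counting law and the Poisson law** -/
theorem full (hA : ∀ n, MeasurableSet[ℱ n] (A n)) (Q : Finset ℕ) (hQ : ∀ p ∈ Q, p.Prime)
    (hcop : ∀ n, (∃ p ∈ Q, p ∣ n) → A n = ∅)
    (hd : ∀ᵐ ω ∂μ, Tendsto (fun n : ℕ => dens μ ℱ A n ω * Real.log n)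
      (atTop ⊓ 𝓟 {n : ℕ | ∀ p ∈ Q, ¬ p ∣ n + 1}) (𝓝 (∏ p ∈ Q, (1 - 1 / (p : ℝ))⁻¹))) :
    ∀ᵐ ω ∂μ, ∀ P : Finset ℤ[X], (∀ f ∈ P, 0 < f.natDegree ∧ 0 < f.leadingCoeff) →
      Tendsto (fun X : ℕ => (cn (PM {a | ω ∈ A a} P) X : ℝ) * Real.log X ^ P.card / X) atTop (𝓝 (bc Q P)) ∧
      (P.Nonempty → 0 < bc Q P → ∀ lam : ℝ, 0 < lam → ∀ r : ℕ,
        Tendsto (fun X : ℕ => (cn {x | wn (PM {a | ω ∈ A a} P) (LL (lam / bc Q P) P.card) x = r} X : ℝ) / X) atTop (𝓝 (po lam r))) := by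
  classical
  haveI : Countable ℤ[X] := by
    rw [← Cardinal.mk_le_aleph0_iff]
    refine Polynomial.cardinalMk_le_max.trans ?_
    simp
  set W := ∏ p ∈ Q, p with hWdef
  have hW : 0 < W := Finset.prod_pos fun q hq => (hQ q hq).pos
  have hc : ∀ n, Nat.Coprime n W ↔ ∀ p ∈ Q, ¬ p ∣ n := by
    intro n
    rw [hWdef, Nat.coprime_prod_right_iff]
    refine forall₂_congr fun p hp => ?_
    rw [Nat.coprime_comm]
    exact Nat.Prime.coprime_iff_not_dvd (hQ p hp)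
  have hcop' : ∀ n, ¬ Nat.Coprime n W → A n = ∅ := fun n hn => hcop n (by
    rw [hc] at hn
    push Not at hn
    exact hn)
  have hprof := dens_profile (μ := μ) (ℱ := ℱ) hA W hW hcop' (by
    rw [totient_prod Q hQ]
    simp_rw [hc]
    exact hd)
  have h1 : ∀ᵐ ω ∂μ, ∀ (P : Finset ℤ[X]), (P.Nonempty ∧ (∀ f ∈ P, 0 < f.natDegree ∧ 0 < f.leadingCoeff) ∧ 0 < bc Q P) →
      ∀ (q : ℚ), 0 < q → ∀ r : ℕ,
        Tendsto (fun X : ℕ => (cn {x | wn (PM {a | ω ∈ A a} P) (LL ((q : ℝ) / bc Q P) P.card) x = r} X : ℝ) / X) atTop (𝓝 (po q r)) := by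
    refine ae_all_iff.2 fun P => ae_all_iff.2 fun hP => ae_all_iff.2 fun q => ae_all_iff.2 fun hq => ?_
    obtain ⟨hne, hP, hC⟩ := hP
    have hq' : (0 : ℝ) < q := by exact_mod_cast hq
    have hk : P.card ≠ 0 := (Finset.card_pos.2 hne).ne'
    have hLam : 0 < (q : ℝ) / bc Q P := by positivity
    have h2 := poisson_poly (μ := μ) (ℱ := ℱ) (A := A) (L := LL ((q : ℝ) / bc Q P) P.card) (Lam := (q : ℝ) / bc Q P) hW hA hcop' hprof P hne hP
      (by rw [bc_eq Q hQ]; exact hC) (LL_mono hLam.le hk) hLam (LL_lim hLam.le hk)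
    rw [bc_eq Q hQ, div_mul_cancel₀ _ hC.ne'] at h2
    exact h2
  filter_upwards [h1, bh_final (μ := μ) (ℱ := ℱ) hA Q hQ hcop hd] with ω h2 h3 P hP
  refine ⟨?_, ?_⟩
  · refine (h3 P hP).congr fun X => ?_
    rw [cn_ncard]
    rfl
  · intro hne hC lam hlam r
    exact all_real hC (fun q hq r => h2 P ⟨hne, hP, hC⟩ q hq r) hlam r

/-- the exponential law of the gaps, for a set which differs little from the set of a system -/
theorem full_gaps {M F E : Set ℕ} {C : ℝ} (hC : 0 < C) {k : ℕ} (hk : k ≠ 0) (hFM : F ⊆ M) (hE : M ⊆ F ∪ E)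
    (hM1 : Tendsto (fun X : ℕ => (cn M X : ℝ) * Real.log X ^ k / X) atTop (𝓝 C))
    (hE1 : Tendsto (fun X : ℕ => (cn E X : ℝ) * Real.log X ^ k / X) atTop (𝓝 0))
    (hM2 : ∀ lam : ℝ, 0 < lam → ∀ r : ℕ, Tendsto (fun X : ℕ => (cn {x | wn M (LL (lam / C) k) x = r} X : ℝ) / X) atTop (𝓝 (po lam r))) :
    Tendsto (fun X : ℕ => (cn F X : ℝ) * Real.log X ^ k / X) atTop (𝓝 C) ∧
    ∀ lam : ℝ, 0 < lam →
      (∀ r : ℕ, Tendsto (fun X : ℕ => (cn {x | wn F (LL (lam / C) k) x = r} X : ℝ) / X) atTop (𝓝 (po lam r))) ∧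
      Tendsto (fun X : ℕ => (cn (GS F (lam / C) k) X : ℝ) / cn F X) atTop (𝓝 (Real.exp (-lam))) := by
  have h1 : Tendsto (fun X : ℕ => (cn F X : ℝ) * Real.log X ^ k / X) atTop (𝓝 C) := by
    have h2 := hM1.sub hE1
    rw [sub_zero] at h2
    refine tendsto_of_tendsto_of_tendsto_of_le_of_le h2 hM1 (fun X => ?_) (fun X => ?_)
    · show (cn M X : ℝ) * Real.log X ^ k / X - (cn E X : ℝ) * Real.log X ^ k / X ≤ (cn F X : ℝ) * Real.log X ^ k / X
      rw [← sub_div, ← sub_mul]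
      refine div_le_div_of_nonneg_right (mul_le_mul_of_nonneg_right ?_ (pow_nonneg (Real.log_natCast_nonneg X) k)) (Nat.cast_nonneg X)
      have h3 := (cn_mono hE X).trans (cn_union _ _ X)
      have h4 : (cn M X : ℝ) ≤ cn F X + cn E X := by exact_mod_cast h3
      linarith
    · show (cn F X : ℝ) * Real.log X ^ k / X ≤ (cn M X : ℝ) * Real.log X ^ k / X
      refine div_le_div_of_nonneg_right (mul_le_mul_of_nonneg_right ?_ (pow_nonneg (Real.log_natCast_nonneg X) k)) (Nat.cast_nonneg X)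
      exact_mod_cast cn_mono hFM X
  have h2 : ∀ lam : ℝ, 0 < lam → ∀ r : ℕ, Tendsto (fun X : ℕ => (cn {x | wn F (LL (lam / C) k) x = r} X : ℝ) / X) atTop (𝓝 (po lam r)) :=
    fun lam hlam r => change hk hFM hE hE1 (by positivity) r (hM2 lam hlam r)
  refine ⟨h1, fun lam hlam => ⟨h2 lam hlam, ?_⟩⟩
  refine gap_law (inf_of_count hC h1) hC hk h1 (fun η hη => ?_) hlam
  have h3 := h2 η hη 0
  unfold po at h3
  simpa using h3

end Pool.Agent.N315.PS
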