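import Mathlib
import Pool.Agent.N740.HK.Sch
import Pool.Agent.N315.PS.Full

/-!
# The laws for systems of polynomials, in elementary form

`use`: in every sieved sequential model, almost surely, for all finite systems `P` of integer polynomials of
positive degree and positive leading coefficient whose truncated constant of Bateman and Horn `bc Q P` is positive,
the set `PM S P` of the `n` with all values `f(n)`, `f ∈ P`, chosen satisfies: the counting law, the Poisson law for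
the numbers of its elements in windows of length `(λ / c) log ^ k x`, and the exponential law for its gaps, for all
`λ > 0` at once.  `use_change`: the same for sets which differ from `PM S P` by few elements.
-/

set_option autoImplicit false
set_option linter.unusedSectionVars false

open MeasureTheory Filter Set Polynomial ProbabilityTheory
open scoped ENNReal Topology

namespace Pool.Agent.N315.PS

open Pool.Agent.R528.RM Pool.Agent.N740.HK Pool.Agent.N315.CC Pool.Agent.N315.PL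

lemma wn_ncard (M : Set ℕ) {α : ℝ} (hα : 0 ≤ α) (k x : ℕ) :
    {n | n ∈ M ∧ x < n ∧ (n : ℝ) ≤ x + α * Real.log x ^ k}.ncard = wn M (LL α k) x := by
  classical
  have hy : 0 ≤ α * Real.log x ^ k := mul_nonneg hα (pow_nonneg (Real.log_natCast_nonneg x) k)
  unfold wn
  rw [← Set.ncard_coe_finset]
  congr 1
  ext n
  simp only [Finset.coe_filter, Finset.mem_Ioc, mem_ofPred_eq]
  have h1 : x < n → ((n : ℝ) ≤ x + α * Real.log x ^ k ↔ n ≤ x + LL α k x) := by
    intro hn
    have e : (n : ℝ) = x + ((n - x : ℕ) : ℝ) := by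
      rw [Nat.cast_sub hn.le]
      ring
    constructor
    · intro h
      have h2 : ((n - x : ℕ) : ℝ) ≤ α * Real.log x ^ k := by linarith
      have h3 : n - x ≤ LL α k x := Nat.le_floor h2
      omega
    · intro h
      have h3 : n - x ≤ LL α k x := by omega
      have h4 : ((n - x : ℕ) : ℝ) ≤ α * Real.log x ^ k := (Nat.le_floor_iff hy).1 h3
      linarith
  constructor
  · rintro ⟨h2, h3, h4⟩
    exact ⟨⟨h3, (h1 h3).1 h4⟩, h2⟩
  · rintro ⟨⟨h3, h4⟩, h2⟩
    exact ⟨h2, h3, (h1 h3).2 h4⟩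

/-- the three laws for a set `M` with constant `c` and exponent `k`; `next M s` is the least element of `M` above `s` -/
def Laws (next : Set ℕ → ℕ → ℕ) (M : Set ℕ) (c : ℝ) (k : ℕ) : Prop :=
  Tendsto (fun X : ℕ => ({n : ℕ | n < X ∧ n ∈ M}.ncard : ℝ) * Real.log X ^ k / X) atTop (𝓝 c) ∧
  ∀ lam : ℝ, 0 < lam →
    (∀ r : ℕ, Tendsto (fun X : ℕ => ({x : ℕ | x < X ∧
      {n : ℕ | n ∈ M ∧ x < n ∧ (n : ℝ) ≤ x + lam / c * Real.log x ^ k}.ncard = r}.ncard : ℝ) / X)
      atTop (𝓝 (lam ^ r / (r.factorial : ℝ) * Real.exp (-lam)))) ∧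
    Tendsto (fun X : ℕ => ({s : ℕ | s < X ∧ s ∈ M ∧ lam / c * Real.log s ^ k < (next M s : ℝ) - s}.ncard : ℝ) /
      ({s : ℕ | s < X ∧ s ∈ M}.ncard : ℝ)) atTop (𝓝 (Real.exp (-lam)))

/-- the laws for a set which differs little from the set of a system -/
theorem use_change {M F E : Set ℕ} {c : ℝ} (hC : 0 < c) {k : ℕ} (hk : k ≠ 0) (hFM : F ⊆ M) (hE : M ⊆ F ∪ E)
    (hM1 : Tendsto (fun X : ℕ => (cn M X : ℝ) * Real.log X ^ k / X) atTop (𝓝 c))
    (hE1 : Tendsto (fun X : ℕ => (cn E X : ℝ) * Real.log X ^ k / X) atTop (𝓝 0))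
    (hM2 : ∀ lam : ℝ, 0 < lam → ∀ r : ℕ, Tendsto (fun X : ℕ => (cn {x | wn M (LL (lam / c) k) x = r} X : ℝ) / X) atTop (𝓝 (po lam r))) :
    Laws (fun M s => sInf {t | t ∈ M ∧ s < t}) F c k := by
  obtain ⟨g1, g2⟩ := full_gaps hC hk hFM hE hM1 hE1 hM2
  refine ⟨g1.congr fun X => by rw [cn_ncard], fun lam hlam => ?_⟩
  obtain ⟨g3, g4⟩ := g2 lam hlam
  refine ⟨fun r => ?_, ?_⟩
  · refine (g3 r).congr fun X => ?_
    rw [cn_ncard]
    congr 3
    ext x
    simp only [mem_ofPred_eq]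
    rw [wn_ncard _ (by positivity)]
  · refine g4.congr fun X => ?_
    rw [cn_ncard, cn_ncard]
    rfl

/-- **the laws for all systems of polynomials in every sieved sequential model** -/
theorem use {Ω : Type} {m0 : MeasurableSpace Ω} {μ : Measure Ω} [IsProbabilityMeasure μ]
    {ℱ : Filtration ℕ m0} {A : ℕ → Set Ω} (hA : ∀ n, MeasurableSet[ℱ n] (A n)) (Q : Finset ℕ) (hQ : ∀ p ∈ Q, p.Prime)
    (hcop : ∀ n, (∃ p ∈ Q, p ∣ n) → A n = ∅)
    (hd : ∀ᵐ ω ∂μ, Tendsto (fun n : ℕ => (μ[(A (n + 1)).indicator (fun _ => (1 : ℝ)) | ℱ n]) ω * Real.log n)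
      (atTop ⊓ 𝓟 {n : ℕ | ∀ p ∈ Q, ¬ p ∣ n + 1}) (𝓝 (∏ p ∈ Q, (1 - 1 / (p : ℝ))⁻¹))) :
    ∀ᵐ ω ∂μ, ∀ P : Finset ℤ[X], (∀ f ∈ P, 0 < f.natDegree ∧ 0 < f.leadingCoeff) → P.Nonempty → 0 < bc Q P →
      Laws (fun M s => sInf {t | t ∈ M ∧ s < t}) (PM {a | ω ∈ A a} P) (bc Q P) P.card := by
  filter_upwards [full (μ := μ) (ℱ := ℱ) hA Q hQ hcop hd] with ω hω P hP hne hC
  obtain ⟨m1, m2⟩ := hω P hP
  refine use_change hC (Finset.card_pos.2 hne).ne' (subset_refl _) (E := ∅) subset_union_left m1 ?_ (m2 hne hC)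
  have e : ∀ X, cn ∅ X = 0 := by
    intro X
    have := cn_sub (E := (∅ : Set ℕ)) (s := ∅) (fun x hx => absurd hx (notMem_empty x)) X
    simpa using this
  simp only [e, Nat.cast_zero, zero_mul, zero_div]
  exact tendsto_const_nhds

end Pool.Agent.N315.PS
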