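import Mathlib
import Pool.Agent.N315.PS.Use

/-!
# Systems of polynomials with excluded values
-/

set_option autoImplicit false
set_option linter.unusedSectionVars false

open MeasureTheory Filter Set Polynomial ProbabilityTheory
open scoped ENNReal Topology

namespace Pool.Agent.N315.PS

open Pool.Agent.R528.RM Pool.Agent.N740.HK Pool.Agent.N315.CC Pool.Agent.N315.PL

lemma cn_fin {ι : Type} (J : Finset ι) (E : ι → Set ℕ) (X : ℕ) : cn {x | ∃ j ∈ J, x ∈ E j} X ≤ ∑ j ∈ J, cn (E j) X := by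
  classical
  unfold cn
  refine le_trans (Finset.card_le_card (t := J.biUnion (fun j => (Finset.range X).filter (fun x => x ∈ E j))) ?_) Finset.card_biUnion_le
  intro x hx
  simp only [Finset.mem_filter, Finset.mem_biUnion, mem_ofPred_eq] at hx ⊢
  obtain ⟨h1, j, hj, h2⟩ := hx
  exact ⟨j, hj, h1, h2⟩

/-- the `n` at which all values of the polynomials in `P` are in `S` and no value of the polynomials in `N` is -/
def PN (S : Set ℕ) (P N : Finset ℤ[X]) : Set ℕ :=
  {n | (∀ f ∈ P, ∃ a ∈ S, (a : ℤ) = f.eval (n : ℤ)) ∧ ∀ g ∈ N, ¬ ∃ a ∈ S, (a : ℤ) = g.eval (n : ℤ)}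

theorem excl {S : Set ℕ} {Q : Finset ℕ}
    (hω : ∀ P : Finset ℤ[X], (∀ f ∈ P, 0 < f.natDegree ∧ 0 < f.leadingCoeff) →
      Tendsto (fun X : ℕ => (cn (PM S P) X : ℝ) * Real.log X ^ P.card / X) atTop (𝓝 (bc Q P)) ∧
      (P.Nonempty → 0 < bc Q P → ∀ lam : ℝ, 0 < lam → ∀ r : ℕ,
        Tendsto (fun X : ℕ => (cn {x | wn (PM S P) (LL (lam / bc Q P) P.card) x = r} X : ℝ) / X) atTop (𝓝 (po lam r))))
    (P N : Finset ℤ[X]) (hne : P.Nonempty) (hP : ∀ f ∈ P, 0 < f.natDegree ∧ 0 < f.leadingCoeff)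
    (hN : ∀ g ∈ N, 0 < g.natDegree ∧ 0 < g.leadingCoeff) (hPN : ∀ g ∈ N, g ∉ P) (hC : 0 < bc Q P) :
    Laws (fun M s => sInf {t | t ∈ M ∧ s < t}) (PN S P N) (bc Q P) P.card := by
  classical
  obtain ⟨m1, m2⟩ := hω P hP
  refine use_change hC (Finset.card_pos.2 hne).ne' (M := PM S P) (E := {x | ∃ g ∈ N, x ∈ PM S (insert g P)})
    (fun n hn => hn.1) ?_ m1 ?_ (m2 hne hC)
  · intro n hn
    by_cases h : ∀ g ∈ N, ¬ ∃ a ∈ S, (a : ℤ) = g.eval (n : ℤ)
    · exact Or.inl ⟨hn, h⟩
    · right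
      push Not at h
      obtain ⟨g, hg, a, ha, ha2⟩ := h
      refine ⟨g, hg, fun f hf => ?_⟩
      rcases Finset.mem_insert.1 hf with rfl | hf
      · exact ⟨a, ha, ha2⟩
      · exact hn f hf
  · have h1 : ∀ g ∈ N, Tendsto (fun X : ℕ => (cn (PM S (insert g P)) X : ℝ) * Real.log X ^ P.card / X) atTop (𝓝 0) := by
      intro g hg
      obtain ⟨e1, _⟩ := hω (insert g P) (by
        intro f hf
        rcases Finset.mem_insert.1 hf with rfl | hf
        · exact hN f hg
        · exact hP f hf)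
      rw [Finset.card_insert_of_notMem (hPN g hg)] at e1
      have h3 : Tendsto (fun x : ℕ => (Real.log (x : ℝ))⁻¹) atTop (𝓝 0) :=
        (Real.tendsto_log_atTop.comp tendsto_natCast_atTop_atTop).inv_tendsto_atTop
      have h4 := e1.mul h3
      rw [mul_zero] at h4
      refine h4.congr' ?_
      filter_upwards [eventually_ge_atTop 3] with x hx
      have hx' : (3 : ℝ) ≤ x := by exact_mod_cast hx
      have hL : Real.log (x : ℝ) ≠ 0 := (Real.log_pos (by linarith)).ne'
      rw [pow_succ]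
      field_simp
    have h2 := tendsto_finsetSum N h1
    rw [Finset.sum_const_zero] at h2
    refine squeeze_zero (fun X => ?_) (fun X => ?_) h2
    · exact div_nonneg (mul_nonneg (Nat.cast_nonneg _) (pow_nonneg (Real.log_natCast_nonneg X) _)) (Nat.cast_nonneg X)
    · rw [← Finset.sum_div, ← Finset.sum_mul]
      refine div_le_div_of_nonneg_right (mul_le_mul_of_nonneg_right ?_ (pow_nonneg (Real.log_natCast_nonneg X) _)) (Nat.cast_nonneg X)
      exact_mod_cast cn_fin N (fun g => PM S (insert g P)) X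

end Pool.Agent.N315.PS
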