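import Mathlib
import Pool.Agent.N315.PS.Excl

/-!
# Windows with many elements of a thin set; patterns given by shifts
-/

set_option autoImplicit false
set_option linter.unusedSectionVars false

open MeasureTheory Filter Set Polynomial
open scoped ENNReal Topology

namespace Pool.Agent.N315.PS

open Pool.Agent.R528.RM Pool.Agent.N740.HK Pool.Agent.N315.CC Pool.Agent.N315.PL

lemma sum_wn {E : Set ℕ} {L : ℕ → ℕ} (hLm : Monotone L) (X : ℕ) :
    ∑ x ∈ Finset.range X, wn E L x ≤ cn E (X + (L X + 1)) * L X := by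
  classical
  set B : Finset ℕ := (Finset.range (X + (L X + 1))).filter (fun n => n ∈ E) with hB
  have h1 : ∀ x ∈ Finset.range X, wn E L x ≤ (B.bipartiteAbove (fun x n => x ∈ Finset.Ico (n - L X) n) x).card := by
    intro x hx
    have hx := Finset.mem_range.1 hx
    unfold wn
    refine Finset.card_le_card fun n hn => ?_
    obtain ⟨h2, h3⟩ := Finset.mem_filter.1 hn
    have h2 := Finset.mem_Ioc.1 h2
    have h4 : L x ≤ L X := hLm hx.le
    refine Finset.mem_filter.2 ⟨Finset.mem_filter.2 ⟨Finset.mem_range.2 (by omega), h3⟩, ?_⟩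
    exact Finset.mem_Ico.2 ⟨by omega, h2.1⟩
  refine (Finset.sum_le_sum h1).trans ?_
  rw [Finset.sum_card_bipartiteAbove_eq_sum_card_bipartiteBelow]
  have h2 : ∀ n ∈ B, ((Finset.range X).bipartiteBelow (fun x n => x ∈ Finset.Ico (n - L X) n) n).card ≤ L X := by
    intro n _
    refine (Finset.card_le_card (t := Finset.Ico (n - L X) n) fun x hx => (Finset.mem_filter.1 hx).2).trans ?_
    rw [Nat.card_Ico]
    omega
  refine (Finset.sum_le_card_nsmul _ _ _ h2).trans (le_of_eq ?_)
  rw [smul_eq_mul]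
  congr 1

lemma few {E : Set ℕ} {k : ℕ} {C : ℝ} (hC0 : 0 ≤ C) (hE : ∀ᶠ X : ℕ in atTop, (cn E X : ℝ) * Real.log X ^ k ≤ C * X)
    {α : ℝ} (hα : 0 ≤ α) (hk : k ≠ 0) {ε : ℝ} (hε : 0 < ε) : UB {x | ε * Real.log x < (wn E (LL α k) x : ℝ)} 0 := by
  classical
  intro η hη
  have hLm : Monotone (LL α k) := LL_mono hα hk
  have hL : Tendsto (fun x : ℕ => (LL α k x : ℝ) / Real.log x ^ k) atTop (𝓝 α) := LL_lim hα hk
  have hsh : Tendsto (fun X : ℕ => X + (LL α k X + 1)) atTop atTop :=
    tendsto_atTop_mono (fun X => Nat.le_add_right X _) tendsto_id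
  have e1 : ∀ᶠ X : ℕ in atTop, 16 * (α + 1) * C / (ε * η) + 1 ≤ Real.log X := tendsto_logN.eventually_ge_atTop _
  have e2 : ∀ᶠ X : ℕ in atTop, 2 * Real.log (2 / η) ≤ Real.log X := tendsto_logN.eventually_ge_atTop _
  have e3 : ∀ᶠ X : ℕ in atTop, 4 / η ≤ (X : ℝ) := tendsto_natCast_atTop_atTop.eventually_ge_atTop _
  filter_upwards [hsh.eventually hE, hL.eventually_lt_const (show α < α + 1 by linarith), log_pos_ev, L_sqrt hL,
    eventually_gt_atTop 3, e1, e2, e3] with X g1 g2 hl g3 hX0 g4 g5 g6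
  rw [zero_add]
  have hX0' : (1 : ℝ) < X := by exact_mod_cast (by omega : 1 < X)
  set Z : ℕ := X + (LL α k X + 1) with hZ
  have hZX : (X : ℝ) ≤ Z := by
    have : X ≤ Z := by omega
    exact_mod_cast this
  have hsq : Real.sqrt X ≤ X := by
    rw [Real.sqrt_le_left (by linarith)]
    nlinarith
  have hZ2 : (Z : ℝ) ≤ 2 * X := by
    have : (Z : ℝ) = X + ((LL α k X + 1 : ℕ) : ℝ) := by rw [hZ]; push_cast; ring
    rw [this]
    linarith
  have hlZ : Real.log (X : ℝ) ^ k ≤ Real.log Z ^ k := pow_le_pow_left₀ hl.le (Real.log_le_log (by linarith) hZX) k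
  rw [div_lt_iff₀ (by positivity)] at g2
  have hcE : (0 : ℝ) ≤ cn E Z := Nat.cast_nonneg _
  -- the sum over all windows
  have h1 : (∑ x ∈ Finset.range X, (wn E (LL α k) x : ℝ)) ≤ (α + 1) * (C * (2 * X)) := by
    have h2 : (∑ x ∈ Finset.range X, (wn E (LL α k) x : ℝ)) ≤ cn E Z * LL α k X := by exact_mod_cast sum_wn hLm X
    have h5 : (LL α k X : ℝ) ≤ (α + 1) * Real.log Z ^ k := g2.le.trans (mul_le_mul_of_nonneg_left hlZ (by linarith))
    calc _ ≤ (cn E Z : ℝ) * LL α k X := h2
      _ ≤ cn E Z * ((α + 1) * Real.log Z ^ k) := mul_le_mul_of_nonneg_left h5 hcE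
      _ = (α + 1) * (cn E Z * Real.log Z ^ k) := by ring
      _ ≤ (α + 1) * (C * Z) := mul_le_mul_of_nonneg_left g1 (by linarith)
      _ ≤ _ := mul_le_mul_of_nonneg_left (mul_le_mul_of_nonneg_left hZ2 hC0) (by linarith)
  -- Markov
  set V : Finset ℕ := (Finset.range X).filter (fun x => ε / 2 * Real.log X ≤ (wn E (LL α k) x : ℝ)) with hV
  have h2 : (V.card : ℝ) * (ε / 2 * Real.log X) ≤ (α + 1) * (C * (2 * X)) := by
    have h3 := Finset.card_nsmul_le_sum V (fun x => (wn E (LL α k) x : ℝ)) (ε / 2 * Real.log X) fun x hx => (Finset.mem_filter.1 hx).2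
    rw [nsmul_eq_mul] at h3
    refine h3.trans (le_trans ?_ h1)
    exact Finset.sum_le_sum_of_subset_of_nonneg (Finset.filter_subset _ _) fun _ _ _ => Nat.cast_nonneg _
  set m : ℕ := ⌈η / 2 * X⌉₊ with hm
  have h3 : cn {x | ε * Real.log x < (wn E (LL α k) x : ℝ)} X ≤ m + V.card := by
    have h4 : cn {x | ε * Real.log x < (wn E (LL α k) x : ℝ)} X ≤ cn ({x | x < m} ∪ {x | x ∈ V}) X := by
      refine cn_mono_lt fun x hx hx2 => ?_
      by_cases h5 : x < m
      · exact Or.inl h5
      · right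
        refine Finset.mem_filter.2 ⟨Finset.mem_range.2 hx, ?_⟩
        have h6 : η / 2 * X ≤ x := (Nat.le_ceil _).trans (by exact_mod_cast not_lt.1 h5)
        have h7 : Real.log (η / 2 * X) ≤ Real.log x := Real.log_le_log (by positivity) h6
        rw [Real.log_mul (by positivity) (by linarith)] at h7
        have h8 : Real.log (η / 2) = - Real.log (2 / η) := by
          rw [← Real.log_inv, inv_div]
        have hx2 : ε * Real.log x < (wn E (LL α k) x : ℝ) := hx2
        have h9 : Real.log (X : ℝ) / 2 ≤ Real.log x := by linarith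
        have h10 := mul_le_mul_of_nonneg_left h9 hε.le
        linarith
    refine h4.trans ((cn_union _ _ X).trans (add_le_add (cn_lt m X) (cn_sub (E := {x | x ∈ V}) (s := V) (fun x hx => hx) X)))
  have h4 : (m : ℝ) ≤ η / 2 * X + 1 := (Nat.ceil_lt_add_one (by positivity)).le
  have h5 : (V.card : ℝ) ≤ η / 4 * X := by
    by_contra hcon
    push Not at hcon
    have hlX : 0 < ε / 2 * Real.log X := by positivity
    have h6 := mul_lt_mul_of_pos_right hcon hlX
    have h7 : 16 * (α + 1) * C / (ε * η) ≤ Real.log X := by linarith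
    rw [div_le_iff₀ (by positivity)] at h7
    have h8 : η / 4 * X * (ε / 2 * Real.log X) = (Real.log X * (ε * η)) * X / 8 := by ring
    have h9 : 16 * (α + 1) * C * X ≤ Real.log X * (ε * η) * X := mul_le_mul_of_nonneg_right h7 (by linarith)
    have h11 : (16 * (α + 1) * C / (ε * η) + 1) * (ε * η) ≤ Real.log X * (ε * η) := mul_le_mul_of_nonneg_right g4 (by positivity)
    have h12 : (16 * (α + 1) * C / (ε * η) + 1) * (ε * η) = 16 * (α + 1) * C + ε * η := by
      field_simp
    have h13 : 0 < ε * η := by positivity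
    nlinarith
  have h6 : (cn {x | ε * Real.log x < (wn E (LL α k) x : ℝ)} X : ℝ) ≤ m + V.card := by exact_mod_cast h3
  have h7 : 1 ≤ η / 4 * X := by
    rw [div_le_iff₀ hη] at g6
    linarith
  linarith

end Pool.Agent.N315.PS
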