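import Mathlib
import Pool.Agent.N315.PS.Excl

/-!
# Patterns given by shifts
-/

set_option autoImplicit false
set_option linter.unusedSectionVars false

open MeasureTheory Filter Set Polynomial
open scoped ENNReal Topology

namespace Pool.Agent.N315.PS

open Pool.Agent.R528.RM Pool.Agent.N740.HK Pool.Agent.N315.CC Pool.Agent.N315.PL

lemma sh_inj : Function.Injective (fun j : ℕ => (X + C (j : ℤ) : ℤ[X])) := by
  intro a b h
  have h2 : (X + C (a : ℤ) : ℤ[X]) = X + C (b : ℤ) := h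
  exact_mod_cast C_injective (add_left_cancel h2)

/-- the system -/
noncomputable def sh (D : Finset ℕ) : Finset ℤ[X] := D.map ⟨fun j : ℕ => (X + C (j : ℤ) : ℤ[X]), sh_inj⟩

lemma mem_sh {D : Finset ℕ} {f : ℤ[X]} : f ∈ sh D ↔ ∃ j ∈ D, (X + C (j : ℤ) : ℤ[X]) = f := by
  unfold sh
  rw [Finset.mem_map]
  rfl

lemma sh_card (D : Finset ℕ) : (sh D).card = D.card := Finset.card_map _

lemma sh_deg (D : Finset ℕ) : ∀ f ∈ sh D, 0 < f.natDegree ∧ 0 < f.leadingCoeff := by
  intro f hf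
  obtain ⟨a, _, rfl⟩ := mem_sh.1 hf
  exact ⟨by rw [natDegree_X_add_C]; exact one_pos, by rw [leadingCoeff_X_add_C]; exact one_pos⟩

lemma sh_degprod (D : Finset ℕ) : ∏ f ∈ sh D, ((f.natDegree : ℝ))⁻¹ = 1 := by
  refine Finset.prod_eq_one fun f hf => ?_
  obtain ⟨a, _, rfl⟩ := mem_sh.1 hf
  rw [natDegree_X_add_C, Nat.cast_one, inv_one]

/-- the number of the residues `r` modulo `p` such that `p` divides some `r + j`, `j ∈ D` -/
noncomputable def zr (D : Finset ℕ) (p : ℕ) : ℕ := {r : ℕ | r < p ∧ ∃ j ∈ D, p ∣ r + j}.ncard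

/-- the constant -/
noncomputable def sc (Q D : Finset ℕ) : ℝ :=
  ∏ p ∈ Q, (1 - (zr D p : ℝ) / p) / (1 - 1 / (p : ℝ)) ^ D.card

lemma sh_const (Q : Finset ℕ) (hQ : ∀ p ∈ Q, p.Prime) (D : Finset ℕ) : bc Q (sh D) = sc Q D := by
  unfold bc sc
  rw [sh_degprod, mul_one, sh_card]
  refine Finset.prod_congr rfl fun p hp => ?_
  have e2 : omegaF (sh D) p = zr D p := by
    unfold omegaF zr
    congr 1
    ext r
    simp only [Set.mem_ofPred_eq]
    refine and_congr_right fun _ => ?_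
    rw [(Nat.prime_iff_prime_int.1 (hQ p hp)).dvd_finsetProd_iff]
    constructor
    · rintro ⟨f, hf, hd⟩
      obtain ⟨j, hj, rfl⟩ := mem_sh.1 hf
      simp only [eval_add, eval_X, eval_C] at hd
      exact ⟨j, hj, by exact_mod_cast hd⟩
    · rintro ⟨j, hj, hd⟩
      refine ⟨_, mem_sh.2 ⟨j, hj, rfl⟩, ?_⟩
      simp only [eval_add, eval_X, eval_C]
      exact_mod_cast hd
  rw [e2]

lemma in_sh (S : Set ℕ) (n j : ℕ) : (∃ b ∈ S, (b : ℤ) = (X + C (j : ℤ) : ℤ[X]).eval (n : ℤ)) ↔ n + j ∈ S := by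
  simp only [eval_add, eval_X, eval_C]
  constructor
  · rintro ⟨b, hb, hb2⟩
    have : b = n + j := by exact_mod_cast hb2
    rwa [← this]
  · intro h
    exact ⟨n + j, h, by push_cast; rfl⟩

/-- the `n` with `n + d ∈ S` for all `d ∈ D` -/
def TD (S : Set ℕ) (D : Finset ℕ) : Set ℕ := {n | ∀ d ∈ D, n + d ∈ S}

lemma PM_sh (S : Set ℕ) (D : Finset ℕ) : PM S (sh D) = TD S D := by
  ext n
  constructor
  · intro h d hd
    exact (in_sh S n d).1 (h _ (mem_sh.2 ⟨d, hd, rfl⟩))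
  · intro h f hf
    obtain ⟨j, hj, rfl⟩ := mem_sh.1 hf
    exact (in_sh S n j).2 (h j hj)

lemma good_sh {D : Finset ℕ} {W n : ℕ} : good (sh D) W n ↔ ∀ d ∈ D, Nat.Coprime (n + d) W := by
  unfold good
  constructor
  · intro h d hd
    have h1 := h _ (mem_sh.2 ⟨d, hd, rfl⟩)
    simp only [eval_add, eval_X, eval_C] at h1
    have e : ((n : ℤ) + (d : ℤ)) = ((n + d : ℕ) : ℤ) := by push_cast; rfl
    rw [e, Int.gcd_natCast_natCast] at h1
    exact h1
  · intro h f hf
    obtain ⟨j, hj, rfl⟩ := mem_sh.1 hf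
    simp only [eval_add, eval_X, eval_C]
    have e : ((n : ℤ) + (j : ℤ)) = ((n + j : ℕ) : ℤ) := by push_cast; rfl
    rw [e, Int.gcd_natCast_natCast]
    exact h j hj

/-- the enumeration of `D` followed by all integers above `H` -/
noncomputable def en (H : ℕ) (D : Finset ℕ) : ℕ → ℕ := Nat.nth (fun j => j ∈ D ∨ H < j)

section

variable {H : ℕ} {D : Finset ℕ}

lemma en_inf (H : ℕ) (D : Finset ℕ) : (setOf (fun j => j ∈ D ∨ H < j)).Infinite :=
  (Set.Ioi_infinite H).mono fun j hj => Or.inr hj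

lemma en_mono (H : ℕ) (D : Finset ℕ) : StrictMono (en H D) := Nat.nth_strictMono (en_inf H D)

lemma en_mem (hD : ∀ d ∈ D, d ≤ H) {j : ℕ} (hj : j < D.card) : en H D j ∈ D := by
  classical
  have h1 : en H D j ∈ D ∨ H < en H D j := Nat.nth_mem_of_infinite (en_inf H D) j
  rcases h1 with h1 | h1
  · exact h1
  · exfalso
    have h2 : Nat.count (fun j => j ∈ D ∨ H < j) (en H D j) = j := Nat.count_nth_of_infinite (en_inf H D) j
    rw [Nat.count_eq_card_filter_range] at h2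
    have h3 : D ⊆ (Finset.range (en H D j)).filter (fun j => j ∈ D ∨ H < j) := by
      intro d hd
      exact Finset.mem_filter.2 ⟨Finset.mem_range.2 ((hD d hd).trans_lt h1), Or.inl hd⟩
    have h4 := Finset.card_le_card h3
    omega

lemma en_surj (hD : ∀ d ∈ D, d ≤ H) {d : ℕ} (hd : d ∈ D) : ∃ j < D.card, en H D j = d := by
  classical
  refine ⟨Nat.count (fun j => j ∈ D ∨ H < j) d, ?_, Nat.nth_count (Or.inl hd)⟩
  rw [Nat.count_eq_card_filter_range]
  refine Finset.card_lt_card (Finset.ssubset_iff_subset_ne.2 ⟨?_, ?_⟩)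
  · intro j hj
    obtain ⟨h1, h2⟩ := Finset.mem_filter.1 hj
    have h1 := Finset.mem_range.1 h1
    rcases h2 with h2 | h2
    · exact h2
    · have := hD d hd
      omega
  · intro h
    rw [← h] at hd
    exact absurd (Finset.mem_range.1 (Finset.mem_filter.1 hd).1) (lt_irrefl d)

lemma en_top (hD : ∀ d ∈ D, d ≤ H) (hH : H ∈ D) {i : ℕ} (hi : D.card = i + 1) : en H D i = H := by
  obtain ⟨j, hj, hj2⟩ := en_surj hD hH
  have h1 := hD _ (en_mem hD (show i < D.card by omega))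
  have h1' : en H D i ≤ en H D j := h1.trans hj2.ge
  have h2 := (en_mono H D).le_iff_le.1 h1'
  have h3 : i = j := by omega
  rw [h3]
  exact hj2

/-- the maps -/
noncomputable def FD (H : ℕ) (D : Finset ℕ) (i n : ℕ) : ℕ := n + en H D i

lemma FD_mono (H : ℕ) (D : Finset ℕ) (i : ℕ) : StrictMono (FD H D i) := fun a b hab => by
  unfold FD
  omega

lemma FD_lt (H : ℕ) (D : Finset ℕ) (i n : ℕ) : FD H D i n < FD H D (i + 1) n := by
  have : en H D i < en H D (i + 1) := en_mono H D (Nat.lt_succ_self i)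
  unfold FD
  omega

lemma add_log (c : ℕ) : Tendsto (fun n : ℕ => Real.log ((n + c : ℕ) : ℝ) / Real.log n) atTop (𝓝 1) := by
  have hL : Tendsto (fun x : ℕ => (((fun _ => c : ℕ → ℕ) x : ℕ) : ℝ) / Real.log x ^ 1) atTop (𝓝 0) := by
    simp only [pow_one]
    exact tendsto_const_nhds.div_atTop tendsto_logN
  exact log_shift hL

end

end Pool.Agent.N315.PS
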