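import Mathlib
import Pool.Agent.N315.PS.Pois

/-!
# Windows along a sequence: probabilities and candidates
-/

set_option autoImplicit false
set_option linter.unusedSectionVars false

open MeasureTheory Filter Set
open scoped ENNReal Topology

namespace Pool.Agent.N315.PS

open Pool.Agent.R528.RM Pool.Agent.N740.HK Pool.Agent.N315.CC Pool.Agent.N315.PL

variable {Ω : Type} {m0 : MeasurableSpace Ω} {μ : Measure Ω} [IsProbabilityMeasure μ]
  {ℱ : Filtration ℕ m0} {A : ℕ → Set Ω} {F : ℕ → ℕ → ℕ} {G : ℕ → Prop} {L : ℕ → ℕ} {Lam : ℝ} {D : ℕ → ℝ} {xs : ℕ → ℕ}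

section

variable {W : ℕ} {c b : ℝ}

theorem DE_prob (hc0 : 0 ≤ c) (hc : c = (W : ℝ) / Nat.totient W) (hb0 : 0 ≤ b) (hA : ∀ n, MeasurableSet[ℱ n] (A n))
    (hF : ∀ i, StrictMono (F i)) (hF1 : ∀ i n, F i n < F (i + 1) n) (hD : ∀ i, 0 < D i)
    (hlog : ∀ i, Tendsto (fun z : ℕ => Real.log (F i z : ℕ) / Real.log z) atTop (𝓝 (D i))) (i : ℕ)
    (hL : Tendsto (fun x : ℕ => (L x : ℝ) / Real.log x ^ (i + 1)) atTop (𝓝 Lam))
    {δ : ℝ} (hδ0 : 0 < δ) (hδ1 : δ ≤ 1 / 2) (r : ℕ) :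
    ∀ᶠ x : ℕ in atTop, ∀ B, MeasurableSet[ℱ (F i x)] B → μ.real (B ∩ DE μ ℱ A F G L W b δ i r x) ≤
      (((1 + δ) ^ 2 * (b * c / D i)) ^ r / (r.factorial : ℝ) * Real.exp (-((1 - δ) ^ 2 * (b * c / D i))) + δ) * μ.real B := by
  obtain ⟨l1, l2, l3⟩ := P_lim (c := c) (b := b) hF hD hlog i hL δ
  have hlim := ((l1.pow r).div_const (r.factorial : ℝ)).mul
    ((Real.continuous_exp.tendsto _).comp (l2.neg.add (l3.const_mul (r : ℝ))))
  rw [mul_zero, add_zero] at hlim
  filter_upwards [hlim.eventually_lt_const (lt_add_of_pos_right _ hδ0), eventually_ge_atTop 3,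
      tendsto_logN.eventually_ge_atTop (2 * c + 1)] with x hx hx3 hxc B hB
  have hx0 : x ≤ F i x := F_ge hF i x
  have hx0' : x ≤ F i (x + L x) := by
    have := F_ge hF i (x + L x)
    omega
  have hx3' : (3 : ℝ) ≤ x := by exact_mod_cast hx3
  have hM1 : 2 * c + 1 ≤ Real.log (F i x : ℕ) := hxc.trans (Real.log_le_log (by linarith) (by exact_mod_cast hx0))
  have hM2 : 2 * c + 1 ≤ Real.log (F i (x + L x) : ℕ) := hxc.trans (Real.log_le_log (by linarith) (by exact_mod_cast hx0'))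
  have hl0 : 0 ≤ (1 - δ) * c / Real.log (F i (x + L x) : ℕ) := div_nonneg (mul_nonneg (by linarith) hc0) (by linarith)
  have hl1 : (1 - δ) * c / Real.log (F i (x + L x) : ℕ) ≤ 1 := by
    rw [div_le_one (by linarith)]
    nlinarith
  have hu0 : 0 ≤ (1 + δ) * c / Real.log (F i x : ℕ) := div_nonneg (mul_nonneg (by linarith) hc0) (by linarith)
  have h1 := trial_eq (μ := μ) (ℱ := ℱ) hA (fun t => TW_meas (G := G) (L := L) hA hF1 i x t) (fun n => VQ_meas (A := A) W δ n) hl0 hl1 hu0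
    (F i (x + L x) - F i x) (F i x)
    (win_facts (μ := μ) (ℱ := ℱ) (A := A) (L := L) hc hc0 hF hδ0.le (by linarith) i x hx3 (by linarith))
    ⌈(1 - δ) * b * Real.log x⌉₊ ⌊(1 + δ) * b * Real.log x⌋₊ r B hB
  refine h1.trans (mul_le_mul_of_nonneg_right ?_ measureReal_nonneg)
  have hlx : 0 ≤ Real.log (x : ℝ) := by linarith
  have hf : (⌊(1 + δ) * b * Real.log x⌋₊ : ℝ) ≤ (1 + δ) * b * Real.log x := Nat.floor_le (by positivity)
  have hcl : (1 - δ) * b * Real.log x ≤ (⌈(1 - δ) * b * Real.log x⌉₊ : ℝ) := Nat.le_ceil _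
  refine (be_le hl0 hl1 hu0 (mul_le_mul_of_nonneg_right hf hu0) (mul_le_mul_of_nonneg_right hcl hl0)).trans ?_
  exact hx.le

theorem DT_prob (hc0 : 0 ≤ c) (hc : c = (W : ℝ) / Nat.totient W) (hb0 : 0 ≤ b) (hA : ∀ n, MeasurableSet[ℱ n] (A n))
    (hF : ∀ i, StrictMono (F i)) (hF1 : ∀ i n, F i n < F (i + 1) n) (hD : ∀ i, 0 < D i)
    (hlog : ∀ i, Tendsto (fun z : ℕ => Real.log (F i z : ℕ) / Real.log z) atTop (𝓝 (D i))) (i : ℕ)
    (hL : Tendsto (fun x : ℕ => (L x : ℝ) / Real.log x ^ (i + 1)) atTop (𝓝 Lam))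
    {δ : ℝ} (hδ0 : 0 < δ) (hδ1 : δ ≤ 1 / 2) (r : ℕ) :
    ∀ᶠ x : ℕ in atTop, ∀ B, MeasurableSet[ℱ (F i x)] B → μ.real (B ∩ DT μ ℱ A F G L W b δ i r x) ≤
      (((1 + δ) ^ 2 * (b * c / D i)) ^ r / (r.factorial : ℝ) + δ) * μ.real B := by
  obtain ⟨l1, l2, l3⟩ := P_lim (c := c) (b := b) hF hD hlog i hL δ
  have hlim := (l1.pow r).div_const (r.factorial : ℝ)
  filter_upwards [hlim.eventually_lt_const (lt_add_of_pos_right _ hδ0), eventually_ge_atTop 3,
      tendsto_logN.eventually_ge_atTop (2 * c + 1)] with x hx hx3 hxc B hB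
  have hx0 : x ≤ F i x := F_ge hF i x
  have hx3' : (3 : ℝ) ≤ x := by exact_mod_cast hx3
  have hM1 : 2 * c + 1 ≤ Real.log (F i x : ℕ) := hxc.trans (Real.log_le_log (by linarith) (by exact_mod_cast hx0))
  have hu0 : 0 ≤ (1 + δ) * c / Real.log (F i x : ℕ) := div_nonneg (mul_nonneg (by linarith) hc0) (by linarith)
  have h1 := trial_tl (μ := μ) (ℱ := ℱ) hA (fun t => TW_meas (G := G) (L := L) hA hF1 i x t) (fun n => VQ_meas (A := A) W δ n) hu0
    (F i (x + L x) - F i x) (F i x)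
    (fun n h1 h2 ω h3 => (win_facts (μ := μ) (ℱ := ℱ) (A := A) (L := L) hc hc0 hF hδ0.le (by linarith) i x hx3 (by linarith) n h1 h2 ω h3).2)
    ⌊(1 + δ) * b * Real.log x⌋₊ r B hB
  refine h1.trans (mul_le_mul_of_nonneg_right ?_ measureReal_nonneg)
  have hlx : 0 ≤ Real.log (x : ℝ) := by linarith
  have hf : (⌊(1 + δ) * b * Real.log x⌋₊ : ℝ) ≤ (1 + δ) * b * Real.log x := Nat.floor_le (by positivity)
  exact (ch_le hu0 (mul_le_mul_of_nonneg_right hf hu0)).trans hx.le

/-- the law of large numbers along a sequence with separated windows -/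
theorem lln_sub (hF : ∀ i, StrictMono (F i)) (i : ℕ) (hxs : Monotone xs) (hx : Tendsto xs atTop atTop)
    (hsep : ∀ᶠ n in atTop, xs n + L (xs n) ≤ xs (n + 1)) {E : ℕ → Set Ω} {q : ℝ} (hq0 : 0 ≤ q)
    (hE : ∀ x, MeasurableSet[ℱ (F i x + (F i (x + L x) - F i x))] (E x))
    (hq : ∀ᶠ x in atTop, ∀ B, MeasurableSet[ℱ (F i x)] B → μ.real (B ∩ E x) ≤ q * μ.real B) :
    ∀ᵐ ω ∂μ, UB {n | ω ∈ E (xs n)} q := by
  classical
  have h1 := lln (μ := μ) (ℱ := ℱ) (t := fun n => F i (xs n)) (R := fun _ => 1)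
    (D := fun n => if xs n + L (xs n) ≤ xs (n + 1) then E (xs n) else ∅) (q := q)
    ((hF i).monotone.comp hxs) (fun _ => one_pos) (by
      filter_upwards [eventually_ge_atTop 1] with X hX
      rw [Nat.cast_one]
      exact Real.one_le_sqrt.2 (by exact_mod_cast hX)) (by
      intro X n _
      show MeasurableSet[ℱ (F i (xs (n + 1)))] (if xs n + L (xs n) ≤ xs (n + 1) then E (xs n) else ∅)
      by_cases h : xs n + L (xs n) ≤ xs (n + 1)
      · rw [if_pos h]
        have h2 : F i (xs n) ≤ F i (xs n + L (xs n)) := (hF i).monotone (by omega)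
        have h3 : F i (xs n + L (xs n)) ≤ F i (xs (n + 1)) := (hF i).monotone h
        exact ℱ.mono (by omega) _ (hE (xs n))
      · rw [if_neg h]
        exact @MeasurableSet.empty _ (ℱ (F i (xs (n + 1))))) hq0 (by
      filter_upwards [hx.eventually hq] with n hn B hB
      by_cases h : xs n + L (xs n) ≤ xs (n + 1)
      · rw [if_pos h]
        exact hn B hB
      · rw [if_neg h, inter_empty, measureReal_empty]
        exact mul_nonneg hq0 measureReal_nonneg)
  filter_upwards [h1] with ω hω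
  refine hω.of_dz (UB_of_eventually (E := {n | ¬ xs n + L (xs n) ≤ xs (n + 1)}) ?_) ?_
  · filter_upwards [hsep] with n hn hcon
    exact hcon hn
  · intro n hn
    by_cases h : xs n + L (xs n) ≤ xs (n + 1)
    · left
      show ω ∈ if xs n + L (xs n) ≤ xs (n + 1) then E (xs n) else ∅
      rw [if_pos h]
      exact hn
    · exact Or.inr h

/-- the number of the candidates, in most windows along a sequence -/
theorem most_NW_sub (hW : 0 < W) (hc : c = (W : ℝ) / Nat.totient W) [DecidablePred G] (hGp : Function.Periodic G W)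
    (hA : ∀ n, MeasurableSet[ℱ n] (A n))
    (hd : ∀ᵐ ω ∂μ, ∀ ε : ℝ, 0 < ε → ∀ᶠ n : ℕ in atTop, |dens μ ℱ A n ω - rhoW W (n + 1)| ≤ ε * rhoW W (n + 1))
    (hF : ∀ i, StrictMono (F i)) (hF1 : ∀ i n, F i n < F (i + 1) n) (hD : ∀ i, 0 < D i)
    (hlog : ∀ i, Tendsto (fun z : ℕ => Real.log (F i z : ℕ) / Real.log z) atTop (𝓝 (D i))) (i : ℕ)
    (hG : ∀ j, j < i → ∀ n, G n → Nat.Coprime (F j n) W) (hlam : 0 ≤ Lam)
    (hL : Tendsto (fun x : ℕ => (L x : ℝ) / Real.log x ^ (i + 1)) atTop (𝓝 Lam))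
    (hx : Tendsto xs atTop atTop) (hxl : ∀ᶠ n : ℕ in atTop, Real.log n ≤ 2 * Real.log (xs n)) :
    ∀ᵐ ω ∂μ, ∀ ε : ℝ, 0 < ε →
      UB {n | ¬ |(NW A F G L i (xs n) ω : ℝ) - Lam * kap (gd G W) c D i * Real.log (xs n)| ≤ ε * Real.log (xs n)} 0 := by
  have hcn : 0 ≤ c := by
    rw [hc]
    positivity
  rcases i with _ | i
  · refine Eventually.of_forall fun ω ε hε => UB_of_eventually ?_
    have h1 := NW_zero_lim (A := A) (F := F) hW hGp (m := 0 + 1) (by omega) hL ω
    filter_upwards [hx.eventually (h1.eventually (Metric.ball_mem_nhds _ hε)), hx.eventually log_pos_ev] with n hx h0 hcon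
    apply hcon
    have hx : dist ((NW A F G L 0 (xs n) ω : ℝ) / Real.log (xs n) ^ (0 + 1)) (Lam * gd G W) < ε := hx
    rw [Real.dist_eq, zero_add, pow_one] at hx
    have e : (NW A F G L 0 (xs n) ω : ℝ) - Lam * kap (gd G W) c D 0 * Real.log (xs n) =
        ((NW A F G L 0 (xs n) ω : ℝ) / Real.log (xs n) - Lam * gd G W) * Real.log (xs n) := by
      show _ - Lam * gd G W * Real.log (xs n) = _
      field_simp
    rw [e, abs_mul, abs_of_pos h0]
    exact mul_le_mul_of_nonneg_right hx.le h0.le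
  · have h0 := conc_most_rho (μ := μ) hA (ρ := fun t => rhoW W (t + 1)) (fun t => rhoW_nonneg W _) (fun t => rhoW_le W _) hd
      (fun n t => (TW A F G L i (xs n) t).indicator (fun _ => (1 : ℝ))) (fun n => F i (xs n + L (xs n)))
      (fun n t => (@stronglyMeasurable_const _ _ (ℱ t) _ _).indicator (TW_meas hA hF1 i (xs n) t))
      (fun n t ω => by
        by_cases h : ω ∈ TW A F G L i (xs n) t
        · rw [indicator_of_mem h]; norm_num
        · rw [indicator_of_notMem h]; norm_num)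
    filter_upwards [h0, law (μ := μ) hW hc hGp hA hd hF hF1 hD hlog (i + 1) (fun j hj => hG j (by omega)) hlam hL] with ω h1 h2 ε hε
    have h3 := h2 i le_rfl
    rw [show i + 1 + 1 - i = 1 + 1 by omega] at h3
    have h4 := S_lim hF hc hcn hD hlog hL i (hG i (by omega)) h3
    set S : ℕ → ℝ := fun x => ∑ t ∈ Finset.range (F i (x + L x)), (TW A F G L i x t).indicator (fun _ => (1 : ℝ)) ω * rhoW W (t + 1) with hS
    set b : ℝ := Lam * kap (gd G W) c D (i + 1) with hb
    have hb0 : 0 ≤ b := mul_nonneg hlam (kap_nonneg (gd_nonneg G W) hcn hD _)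
    have eb : Lam * kap (gd G W) c D i * c / D i = b := by
      rw [hb]
      show _ = Lam * (kap (gd G W) c D i * c / D i)
      ring
    rw [eb] at h4
    have h4 : Tendsto (fun x : ℕ => S x / Real.log x ^ 1) atTop (𝓝 b) := h4
    set η : ℝ := ε / (2 * (b + 4)) with hη
    have hη0 : 0 < η := by positivity
    set η' : ℝ := min η 1 with hη'
    have hη'0 : 0 < η' := lt_min hη0 one_pos
    have h5 := h4.eventually (Metric.ball_mem_nhds b hη'0)
    have h5' : UB {n : ℕ | ¬ (|S (xs n) - b * Real.log (xs n)| ≤ η' * Real.log (xs n) ∧ Real.log n ≤ 2 * Real.log (xs n))} 0 := by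
      refine UB_of_eventually ?_
      filter_upwards [hx.eventually h5, hx.eventually log_pos_ev, hxl] with n hx hx0 hxl hcon
      apply hcon
      refine ⟨?_, hxl⟩
      have hx : dist (S (xs n) / Real.log (xs n) ^ 1) b < η' := hx
      rw [Real.dist_eq, pow_one] at hx
      have e : S (xs n) - b * Real.log (xs n) = (S (xs n) / Real.log (xs n) - b) * Real.log (xs n) := by
        field_simp
      rw [e, abs_mul, abs_of_pos hx0]
      exact mul_le_mul_of_nonneg_right hx.le hx0.le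
    refine (h1 η' hη'0).of_dz h5' ?_
    intro n hn
    by_contra hcon
    rw [mem_union, not_or] at hcon
    apply hn
    have h6 := not_not.1 hcon.1
    obtain ⟨h7, h7'⟩ := not_not.1 hcon.2
    have h8 := sum_J (A := A) (F := F) (G := G) (L := L) hF i (xs n) ω
    rw [h8] at h6
    have h6 : |(NW A F G L (i + 1) (xs n) ω : ℝ) - S (xs n)| ≤ η' * S (xs n) + η' * Real.log n := h6
    have hl : 0 ≤ Real.log (xs n) := Real.log_natCast_nonneg (xs n)
    have h9 : S (xs n) ≤ (b + 1) * Real.log (xs n) := by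
      have h10 := (abs_le.1 h7).2
      have h11 : η' * Real.log (xs n) ≤ 1 * Real.log (xs n) := mul_le_mul_of_nonneg_right (min_le_right _ _) hl
      linarith
    have h10 : η' * S (xs n) ≤ η' * ((b + 1) * Real.log (xs n)) := mul_le_mul_of_nonneg_left h9 hη'0.le
    have h10' : η' * Real.log n ≤ η' * (2 * Real.log (xs n)) := mul_le_mul_of_nonneg_left h7' hη'0.le
    have h11 : |(NW A F G L (i + 1) (xs n) ω : ℝ) - b * Real.log (xs n)| ≤
        |(NW A F G L (i + 1) (xs n) ω : ℝ) - S (xs n)| + |S (xs n) - b * Real.log (xs n)| := abs_sub_le _ _ _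
    have h12 : η' * (b + 4) ≤ ε := by
      have : η' * (b + 4) ≤ η * (b + 4) := mul_le_mul_of_nonneg_right (min_le_left _ _) (by linarith)
      refine this.trans ?_
      rw [hη, div_mul_eq_mul_div, div_le_iff₀ (by positivity)]
      nlinarith
    have h13 : η' * (b + 4) * Real.log (xs n) ≤ ε * Real.log (xs n) := mul_le_mul_of_nonneg_right h12 hl
    refine h11.trans ((add_le_add h6 h7).trans ?_)
    linarith

end

end Pool.Agent.N315.PS
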