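import Mathlib
import Pool.Agent.N315.PS.SubA
import Pool.Agent.N315.PS.Use

/-!
# The Poisson law along separated sequences
-/

set_option autoImplicit false
set_option linter.unusedSectionVars false

open MeasureTheory Filter Set Polynomial
open scoped ENNReal Topology

namespace Pool.Agent.N315.PS

open Pool.Agent.R528.RM Pool.Agent.N740.HK Pool.Agent.N315.CC Pool.Agent.N315.PL

variable {Ω : Type} {m0 : MeasurableSpace Ω} {μ : Measure Ω} [IsProbabilityMeasure μ]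
  {ℱ : Filtration ℕ m0} {A : ℕ → Set Ω} {F : ℕ → ℕ → ℕ} {G : ℕ → Prop} {L : ℕ → ℕ} {Lam : ℝ} {D : ℕ → ℝ} {xs : ℕ → ℕ}

section

variable {W : ℕ} {c b : ℝ}

/-- **the numbers of patterns in short windows along a sequence follow the Poisson law** -/
theorem poisson_sub (hW : 0 < W) (hc : c = (W : ℝ) / Nat.totient W) [DecidablePred G] (hGp : Function.Periodic G W)
    (hA : ∀ n, MeasurableSet[ℱ n] (A n))
    (hd : ∀ᵐ ω ∂μ, ∀ ε : ℝ, 0 < ε → ∀ᶠ n : ℕ in atTop, |dens μ ℱ A n ω - rhoW W (n + 1)| ≤ ε * rhoW W (n + 1))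
    (hF : ∀ i, StrictMono (F i)) (hF1 : ∀ i n, F i n < F (i + 1) n) (hD : ∀ i, 0 < D i)
    (hlog : ∀ i, Tendsto (fun z : ℕ => Real.log (F i z : ℕ) / Real.log z) atTop (𝓝 (D i))) (i : ℕ)
    (hG : ∀ j, j < i + 1 → ∀ n, G n → Nat.Coprime (F j n) W) (hg0 : 0 < gd G W) (hLam : 0 < Lam)
    (hL : Tendsto (fun x : ℕ => (L x : ℝ) / Real.log x ^ (i + 1)) atTop (𝓝 Lam))
    (hxs : Monotone xs) (hx : Tendsto xs atTop atTop) (hxl : ∀ᶠ n : ℕ in atTop, Real.log n ≤ 2 * Real.log (xs n))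
    (hsep : ∀ᶠ n in atTop, xs n + L (xs n) ≤ xs (n + 1)) :
    ∀ᵐ ω ∂μ, ∀ r : ℕ, Tendsto (fun X : ℕ => (cn {n | NW A F G L (i + 1) (xs n) ω = r} X : ℝ) / X) atTop
      (𝓝 ((Lam * kap (gd G W) c D (i + 1)) ^ r / (r.factorial : ℝ) * Real.exp (-(Lam * kap (gd G W) c D (i + 1))))) := by
  have hc0 : 0 < c := by
    rw [hc]
    exact div_pos (by exact_mod_cast hW) (by exact_mod_cast Nat.totient_pos.2 hW)
  set b : ℝ := Lam * kap (gd G W) c D i with hb
  have hb0 : 0 < b := mul_pos hLam (kap_pos hg0 hc0 hD i)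
  set lam : ℝ := b * c / D i with hlamdef
  have hlam : 0 < lam := div_pos (mul_pos hb0 hc0) (hD i)
  have elam : Lam * kap (gd G W) c D (i + 1) = lam := by
    rw [hlamdef, hb]
    show Lam * (kap (gd G W) c D i * c / D i) = _
    ring
  rw [elam]
  have h1 : ∀ᵐ ω ∂μ, ∀ j r, UB {n | ω ∈ DE μ ℱ A F G L W b (dj j) i r (xs n)}
      (((1 + dj j) ^ 2 * lam) ^ r / (r.factorial : ℝ) * Real.exp (-((1 - dj j) ^ 2 * lam)) + dj j) :=
    ae_all_iff.2 fun j => ae_all_iff.2 fun r => lln_sub hF i hxs hx hsep (by have := dj_pos j; positivity)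
      (fun x => EQ_meas hA (fun t => TW_meas hA hF1 i x t) (fun n => VQ_meas W (dj j) n) _ _ _ _ _)
      (DE_prob hc0.le hc hb0.le hA hF hF1 hD hlog i hL (dj_pos j) (dj_le j) r)
  have h2 : ∀ᵐ ω ∂μ, ∀ j r, UB {n | ω ∈ DT μ ℱ A F G L W b (dj j) i r (xs n)}
      (((1 + dj j) ^ 2 * lam) ^ r / (r.factorial : ℝ) + dj j) :=
    ae_all_iff.2 fun j => ae_all_iff.2 fun r => lln_sub hF i hxs hx hsep (by have := dj_pos j; positivity)
      (fun x => TL_meas hA (fun t => TW_meas hA hF1 i x t) (fun n => VQ_meas W (dj j) n) _ _ _ _)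
      (DT_prob hc0.le hc hb0.le hA hF hF1 hD hlog i hL (dj_pos j) (dj_le j) r)
  filter_upwards [h1, h2, hd, most_NW_sub (μ := μ) hW hc hGp hA hd hF hF1 hD hlog i (fun j hj => hG j (by omega)) hLam.le hL hx hxl] with ω g1 g2 g3 g4
  have g4 : ∀ ε : ℝ, 0 < ε → UB {n | ¬ |(NW A F G L i (xs n) ω : ℝ) - b * Real.log (xs n)| ≤ ε * Real.log (xs n)} 0 := g4
  have hZ : ∀ j, UB ({n | ¬ |(NW A F G L i (xs n) ω : ℝ) - b * Real.log (xs n)| ≤ dj j * b * Real.log (xs n)} ∪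
      {n | ∃ t, xs n ≤ t ∧ ¬ |dens μ ℱ A t ω - rhoW W (t + 1)| ≤ dj j * rhoW W (t + 1)}) 0 := by
    intro j
    refine (g4 _ (mul_pos (dj_pos j) hb0)).of_dz (UB_of_eventually
      (E := {n | ∃ t, xs n ≤ t ∧ ¬ |dens μ ℱ A t ω - rhoW W (t + 1)| ≤ dj j * rhoW W (t + 1)}) ?_) (subset_refl _)
    obtain ⟨m₀, hm₀⟩ := eventually_atTop.1 (g3 (dj j) (dj_pos j))
    filter_upwards [hx.eventually_ge_atTop m₀] with n hn hcon
    obtain ⟨t, ht1, ht2⟩ := hcon
    exact ht2 (hm₀ t (by omega))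
  have hmem : ∀ j n, n ∉ ({n | ¬ |(NW A F G L i (xs n) ω : ℝ) - b * Real.log (xs n)| ≤ dj j * b * Real.log (xs n)} ∪
      {n | ∃ t, xs n ≤ t ∧ ¬ |dens μ ℱ A t ω - rhoW W (t + 1)| ≤ dj j * rhoW W (t + 1)}) →
      ⌈(1 - dj j) * b * Real.log (xs n)⌉₊ ≤ cG (TW A F G L i (xs n)) (F i (xs n)) (F i (xs n + L (xs n)) - F i (xs n)) ω ∧
      cG (TW A F G L i (xs n)) (F i (xs n)) (F i (xs n + L (xs n)) - F i (xs n)) ω ≤ ⌊(1 + dj j) * b * Real.log (xs n)⌋₊ ∧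
      ω ∉ vG (TW A F G L i (xs n)) (VQ μ ℱ A W (dj j)) (F i (xs n)) (F i (xs n + L (xs n)) - F i (xs n)) := by
    intro j n hn
    rw [mem_union, not_or] at hn
    have h3 := not_not.1 hn.1
    have h4 := abs_le.1 h3
    rw [cG_TW hF]
    refine ⟨Nat.ceil_le.2 (by linarith), Nat.le_floor (by linarith), ?_⟩
    rintro ⟨t, ht1, _, ⟨m, _, _, hm3, hm4, _⟩, ht4⟩
    apply ht4
    refine ⟨?_, ?_⟩
    · rw [← hm4]
      exact hG i (Nat.lt_succ_self i) m hm3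
    · by_contra hcon
      exact hn.2 ⟨t, (F_ge hF i (xs n)).trans ht1, hcon⟩
  refine freq_lim (fun n => NW A F G L (i + 1) (xs n) ω) (p := fun r => lam ^ r / (r.factorial : ℝ) * Real.exp (-lam))
    (τ := fun r => lam ^ r / (r.factorial : ℝ)) (fun r => by positivity) ?_ ?_ ?_ ?_
  · have h5 := (NormedSpace.expSeries_div_hasSum_exp (𝔸 := ℝ) lam).mul_right (Real.exp (-lam))
    rw [← Real.exp_eq_exp_ℝ, ← Real.exp_add, add_neg_cancel, Real.exp_zero] at h5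
    exact h5
  · exact FloorSemiring.tendsto_pow_div_factorial_atTop lam
  · intro r
    refine UB_lim (p := fun j => ((1 + dj j) ^ 2 * lam) ^ r / (r.factorial : ℝ) * Real.exp (-((1 - dj j) ^ 2 * lam)) + dj j) (fun j => ?_) ?_
    · refine (g1 j r).of_dz (hZ j) ?_
      intro n hn
      by_contra hcon
      rw [mem_union, not_or] at hcon
      obtain ⟨k1, k2, k3⟩ := hmem j n hcon.2
      exact hcon.1 ⟨⟨(SG_TW hF i (xs n) ω).trans hn, k1, k2⟩, k3⟩
    · have h6 : Tendsto (fun j => ((1 + dj j) ^ 2 * lam) ^ r / (r.factorial : ℝ) * Real.exp (-((1 - dj j) ^ 2 * lam)) + dj j) atTop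
          (𝓝 (((1 + 0) ^ 2 * lam) ^ r / (r.factorial : ℝ) * Real.exp (-((1 - 0) ^ 2 * lam)) + 0)) :=
        (((((dj_lim.const_add 1).pow 2).mul_const lam).pow r).div_const _ |>.mul
          ((Real.continuous_exp.tendsto _).comp (((dj_lim.const_sub 1).pow 2).mul_const lam).neg)).add dj_lim
      simpa using h6
  · intro r
    refine UB_lim (p := fun j => ((1 + dj j) ^ 2 * lam) ^ r / (r.factorial : ℝ) + dj j) (fun j => ?_) ?_
    · refine (g2 j r).of_dz (hZ j) ?_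
      intro n hn
      by_contra hcon
      rw [mem_union, not_or] at hcon
      obtain ⟨k1, k2, k3⟩ := hmem j n hcon.2
      have hn : r ≤ NW A F G L (i + 1) (xs n) ω := hn
      rw [← SG_TW hF i (xs n) ω] at hn
      exact hcon.1 ⟨⟨hn, k2⟩, k3⟩
    · have h6 : Tendsto (fun j => ((1 + dj j) ^ 2 * lam) ^ r / (r.factorial : ℝ) + dj j) atTop
          (𝓝 (((1 + 0) ^ 2 * lam) ^ r / (r.factorial : ℝ) + 0)) :=
        ((((dj_lim.const_add 1).pow 2).mul_const lam).pow r).div_const _ |>.add dj_lim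
      simpa using h6

end

end Pool.Agent.N315.PS
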