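import Mathlib
import Pool.Agent.N315.PS.SubB

/-!
# The Poisson law for systems of polynomials along separated sequences
-/

set_option autoImplicit false
set_option linter.unusedSectionVars false

open MeasureTheory Filter Set Polynomial
open scoped ENNReal Topology

namespace Pool.Agent.N315.PS

open Pool.Agent.R528.RM Pool.Agent.N740.HK Pool.Agent.N315.CC Pool.Agent.N315.PL

variable {Ω : Type} {m0 : MeasurableSpace Ω} {μ : Measure Ω} [IsProbabilityMeasure μ]
  {ℱ : Filtration ℕ m0} {A : ℕ → Set Ω} {L : ℕ → ℕ} {Lam : ℝ} {xs : ℕ → ℕ}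

lemma cn_congr_lim {E E' : Set ℕ} {n₀ : ℕ} (h : ∀ n, n₀ ≤ n → (n ∈ E ↔ n ∈ E')) {p : ℝ}
    (hE : Tendsto (fun X : ℕ => (cn E X : ℝ) / X) atTop (𝓝 p)) : Tendsto (fun X : ℕ => (cn E' X : ℝ) / X) atTop (𝓝 p) := by
  have h1 : ∀ X, |(cn E' X : ℝ) - cn E X| ≤ n₀ := by
    intro X
    have a1 : E ⊆ E' ∪ {x | x < n₀} := fun n hn => by
      by_cases h2 : n < n₀
      · exact Or.inr h2
      · exact Or.inl ((h n (not_lt.1 h2)).1 hn)
    have a2 : E' ⊆ E ∪ {x | x < n₀} := fun n hn => by
      by_cases h2 : n < n₀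
      · exact Or.inr h2
      · exact Or.inl ((h n (not_lt.1 h2)).2 hn)
    have b1 := (cn_mono a1 X).trans ((cn_union _ _ X).trans (Nat.add_le_add_left (cn_lt n₀ X) _))
    have b2 := (cn_mono a2 X).trans ((cn_union _ _ X).trans (Nat.add_le_add_left (cn_lt n₀ X) _))
    have b1' : (cn E X : ℝ) ≤ cn E' X + n₀ := by exact_mod_cast b1
    have b2' : (cn E' X : ℝ) ≤ cn E X + n₀ := by exact_mod_cast b2
    rw [abs_le]
    constructor <;> linarith
  have h4 : Tendsto (fun X : ℕ => ((cn E' X : ℝ) - cn E X) / X) atTop (𝓝 0) := by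
    refine squeeze_zero_norm' ?_ (tendsto_const_nhds.div_atTop tendsto_natCast_atTop_atTop (a := (n₀ : ℝ)))
    filter_upwards with X
    rw [Real.norm_eq_abs, abs_div, abs_of_nonneg (Nat.cast_nonneg X : (0 : ℝ) ≤ X)]
    exact div_le_div_of_nonneg_right (h1 X) (Nat.cast_nonneg X)
  have h5 := h4.add hE
  rw [zero_add] at h5
  refine h5.congr fun X => ?_
  ring

/-- **Poisson law for systems of polynomials, along a sequence** -/
theorem poisson_poly_sub {W : ℕ} (hW : 0 < W) (hA : ∀ n, MeasurableSet[ℱ n] (A n)) (hcop : ∀ n, ¬ Nat.Coprime n W → A n = ∅)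
    (hd : ∀ᵐ ω ∂μ, ∀ ε : ℝ, 0 < ε → ∀ᶠ n : ℕ in atTop, |dens μ ℱ A n ω - rhoW W (n + 1)| ≤ ε * rhoW W (n + 1))
    (P : Finset ℤ[X]) (hne : P.Nonempty) (hP : ∀ f ∈ P, 0 < f.natDegree ∧ 0 < f.leadingCoeff) (hC : 0 < bhConst W P)
    (hLam : 0 < Lam) (hL : Tendsto (fun x : ℕ => (L x : ℝ) / Real.log x ^ P.card) atTop (𝓝 Lam))
    (hxs : StrictMono xs) (hsep : ∀ᶠ n in atTop, xs n + L (xs n) ≤ xs (n + 1)) :
    ∀ᵐ ω ∂μ, ∀ r : ℕ, Tendsto (fun X : ℕ => (cn {n | wn (PM {a | ω ∈ A a} P) L (xs n) = r} X : ℝ) / X) atTop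
      (𝓝 ((Lam * bhConst W P) ^ r / (r.factorial : ℝ) * Real.exp (-(Lam * bhConst W P)))) := by
  classical
  obtain ⟨m, F, D, f1, f2, f3, f4, f5, f6, f7⟩ := exists_F P hne hP
  obtain ⟨i, hi⟩ : ∃ i, P.card = i + 1 := ⟨P.card - 1, by have := Finset.card_pos.2 hne; omega⟩
  set G : ℕ → Prop := fun n => good P W (n + m) with hG
  have hGd : ∀ n, G n ↔ ∀ f ∈ P, Nat.Coprime (pv f (n + m)) W := by
    intro n
    simp only [hG]
    unfold good
    refine forall₂_congr fun f hf => ?_
    rw [← f7 n f hf, Int.gcd_natCast_natCast]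
  have hGp : Function.Periodic G W := by
    intro n
    simp only [hG]
    rw [show n + W + m = n + m + W by ring]
    exact good_periodic P W (n + m)
  have hgd : gd G W = (Nat.count (good P W) W : ℝ) / W := by
    unfold gd
    congr 2
    have h1 := Nat.filter_Ico_card_eq_of_periodic m W (good P W) (good_periodic P W)
    rw [← h1, Nat.count_eq_card_filter_range]
    refine Finset.card_bij (fun y _ => y + m) ?_ ?_ ?_
    · intro y hy
      have hy := Finset.mem_filter.1 hy
      have h2 := Finset.mem_range.1 hy.1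
      exact Finset.mem_filter.2 ⟨Finset.mem_Ico.2 ⟨by omega, by omega⟩, hy.2⟩
    · intro a _ b _ hab
      have hab : a + m = b + m := hab
      omega
    · intro x hx
      have hx := Finset.mem_filter.1 hx
      have h2 := Finset.mem_Ico.1 hx.1
      refine ⟨x - m, Finset.mem_filter.2 ⟨Finset.mem_range.2 (by omega), ?_⟩, by omega⟩
      show good P W (x - m + m)
      rw [Nat.sub_add_cancel h2.1]
      exact hx.2
  have hk : kap (gd G W) ((W : ℝ) / Nat.totient W) D (i + 1) = bhConst W P := by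
    rw [kap_eq _ _ _ f3, ← hi, f6, hgd]
    unfold bhConst
    rw [Finset.prod_inv_distrib]
  have hg0 : 0 < gd G W := by
    rw [hgd]
    refine lt_of_le_of_ne (by positivity) fun h => ?_
    unfold bhConst at hC
    rw [← h, zero_mul] at hC
    exact lt_irrefl _ hC
  set L' : ℕ → ℕ := fun y => L (y + m) with hL'
  have hlogm : Tendsto (fun n : ℕ => Real.log ((n + m : ℕ) : ℝ) / Real.log n) atTop (𝓝 1) := by
    have hL0 : Tendsto (fun x : ℕ => (((fun _ => m : ℕ → ℕ) x : ℕ) : ℝ) / Real.log x ^ 1) atTop (𝓝 0) := by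
      simp only [pow_one]
      exact tendsto_const_nhds.div_atTop tendsto_logN
    exact log_shift hL0
  have hL'l : Tendsto (fun x : ℕ => (L' x : ℝ) / Real.log x ^ (i + 1)) atTop (𝓝 Lam) := by
    rw [hi] at hL
    have h1 := (hL.comp (tendsto_add_atTop_nat m)).mul (hlogm.pow (i + 1))
    rw [one_pow, mul_one] at h1
    refine h1.congr' ?_
    filter_upwards [log_pos_ev, (tendsto_add_atTop_nat m).eventually log_pos_ev] with n hn hn2
    have hn2 : 0 < Real.log ((n + m : ℕ) : ℝ) := hn2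
    simp only [Function.comp, hL']
    rw [div_pow]
    field_simp
  set ys : ℕ → ℕ := fun n => xs n - m with hys
  have hxm : ∀ n, m ≤ n → m ≤ xs n := fun n hn => hn.trans hxs.le_apply
  have hym : ∀ n, m ≤ n → ys n + m = xs n := fun n hn => Nat.sub_add_cancel (hxm n hn)
  have y1 : Monotone ys := fun a b hab => Nat.sub_le_sub_right (hxs.monotone hab) m
  have y2 : Tendsto ys atTop atTop := by
    refine tendsto_atTop_mono (f := fun n => n - m) (fun n => ?_) (tendsto_sub_atTop_nat m)
    have : n ≤ xs n := hxs.le_apply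
    show n - m ≤ xs n - m
    omega
  have y3 : ∀ᶠ n : ℕ in atTop, Real.log n ≤ 2 * Real.log (ys n) := by
    filter_upwards [eventually_ge_atTop (2 * m + 4)] with n hn
    have h1 : n ≤ xs n := hxs.le_apply
    have h2 : (n : ℝ) / 2 ≤ ys n := by
      have h3 : n ≤ 2 * ys n := by
        simp only [hys]
        omega
      have h3' : (n : ℝ) ≤ 2 * ys n := by exact_mod_cast h3
      linarith
    have h4 : (4 : ℝ) ≤ n := by
      have : 4 ≤ n := by omega
      exact_mod_cast this
    have h5 : (n : ℝ) ≤ (ys n : ℝ) ^ 2 := by nlinarith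
    have h6 := Real.log_le_log (by linarith) h5
    rw [Real.log_pow] at h6
    exact_mod_cast h6
  have y4 : ∀ᶠ n in atTop, ys n + L' (ys n) ≤ ys (n + 1) := by
    filter_upwards [hsep, eventually_ge_atTop m] with n hn hnm
    have h1 := hym n hnm
    have h2 := hym (n + 1) (by omega)
    show ys n + L (ys n + m) ≤ ys (n + 1)
    rw [h1]
    omega
  have h0 := poisson_sub (μ := μ) (ℱ := ℱ) (A := A) (F := F) (G := G) (L := L') (Lam := Lam) (D := D) (xs := ys) hW rfl hGp hA hd f1 f2 f3 f4 i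
    (fun j hj n hn => ((f5 n (fun z => Nat.Coprime z W)).2 ((hGd n).1 hn)) j (by omega)) hg0 hLam hL'l y1 y2 y3 y4
  filter_upwards [h0] with ω hω r
  have h1 := hω r
  rw [hk] at h1
  have h2 : ∀ y, NW A F G L' (i + 1) y ω = wn (PM {a | ω ∈ A a} P) L (y + m) := by
    intro y
    unfold NW wn
    refine Finset.card_bij (fun n _ => n + m) ?_ ?_ ?_
    · intro n hn
      rw [mem_WS] at hn
      have hn1 : n ≤ y + L (y + m) := hn.1.2
      refine Finset.mem_filter.2 ⟨Finset.mem_Ioc.2 ⟨by omega, by omega⟩, ?_⟩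
      intro f hf
      have h3 := (f5 n (fun z => ω ∈ A z)).1 (fun j hj => hn.2.2 j (by omega)) f hf
      exact ⟨pv f (n + m), h3, f7 n f hf⟩
    · intro a _ b _ hab
      have hab : a + m = b + m := hab
      omega
    · intro x hx
      have hx := Finset.mem_filter.1 hx
      have h3 := Finset.mem_Ioc.1 hx.1
      refine ⟨x - m, ?_, by omega⟩
      have hxm : x - m + m = x := by omega
      have h4 : ∀ f ∈ P, ω ∈ A (pv f (x - m + m)) := by
        intro f hf
        obtain ⟨a, ha, ha2⟩ := hx.2 f hf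
        have h5 := f7 (x - m) f hf
        rw [hxm] at h5 ⊢
        rw [← h5] at ha2
        have h6 : a = pv f x := by exact_mod_cast ha2
        rw [← h6]
        exact ha
      rw [mem_WS]
      refine ⟨⟨by omega, ?_⟩, ?_, ?_⟩
      · show x - m ≤ y + L (y + m)
        omega
      · rw [hGd]
        intro f hf
        by_contra hcon
        have h5 := h4 f hf
        rw [hcop _ hcon] at h5
        exact h5
      · intro j hj
        exact (f5 (x - m) (fun z => ω ∈ A z)).2 h4 j (by omega)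
  refine cn_congr_lim (n₀ := m) (fun n hn => ?_) h1
  simp only [mem_ofPred_eq]
  rw [h2, hym n hn]

end Pool.Agent.N315.PS
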