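import Mathlib
import Pool.Agent.N315.PS.SubC
import Pool.Agent.N315.PS.Sh

/-!
# All systems and all lengths at once, along separated sequences
-/

set_option autoImplicit false
set_option linter.unusedSectionVars false

open MeasureTheory Filter Set Polynomial ProbabilityTheory
open scoped ENNReal Topology

namespace Pool.Agent.N315.PS

open Pool.Agent.R528.RM Pool.Agent.N740.HK Pool.Agent.N315.CC Pool.Agent.N315.PL

/-- from rational to real lengths of the windows, general form -/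
theorem all_real_gen {N : ℝ → ℕ → ℕ} (hN : ∀ {a b : ℝ}, a ≤ b → ∀ x, N a x ≤ N b x)
    (h : ∀ q : ℚ, 0 < q → ∀ r : ℕ, Tendsto (fun X : ℕ => (cn {x | N q x = r} X : ℝ) / X) atTop (𝓝 (po q r)))
    {lam : ℝ} (hlam : 0 < lam) (r : ℕ) :
    Tendsto (fun X : ℕ => (cn {x | N lam x = r} X : ℝ) / X) atTop (𝓝 (po lam r)) := by
  have hq : ∀ q : ℚ, 0 < q → ∀ r : ℕ, Tendsto (fun X : ℕ => (cn {x | N q x ≤ r} X : ℝ) / X) atTop
      (𝓝 (∑ j ∈ Finset.range (r + 1), po q j)) := by
    intro q hq r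
    have h1 := tendsto_finsetSum (Finset.range (r + 1)) (fun j _ => h q hq j)
    refine h1.congr fun X => ?_
    rw [← Finset.sum_div, ← cn_le_sum (fun x => N q x) r X]
  have hcdf : ∀ r : ℕ, Tendsto (fun X : ℕ => (cn {x | N lam x ≤ r} X : ℝ) / X) atTop
      (𝓝 (∑ j ∈ Finset.range (r + 1), po lam j)) := by
    intro r
    have hcont : Continuous (fun l : ℝ => ∑ j ∈ Finset.range (r + 1), po l j) := continuous_finsetSum _ fun j _ => po_cont j
    refine tendsto_order.2 ⟨fun a ha => ?_, fun b hb => ?_⟩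
    · -- a longer window
      have h1 : ∀ᶠ l in 𝓝 lam, a < ∑ j ∈ Finset.range (r + 1), po l j := hcont.continuousAt.eventually_const_lt ha
      obtain ⟨δ, hδ, hb⟩ := Metric.eventually_nhds_iff.1 h1
      obtain ⟨q, hq1, hq2⟩ := exists_rat_btwn (show lam < lam + δ by linarith)
      have hq0 : (0 : ℚ) < q := by exact_mod_cast hlam.trans hq1
      have h2 := hb (y := (q : ℝ)) (by rw [Real.dist_eq, abs_of_pos (by linarith)]; linarith)
      filter_upwards [(hq q hq0 r).eventually_const_lt h2] with X hX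
      refine hX.trans_le (div_le_div_of_nonneg_right ?_ (Nat.cast_nonneg X))
      have h3 : {x | N q x ≤ r} ⊆ {x | N lam x ≤ r} := fun x hx =>
        (hN hq1.le x).trans hx
      exact_mod_cast cn_mono h3 X
    · have h1 : ∀ᶠ l in 𝓝 lam, ∑ j ∈ Finset.range (r + 1), po l j < b := hcont.continuousAt.eventually_lt_const hb
      obtain ⟨δ, hδ, hb⟩ := Metric.eventually_nhds_iff.1 h1
      obtain ⟨q, hq1, hq2⟩ := exists_rat_btwn (show max 0 (lam - δ) < lam from max_lt hlam (by linarith))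
      have hq0 : (0 : ℚ) < q := by exact_mod_cast (le_max_left _ _).trans_lt hq1
      have hq1' : lam - δ < q := (le_max_right _ _).trans_lt hq1
      have h2 := hb (y := (q : ℝ)) (by rw [Real.dist_eq, abs_sub_comm, abs_of_pos (by linarith)]; linarith)
      filter_upwards [(hq q hq0 r).eventually_lt_const h2] with X hX
      refine lt_of_le_of_lt (div_le_div_of_nonneg_right ?_ (Nat.cast_nonneg X)) hX
      have h3 : {x | N lam x ≤ r} ⊆ {x | N q x ≤ r} := fun x hx =>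
        (hN hq2.le x).trans hx
      exact_mod_cast cn_mono h3 X
  rcases r with _ | r
  · have h1 := hcdf 0
    simp only [Nat.le_zero, zero_add, Finset.range_one, Finset.sum_singleton] at h1
    exact h1
  · have h1 := (hcdf (r + 1)).sub (hcdf r)
    rw [Finset.sum_range_succ _ (r + 1), add_sub_cancel_left] at h1
    refine h1.congr fun X => ?_
    rw [cn_le_sum, cn_le_sum, Finset.sum_range_succ _ (r + 1), ← sub_div, add_sub_cancel_left]


variable {Ω : Type} {m0 : MeasurableSpace Ω} {μ : Measure Ω} [IsProbabilityMeasure μ]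
  {ℱ : Filtration ℕ m0} {A : ℕ → Set Ω} {xs : ℕ → ℕ}

/-- **the Poisson law along a separated sequence, for all systems** -/
theorem sub_full (hA : ∀ n, MeasurableSet[ℱ n] (A n)) (Q : Finset ℕ) (hQ : ∀ p ∈ Q, p.Prime)
    (hcop : ∀ n, (∃ p ∈ Q, p ∣ n) → A n = ∅)
    (hd : ∀ᵐ ω ∂μ, Tendsto (fun n : ℕ => (μ[(A (n + 1)).indicator (fun _ => (1 : ℝ)) | ℱ n]) ω * Real.log n)
      (atTop ⊓ 𝓟 {n : ℕ | ∀ p ∈ Q, ¬ p ∣ n + 1}) (𝓝 (∏ p ∈ Q, (1 - 1 / (p : ℝ))⁻¹))) (hxs : StrictMono xs) :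
    ∀ᵐ ω ∂μ, ∀ P : Finset ℤ[X], P.Nonempty → (∀ f ∈ P, 0 < f.natDegree ∧ 0 < f.leadingCoeff) → 0 < bc Q P →
      Tendsto (fun n : ℕ => ((xs (n + 1) : ℝ) - xs n) / Real.log (xs n) ^ P.card) atTop atTop →
      ∀ lam : ℝ, 0 < lam → ∀ r : ℕ,
        Tendsto (fun X : ℕ => (cn {n | wn (PM {a | ω ∈ A a} P) (LL (lam / bc Q P) P.card) (xs n) = r} X : ℝ) / X) atTop (𝓝 (po lam r)) := by
  classical
  haveI : Countable ℤ[X] := by
    rw [← Cardinal.mk_le_aleph0_iff]
    refine Polynomial.cardinalMk_le_max.trans ?_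
    simp
  set W := ∏ p ∈ Q, p with hWdef
  have hW : 0 < W := Finset.prod_pos fun q hq => (hQ q hq).pos
  have hc : ∀ n, Nat.Coprime n W ↔ ∀ p ∈ Q, ¬ p ∣ n := by
    intro n
    rw [hWdef, Nat.coprime_prod_right_iff]
    refine forall₂_congr fun p hp => ?_
    rw [Nat.coprime_comm]
    exact Nat.Prime.coprime_iff_not_dvd (hQ p hp)
  have hcop' : ∀ n, ¬ Nat.Coprime n W → A n = ∅ := fun n hn => hcop n (by
    rw [hc] at hn
    push Not at hn
    exact hn)
  have hprof := dens_profile (μ := μ) (ℱ := ℱ) hA W hW hcop' (by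
    rw [totient_prod Q hQ]
    simp_rw [hc]
    exact hd)
  have h1 : ∀ᵐ ω ∂μ, ∀ (P : Finset ℤ[X]), (P.Nonempty ∧ (∀ f ∈ P, 0 < f.natDegree ∧ 0 < f.leadingCoeff) ∧ 0 < bc Q P ∧
        Tendsto (fun n : ℕ => ((xs (n + 1) : ℝ) - xs n) / Real.log (xs n) ^ P.card) atTop atTop) →
      ∀ (q : ℚ), 0 < q → ∀ r : ℕ,
        Tendsto (fun X : ℕ => (cn {n | wn (PM {a | ω ∈ A a} P) (LL ((q : ℝ) / bc Q P) P.card) (xs n) = r} X : ℝ) / X) atTop (𝓝 (po q r)) := by
    refine ae_all_iff.2 fun P => ae_all_iff.2 fun hP => ae_all_iff.2 fun q => ae_all_iff.2 fun hq => ?_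
    obtain ⟨hne, hP, hC, hgr⟩ := hP
    have hq' : (0 : ℝ) < q := by exact_mod_cast hq
    have hk : P.card ≠ 0 := (Finset.card_pos.2 hne).ne'
    have hLam : 0 < (q : ℝ) / bc Q P := by positivity
    have hsep : ∀ᶠ n in atTop, xs n + LL ((q : ℝ) / bc Q P) P.card (xs n) ≤ xs (n + 1) := by
      filter_upwards [hgr.eventually_ge_atTop ((q : ℝ) / bc Q P), hxs.tendsto_atTop.eventually log_pos_ev] with n hn hl
      have hl : 0 < Real.log (xs n : ℝ) := hl
      rw [le_div_iff₀ (by positivity)] at hn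
      have h2 : (LL ((q : ℝ) / bc Q P) P.card (xs n) : ℝ) ≤ (q : ℝ) / bc Q P * Real.log (xs n) ^ P.card := Nat.floor_le (by positivity)
      have h3 : ((xs n + LL ((q : ℝ) / bc Q P) P.card (xs n) : ℕ) : ℝ) ≤ (xs (n + 1) : ℕ) := by
        push_cast
        linarith
      exact_mod_cast h3
    have h2 := poisson_poly_sub (μ := μ) (ℱ := ℱ) (A := A) (L := LL ((q : ℝ) / bc Q P) P.card) (Lam := (q : ℝ) / bc Q P) hW hA hcop' hprof P hne hP
      (by rw [bc_eq Q hQ]; exact hC) hLam (LL_lim hLam.le hk) hxs hsep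
    rw [bc_eq Q hQ, div_mul_cancel₀ _ hC.ne'] at h2
    exact h2
  filter_upwards [h1] with ω h2 P hne hP hC hgr lam hlam r
  refine all_real_gen (N := fun l n => wn (PM {a | ω ∈ A a} P) (LL (l / bc Q P) P.card) (xs n)) (fun {a b} hab n => ?_)
    (fun q hq r => h2 P ⟨hne, hP, hC, hgr⟩ q hq r) hlam r
  exact wn_mono (Nat.floor_mono (mul_le_mul_of_nonneg_right (div_le_div_of_nonneg_right hab hC.le)
    (pow_nonneg (Real.log_natCast_nonneg (xs n)) _)))

lemma zr_zero {p : ℕ} (hp : p.Prime) : zr {0} p = 1 := by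
  unfold zr
  have e : {r : ℕ | r < p ∧ ∃ j ∈ ({0} : Finset ℕ), p ∣ r + j} = {0} := by
    ext r
    simp only [Finset.mem_singleton, exists_eq_left, add_zero, Set.mem_ofPred_eq, Set.mem_singleton_iff]
    constructor
    · rintro ⟨h1, h2⟩
      exact Nat.eq_zero_of_dvd_of_lt h2 h1
    · rintro rfl
      exact ⟨hp.pos, dvd_zero p⟩
  rw [e, Set.ncard_singleton]

lemma sc_zero (Q : Finset ℕ) (hQ : ∀ p ∈ Q, p.Prime) : sc Q {0} = 1 := by
  unfold sc
  refine Finset.prod_eq_one fun p hp => ?_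
  rw [zr_zero (hQ p hp), Nat.cast_one, Finset.card_singleton, pow_one]
  have h1 : (1 : ℝ) < p := by exact_mod_cast (hQ p hp).one_lt
  refine div_self (ne_of_gt ?_)
  rw [sub_pos, div_lt_one (by linarith)]
  exact h1

lemma TD_zero (S : Set ℕ) : TD S {0} = S := by
  ext n
  simp [TD]

end Pool.Agent.N315.PS
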