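import Mathlib
import Pool.Agent.N315.PS.SubD
import Pool.Agent.N315.PS.Use

/-!
# The laws for the chosen members of a sequence of polynomial growth
-/

set_option autoImplicit false
set_option linter.unusedSectionVars false

open MeasureTheory Filter Set Polynomial ProbabilityTheory
open scoped ENNReal Topology

namespace Pool.Agent.N315.PS

open Pool.Agent.R528.RM Pool.Agent.N740.HK Pool.Agent.N315.CC Pool.Agent.N315.PL

variable {Ω : Type} {m0 : MeasurableSpace Ω} {μ : Measure Ω} [IsProbabilityMeasure μ]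
  {ℱ : Filtration ℕ m0} {A : ℕ → Set Ω} {xs : ℕ → ℕ} {D : ℝ}

/-- the maps `x_n + i` -/
def Xi (xs : ℕ → ℕ) (i n : ℕ) : ℕ := xs n + i

lemma Xi_log (hxs : StrictMono xs) (hlog : Tendsto (fun n : ℕ => Real.log (xs n) / Real.log n) atTop (𝓝 D)) (i : ℕ) :
    Tendsto (fun n : ℕ => Real.log (Xi xs i n : ℕ) / Real.log n) atTop (𝓝 D) := by
  have hlogm : Tendsto (fun n : ℕ => Real.log ((n + i : ℕ) : ℝ) / Real.log n) atTop (𝓝 1) := by
    have hL0 : Tendsto (fun x : ℕ => (((fun _ => i : ℕ → ℕ) x : ℕ) : ℝ) / Real.log x ^ 1) atTop (𝓝 0) := by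
      simp only [pow_one]
      exact tendsto_const_nhds.div_atTop tendsto_logN
    exact log_shift hL0
  have h1 := (hlogm.comp hxs.tendsto_atTop).mul hlog
  rw [one_mul] at h1
  refine h1.congr' ?_
  filter_upwards [hxs.tendsto_atTop.eventually log_pos_ev, log_pos_ev] with n hn hn2
  have hn : 0 < Real.log (xs n : ℝ) := hn
  show Real.log ((xs n + i : ℕ) : ℝ) / Real.log (xs n) * (Real.log (xs n) / Real.log n) = Real.log ((xs n + i : ℕ) : ℝ) / Real.log n
  field_simp

/-- the number of the chosen members -/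
theorem seq_count (hA : ∀ n, MeasurableSet[ℱ n] (A n))
    (hd : ∀ᵐ ω ∂μ, ∀ ε : ℝ, 0 < ε → ∀ᶠ n : ℕ in atTop, |dens μ ℱ A n ω - rhoW 1 (n + 1)| ≤ ε * rhoW 1 (n + 1))
    (hxs : StrictMono xs) (hD : 0 < D) (hlog : Tendsto (fun n : ℕ => Real.log (xs n) / Real.log n) atTop (𝓝 D)) :
    ∀ᵐ ω ∂μ, Tendsto (fun X : ℕ => (cn {n | ω ∈ A (xs n)} X : ℝ) * Real.log X ^ 1 / X) atTop (𝓝 (1 / D)) := by
  classical
  have hb : Tendsto (fun n : ℕ => rhoW 1 (xs n) * Real.log n ^ 1) atTop (𝓝 (1 / D)) := by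
    have h1 := hlog.inv₀ hD.ne'
    rw [← one_div] at h1
    refine h1.congr' ?_
    filter_upwards [log_pos_ev, (tendsto_logN.comp hxs.tendsto_atTop).eventually_ge_atTop 1] with n hn hn2
    have hn2 : 1 ≤ Real.log (xs n : ℝ) := hn2
    have h3 : rhoW 1 (xs n) = 1 / Real.log (xs n : ℝ) := by
      unfold rhoW
      rw [if_pos (Nat.coprime_one_right _), Nat.totient_one, Nat.cast_one, div_one]
      exact min_eq_right ((div_le_one (by linarith)).2 hn2)
    rw [h3, pow_one]
    field_simp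
  have hs : Tendsto (fun x : ℕ => (∑ n ∈ Finset.range x, rhoW 1 (xs n)) * Real.log x ^ 1 / x) atTop (𝓝 (1 / D)) := by
    have h1 := avg_log (b := fun n => rhoW 1 (xs n)) (C := 1) (fun n => by
      rw [abs_of_nonneg (rhoW_nonneg 1 _)]
      exact rhoW_le 1 _) 1 hb
    have h2 : Tendsto (fun x : ℕ => (∑ n ∈ Finset.range x, (rhoW 1 (xs n) * Real.log x ^ 1 - 1 / D)) / (x : ℝ)) atTop (𝓝 (0 : ℝ)) := by
      refine squeeze_zero_norm (fun x => ?_) h1
      rw [norm_div, Real.norm_natCast]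
      refine div_le_div_of_nonneg_right ?_ (Nat.cast_nonneg x)
      exact Finset.abs_sum_le_sum_abs _ _
    have h3 := h2.add_const (1 / D)
    rw [zero_add] at h3
    refine h3.congr' ?_
    filter_upwards [eventually_gt_atTop 0] with x hx
    have hx' : (0 : ℝ) < x := by exact_mod_cast hx
    rw [Finset.sum_sub_distrib, Finset.sum_const, Finset.card_range, ← Finset.sum_mul, nsmul_eq_mul, sub_div, mul_comm (x : ℝ) (1 / D),
      mul_div_assoc (1 / D), div_self hx'.ne']
    ring
  have hU : Tendsto (fun x => ∑ n ∈ Finset.range x, rhoW 1 (xs n)) atTop atTop := by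
    have h1 : Tendsto (fun x : ℕ => (x : ℝ) / Real.log x ^ 1) atTop atTop := by
      have h2 := (Real.isLittleO_log_id_atTop.tendsto_div_nhds_zero).comp tendsto_natCast_atTop_atTop
      have h3 : Tendsto (fun n : ℕ => Real.log (n : ℝ) / (n : ℝ)) atTop (𝓝[>] 0) := by
        refine tendsto_nhdsWithin_iff.2 ⟨h2, ?_⟩
        filter_upwards [log_pos_ev, eventually_gt_atTop 0] with n hn hn0
        exact div_pos hn (by exact_mod_cast hn0)
      refine h3.inv_tendsto_nhdsGT_zero.congr fun n => ?_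
      simp
    have h2 := hs.pos_mul_atTop (by positivity) h1
    refine h2.congr' ?_
    filter_upwards [log_pos_ev, eventually_gt_atTop 0] with x hx hx0
    have hx' : (0 : ℝ) < x := by exact_mod_cast hx0
    field_simp
  have h1 := general_final (μ := μ) (ℱ := ℱ) (ι := Unit) hA (rhoW 1) (fun n => ⟨rhoW_nonneg 1 n, rhoW_le 1 n⟩) hd {()} (fun _ => xs)
    (fun _ _ => Eventually.of_forall fun n => hxs (Nat.lt_succ_self n)) (fun i _ j _ hij => absurd (Subsingleton.elim i j) hij)
    (by simpa using hU)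
  filter_upwards [h1] with ω hω
  have h2 := hω.mul hs
  rw [one_mul] at h2
  refine h2.congr' ?_
  filter_upwards [hU.eventually_gt_atTop 0] with x hx
  have e : {n : ℕ | n < x ∧ ∀ i ∈ ({()} : Finset Unit), ω ∈ A (xs n)} = {n | n < x ∧ n ∈ {n | ω ∈ A (xs n)}} := by
    ext n
    simp
  rw [cn_ncard, e]
  simp only [Finset.prod_singleton]
  have := hx.ne'
  field_simp

/-- **the laws for the chosen members of a sequence** -/
theorem seq_laws (hA : ∀ n, MeasurableSet[ℱ n] (A n))
    (hd : ∀ᵐ ω ∂μ, ∀ ε : ℝ, 0 < ε → ∀ᶠ n : ℕ in atTop, |dens μ ℱ A n ω - rhoW 1 (n + 1)| ≤ ε * rhoW 1 (n + 1))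
    (hxs : StrictMono xs) (hD : 0 < D) (hlog : Tendsto (fun n : ℕ => Real.log (xs n) / Real.log n) atTop (𝓝 D)) :
    ∀ᵐ ω ∂μ, Laws (fun M s => sInf {t | t ∈ M ∧ s < t}) {n | ω ∈ A (xs n)} (1 / D) 1 := by
  classical
  have hC : 0 < 1 / D := by positivity
  have hgd : gd (fun _ => True) 1 = 1 := by
    unfold gd
    simp
  have h1 : ∀ᵐ ω ∂μ, ∀ q : ℚ, 0 < q → ∀ r : ℕ,
      Tendsto (fun X : ℕ => (cn {x | wn {n | ω ∈ A (xs n)} (LL ((q : ℝ) / (1 / D)) 1) x = r} X : ℝ) / X) atTop (𝓝 (po (q : ℝ) r)) := by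
    refine ae_all_iff.2 fun q => ae_all_iff.2 fun hq => ?_
    have hq' : (0 : ℝ) < q := by exact_mod_cast hq
    have hLam : 0 < (q : ℝ) / (1 / D) := by positivity
    have h2 := poisson (μ := μ) (ℱ := ℱ) (A := A) (F := Xi xs) (G := fun _ => True) (L := LL ((q : ℝ) / (1 / D)) 1)
      (Lam := (q : ℝ) / (1 / D)) (D := fun _ => D) (W := 1) (c := 1) one_pos (by simp) (fun n => rfl) hA hd
      (fun i a b hab => Nat.add_lt_add_right (hxs hab) i) (fun i n => by unfold Xi; omega) (fun _ => hD) (fun i => Xi_log hxs hlog i) 0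
      (fun j _ n _ => Nat.coprime_one_right _) (by rw [hgd]; exact one_pos) (LL_mono hLam.le one_ne_zero) hLam
      (LL_lim hLam.le one_ne_zero)
    filter_upwards [h2] with ω hω r
    have h3 := hω r
    have hk : (q : ℝ) / (1 / D) * kap (gd (fun _ => True) 1) 1 (fun _ => D) (0 + 1) = q := by
      have : kap (gd (fun _ => True) 1) 1 (fun _ => D) (0 + 1) = gd (fun _ => True) 1 * 1 / D := rfl
      rw [this, hgd]
      field_simp
    rw [hk] at h3
    refine cn_congr_lim (n₀ := 0) (fun x _ => ?_) h3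
    simp only [mem_ofPred_eq]
    have e : NW A (Xi xs) (fun _ => True) (LL ((q : ℝ) / (1 / D)) 1) (0 + 1) x ω = wn {n | ω ∈ A (xs n)} (LL ((q : ℝ) / (1 / D)) 1) x := by
      unfold NW wn
      congr 1
      ext n
      rw [mem_WS, Finset.mem_filter, Finset.mem_Ioc]
      refine and_congr_right fun _ => ?_
      constructor
      · rintro ⟨_, h4⟩
        exact h4 0 (by omega)
      · intro h4
        refine ⟨trivial, fun j hj => ?_⟩
        have : j = 0 := by omega
        subst this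
        exact h4
    rw [e]
  filter_upwards [h1, seq_count hA hd hxs hD hlog] with ω g1 g2
  refine use_change hC one_ne_zero (subset_refl _) (E := ∅) subset_union_left g2 ?_ ?_
  · have e : ∀ X, cn ∅ X = 0 := by
      intro X
      have := cn_sub (E := (∅ : Set ℕ)) (s := ∅) (fun x hx => absurd hx (notMem_empty x)) X
      simpa using this
    simp only [e, Nat.cast_zero, zero_mul, zero_div]
    exact tendsto_const_nhds
  · intro lam hlam r
    refine all_real_gen (N := fun l x => wn {n | ω ∈ A (xs n)} (LL (l / (1 / D)) 1) x) (fun {a b} hab x => ?_) g1 hlam r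
    exact wn_mono (Nat.floor_mono (mul_le_mul_of_nonneg_right (div_le_div_of_nonneg_right hab hC.le)
      (pow_nonneg (Real.log_natCast_nonneg x) _)))

end Pool.Agent.N315.PS
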