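import Mathlib
import Pool.Agent.N315.PS.Seq
import Pool.Agent.N256.PL.Pal

/-!
# The sequence of the palindromes
-/

set_option autoImplicit false
set_option linter.unusedSectionVars false

open Filter Set
open scoped Topology

namespace Pool.Agent.N315.PS

open Pool.Agent.N256.PL Pool.Agent.R528.RM Pool.Agent.N740.HK Pool.Agent.N315.CC Pool.Agent.N315.PL

/-- palindromes with an odd number of digits -/
def OP (t : ℕ) : Prop := (Nat.digits 10 t).length % 2 = 1 ∧ (Nat.digits 10 t).reverse = Nat.digits 10 t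

instance : DecidablePred OP := fun t => by unfold OP; infer_instance

lemma OP_iff (t : ℕ) : OP t ↔ ∃ k, t ∈ pal k := by
  constructor
  · rintro ⟨h1, h2⟩
    exact ⟨(Nat.digits 10 t).length / 2, by omega, h2⟩
  · rintro ⟨k, h1, h2⟩
    exact ⟨by omega, h2⟩

lemma G_card (n : ℕ) : (G n).card = 10 ^ (n + 1) := by
  induction n with
  | zero => simp [G]
  | succ n ih =>
    rw [G, Finset.card_image_of_injOn, Finset.card_product, Finset.card_range, ih]
    · ring
    · refine (step_inj n).mono ?_
      intro x hx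
      have := Finset.mem_product.1 (Finset.mem_coe.1 hx)
      exact Finset.mem_range.1 this.1

lemma PF_card (n : ℕ) : (PF n).card = 9 * 10 ^ (n + 1) := by
  unfold PF
  rw [Finset.card_image_of_injOn, Finset.card_product, G_card]
  · simp
  · refine (step_inj n).mono ?_
    intro x hx
    have := Finset.mem_product.1 (Finset.mem_coe.1 hx)
    have h := Finset.mem_Icc.1 this.1
    show x.1 < 10
    omega

lemma mem_PF {n u : ℕ} : u ∈ PF n ↔ u ∈ pal (n + 1) := by
  rw [pal_succ, Finset.mem_coe]

lemma op_up (k : ℕ) : Nat.count OP (10 ^ (2 * k + 1)) ≤ 10 ^ (k + 1) := by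
  induction k with
  | zero => exact (Nat.count_le OP).trans (by norm_num)
  | succ k ih =>
    rw [Nat.count_eq_card_filter_range] at ih ⊢
    have h1 : (Finset.range (10 ^ (2 * (k + 1) + 1))).filter OP ⊆ (Finset.range (10 ^ (2 * k + 1))).filter OP ∪ PF k := by
      intro u hu
      rw [Finset.mem_filter, Finset.mem_range] at hu
      rw [Finset.mem_union, Finset.mem_filter, Finset.mem_range]
      by_cases h : u < 10 ^ (2 * k + 1)
      · exact Or.inl ⟨h, hu.2⟩
      · right
        obtain ⟨j, hj⟩ := (OP_iff u).1 hu.2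
        obtain ⟨h3, h4⟩ := pal_size hj
        have h5 : 2 * j < 2 * (k + 1) + 1 := (Nat.pow_lt_pow_iff_right (by norm_num)).1 (h3.trans_lt hu.1)
        have h6 : 2 * k + 1 < 2 * j + 1 := (Nat.pow_lt_pow_iff_right (by norm_num)).1 ((not_lt.1 h).trans_lt h4)
        have h7 : j = k + 1 := by omega
        subst h7
        exact mem_PF.2 hj
    refine (Finset.card_le_card h1).trans ((Finset.card_union_le _ _).trans ?_)
    rw [PF_card]
    calc _ ≤ 10 ^ (k + 1) + 9 * 10 ^ (k + 1) := Nat.add_le_add_right ih _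
      _ = 10 ^ (k + 1 + 1) := by ring

lemma op_lo {k t : ℕ} (ht : 10 ^ (2 * k + 3) ≤ t) : 10 ^ (k + 1) ≤ Nat.count OP t := by
  rw [Nat.count_eq_card_filter_range]
  have h1 : PF k ⊆ (Finset.range t).filter OP := by
    intro u hu
    have h2 := mem_PF.1 hu
    rw [Finset.mem_filter, Finset.mem_range]
    exact ⟨(pal_size h2).2.trans_le (by rw [show 2 * (k + 1) + 1 = 2 * k + 3 by ring]; exact ht), (OP_iff u).2 ⟨_, h2⟩⟩
  have h2 := Finset.card_le_card h1
  rw [PF_card] at h2
  exact le_trans (Nat.le_mul_of_pos_left _ (by norm_num)) h2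

lemma OP_inf : {t | OP t}.Infinite := by
  refine Set.infinite_of_forall_exists_gt fun a => ?_
  have h1 : (PF a).Nonempty := by
    rw [← Finset.card_pos, PF_card]
    positivity
  obtain ⟨u, hu⟩ := h1
  have h2 := mem_PF.1 hu
  refine ⟨u, (OP_iff u).2 ⟨_, h2⟩, ?_⟩
  have h3 : a + 1 < 10 ^ (a + 1) := Nat.lt_pow_self (by norm_num)
  have h4 : 10 ^ (a + 1) ≤ 10 ^ (2 * (a + 1)) := Nat.pow_le_pow_right (by norm_num) (by omega)
  have h5 := (pal_size h2).1
  omega

/-- the palindromes with an odd number of digits, in increasing order -/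
noncomputable def ps (n : ℕ) : ℕ := Nat.nth OP n

lemma ps_mono : StrictMono ps := Nat.nth_strictMono OP_inf

lemma ps_log : Tendsto (fun n : ℕ => Real.log (ps n) / Real.log n) atTop (𝓝 2) := by
  have h1 : Tendsto (fun n : ℕ => (Real.log (ps n) - 2 * Real.log n) / Real.log n) atTop (𝓝 0) := by
    have h2 : Tendsto (fun n : ℕ => 3 * Real.log 10 / Real.log n) atTop (𝓝 0) := tendsto_const_nhds.div_atTop tendsto_logN
    refine squeeze_zero_norm' ?_ h2
    filter_upwards [log_pos_ev, eventually_gt_atTop 100] with n hl hn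
    rw [Real.norm_eq_abs, abs_div, abs_of_pos hl]
    refine div_le_div_of_nonneg_right ?_ hl.le
    have hc : Nat.count OP (ps n) = n := Nat.count_nth_of_infinite OP_inf n
    obtain ⟨j, hj⟩ := (OP_iff _).1 (Nat.nth_mem_of_infinite OP_inf n)
    have hj : ps n ∈ pal j := hj
    obtain ⟨h3, h4⟩ := pal_size hj
    have h5 : n ≤ 10 ^ (j + 1) := by
      rw [← hc]
      exact (Nat.count_monotone OP h4.le).trans (op_up j)
    have hj2 : 2 ≤ j := by
      by_contra hcon
      have : 10 ^ (j + 1) ≤ 10 ^ 2 := Nat.pow_le_pow_right (by norm_num) (by omega)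
      omega
    obtain ⟨k, rfl⟩ : ∃ k, j = k + 2 := ⟨j - 2, by omega⟩
    have h6 : 10 ^ (k + 1) ≤ n := by
      rw [← hc]
      exact op_lo ((Nat.pow_le_pow_right (by norm_num) (by omega)).trans h3)
    have h10 : 0 < Real.log 10 := Real.log_pos (by norm_num)
    have a1 : ((10 : ℝ) ^ (k + 1)) ≤ n := by exact_mod_cast h6
    have a2 : (n : ℝ) ≤ 10 ^ (k + 2 + 1) := by exact_mod_cast h5
    have a3 : (10 : ℝ) ^ (2 * (k + 2)) ≤ ps n := by exact_mod_cast h3
    have a4 : (ps n : ℝ) ≤ 10 ^ (2 * (k + 2) + 1) := by exact_mod_cast h4.le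
    have hn0 : (0 : ℝ) < n := by
      have : 0 < n := by omega
      exact_mod_cast this
    have hp0 : (0 : ℝ) < ps n := lt_of_lt_of_le (by positivity) a3
    have b1 := Real.log_le_log (by positivity) a1
    have b2 := Real.log_le_log hn0 a2
    have b3 := Real.log_le_log (by positivity) a3
    have b4 := Real.log_le_log hp0 a4
    rw [Real.log_pow] at b1 b2 b3 b4
    push_cast at b1 b2 b3 b4
    rw [abs_le]
    constructor <;> nlinarith
  have h2 := h1.add_const 2
  rw [zero_add] at h2
  refine h2.congr' ?_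
  filter_upwards [log_pos_ev] with n hl
  field_simp
  ring

end Pool.Agent.N315.PS
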