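import Mathlib
import Pool.Agent.N315.PS.Seq
import Pool.Agent.N315.PS.Sh

/-!
# Patterns of consecutive members of a sequence
-/

set_option autoImplicit false
set_option linter.unusedSectionVars false

open MeasureTheory Filter Set Polynomial ProbabilityTheory
open scoped ENNReal Topology

namespace Pool.Agent.N315.PS

open Pool.Agent.R528.RM Pool.Agent.N740.HK Pool.Agent.N315.CC Pool.Agent.N315.PL

variable {Ω : Type} {m0 : MeasurableSpace Ω} {μ : Measure Ω} [IsProbabilityMeasure μ]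
  {ℱ : Filtration ℕ m0} {A : ℕ → Set Ω} {xs : ℕ → ℕ} {D : ℝ}

lemma comp_log (hlog : Tendsto (fun n : ℕ => Real.log (xs n) / Real.log n) atTop (𝓝 D)) (c : ℕ) :
    Tendsto (fun n : ℕ => Real.log (xs (n + c) : ℕ) / Real.log n) atTop (𝓝 D) := by
  have h1 := (hlog.comp (tendsto_add_atTop_nat c)).mul (add_log c)
  rw [mul_one] at h1
  refine h1.congr' ?_
  filter_upwards [log_pos_ev, (tendsto_add_atTop_nat c).eventually log_pos_ev] with n hn hn2
  have hn2 : 0 < Real.log ((n + c : ℕ) : ℝ) := hn2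
  show Real.log (xs (n + c)) / Real.log ((n + c : ℕ) : ℝ) * (Real.log ((n + c : ℕ) : ℝ) / Real.log n) = _
  field_simp

lemma kap_const (i : ℕ) : kap 1 1 (fun _ => D) i = (1 / D) ^ i := by
  induction i with
  | zero => rfl
  | succ i ih =>
    have : kap 1 1 (fun _ => D) (i + 1) = kap 1 1 (fun _ => D) i * 1 / D := rfl
    rw [this, ih, pow_succ]
    ring

lemma rho_log (hxs : StrictMono xs) (hD : 0 < D) (hlog : Tendsto (fun n : ℕ => Real.log (xs n) / Real.log n) atTop (𝓝 D)) (c : ℕ) :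
    Tendsto (fun n : ℕ => rhoW 1 (xs (n + c)) * Real.log n) atTop (𝓝 (1 / D)) := by
  have h1 := (comp_log hlog c).inv₀ hD.ne'
  rw [← one_div] at h1
  refine h1.congr' ?_
  filter_upwards [log_pos_ev, (tendsto_logN.comp (hxs.tendsto_atTop.comp (tendsto_add_atTop_nat c))).eventually_ge_atTop 1] with n hn hn2
  have hn2 : 1 ≤ Real.log (xs (n + c) : ℝ) := hn2
  have h3 : rhoW 1 (xs (n + c)) = 1 / Real.log (xs (n + c) : ℝ) := by
    unfold rhoW
    rw [if_pos (Nat.coprime_one_right _), Nat.totient_one, Nat.cast_one, div_one]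
    exact min_eq_right ((div_le_one (by linarith)).2 hn2)
  rw [h3]
  field_simp

/-- the number of the patterns -/
theorem pat_count (hA : ∀ n, MeasurableSet[ℱ n] (A n))
    (hd : ∀ᵐ ω ∂μ, ∀ ε : ℝ, 0 < ε → ∀ᶠ n : ℕ in atTop, |dens μ ℱ A n ω - rhoW 1 (n + 1)| ≤ ε * rhoW 1 (n + 1))
    (hxs : StrictMono xs) (hD : 0 < D) (hlog : Tendsto (fun n : ℕ => Real.log (xs n) / Real.log n) atTop (𝓝 D)) (E : Finset ℕ) :
    ∀ᵐ ω ∂μ, Tendsto (fun X : ℕ => (cn {n | ∀ e ∈ E, ω ∈ A (xs (n + e))} X : ℝ) * Real.log X ^ E.card / X) atTop (𝓝 ((1 / D) ^ E.card)) := by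
  classical
  have hD' : 0 < (1 / D) ^ E.card := by positivity
  have hb : Tendsto (fun n : ℕ => (∏ e ∈ E, rhoW 1 (xs (n + e))) * Real.log n ^ E.card) atTop (𝓝 ((1 / D) ^ E.card)) := by
    have h1 : Tendsto (fun n : ℕ => ∏ e ∈ E, (rhoW 1 (xs (n + e)) * Real.log n)) atTop (𝓝 (∏ e ∈ E, (1 / D))) :=
      tendsto_finsetProd _ fun e _ => rho_log hxs hD hlog e
    rw [Finset.prod_const] at h1
    refine h1.congr fun n => ?_
    rw [Finset.prod_mul_distrib, Finset.prod_const]
  have hs : Tendsto (fun x : ℕ => (∑ n ∈ Finset.range x, ∏ e ∈ E, rhoW 1 (xs (n + e))) * Real.log x ^ E.card / x) atTop (𝓝 ((1 / D) ^ E.card)) := by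
    have h1 := avg_log (b := fun n => ∏ e ∈ E, rhoW 1 (xs (n + e))) (C := 1) (fun n => by
      rw [abs_of_nonneg (Finset.prod_nonneg fun e _ => rhoW_nonneg 1 _)]
      exact Finset.prod_le_one (fun e _ => rhoW_nonneg 1 _) (fun e _ => rhoW_le 1 _)) E.card hb
    have h2 : Tendsto (fun x : ℕ => (∑ n ∈ Finset.range x, ((∏ e ∈ E, rhoW 1 (xs (n + e))) * Real.log x ^ E.card - (1 / D) ^ E.card)) / (x : ℝ))
        atTop (𝓝 (0 : ℝ)) := by
      refine squeeze_zero_norm (fun x => ?_) h1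
      rw [norm_div, Real.norm_natCast]
      refine div_le_div_of_nonneg_right ?_ (Nat.cast_nonneg x)
      exact Finset.abs_sum_le_sum_abs _ _
    have h3 := h2.add_const ((1 / D) ^ E.card)
    rw [zero_add] at h3
    refine h3.congr' ?_
    filter_upwards [eventually_gt_atTop 0] with x hx
    have hx' : (0 : ℝ) < x := by exact_mod_cast hx
    rw [Finset.sum_sub_distrib, Finset.sum_const, Finset.card_range, ← Finset.sum_mul, nsmul_eq_mul, sub_div,
      mul_comm (x : ℝ) ((1 / D) ^ E.card), mul_div_assoc ((1 / D) ^ E.card), div_self hx'.ne']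
    ring
  have hU : Tendsto (fun x => ∑ n ∈ Finset.range x, ∏ e ∈ E, rhoW 1 (xs (n + e))) atTop atTop := by
    have h1 : Tendsto (fun x : ℕ => (x : ℝ) / Real.log x ^ E.card) atTop atTop := by
      have h2 := ((Real.isLittleO_pow_log_id_atTop (n := E.card)).tendsto_div_nhds_zero).comp tendsto_natCast_atTop_atTop
      have h3 : Tendsto (fun n : ℕ => Real.log (n : ℝ) ^ E.card / (n : ℝ)) atTop (𝓝[>] 0) := by
        refine tendsto_nhdsWithin_iff.2 ⟨h2, ?_⟩
        filter_upwards [log_pos_ev, eventually_gt_atTop 0] with n hn hn0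
        exact div_pos (pow_pos hn _) (Nat.cast_pos.2 hn0)
      refine h3.inv_tendsto_nhdsGT_zero.congr fun n => ?_
      simp
    have h2 := hs.pos_mul_atTop hD' h1
    refine h2.congr' ?_
    filter_upwards [log_pos_ev, eventually_gt_atTop 0] with x hx hx0
    have hx' : (0 : ℝ) < x := by exact_mod_cast hx0
    have hx2 := pow_pos hx E.card
    field_simp
  have h1 := general_final (μ := μ) (ℱ := ℱ) (ι := ℕ) hA (rhoW 1) (fun n => ⟨rhoW_nonneg 1 n, rhoW_le 1 n⟩) hd E (fun e n => xs (n + e))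
    (fun e _ => Eventually.of_forall fun n => hxs (by omega)) (fun i _ j _ hij => by
      rcases lt_or_gt_of_ne hij with h | h
      · exact Or.inl (Eventually.of_forall fun n => hxs (by omega))
      · exact Or.inr (Eventually.of_forall fun n => hxs (by omega))) hU
  filter_upwards [h1] with ω hω
  have h2 := hω.mul hs
  rw [one_mul] at h2
  refine h2.congr' ?_
  filter_upwards [hU.eventually_gt_atTop 0] with x hx
  rw [cn_ncard]
  simp only [mem_ofPred_eq]
  have := hx.ne'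
  field_simp

lemma NW_wn {F : ℕ → ℕ → ℕ} {G : ℕ → Prop} {L : ℕ → ℕ} {M : Set ℕ} {i x : ℕ} {ω : Ω}
    (h : ∀ n, (G n ∧ ∀ j < i, ω ∈ A (F j n)) ↔ n ∈ M) : NW A F G L i x ω = wn M L x := by
  classical
  unfold NW wn
  congr 1
  ext n
  rw [mem_WS, Finset.mem_filter, Finset.mem_Ioc]
  exact and_congr_right fun _ => h n

/-- **the laws for the patterns** -/
theorem pat_laws (hA : ∀ n, MeasurableSet[ℱ n] (A n))
    (hd : ∀ᵐ ω ∂μ, ∀ ε : ℝ, 0 < ε → ∀ᶠ n : ℕ in atTop, |dens μ ℱ A n ω - rhoW 1 (n + 1)| ≤ ε * rhoW 1 (n + 1))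
    (hxs : StrictMono xs) (hD : 0 < D) (hlog : Tendsto (fun n : ℕ => Real.log (xs n) / Real.log n) atTop (𝓝 D)) :
    ∀ᵐ ω ∂μ, ∀ E : Finset ℕ, E.Nonempty →
      Laws (fun M s => sInf {t | t ∈ M ∧ s < t}) {n | ∀ e ∈ E, ω ∈ A (xs (n + e))} ((1 / D) ^ E.card) E.card := by
  classical
  refine ae_all_iff.2 fun E => ae_all_iff.2 fun hE => ?_
  obtain ⟨i, hi⟩ : ∃ i, E.card = i + 1 := ⟨E.card - 1, by have := Finset.card_pos.2 hE; omega⟩
  have hC : 0 < (1 / D) ^ E.card := by positivity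
  have hk : E.card ≠ 0 := by omega
  set H := E.sup id with hH
  have hEH : ∀ d ∈ E, d ≤ H := fun d hd => Finset.le_sup (f := id) hd
  have hgd : gd (fun _ => True) 1 = 1 := by
    unfold gd
    simp
  have h1 : ∀ᵐ ω ∂μ, ∀ q : ℚ, 0 < q → ∀ r : ℕ,
      Tendsto (fun X : ℕ => (cn {x | wn {n | ∀ e ∈ E, ω ∈ A (xs (n + e))} (LL ((q : ℝ) / (1 / D) ^ E.card) E.card) x = r} X : ℝ) / X)
        atTop (𝓝 (po (q : ℝ) r)) := by
    refine ae_all_iff.2 fun q => ae_all_iff.2 fun hq => ?_
    have hq' : (0 : ℝ) < q := by exact_mod_cast hq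
    have hLam : 0 < (q : ℝ) / (1 / D) ^ E.card := by positivity
    have h2 := poisson (μ := μ) (ℱ := ℱ) (A := A) (F := fun i n => xs (FD H E i n)) (G := fun _ => True)
      (L := LL ((q : ℝ) / (1 / D) ^ E.card) E.card)
      (Lam := (q : ℝ) / (1 / D) ^ E.card) (D := fun _ => D) (W := 1) (c := 1) one_pos (by simp) (fun n => rfl) hA hd
      (fun i => hxs.comp (FD_mono H E i)) (fun i n => hxs (FD_lt H E i n)) (fun _ => hD) (fun i => comp_log hlog (en H E i)) i
      (fun j _ n _ => Nat.coprime_one_right _) (by rw [hgd]; exact one_pos) (LL_mono hLam.le hk) hLam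
      (by rw [← hi]; exact LL_lim hLam.le hk)
    filter_upwards [h2] with ω hω r
    have h3 := hω r
    have hk2 : (q : ℝ) / (1 / D) ^ E.card * kap (gd (fun _ => True) 1) 1 (fun _ => D) (i + 1) = q := by
      rw [hgd, kap_const, ← hi]
      exact div_mul_cancel₀ _ hC.ne'
    rw [hk2] at h3
    refine cn_congr_lim (n₀ := 0) (fun x _ => ?_) h3
    simp only [mem_ofPred_eq]
    have e : NW A (fun i n => xs (FD H E i n)) (fun _ => True) (LL ((q : ℝ) / (1 / D) ^ E.card) E.card) (i + 1) x ω =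
        wn {n | ∀ e ∈ E, ω ∈ A (xs (n + e))} (LL ((q : ℝ) / (1 / D) ^ E.card) E.card) x := by
      refine NW_wn fun n => ?_
      constructor
      · rintro ⟨_, h4⟩ d hd
        obtain ⟨j, hj, hj2⟩ := en_surj hEH hd
        have h5 : ω ∈ A (xs (n + en H E j)) := h4 j (by omega)
        rw [hj2] at h5
        exact h5
      · intro h4
        refine ⟨trivial, fun j hj => ?_⟩
        exact h4 _ (en_mem hEH (by omega))
    rw [e]
  filter_upwards [h1, pat_count hA hd hxs hD hlog E] with ω g1 g2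
  refine use_change hC hk (subset_refl _) (E := ∅) subset_union_left g2 ?_ ?_
  · have e : ∀ X, cn ∅ X = 0 := by
      intro X
      have := cn_sub (E := (∅ : Set ℕ)) (s := ∅) (fun x hx => absurd hx (notMem_empty x)) X
      simpa using this
    simp only [e, Nat.cast_zero, zero_mul, zero_div]
    exact tendsto_const_nhds
  · intro lam hlam r
    refine all_real_gen (N := fun l x => wn {n | ∀ e ∈ E, ω ∈ A (xs (n + e))} (LL (l / (1 / D) ^ E.card) E.card) x) (fun {a b} hab x => ?_) g1 hlam r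
    exact wn_mono (Nat.floor_mono (mul_le_mul_of_nonneg_right (div_le_div_of_nonneg_right hab hC.le)
      (pow_nonneg (Real.log_natCast_nonneg x) _)))

end Pool.Agent.N315.PS
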