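import Mathlib
import Pool.Agent.N315.PS.Pat
import Pool.Agent.N256.PL.Base

/-!
# The sequence of the palindromes in base `b`
-/

set_option autoImplicit false
set_option linter.unusedSectionVars false

open Filter Set
open scoped Topology

namespace Pool.Agent.N315.PS

open Pool.Agent.N256.PB Pool.Agent.R528.RM Pool.Agent.N740.HK Pool.Agent.N315.CC Pool.Agent.N315.PL

variable {b : ℕ}

/-- palindromes in base `b` with an odd number of digits -/
def OB (b t : ℕ) : Prop := (Nat.digits b t).length % 2 = 1 ∧ (Nat.digits b t).reverse = Nat.digits b t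

instance : DecidablePred (OB b) := fun t => by unfold OB; infer_instance

lemma OB_iff (t : ℕ) : OB b t ↔ ∃ k, t ∈ palB b (2 * k + 1) := by
  constructor
  · rintro ⟨h1, h2⟩
    exact ⟨(Nat.digits b t).length / 2, by show (Nat.digits b t).length = _; omega, h2⟩
  · rintro ⟨k, h1, h2⟩
    exact ⟨by omega, h2⟩

lemma GB_card (b n : ℕ) : (G b (2 * n + 1)).card = b ^ (n + 1) := by
  induction n with
  | zero => simp [G]
  | succ n ih =>
    rw [show 2 * (n + 1) + 1 = 2 * n + 1 + 2 by ring, G, Finset.card_image_of_injOn, Finset.card_product, Finset.card_range, ih]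
    · ring
    · refine (step_inj b (2 * n + 1)).mono ?_
      intro x hx
      have := Finset.mem_product.1 (Finset.mem_coe.1 hx)
      exact Finset.mem_range.1 this.1

lemma PFB_card (hb : 2 ≤ b) (n : ℕ) : (PF b (2 * n + 1) {1}).card = b ^ (n + 1) := by
  unfold PF
  rw [Finset.card_image_of_injOn, Finset.card_product, GB_card]
  · simp
  · refine (step_inj b (2 * n + 1)).mono ?_
    intro x hx
    have := Finset.mem_product.1 (Finset.mem_coe.1 hx)
    have h := Finset.mem_singleton.1 this.1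
    show x.1 < b
    omega

lemma ob_up (hb : 2 ≤ b) (k : ℕ) : Nat.count (OB b) (b ^ (2 * k + 1)) ≤ 2 * b ^ (k + 1) := by
  induction k with
  | zero => exact (Nat.count_le (OB b)).trans (by simp; omega)
  | succ k ih =>
    rw [Nat.count_eq_card_filter_range] at ih ⊢
    have h1 : (Finset.range (b ^ (2 * (k + 1) + 1))).filter (OB b) ⊆ (Finset.range (b ^ (2 * k + 1))).filter (OB b) ∪ G b (2 * (k + 1) + 1) := by
      intro u hu
      rw [Finset.mem_filter, Finset.mem_range] at hu
      rw [Finset.mem_union, Finset.mem_filter, Finset.mem_range]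
      by_cases h : u < b ^ (2 * k + 1)
      · exact Or.inl ⟨h, hu.2⟩
      · right
        obtain ⟨j, hj⟩ := (OB_iff u).1 hu.2
        obtain ⟨h3, h4⟩ := pal_size hb hj
        have h5 : 2 * j < 2 * (k + 1) + 1 := (Nat.pow_lt_pow_iff_right (by omega)).1 (h3.trans_lt hu.1)
        have h6 : 2 * k + 1 < 2 * j + 1 := (Nat.pow_lt_pow_iff_right (by omega)).1 ((not_lt.1 h).trans_lt h4)
        have h7 : j = k + 1 := by omega
        subst h7
        exact Finset.mem_coe.1 (pal_sub b _ hb hj)
    refine (Finset.card_le_card h1).trans ((Finset.card_union_le _ _).trans ?_)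
    rw [GB_card]
    have h2 : 2 * b ^ (k + 1) ≤ b ^ (k + 1 + 1) := by
      rw [pow_succ b (k + 1), mul_comm]
      exact Nat.mul_le_mul_left _ hb
    calc _ ≤ 2 * b ^ (k + 1) + b ^ (k + 1 + 1) := Nat.add_le_add_right ih _
      _ ≤ 2 * b ^ (k + 1 + 1) := by omega

lemma ob_lo (hb : 2 ≤ b) {k t : ℕ} (ht : b ^ (2 * k + 3) ≤ t) : b ^ (k + 1) ≤ Nat.count (OB b) t := by
  rw [Nat.count_eq_card_filter_range, ← PFB_card hb k]
  refine Finset.card_le_card ?_
  intro u hu
  have h2 : u ∈ palB b (2 * k + 1 + 2) := PF_sub b (2 * k + 1) hb {1} (fun a ha => by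
    have := Finset.mem_singleton.1 ha
    omega) (Finset.mem_coe.2 hu)
  rw [show 2 * k + 1 + 2 = 2 * (k + 1) + 1 by ring] at h2
  rw [Finset.mem_filter, Finset.mem_range]
  exact ⟨(pal_size hb h2).2.trans_le (by rw [show 2 * (k + 1) + 1 = 2 * k + 3 by ring]; exact ht), (OB_iff u).2 ⟨_, h2⟩⟩

lemma OB_inf (hb : 2 ≤ b) : {t | OB b t}.Infinite := by
  refine Set.infinite_of_forall_exists_gt fun a => ?_
  have h1 : (PF b (2 * a + 1) {1}).Nonempty := by
    rw [← Finset.card_pos, PFB_card hb]
    positivity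
  obtain ⟨u, hu⟩ := h1
  have h2 : u ∈ palB b (2 * a + 1 + 2) := PF_sub b (2 * a + 1) hb {1} (fun a ha => by
    have := Finset.mem_singleton.1 ha
    omega) (Finset.mem_coe.2 hu)
  rw [show 2 * a + 1 + 2 = 2 * (a + 1) + 1 by ring] at h2
  refine ⟨u, (OB_iff u).2 ⟨_, h2⟩, ?_⟩
  have h3 : a + 1 < b ^ (a + 1) := Nat.lt_pow_self (by omega)
  have h4 : b ^ (a + 1) ≤ b ^ (2 * (a + 1)) := Nat.pow_le_pow_right (by omega) (by omega)
  have h5 := (pal_size hb h2).1
  omega

/-- the palindromes with an odd number of digits in base `b`, in increasing order -/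
noncomputable def pb (b n : ℕ) : ℕ := Nat.nth (OB b) n

lemma pb_mono (hb : 2 ≤ b) : StrictMono (pb b) := Nat.nth_strictMono (OB_inf hb)

lemma pb_log (hb : 2 ≤ b) : Tendsto (fun n : ℕ => Real.log (pb b n) / Real.log n) atTop (𝓝 2) := by
  have h1 : Tendsto (fun n : ℕ => (Real.log (pb b n) - 2 * Real.log n) / Real.log n) atTop (𝓝 0) := by
    have h2 : Tendsto (fun n : ℕ => 4 * Real.log b / Real.log n) atTop (𝓝 0) := tendsto_const_nhds.div_atTop tendsto_logN
    refine squeeze_zero_norm' ?_ h2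
    filter_upwards [log_pos_ev, eventually_gt_atTop (2 * b ^ 2)] with n hl hn
    rw [Real.norm_eq_abs, abs_div, abs_of_pos hl]
    refine div_le_div_of_nonneg_right ?_ hl.le
    have hc : Nat.count (OB b) (pb b n) = n := Nat.count_nth_of_infinite (OB_inf hb) n
    obtain ⟨j, hj⟩ := (OB_iff _).1 (Nat.nth_mem_of_infinite (OB_inf hb) n)
    have hj : pb b n ∈ palB b (2 * j + 1) := hj
    obtain ⟨h3, h4⟩ := pal_size hb hj
    have h5' : n ≤ 2 * b ^ (j + 1) := by
      rw [← hc]
      exact (Nat.count_monotone (OB b) h4.le).trans (ob_up hb j)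
    have h5 : n ≤ b ^ (j + 2) := by
      refine h5'.trans ?_
      rw [pow_succ b (j + 1), mul_comm]
      exact Nat.mul_le_mul_left _ hb
    have hj2 : 2 ≤ j := by
      by_contra hcon
      have : b ^ (j + 1) ≤ b ^ 2 := Nat.pow_le_pow_right (by omega) (by omega)
      omega
    obtain ⟨k, rfl⟩ : ∃ k, j = k + 2 := ⟨j - 2, by omega⟩
    have h6 : b ^ (k + 1) ≤ n := by
      rw [← hc]
      exact ob_lo hb ((Nat.pow_le_pow_right (by omega) (by omega)).trans h3)
    have hb1 : (1 : ℝ) < b := by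
      have : 1 < b := by omega
      exact_mod_cast this
    have h10 : 0 < Real.log b := Real.log_pos hb1
    have hb0 : (0 : ℝ) < b := by linarith
    have a1 : ((b : ℝ) ^ (k + 1)) ≤ n := by exact_mod_cast h6
    have a2 : (n : ℝ) ≤ (b : ℝ) ^ (k + 2 + 2) := by exact_mod_cast h5
    have a3 : (b : ℝ) ^ (2 * (k + 2)) ≤ pb b n := by exact_mod_cast h3
    have a4 : (pb b n : ℝ) ≤ (b : ℝ) ^ (2 * (k + 2) + 1) := by exact_mod_cast h4.le
    have hn0 : (0 : ℝ) < n := lt_of_lt_of_le (by positivity) a1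
    have hp0 : (0 : ℝ) < pb b n := lt_of_lt_of_le (by positivity) a3
    have b1 := Real.log_le_log (by positivity) a1
    have b2 := Real.log_le_log hn0 a2
    have b3 := Real.log_le_log (by positivity) a3
    have b4 := Real.log_le_log hp0 a4
    rw [Real.log_pow] at b1 b2 b3 b4
    push_cast at b1 b2 b3 b4
    rw [abs_le]
    constructor <;> nlinarith
  have h2 := h1.add_const 2
  rw [zero_add] at h2
  refine h2.congr' ?_
  filter_upwards [log_pos_ev] with n hl
  field_simp
  ring

end Pool.Agent.N315.PS
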