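import Mathlib
import Pool.Agent.N315.PS.Abs
import Pool.Agent.N315.PS.Few
import Pool.Agent.N315.PS.Sh

/-!
# Unions of patterns with a common last element
-/

set_option autoImplicit false
set_option linter.unusedSectionVars false

open MeasureTheory Filter Set Polynomial
open scoped ENNReal Topology

namespace Pool.Agent.N315.PS

open Pool.Agent.R528.RM Pool.Agent.N740.HK Pool.Agent.N315.CC Pool.Agent.N315.PL

variable {Ω : Type} {m0 : MeasurableSpace Ω} {μ : Measure Ω} [IsProbabilityMeasure μ]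
  {ℱ : Filtration ℕ m0} {A : ℕ → Set Ω}

/-- the union -/
def UN (S : Set ℕ) (DD : Finset (Finset ℕ)) : Set ℕ := {n | ∃ D ∈ DD, n ∈ TD S D}

/-- the trials of the union -/
def TU (A : ℕ → Set Ω) (H : ℕ) (DD : Finset (Finset ℕ)) (W : ℕ) (L : ℕ → ℕ) (i x t : ℕ) : Set Ω :=
  {ω | ∃ D ∈ DD, ω ∈ TW A (FD H D) (good (sh D) W) L i x t}

/-- a candidate -/
def CU (A : ℕ → Set Ω) (H : ℕ) (DD : Finset (Finset ℕ)) (W : ℕ) (i : ℕ) (ω : Ω) (n : ℕ) : Prop :=
  ∃ D ∈ DD, good (sh D) W n ∧ ω ∈ ch A (FD H D) i n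

lemma TU_meas (hA : ∀ n, MeasurableSet[ℱ n] (A n)) (H : ℕ) (DD : Finset (Finset ℕ)) (W : ℕ) (L : ℕ → ℕ) (i x t : ℕ) :
    MeasurableSet[ℱ t] (TU A H DD W L i x t) := by
  have e : TU A H DD W L i x t = ⋃ D ∈ DD, TW A (FD H D) (good (sh D) W) L i x t := by
    ext ω
    simp only [TU, mem_ofPred_eq, mem_iUnion, exists_prop]
  rw [e]
  exact Finset.measurableSet_biUnion _ fun D _ => TW_meas hA (FD_lt H D) i x t

section

variable {H : ℕ} {DD : Finset (Finset ℕ)} {W i : ℕ} {L : ℕ → ℕ}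

lemma mem_TU (hDD : ∀ D ∈ DD, D.card = i + 1 ∧ H ∈ D ∧ ∀ d ∈ D, d ≤ H) (x r : ℕ) (ω : Ω) :
    ω ∈ TU A H DD W L i x (x + H + r) ↔ r < L x ∧ CU A H DD W i ω (x + 1 + r) := by
  constructor
  · rintro ⟨D, hD, n, h1, h2, h3, h4, h5⟩
    obtain ⟨c1, c2, c3⟩ := hDD D hD
    have h4 : n + en H D i = x + H + r + 1 := h4
    rw [en_top c3 c2 c1] at h4
    have e : n = x + 1 + r := by omega
    subst e
    exact ⟨by omega, D, hD, h3, h5⟩
  · rintro ⟨hr, D, hD, h3, h5⟩
    obtain ⟨c1, c2, c3⟩ := hDD D hD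
    refine ⟨D, hD, x + 1 + r, by omega, by omega, h3, ?_, h5⟩
    show x + 1 + r + en H D i = _
    rw [en_top c3 c2 c1]
    omega

open Classical in
lemma sum_win (P : ℕ → Prop) (x l : ℕ) :
    ∑ r ∈ Finset.range l, (if P (x + 1 + r) then 1 else 0) = ((Finset.Ioc x (x + l)).filter P).card := by
  have e : Finset.Ioc x (x + l) = Finset.Ico (x + 1) (x + 1 + l) := by
    ext n
    rw [Finset.mem_Ioc, Finset.mem_Ico]
    omega
  rw [e, Finset.card_filter, Finset.sum_Ico_eq_sum_range, Nat.add_sub_cancel_left]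

open Classical in
lemma cG_TU (hDD : ∀ D ∈ DD, D.card = i + 1 ∧ H ∈ D ∧ ∀ d ∈ D, d ≤ H) (x : ℕ) (ω : Ω) :
    cG (TU A H DD W L i x) (x + H) (L x) ω = ((Finset.Ioc x (x + L x)).filter (CU A H DD W i ω)).card := by
  rw [← sum_win]
  unfold cG
  refine Finset.sum_congr rfl fun r hr => ?_
  have hr := Finset.mem_range.1 hr
  have h := mem_TU (A := A) (W := W) (L := L) hDD x r ω
  by_cases h1 : CU A H DD W i ω (x + 1 + r)
  · rw [if_pos (h.2 ⟨hr, h1⟩), if_pos h1]
  · rw [if_neg (fun h2 => h1 (h.1 h2).2), if_neg h1]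

lemma SG_TU (hcop : ∀ n, ¬ Nat.Coprime n W → A n = ∅)
    (hDD : ∀ D ∈ DD, D.card = i + 1 ∧ H ∈ D ∧ ∀ d ∈ D, d ≤ H) (x : ℕ) (ω : Ω) :
    SG A (TU A H DD W L i x) (x + H) (L x) ω = wn (UN {a | ω ∈ A a} DD) L x := by
  classical
  unfold wn
  rw [← sum_win]
  unfold SG
  refine Finset.sum_congr rfl fun r hr => ?_
  have hr := Finset.mem_range.1 hr
  have h := mem_TU (A := A) (W := W) (L := L) hDD x r ω
  have key : (ω ∈ TU A H DD W L i x (x + H + r) ∧ ω ∈ A (x + H + r + 1)) ↔ x + 1 + r ∈ UN {a | ω ∈ A a} DD := by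
    rw [h]
    constructor
    · rintro ⟨⟨_, D, hD, h3, h5⟩, h6⟩
      obtain ⟨c1, c2, c3⟩ := hDD D hD
      refine ⟨D, hD, fun d hd => ?_⟩
      obtain ⟨j, hj, hj2⟩ := en_surj c3 hd
      by_cases hji : j < i
      · have := h5 j hji
        rw [← hj2]
        exact this
      · have e : j = i := by omega
        rw [e, en_top c3 c2 c1] at hj2
        show ω ∈ A (x + 1 + r + d)
        rw [← hj2, show x + 1 + r + H = x + H + r + 1 by omega]
        exact h6
    · rintro ⟨D, hD, h1⟩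
      obtain ⟨c1, c2, c3⟩ := hDD D hD
      refine ⟨⟨hr, D, hD, good_sh.2 fun d hd => ?_, fun j hj => h1 _ (en_mem c3 (by omega))⟩, ?_⟩
      · by_contra hcon
        have h2 : ω ∈ A (x + 1 + r + d) := h1 d hd
        rw [hcop _ hcon] at h2
        exact h2
      · have h2 : ω ∈ A (x + 1 + r + H) := h1 H c2
        rwa [show x + 1 + r + H = x + H + r + 1 by omega] at h2
  by_cases h1 : x + 1 + r ∈ UN {a | ω ∈ A a} DD
  · rw [if_pos (key.2 h1), if_pos h1]
  · rw [if_neg (fun h2 => h1 (key.1 h2)), if_neg h1]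

/-- the patterns of two candidates -/
def RR (H : ℕ) (DD : Finset (Finset ℕ)) : Finset (Finset ℕ) :=
  DD.offDiag.image (fun p => (p.1 ∪ p.2).erase H)

lemma RR_card (hDD : ∀ D ∈ DD, D.card = i + 1 ∧ H ∈ D ∧ ∀ d ∈ D, d ≤ H) : ∀ R ∈ RR H DD, i + 1 ≤ R.card := by
  intro R hR
  obtain ⟨⟨D, D'⟩, hp, rfl⟩ := Finset.mem_image.1 hR
  obtain ⟨h1, h2, h3⟩ := Finset.mem_offDiag.1 hp
  obtain ⟨c1, c2, c3⟩ := hDD D h1
  obtain ⟨d1, d2, d3⟩ := hDD D' h2
  have h4 : (D ∪ D').card ≥ i + 2 := by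
    by_contra hcon
    have h5 : D.card ≤ (D ∪ D').card := Finset.card_le_card Finset.subset_union_left
    have h6 : D = D ∪ D' := Finset.eq_of_subset_of_card_le Finset.subset_union_left (by omega)
    have h7 : D' = D ∪ D' := Finset.eq_of_subset_of_card_le Finset.subset_union_right (by omega)
    exact h3 (h6.trans h7.symm)
  show i + 1 ≤ ((D ∪ D').erase H).card
  rw [Finset.card_erase_of_mem (Finset.mem_union_left _ c2)]
  omega

open Classical in
/-- the candidates of the union are almost the candidates of the patterns -/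
lemma cand_le (hDD : ∀ D ∈ DD, D.card = i + 1 ∧ H ∈ D ∧ ∀ d ∈ D, d ≤ H) (x : ℕ) (ω : Ω) :
    ((Finset.Ioc x (x + L x)).filter (CU A H DD W i ω)).card ≤ ∑ D ∈ DD, NW A (FD H D) (good (sh D) W) L i x ω ∧
    ∑ D ∈ DD, NW A (FD H D) (good (sh D) W) L i x ω ≤
      ((Finset.Ioc x (x + L x)).filter (CU A H DD W i ω)).card + DD.card * wn (UN {a | ω ∈ A a} (RR H DD)) L x := by
  set U := (Finset.Ioc x (x + L x)).filter (CU A H DD W i ω) with hU
  constructor
  · have h1 : U ⊆ DD.biUnion (fun D => WS A (FD H D) (good (sh D) W) L i x ω) := by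
      intro n hn
      obtain ⟨h1, D, hD, h2, h3⟩ := Finset.mem_filter.1 hn
      have h1 := Finset.mem_Ioc.1 h1
      exact Finset.mem_biUnion.2 ⟨D, hD, mem_WS.2 ⟨h1, h2, h3⟩⟩
    exact (Finset.card_le_card h1).trans Finset.card_biUnion_le
  · have h1 : ∀ D ∈ DD, NW A (FD H D) (good (sh D) W) L i x ω =
        (U.bipartiteAbove (fun D n => n ∈ WS A (FD H D) (good (sh D) W) L i x ω) D).card := by
      intro D hD
      unfold NW
      congr 1
      ext n
      constructor
      · intro hn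
        have hn' := mem_WS.1 hn
        exact Finset.mem_filter.2 ⟨Finset.mem_filter.2 ⟨Finset.mem_Ioc.2 hn'.1, D, hD, hn'.2⟩, hn⟩
      · intro hn
        exact (Finset.mem_filter.1 hn).2
    rw [Finset.sum_congr rfl h1, Finset.sum_card_bipartiteAbove_eq_sum_card_bipartiteBelow]
    set E := (Finset.Ioc x (x + L x)).filter (fun n => n ∈ UN {a | ω ∈ A a} (RR H DD)) with hE
    have h2 : ∀ n ∈ U, (DD.bipartiteBelow (fun D n => n ∈ WS A (FD H D) (good (sh D) W) L i x ω) n).card ≤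
        1 + (if n ∈ E then DD.card else 0) := by
      intro n hn
      by_cases h3 : n ∈ E
      · rw [if_pos h3]
        have h4 : (DD.bipartiteBelow (fun D n => n ∈ WS A (FD H D) (good (sh D) W) L i x ω) n).card ≤ DD.card :=
          Finset.card_filter_le _ _
        omega
      · rw [if_neg h3, add_zero, Finset.card_le_one]
        intro D hD D' hD'
        by_contra hne
        apply h3
        obtain ⟨a1, a2⟩ := Finset.mem_filter.1 hD
        obtain ⟨b1, b2⟩ := Finset.mem_filter.1 hD'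
        have a2 := mem_WS.1 a2
        have b2 := mem_WS.1 b2
        refine Finset.mem_filter.2 ⟨Finset.mem_Ioc.2 a2.1, _, Finset.mem_image.2 ⟨(D, D'), Finset.mem_offDiag.2 ⟨a1, b1, hne⟩, rfl⟩, ?_⟩
        intro d hd
        obtain ⟨hd1, hd2⟩ := Finset.mem_erase.1 hd
        have key : ∀ D'' ∈ DD, d ∈ D'' → ω ∈ ch A (FD H D'') i n → n + d ∈ {a | ω ∈ A a} := by
          intro D'' hD'' hdD hch
          obtain ⟨c1, c2, c3⟩ := hDD D'' hD''
          obtain ⟨j, hj, hj2⟩ := en_surj c3 hdD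
          have hji : j < i := by
            by_contra hcon
            have e : j = i := by omega
            rw [e, en_top c3 c2 c1] at hj2
            exact hd1 hj2.symm
          have := hch j hji
          rw [← hj2]
          exact this
        rcases Finset.mem_union.1 hd2 with h | h
        · exact key D a1 h a2.2.2
        · exact key D' b1 h b2.2.2
    refine (Finset.sum_le_sum h2).trans ?_
    rw [Finset.sum_add_distrib, Finset.sum_const, smul_eq_mul, mul_one]
    refine Nat.add_le_add_left ?_ _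
    rw [← Finset.sum_filter, Finset.sum_const, smul_eq_mul, mul_comm]
    refine Nat.mul_le_mul_left _ ?_
    unfold wn
    exact Finset.card_le_card fun n hn => (Finset.mem_filter.1 hn).2

end

end Pool.Agent.N315.PS
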