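import Mathlib
import Pool.Agent.N315.PS.Uni

/-!
# The laws for unions of patterns with a common last element
-/

set_option autoImplicit false
set_option linter.unusedSectionVars false

open MeasureTheory Filter Set Polynomial ProbabilityTheory
open scoped ENNReal Topology

namespace Pool.Agent.N315.PS

open Pool.Agent.R528.RM Pool.Agent.N740.HK Pool.Agent.N315.CC Pool.Agent.N315.PL

variable {Ω : Type} {m0 : MeasurableSpace Ω} {μ : Measure Ω} [IsProbabilityMeasure μ]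
  {ℱ : Filtration ℕ m0} {A : ℕ → Set Ω}

lemma UB_fin {ι : Type} (J : Finset ι) (E : ι → Set ℕ) (h : ∀ j ∈ J, UB (E j) 0) : UB {x | ∃ j ∈ J, x ∈ E j} 0 := by
  intro ε hε
  have h1 : ∀ᶠ X : ℕ in atTop, ∀ j ∈ J, (cn (E j) X : ℝ) ≤ (0 + ε / (J.card + 1)) * X :=
    (eventually_all_finset J).2 fun j hj => h j hj _ (by positivity)
  filter_upwards [h1] with X hX
  have h2 : (cn {x | ∃ j ∈ J, x ∈ E j} X : ℝ) ≤ ∑ j ∈ J, (cn (E j) X : ℝ) := by exact_mod_cast cn_fin J E X
  have h3 := Finset.sum_le_sum hX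
  rw [Finset.sum_const, nsmul_eq_mul] at h3
  have h4 : (J.card : ℝ) * ((0 + ε / (J.card + 1)) * X) ≤ (0 + ε) * X := by
    have h5 : (J.card : ℝ) * (ε / (J.card + 1)) ≤ ε := by
      rw [mul_div_assoc', div_le_iff₀ (by positivity)]
      nlinarith
    have h6 := mul_le_mul_of_nonneg_right h5 (Nat.cast_nonneg X : (0 : ℝ) ≤ X)
    linarith
  linarith

section

variable {H : ℕ} {DD : Finset (Finset ℕ)} {W i : ℕ}

/-- the counts of a family of larger patterns are bounded -/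
lemma bdd_UN {S : Set ℕ} {Q : Finset ℕ} (hQ : ∀ p ∈ Q, p.Prime)
    (hω : ∀ P : Finset ℤ[X], (∀ f ∈ P, 0 < f.natDegree ∧ 0 < f.leadingCoeff) →
      Tendsto (fun X : ℕ => (cn (PM S P) X : ℝ) * Real.log X ^ P.card / X) atTop (𝓝 (bc Q P)))
    (RD : Finset (Finset ℕ)) {k : ℕ} (hR : ∀ R ∈ RD, k ≤ R.card) :
    ∃ C : ℝ, 0 ≤ C ∧ ∀ᶠ X : ℕ in atTop, (cn (UN S RD) X : ℝ) * Real.log X ^ k ≤ C * X := by
  have h1 : ∀ R ∈ RD, ∀ᶠ X : ℕ in atTop, (cn (TD S R) X : ℝ) * Real.log X ^ k ≤ (|bc Q (sh R)| + 1) * X := by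
    intro R hRR
    have h2 := hω (sh R) (sh_deg R)
    rw [PM_sh, sh_card] at h2
    filter_upwards [h2.eventually_lt_const (show bc Q (sh R) < |bc Q (sh R)| + 1 by linarith [le_abs_self (bc Q (sh R))]),
      tendsto_logN.eventually_ge_atTop 1, eventually_gt_atTop 0] with X h3 h4 h5
    have h5' : (0 : ℝ) < X := by exact_mod_cast h5
    rw [div_lt_iff₀ h5'] at h3
    have h6 : Real.log (X : ℝ) ^ k ≤ Real.log X ^ R.card := pow_le_pow_right₀ h4 (hR R hRR)
    exact (mul_le_mul_of_nonneg_left h6 (Nat.cast_nonneg _)).trans h3.le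
  refine ⟨∑ R ∈ RD, (|bc Q (sh R)| + 1), Finset.sum_nonneg fun R _ => by positivity, ?_⟩
  filter_upwards [(eventually_all_finset RD).2 h1] with X hX
  have h2 : (cn (UN S RD) X : ℝ) ≤ ∑ R ∈ RD, (cn (TD S R) X : ℝ) := by exact_mod_cast cn_fin RD (TD S) X
  calc (cn (UN S RD) X : ℝ) * Real.log X ^ k ≤ (∑ R ∈ RD, (cn (TD S R) X : ℝ)) * Real.log X ^ k :=
        mul_le_mul_of_nonneg_right h2 (pow_nonneg (Real.log_natCast_nonneg X) k)
    _ = ∑ R ∈ RD, (cn (TD S R) X : ℝ) * Real.log X ^ k := Finset.sum_mul _ _ _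
    _ ≤ ∑ R ∈ RD, (|bc Q (sh R)| + 1) * X := Finset.sum_le_sum hX
    _ = _ := (Finset.sum_mul _ _ _).symm

/-- the counting law of the union -/
lemma count_UN {S : Set ℕ} {Q : Finset ℕ} (hQ : ∀ p ∈ Q, p.Prime)
    (hω : ∀ P : Finset ℤ[X], (∀ f ∈ P, 0 < f.natDegree ∧ 0 < f.leadingCoeff) →
      Tendsto (fun X : ℕ => (cn (PM S P) X : ℝ) * Real.log X ^ P.card / X) atTop (𝓝 (bc Q P)))
    {k : ℕ} (hDD : ∀ D ∈ DD, D.card = k) :
    Tendsto (fun X : ℕ => (cn (UN S DD) X : ℝ) * Real.log X ^ k / X) atTop (𝓝 (∑ D ∈ DD, sc Q D)) := by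
  classical
  set R3 : Finset (Finset ℕ) := DD.offDiag.image (fun p => p.1 ∪ p.2) with hR3
  have hR : ∀ R ∈ R3, k + 1 ≤ R.card := by
    intro R hR
    obtain ⟨⟨D, D'⟩, hp, rfl⟩ := Finset.mem_image.1 hR
    obtain ⟨h1, h2, h3⟩ := Finset.mem_offDiag.1 hp
    by_contra hcon
    have c1 := hDD D h1
    have c2 := hDD D' h2
    have hcon : ¬ k + 1 ≤ (D ∪ D').card := hcon
    have h6 : D = D ∪ D' := Finset.eq_of_subset_of_card_le Finset.subset_union_left (by omega)
    have h7 : D' = D ∪ D' := Finset.eq_of_subset_of_card_le Finset.subset_union_right (by omega)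
    exact h3 (h6.trans h7.symm)
  obtain ⟨C, hC0, hC⟩ := bdd_UN hQ hω R3 hR
  have hsum : Tendsto (fun X : ℕ => ∑ D ∈ DD, ((cn (TD S D) X : ℝ) * Real.log X ^ k / X)) atTop (𝓝 (∑ D ∈ DD, sc Q D)) := by
    refine tendsto_finsetSum _ fun D hD => ?_
    have h2 := hω (sh D) (sh_deg D)
    rw [PM_sh, sh_card, hDD D hD, sh_const Q hQ] at h2
    exact h2
  have hle : ∀ X : ℕ, ∑ D ∈ DD, cn (TD S D) X ≤ cn (UN S DD) X + DD.card * cn (UN S R3) X := by
    intro X
    have e : ∀ E : Set ℕ, cn E X = ∑ x ∈ Finset.range X, (if x ∈ E then 1 else 0) := by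
      intro E
      rw [← Finset.card_filter]
      unfold cn
      congr!
    simp only [e]
    rw [Finset.sum_comm, Finset.mul_sum, ← Finset.sum_add_distrib]
    refine Finset.sum_le_sum fun x _ => ?_
    rw [← Finset.card_filter]
    by_cases h3 : x ∈ UN S R3
    · rw [if_pos h3, mul_one]
      exact (Finset.card_filter_le _ _).trans (Nat.le_add_left _ _)
    · rw [if_neg h3, mul_zero, add_zero]
      have h4 : (DD.filter (fun D => x ∈ TD S D)).card ≤ 1 := by
        rw [Finset.card_le_one]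
        intro D hD D' hD'
        by_contra hne
        obtain ⟨a1, a2⟩ := Finset.mem_filter.1 hD
        obtain ⟨b1, b2⟩ := Finset.mem_filter.1 hD'
        apply h3
        refine ⟨D ∪ D', Finset.mem_image.2 ⟨(D, D'), Finset.mem_offDiag.2 ⟨a1, b1, hne⟩, rfl⟩, fun d hd => ?_⟩
        rcases Finset.mem_union.1 hd with h | h
        · exact a2 d h
        · exact b2 d h
      by_cases h5 : x ∈ UN S DD
      · rw [if_pos h5]
        exact h4
      · rw [if_neg h5, Nat.le_zero, Finset.card_eq_zero, Finset.filter_eq_empty_iff]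
        intro D hD hx
        exact h5 ⟨D, hD, hx⟩
  have herr : Tendsto (fun X : ℕ => (DD.card : ℝ) * (cn (UN S R3) X * Real.log X ^ k / X)) atTop (𝓝 0) := by
    have h3 : Tendsto (fun X : ℕ => C * (Real.log (X : ℝ))⁻¹) atTop (𝓝 0) := by
      have := tendsto_logN.inv_tendsto_atTop.const_mul C
      rwa [mul_zero] at this
    have h4 : Tendsto (fun X : ℕ => (cn (UN S R3) X * Real.log X ^ k / X : ℝ)) atTop (𝓝 0) := by
      refine squeeze_zero' (Eventually.of_forall fun X => div_nonneg (mul_nonneg (Nat.cast_nonneg _)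
        (pow_nonneg (Real.log_natCast_nonneg X) _)) (Nat.cast_nonneg X)) ?_ h3
      filter_upwards [hC, log_pos_ev, eventually_gt_atTop 0] with X h5 h6 h7
      have h7' : (0 : ℝ) < X := by exact_mod_cast h7
      rw [div_le_iff₀ h7', mul_assoc, mul_comm _ (X : ℝ), ← mul_assoc, ← div_eq_mul_inv, le_div_iff₀ h6]
      rw [pow_succ, ← mul_assoc] at h5
      exact h5
    have := h4.const_mul (DD.card : ℝ)
    rwa [mul_zero] at this
  have hlow := hsum.sub herr
  rw [sub_zero] at hlow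
  refine tendsto_of_tendsto_of_tendsto_of_le_of_le hlow hsum (fun X => ?_) (fun X => ?_)
  · have h5 : (∑ D ∈ DD, (cn (TD S D) X : ℝ)) ≤ cn (UN S DD) X + DD.card * cn (UN S R3) X := by exact_mod_cast hle X
    have h6 := div_le_div_of_nonneg_right (mul_le_mul_of_nonneg_right h5 (pow_nonneg (Real.log_natCast_nonneg X) k))
      (Nat.cast_nonneg X : (0 : ℝ) ≤ X)
    rw [Finset.sum_mul, Finset.sum_div] at h6
    show ∑ D ∈ DD, ((cn (TD S D) X : ℝ) * Real.log X ^ k / X) - DD.card * (cn (UN S R3) X * Real.log X ^ k / X) ≤ _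
    have h7 : ((cn (UN S DD) X : ℝ) + DD.card * cn (UN S R3) X) * Real.log X ^ k / X =
        cn (UN S DD) X * Real.log X ^ k / X + DD.card * (cn (UN S R3) X * Real.log X ^ k / X) := by ring
    linarith
  · have h5 : (cn (UN S DD) X : ℝ) ≤ ∑ D ∈ DD, (cn (TD S D) X : ℝ) := by exact_mod_cast cn_fin DD (TD S) X
    have h6 := div_le_div_of_nonneg_right (mul_le_mul_of_nonneg_right h5 (pow_nonneg (Real.log_natCast_nonneg X) k))
      (Nat.cast_nonneg X : (0 : ℝ) ≤ X)
    rwa [Finset.sum_mul, Finset.sum_div] at h6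

end

end Pool.Agent.N315.PS
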