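import Mathlib
import Pool.Agent.N315.PS.UniB

/-!
# The laws for unions of patterns with a common last element
-/

set_option autoImplicit false
set_option linter.unusedSectionVars false

open MeasureTheory Filter Set Polynomial ProbabilityTheory
open scoped ENNReal Topology

namespace Pool.Agent.N315.PS

open Pool.Agent.R528.RM Pool.Agent.N740.HK Pool.Agent.N315.CC Pool.Agent.N315.PL

variable {Ω : Type} {m0 : MeasurableSpace Ω} {μ : Measure Ω} [IsProbabilityMeasure μ]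
  {ℱ : Filtration ℕ m0} {A : ℕ → Set Ω}

lemma gd_sh {D : Finset ℕ} {W i : ℕ} (hD : D.card = i + 1) :
    kap (gd (good (sh D) W) W) ((W : ℝ) / Nat.totient W) (fun _ => 1) (i + 1) = bhConst W (sh D) := by
  rw [kap_eq _ _ _ (fun _ => one_pos)]
  unfold bhConst gd
  rw [sh_degprod, sh_card, hD, Finset.prod_const_one, inv_one]

/-- the Poisson law for the union -/
theorem uni_pois (hA : ∀ n, MeasurableSet[ℱ n] (A n)) (Q : Finset ℕ) (hQ : ∀ p ∈ Q, p.Prime)
    (hcop : ∀ n, (∃ p ∈ Q, p ∣ n) → A n = ∅)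
    (hd : ∀ᵐ ω ∂μ, Tendsto (fun n : ℕ => dens μ ℱ A n ω * Real.log n)
      (atTop ⊓ 𝓟 {n : ℕ | ∀ p ∈ Q, ¬ p ∣ n + 1}) (𝓝 (∏ p ∈ Q, (1 - 1 / (p : ℝ))⁻¹)))
    {H i : ℕ} {DD : Finset (Finset ℕ)} (hDD : ∀ D ∈ DD, D.card = i + 1 ∧ H ∈ D ∧ ∀ d ∈ D, d ≤ H)
    {α : ℝ} (hα : 0 < α) (hC : 0 < ∑ D ∈ DD, sc Q D) :
    ∀ᵐ ω ∂μ, ∀ r : ℕ, Tendsto (fun X : ℕ => (cn {x | wn (UN {a | ω ∈ A a} DD) (LL α (i + 1)) x = r} X : ℝ) / X) atTop
      (𝓝 (po (α * ∑ D ∈ DD, sc Q D) r)) := by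
  classical
  set W := ∏ p ∈ Q, p with hWdef
  have hW : 0 < W := Finset.prod_pos fun q hq => (hQ q hq).pos
  have hc : ∀ n, Nat.Coprime n W ↔ ∀ p ∈ Q, ¬ p ∣ n := by
    intro n
    rw [hWdef, Nat.coprime_prod_right_iff]
    refine forall₂_congr fun p hp => ?_
    rw [Nat.coprime_comm]
    exact Nat.Prime.coprime_iff_not_dvd (hQ p hp)
  have hcop' : ∀ n, ¬ Nat.Coprime n W → A n = ∅ := fun n hn => hcop n (by
    rw [hc] at hn
    push Not at hn
    exact hn)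
  have hprof := dens_profile (μ := μ) (ℱ := ℱ) hA W hW hcop' (by
    rw [totient_prod Q hQ]
    simp_rw [hc]
    exact hd)
  set c : ℝ := (W : ℝ) / Nat.totient W with hcdef
  have hc0 : 0 < c := div_pos (by exact_mod_cast hW) (by exact_mod_cast Nat.totient_pos.2 hW)
  set b : ℝ := ∑ D ∈ DD, α * kap (gd (good (sh D) W) W) c (fun _ => 1) i with hb
  have hbc : b * c / 1 = α * ∑ D ∈ DD, sc Q D := by
    rw [div_one, hb, Finset.sum_mul, Finset.mul_sum]
    refine Finset.sum_congr rfl fun D hD => ?_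
    rw [← sh_const Q hQ, ← bc_eq Q hQ, ← gd_sh (hDD D hD).1]
    show _ = α * (kap (gd (good (sh D) W) W) c (fun _ => 1) i * c / 1)
    ring
  have hb0 : 0 < b := by
    have h1 : 0 < b * c / 1 := by rw [hbc]; positivity
    rw [div_one] at h1
    by_contra hcon
    push Not at hcon
    have := mul_nonpos_of_nonpos_of_nonneg hcon hc0.le
    linarith
  have hLm : Monotone (LL α (i + 1)) := LL_mono hα.le (Nat.succ_ne_zero i)
  have hL : Tendsto (fun x : ℕ => (LL α (i + 1) x : ℝ) / Real.log x ^ (i + 1)) atTop (𝓝 α) := LL_lim hα.le (Nat.succ_ne_zero i)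
  have htp : StrictMono (fun x : ℕ => x + H) := fun a b hab => by
    show a + H < b + H
    omega
  have etp : ∀ x : ℕ, (fun x : ℕ => x + H) (x + LL α (i + 1) x) - (fun x : ℕ => x + H) x = LL α (i + 1) x := by
    intro x
    show x + LL α (i + 1) x + H - (x + H) = _
    omega
  have h1 : ∀ᵐ ω ∂μ, ∀ D ∈ DD, ∀ ε : ℝ, 0 < ε →
      UB {x | ¬ |(NW A (FD H D) (good (sh D) W) (LL α (i + 1)) i x ω : ℝ) - α * kap (gd (good (sh D) W) W) c (fun _ => 1) i * Real.log x| ≤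
        ε * Real.log x} 0 := by
    rw [Finset.eventually_all]
    intro D hD
    obtain ⟨c1, c2, c3⟩ := hDD D hD
    exact most_NW (μ := μ) (ℱ := ℱ) (A := A) (F := FD H D) (G := good (sh D) W) (L := LL α (i + 1)) (lam := α) (D := fun _ => 1) hW hcdef
      (good_periodic (sh D) W) hA hprof (FD_mono H D) (FD_lt H D) (fun _ => one_pos) (fun j => add_log _) i
      (fun j hj n hn => good_sh.1 hn _ (en_mem c3 (by omega))) hα.le hL
  have h2 := poisson_abs (μ := μ) (ℱ := ℱ) (A := A) (tp := fun x : ℕ => x + H) (T := TU A H DD W (LL α (i + 1)) i) (L := LL α (i + 1))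
    (Lam := α) (Dt := 1) (b := b) hW hcdef hA hprof htp (fun x t => TU_meas hA H DD W _ i x t) (by
      rintro x t ω ⟨D, hD, n, _, _, h3, h4, _⟩
      obtain ⟨c1, c2, c3⟩ := hDD D hD
      have h4 : n + en H D i = t + 1 := h4
      rw [en_top c3 c2 c1] at h4
      rw [← h4]
      exact good_sh.1 h3 H c2) one_pos (add_log H) hLm hL hb0 (by
      filter_upwards [h1, full (μ := μ) (ℱ := ℱ) hA Q hQ hcop hd] with ω g1 g2 ε hε
      obtain ⟨C, hC0, hCb⟩ := bdd_UN (S := {a | ω ∈ A a}) hQ (fun P hP => (g2 P hP).1) (RR H DD) (RR_card hDD)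
      have g3 := fun {ε : ℝ} (hε : 0 < ε) => few hC0 hCb hα.le (Nat.succ_ne_zero i) hε
      set e : ℝ := ε / (2 * (DD.card + 1)) with he
      have he0 : 0 < e := by positivity
      have g4 := UB_fin DD (fun D => {x | ¬ |(NW A (FD H D) (good (sh D) W) (LL α (i + 1)) i x ω : ℝ) -
        α * kap (gd (good (sh D) W) W) c (fun _ => 1) i * Real.log x| ≤ e * Real.log x}) (fun D hD => g1 D hD e he0)
      refine g4.of_dz (g3 he0) ?_
      intro x hx
      by_contra hcon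
      rw [mem_union, not_or] at hcon
      apply hx
      rw [etp]
      have k1 : ∀ D ∈ DD, |(NW A (FD H D) (good (sh D) W) (LL α (i + 1)) i x ω : ℝ) -
          α * kap (gd (good (sh D) W) W) c (fun _ => 1) i * Real.log x| ≤ e * Real.log x := by
        intro D hD
        by_contra h5
        exact hcon.1 ⟨D, hD, h5⟩
      have k2 : (wn (UN {a | ω ∈ A a} (RR H DD)) (LL α (i + 1)) x : ℝ) ≤ e * Real.log x := not_lt.1 hcon.2
      obtain ⟨k3, k4⟩ := cand_le (A := A) (W := W) (L := LL α (i + 1)) hDD x ω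
      rw [← cG_TU hDD] at k3 k4
      have k3' : (cG (TU A H DD W (LL α (i + 1)) i x) (x + H) (LL α (i + 1) x) ω : ℝ) ≤
          ∑ D ∈ DD, (NW A (FD H D) (good (sh D) W) (LL α (i + 1)) i x ω : ℝ) := by exact_mod_cast k3
      have k4' : ∑ D ∈ DD, (NW A (FD H D) (good (sh D) W) (LL α (i + 1)) i x ω : ℝ) ≤
          (cG (TU A H DD W (LL α (i + 1)) i x) (x + H) (LL α (i + 1) x) ω : ℝ) +
            DD.card * wn (UN {a | ω ∈ A a} (RR H DD)) (LL α (i + 1)) x := by exact_mod_cast k4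
      have k5 : |∑ D ∈ DD, (NW A (FD H D) (good (sh D) W) (LL α (i + 1)) i x ω : ℝ) - b * Real.log x| ≤ DD.card * (e * Real.log x) := by
        rw [hb, Finset.sum_mul, ← Finset.sum_sub_distrib]
        refine (Finset.abs_sum_le_sum_abs _ _).trans ((Finset.sum_le_sum k1).trans (le_of_eq ?_))
        rw [Finset.sum_const, nsmul_eq_mul]
      have k6 := abs_le.1 k5
      have hlx : 0 ≤ Real.log (x : ℝ) := Real.log_natCast_nonneg x
      have k7 : (DD.card : ℝ) * wn (UN {a | ω ∈ A a} (RR H DD)) (LL α (i + 1)) x ≤ DD.card * (e * Real.log x) :=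
        mul_le_mul_of_nonneg_left k2 (Nat.cast_nonneg _)
      have k8 : 2 * ((DD.card : ℝ) * (e * Real.log x)) ≤ ε * Real.log x := by
        have : 2 * ((DD.card : ℝ) * e) ≤ ε := by
          rw [he, mul_div_assoc', mul_div_assoc', div_le_iff₀ (by positivity)]
          nlinarith
        have := mul_le_mul_of_nonneg_right this hlx
        linarith
      show |(cG (TU A H DD W (LL α (i + 1)) i x) (x + H) (LL α (i + 1) x) ω : ℝ) - b * Real.log x| ≤ ε * Real.log x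
      rw [abs_le]
      constructor <;> linarith)
  filter_upwards [h2] with ω hω r
  have h3 := hω r
  rw [hbc] at h3
  refine h3.congr fun X => ?_
  congr 3
  ext x
  simp only [mem_ofPred_eq]
  rw [etp x]
  have := SG_TU (A := A) (W := W) (L := LL α (i + 1)) hcop' hDD x ω
  rw [← this]

/-- **the laws for all unions** -/
theorem uni (hA : ∀ n, MeasurableSet[ℱ n] (A n)) (Q : Finset ℕ) (hQ : ∀ p ∈ Q, p.Prime)
    (hcop : ∀ n, (∃ p ∈ Q, p ∣ n) → A n = ∅)
    (hd : ∀ᵐ ω ∂μ, Tendsto (fun n : ℕ => (μ[(A (n + 1)).indicator (fun _ => (1 : ℝ)) | ℱ n]) ω * Real.log n)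
      (atTop ⊓ 𝓟 {n : ℕ | ∀ p ∈ Q, ¬ p ∣ n + 1}) (𝓝 (∏ p ∈ Q, (1 - 1 / (p : ℝ))⁻¹))) :
    ∀ᵐ ω ∂μ, ∀ (H i : ℕ) (DD : Finset (Finset ℕ)), (∀ D ∈ DD, D.card = i + 1 ∧ H ∈ D ∧ ∀ d ∈ D, d ≤ H) →
      0 < ∑ D ∈ DD, sc Q D → Laws (fun M s => sInf {t | t ∈ M ∧ s < t}) (UN {a | ω ∈ A a} DD) (∑ D ∈ DD, sc Q D) (i + 1) := by
  classical
  have h1 : ∀ᵐ ω ∂μ, ∀ (H i : ℕ) (DD : Finset (Finset ℕ)),
      ((∀ D ∈ DD, D.card = i + 1 ∧ H ∈ D ∧ ∀ d ∈ D, d ≤ H) ∧ 0 < ∑ D ∈ DD, sc Q D) → ∀ q : ℚ, 0 < q → ∀ r : ℕ,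
      Tendsto (fun X : ℕ => (cn {x | wn (UN {a | ω ∈ A a} DD) (LL ((q : ℝ) / (∑ D ∈ DD, sc Q D)) (i + 1)) x = r} X : ℝ) / X) atTop (𝓝 (po q r)) := by
    refine ae_all_iff.2 fun H => ae_all_iff.2 fun i => ae_all_iff.2 fun DD => ae_all_iff.2 fun hyp => ae_all_iff.2 fun q => ae_all_iff.2 fun hq => ?_
    obtain ⟨hDD, hC⟩ := hyp
    have hq' : (0 : ℝ) < q := by exact_mod_cast hq
    have h2 := uni_pois (μ := μ) (ℱ := ℱ) hA Q hQ hcop hd hDD (α := (q : ℝ) / (∑ D ∈ DD, sc Q D)) (div_pos hq' hC) hC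
    rw [div_mul_cancel₀ _ hC.ne'] at h2
    exact h2
  filter_upwards [h1, full (μ := μ) (ℱ := ℱ) hA Q hQ hcop hd] with ω g1 g2 H i DD hDD hC
  have m1 := count_UN (S := {a | ω ∈ A a}) hQ (fun P hP => (g2 P hP).1) (DD := DD) (k := i + 1) (fun D hD => (hDD D hD).1)
  refine use_change hC (Nat.succ_ne_zero i) (subset_refl _) (E := ∅) subset_union_left m1 ?_
    (fun lam hlam r => all_real hC (fun q hq r => g1 H i DD ⟨hDD, hC⟩ q hq r) hlam r)
  have e : ∀ X, cn ∅ X = 0 := by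
    intro X
    have := cn_sub (E := (∅ : Set ℕ)) (s := ∅) (fun x hx => absurd hx (notMem_empty x)) X
    simpa using this
  simp only [e, Nat.cast_zero, zero_mul, zero_div]
  exact tendsto_const_nhds

end Pool.Agent.N315.PS
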