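import Mathlib
import Pool.Agent.N315.PS.UniC
import Pool.Agent.N315.PS.SubD

/-!
# Two windows, one on each side of the members of a sequence
-/

set_option autoImplicit false
set_option linter.unusedSectionVars false

open MeasureTheory Filter Set Polynomial ProbabilityTheory
open scoped ENNReal Topology

namespace Pool.Agent.N315.PS

open Pool.Agent.R528.RM Pool.Agent.N740.HK Pool.Agent.N315.CC Pool.Agent.N315.PL

variable {Ω : Type} {m0 : MeasurableSpace Ω} {μ : Measure Ω} [IsProbabilityMeasure μ]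
  {ℱ : Filtration ℕ m0} {A : ℕ → Set Ω} {xs : ℕ → ℕ}

/-- the maps `n + i` -/
def Fi (i n : ℕ) : ℕ := n + i

lemma Fi_mono (i : ℕ) : StrictMono (Fi i) := fun a b hab => by unfold Fi; omega

lemma Fi_lt (i n : ℕ) : Fi i n < Fi (i + 1) n := by unfold Fi; omega

/-- the integers coprime to `W` -/
abbrev Gc (W : ℕ) : ℕ → Prop := good (sh {0}) W

variable (A) in
/-- trials in `(z, z + l]` -/
def TZ (W z l t : ℕ) : Set Ω := TW A Fi (Gc W) (fun _ => l) 0 z t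

variable (μ ℱ A) in
/-- exactly `r` successes in `(z, z + l]` -/
def EX (W : ℕ) (b δ y : ℝ) (r z l : ℕ) : Set Ω :=
  EQ A (TZ A W z l) (VQ μ ℱ A W δ) z l ⌈(1 - δ) * b * y⌉₊ ⌊(1 + δ) * b * y⌋₊ r

variable (μ ℱ A) in
/-- at least `r` successes in `(z, z + l]` -/
def TX (W : ℕ) (b δ y : ℝ) (r z l : ℕ) : Set Ω :=
  TL A (TZ A W z l) (VQ μ ℱ A W δ) z l ⌊(1 + δ) * b * y⌋₊ r

lemma EX_meas (hA : ∀ n, MeasurableSet[ℱ n] (A n)) (W : ℕ) (b δ y : ℝ) (r z l : ℕ) :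
    MeasurableSet[ℱ (z + l)] (EX μ ℱ A W b δ y r z l) :=
  EQ_meas hA (fun t => TW_meas hA Fi_lt 0 z t) (fun n => VQ_meas W δ n) _ _ _ _ _

lemma TX_meas (hA : ∀ n, MeasurableSet[ℱ n] (A n)) (W : ℕ) (b δ y : ℝ) (r z l : ℕ) :
    MeasurableSet[ℱ (z + l)] (TX μ ℱ A W b δ y r z l) :=
  TL_meas hA (fun t => TW_meas hA Fi_lt 0 z t) (fun n => VQ_meas W δ n) _ _ _ _

section

variable {W : ℕ} {c b δ y : ℝ}

lemma z_facts (hc : c = (W : ℝ) / Nat.totient W) (hc0 : 0 ≤ c) (hδ0 : 0 ≤ δ) (hδ1 : δ ≤ 1) {z l : ℕ} (hz : 3 ≤ z)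
    (hzc : c ≤ Real.log z) : ∀ n, z ≤ n → n < z + l → ∀ ω, ω ∉ VQ μ ℱ A W δ n →
      (1 - δ) * c / Real.log ((z + l : ℕ) : ℝ) ≤ dens μ ℱ A n ω ∧ dens μ ℱ A n ω ≤ (1 + δ) * c / Real.log z := by
  intro n hn1 hn2 ω hω
  have h := win_facts (μ := μ) (ℱ := ℱ) (A := A) (F := fun _ => id) (L := fun _ => l) hc hc0 (fun _ => strictMono_id) hδ0 hδ1 0 z hz hzc n
    hn1 (by show n < z + (z + l - z); omega) ω hω
  exact h

theorem EX_prob (hc : c = (W : ℝ) / Nat.totient W) (hc0 : 0 ≤ c) (hA : ∀ n, MeasurableSet[ℱ n] (A n)) (hb : 0 ≤ b) (hy : 0 ≤ y)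
    (hδ0 : 0 ≤ δ) (hδ1 : δ ≤ 1 / 2) {z l : ℕ} (hz : 3 ≤ z) (hzc : 2 * c + 1 ≤ Real.log z) (r : ℕ) {B : Set Ω} (hB : MeasurableSet[ℱ z] B) :
    μ.real (B ∩ EX μ ℱ A W b δ y r z l) ≤
      ((1 + δ) * b * y * ((1 + δ) * c / Real.log z)) ^ r / (r.factorial : ℝ) *
        Real.exp (-((1 - δ) * b * y * ((1 - δ) * c / Real.log ((z + l : ℕ) : ℝ))) + r * ((1 - δ) * c / Real.log ((z + l : ℕ) : ℝ))) * μ.real B := by
  have hz3 : (3 : ℝ) ≤ z := by exact_mod_cast hz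
  have hzl : (z : ℝ) ≤ ((z + l : ℕ) : ℝ) := by exact_mod_cast Nat.le_add_right z l
  have hM2 : 2 * c + 1 ≤ Real.log ((z + l : ℕ) : ℝ) := hzc.trans (Real.log_le_log (by linarith) hzl)
  have hl0 : 0 ≤ (1 - δ) * c / Real.log ((z + l : ℕ) : ℝ) := div_nonneg (mul_nonneg (by linarith) hc0) (by linarith)
  have hl1 : (1 - δ) * c / Real.log ((z + l : ℕ) : ℝ) ≤ 1 := by
    rw [div_le_one (by linarith)]
    nlinarith
  have hu0 : 0 ≤ (1 + δ) * c / Real.log z := div_nonneg (mul_nonneg (by linarith) hc0) (by linarith)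
  have h1 := trial_eq (μ := μ) (ℱ := ℱ) hA (fun t => TW_meas (G := Gc W) (L := fun _ => l) hA Fi_lt 0 z t) (fun n => VQ_meas (A := A) W δ n) hl0 hl1 hu0
    l z (z_facts (μ := μ) (ℱ := ℱ) (A := A) hc hc0 hδ0 (by linarith) hz (by linarith))
    ⌈(1 - δ) * b * y⌉₊ ⌊(1 + δ) * b * y⌋₊ r B hB
  refine h1.trans (mul_le_mul_of_nonneg_right ?_ measureReal_nonneg)
  have hf : (⌊(1 + δ) * b * y⌋₊ : ℝ) ≤ (1 + δ) * b * y := Nat.floor_le (by positivity)
  have hcl : (1 - δ) * b * y ≤ (⌈(1 - δ) * b * y⌉₊ : ℝ) := Nat.le_ceil _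
  exact be_le hl0 hl1 hu0 (mul_le_mul_of_nonneg_right hf hu0) (mul_le_mul_of_nonneg_right hcl hl0)

theorem TX_prob (hc : c = (W : ℝ) / Nat.totient W) (hc0 : 0 ≤ c) (hA : ∀ n, MeasurableSet[ℱ n] (A n)) (hb : 0 ≤ b) (hy : 0 ≤ y)
    (hδ0 : 0 ≤ δ) (hδ1 : δ ≤ 1 / 2) {z l : ℕ} (hz : 3 ≤ z) (hzc : 2 * c + 1 ≤ Real.log z) (r : ℕ) {B : Set Ω} (hB : MeasurableSet[ℱ z] B) :
    μ.real (B ∩ TX μ ℱ A W b δ y r z l) ≤
      ((1 + δ) * b * y * ((1 + δ) * c / Real.log z)) ^ r / (r.factorial : ℝ) * μ.real B := by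
  have hu0 : 0 ≤ (1 + δ) * c / Real.log z := div_nonneg (mul_nonneg (by linarith) hc0) (by linarith)
  have h1 := trial_tl (μ := μ) (ℱ := ℱ) hA (fun t => TW_meas (G := Gc W) (L := fun _ => l) hA Fi_lt 0 z t) (fun n => VQ_meas (A := A) W δ n) hu0
    l z (fun n h1 h2 ω h3 => (z_facts (μ := μ) (ℱ := ℱ) (A := A) hc hc0 hδ0 (by linarith) hz (by linarith) n h1 h2 ω h3).2)
    ⌊(1 + δ) * b * y⌋₊ r B hB
  refine h1.trans (mul_le_mul_of_nonneg_right ?_ measureReal_nonneg)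
  have hf : (⌊(1 + δ) * b * y⌋₊ : ℝ) ≤ (1 + δ) * b * y := Nat.floor_le (by positivity)
  exact ch_le hu0 (mul_le_mul_of_nonneg_right hf hu0)

/-- the number of trials -/
lemma cG_TZ (z l : ℕ) (ω : Ω) : cG (TZ A W z l) z l ω = NW A Fi (Gc W) (fun _ => l) 0 z ω := by
  have h := cG_TW (A := A) (F := Fi) (G := Gc W) (L := fun _ => l) Fi_mono 0 z ω
  have e : Fi 0 (z + l) - Fi 0 z = l := by unfold Fi; omega
  rw [e] at h
  exact h

/-- the number of successes -/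
lemma SG_TZ (hcop : ∀ n, ¬ Nat.Coprime n W → A n = ∅) (z l : ℕ) (ω : Ω) : SG A (TZ A W z l) z l ω = wn {a | ω ∈ A a} (fun _ => l) z := by
  classical
  have h := SG_TW (A := A) (F := Fi) (G := Gc W) (L := fun _ => l) Fi_mono 0 z ω
  have e : Fi 0 (z + l) - Fi 0 z = l := by unfold Fi; omega
  rw [e] at h
  refine h.trans ?_
  unfold NW wn
  congr 1
  ext n
  rw [mem_WS, Finset.mem_filter, Finset.mem_Ioc]
  refine and_congr_right fun _ => ?_
  constructor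
  · rintro ⟨_, h2⟩
    exact h2 0 (by omega)
  · intro h2
    have h2' : ω ∈ A n := h2
    refine ⟨good_sh.2 fun d hd => ?_, fun j hj => ?_⟩
    · rw [Finset.mem_singleton.1 hd, add_zero]
      by_contra hcon
      rw [hcop n hcon] at h2'
      exact h2'
    · have : j = 0 := by omega
      subst this
      exact h2'

end

/-- the constants fit -/
lemma gd_one (Q : Finset ℕ) (hQ : ∀ p ∈ Q, p.Prime) :
    gd (Gc (∏ p ∈ Q, p)) (∏ p ∈ Q, p) * (((∏ p ∈ Q, p : ℕ) : ℝ) / Nat.totient (∏ p ∈ Q, p)) = 1 := by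
  have h1 := gd_sh (D := {0}) (W := ∏ p ∈ Q, p) (i := 0) (by simp)
  rw [bc_eq Q hQ, sh_const Q hQ, sc_zero Q hQ] at h1
  have h2 : kap (gd (good (sh {0}) (∏ p ∈ Q, p)) (∏ p ∈ Q, p)) (((∏ p ∈ Q, p : ℕ) : ℝ) / Nat.totient (∏ p ∈ Q, p)) (fun _ => 1) (0 + 1) =
      gd (good (sh {0}) (∏ p ∈ Q, p)) (∏ p ∈ Q, p) * (((∏ p ∈ Q, p : ℕ) : ℝ) / Nat.totient (∏ p ∈ Q, p)) / 1 := rfl
  rw [h2, div_one] at h1
  exact h1

lemma log_comp {f : ℕ → ℕ} (h1 : ∀ᶠ x : ℕ in atTop, x ≤ 2 * f x) (h2 : ∀ᶠ x : ℕ in atTop, f x ≤ 2 * x) :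
    Tendsto (fun x : ℕ => Real.log (f x) / Real.log x) atTop (𝓝 1) := by
  have a1 : Tendsto (fun x : ℕ => 1 - Real.log 2 / Real.log x) atTop (𝓝 (1 - 0)) :=
    tendsto_const_nhds.sub (tendsto_const_nhds.div_atTop tendsto_logN)
  have a2 : Tendsto (fun x : ℕ => 1 + Real.log 2 / Real.log x) atTop (𝓝 (1 + 0)) :=
    tendsto_const_nhds.add (tendsto_const_nhds.div_atTop tendsto_logN)
  rw [sub_zero] at a1
  rw [add_zero] at a2
  refine tendsto_of_tendsto_of_tendsto_of_le_of_le' a1 a2 ?_ ?_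
  · filter_upwards [h1, log_pos_ev, eventually_gt_atTop 0] with x hx hl hx0
    have hx0' : (0 : ℝ) < x := by exact_mod_cast hx0
    have hx' : (x : ℝ) ≤ 2 * f x := by exact_mod_cast hx
    have h3 : 0 < (f x : ℝ) := by linarith
    have h4 := Real.log_le_log hx0' hx'
    rw [Real.log_mul (by norm_num) h3.ne'] at h4
    rw [le_div_iff₀ hl, sub_mul, one_mul, div_mul_cancel₀ _ hl.ne']
    linarith
  · filter_upwards [h1, h2, log_pos_ev, eventually_gt_atTop 0] with x hx hx2 hl hx0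
    have hx0' : (0 : ℝ) < x := by exact_mod_cast hx0
    have hx' : (x : ℝ) ≤ 2 * f x := by exact_mod_cast hx
    have hx2' : (f x : ℝ) ≤ 2 * x := by exact_mod_cast hx2
    have h3 : 0 < (f x : ℝ) := by linarith
    have h4 := Real.log_le_log h3 hx2'
    rw [Real.log_mul (by norm_num) hx0'.ne'] at h4
    rw [div_le_iff₀ hl, add_mul, one_mul, div_mul_cancel₀ _ hl.ne']
    linarith

lemma plim {f : ℕ → ℕ} (hf : Tendsto (fun x : ℕ => Real.log (f x) / Real.log x) atTop (𝓝 1)) (a k : ℝ) :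
    Tendsto (fun x : ℕ => a * Real.log x * (k / Real.log (f x))) atTop (𝓝 (a * k)) ∧
    Tendsto (fun x : ℕ => k / Real.log (f x)) atTop (𝓝 0) := by
  have h1 := (tendsto_const_nhds (x := a * k)).div hf one_ne_zero
  rw [div_one] at h1
  have hpos : ∀ᶠ x : ℕ in atTop, 0 < Real.log (f x) := by
    filter_upwards [hf.eventually_const_lt (show (1 : ℝ) / 2 < 1 by norm_num), log_pos_ev] with x hx hl
    rw [lt_div_iff₀ hl] at hx
    linarith
  refine ⟨h1.congr' ?_, ?_⟩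
  · filter_upwards [log_pos_ev, hpos] with x hx hx2
    simp only [Pi.div_apply]
    field_simp
  · have h2 : Tendsto (fun x : ℕ => k * (Real.log (x : ℝ))⁻¹ * ((Real.log (f x) / Real.log x))⁻¹) atTop (𝓝 (k * 0 * 1⁻¹)) :=
      (tendsto_logN.inv_tendsto_atTop.const_mul k).mul (hf.inv₀ one_ne_zero)
    rw [mul_zero, zero_mul] at h2
    refine h2.congr' ?_
    filter_upwards [log_pos_ev, hpos] with x hx hx2
    field_simp

/-- the law of large numbers for blocks around the members of a sequence -/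
theorem lln_blk (hxs : StrictMono xs) {y l2 : ℕ → ℕ} (hl2 : Monotone l2)
    (hsep : ∀ᶠ n in atTop, xs n + l2 (xs n) ≤ y (xs (n + 1))) {E : ℕ → Set Ω} {q : ℝ} (hq0 : 0 ≤ q)
    (hE : ∀ᶠ x in atTop, MeasurableSet[ℱ (x + l2 x)] (E x))
    (hq : ∀ᶠ x in atTop, ∀ B, MeasurableSet[ℱ (y x)] B → μ.real (B ∩ E x) ≤ q * μ.real B) :
    ∀ᵐ ω ∂μ, UB {n | ω ∈ E (xs n)} q := by
  classical
  set t : ℕ → ℕ := fun n => if n = 0 then 0 else xs (n - 1) + l2 (xs (n - 1)) with ht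
  have htm : Monotone t := by
    refine monotone_nat_of_le_succ fun n => ?_
    simp only [ht]
    by_cases h : n = 0
    · rw [if_pos h]
      exact Nat.zero_le _
    · rw [if_neg h, if_neg (Nat.succ_ne_zero n), Nat.add_sub_cancel]
      have h1 : xs (n - 1) ≤ xs n := hxs.monotone (Nat.sub_le n 1)
      exact Nat.add_le_add h1 (hl2 h1)
  have ht1 : ∀ n, t (n + 1) = xs n + l2 (xs n) := fun n => by
    simp only [ht]
    rw [if_neg (Nat.succ_ne_zero n), Nat.add_sub_cancel]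
  set gd : ℕ → Prop := fun n => MeasurableSet[ℱ (xs n + l2 (xs n))] (E (xs n)) ∧ t n ≤ y (xs n) with hgd
  have hgood : ∀ᶠ n in atTop, gd n := by
    have h1 : ∀ᶠ n in atTop, t n ≤ y (xs n) := by
      obtain ⟨n₀, hn₀⟩ := eventually_atTop.1 hsep
      filter_upwards [eventually_ge_atTop (n₀ + 1)] with n hn
      obtain ⟨k, rfl⟩ : ∃ k, n = k + 1 := ⟨n - 1, by omega⟩
      rw [ht1]
      exact hn₀ k (by omega)
    exact (hxs.tendsto_atTop.eventually hE).and h1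
  have h1 := lln (μ := μ) (ℱ := ℱ) (t := t) (R := fun _ => 1)
    (D := fun n => if gd n then E (xs n) else ∅) (q := q) htm (fun _ => one_pos) (by
      filter_upwards [eventually_ge_atTop 1] with X hX
      rw [Nat.cast_one]
      exact Real.one_le_sqrt.2 (by exact_mod_cast hX)) (by
      intro X n _
      show MeasurableSet[ℱ (t (n + 1))] (if gd n then E (xs n) else ∅)
      rw [ht1]
      by_cases h : gd n
      · rw [if_pos h]
        exact h.1
      · rw [if_neg h]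
        exact @MeasurableSet.empty _ (ℱ (xs n + l2 (xs n)))) hq0 (by
      filter_upwards [hxs.tendsto_atTop.eventually hq] with n hn B hB
      by_cases h : gd n
      · rw [if_pos h]
        exact hn B (ℱ.mono h.2 _ hB)
      · rw [if_neg h, inter_empty, measureReal_empty]
        exact mul_nonneg hq0 measureReal_nonneg)
  filter_upwards [h1] with ω hω
  refine hω.of_dz (UB_of_eventually (E := {n | ¬ gd n}) ?_) ?_
  · filter_upwards [hgood] with n hn hcon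
    exact hcon hn
  · intro n hn
    by_cases h : gd n
    · left
      show ω ∈ if gd n then E (xs n) else ∅
      rw [if_pos h]
      exact hn
    · exact Or.inr h

end Pool.Agent.N315.PS
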