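import Mathlib
import Pool.Agent.N315.PS.Two

/-!
# The joint law of two windows
-/

set_option autoImplicit false
set_option linter.unusedSectionVars false

open MeasureTheory Filter Set Polynomial ProbabilityTheory
open scoped ENNReal Topology

namespace Pool.Agent.N315.PS

open Pool.Agent.R528.RM Pool.Agent.N740.HK Pool.Agent.N315.CC Pool.Agent.N315.PL

variable {Ω : Type} {m0 : MeasurableSpace Ω} {μ : Measure Ω} [IsProbabilityMeasure μ]
  {ℱ : Filtration ℕ m0} {A : ℕ → Set Ω} {xs : ℕ → ℕ}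

/-- the limits of the bounds -/
noncomputable def pp (δ t : ℝ) (r : ℕ) : ℝ := ((1 + δ) ^ 2 * t) ^ r / (r.factorial : ℝ) * Real.exp (-((1 - δ) ^ 2 * t))

/-- the limits of the bounds for the tails -/
noncomputable def pq (δ t : ℝ) (r : ℕ) : ℝ := ((1 + δ) ^ 2 * t) ^ r / (r.factorial : ℝ)

lemma bd_lim {f1 f2 : ℕ → ℕ} (h1 : Tendsto (fun x : ℕ => Real.log (f1 x) / Real.log x) atTop (𝓝 1))
    (h2 : Tendsto (fun x : ℕ => Real.log (f2 x) / Real.log x) atTop (𝓝 1)) (δ b c : ℝ) (r : ℕ) :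
    Tendsto (fun x : ℕ => ((1 + δ) * b * Real.log x * ((1 + δ) * c / Real.log (f1 x))) ^ r / (r.factorial : ℝ) *
      Real.exp (-((1 - δ) * b * Real.log x * ((1 - δ) * c / Real.log (f2 x))) + r * ((1 - δ) * c / Real.log (f2 x)))) atTop
      (𝓝 (pp δ (b * c) r)) := by
  obtain ⟨a1, _⟩ := plim h1 ((1 + δ) * b) ((1 + δ) * c)
  obtain ⟨a2, a3⟩ := plim h2 ((1 - δ) * b) ((1 - δ) * c)
  have h := ((a1.pow r).div_const (r.factorial : ℝ)).mul
    ((Real.continuous_exp.tendsto _).comp (a2.neg.add (a3.const_mul (r : ℝ))))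
  have e : ((1 + δ) * b * ((1 + δ) * c)) ^ r / (r.factorial : ℝ) * Real.exp (-((1 - δ) * b * ((1 - δ) * c)) + r * 0) = pp δ (b * c) r := by
    unfold pp
    rw [show (1 + δ) * b * ((1 + δ) * c) = (1 + δ) ^ 2 * (b * c) by ring,
      show -((1 - δ) * b * ((1 - δ) * c)) + (r : ℝ) * 0 = -((1 - δ) ^ 2 * (b * c)) by ring]
  rw [e] at h
  exact h

lemma td_lim {f1 : ℕ → ℕ} (h1 : Tendsto (fun x : ℕ => Real.log (f1 x) / Real.log x) atTop (𝓝 1)) (δ b c : ℝ) (r : ℕ) :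
    Tendsto (fun x : ℕ => ((1 + δ) * b * Real.log x * ((1 + δ) * c / Real.log (f1 x))) ^ r / (r.factorial : ℝ)) atTop
      (𝓝 (pq δ (b * c) r)) := by
  obtain ⟨a1, _⟩ := plim h1 ((1 + δ) * b) ((1 + δ) * c)
  have h := (a1.pow r).div_const (r.factorial : ℝ)
  have e : ((1 + δ) * b * ((1 + δ) * c)) ^ r / (r.factorial : ℝ) = pq δ (b * c) r := by
    unfold pq
    rw [show (1 + δ) * b * ((1 + δ) * c) = (1 + δ) ^ 2 * (b * c) by ring]
  rw [e] at h
  exact h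

/-- the left end of the left window -/
noncomputable def yy (α : ℝ) (x : ℕ) : ℕ := x - 1 - LL α 1 x

lemma LL_small {α : ℝ} (hα : 0 ≤ α) : ∀ᶠ x : ℕ in atTop, 2 * (LL α 1 x + 1) ≤ x := by
  have h := tendsto_natCast_atTop_atTop.eventually (Real.isLittleO_log_id_atTop.def (show (0 : ℝ) < 1 / (4 * (α + 1)) by positivity))
  filter_upwards [h, eventually_ge_atTop 4] with x hx hx4
  have h4 : (4 : ℝ) ≤ x := by exact_mod_cast hx4
  have hl : 0 ≤ Real.log (x : ℝ) := Real.log_natCast_nonneg x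
  rw [Real.norm_eq_abs, abs_of_nonneg hl, id, Real.norm_eq_abs, abs_of_nonneg (by linarith : (0 : ℝ) ≤ x)] at hx
  have h1 : (LL α 1 x : ℝ) ≤ α * Real.log x ^ 1 := Nat.floor_le (by positivity)
  rw [pow_one] at h1
  have h2 : α * Real.log x ≤ α * (1 / (4 * (α + 1)) * x) := mul_le_mul_of_nonneg_left hx hα
  have h3 : α * (1 / (4 * (α + 1)) * x) ≤ x / 4 := by
    rw [show α * (1 / (4 * (α + 1)) * x) = α / (α + 1) * (x / 4) by field_simp]
    refine mul_le_of_le_one_left (by linarith) ?_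
    rw [div_le_one (by linarith)]
    linarith
  have h5 : (2 : ℝ) * ((LL α 1 x : ℝ) + 1) ≤ x := by linarith
  exact_mod_cast h5

lemma yy_top {α : ℝ} (hα : 0 ≤ α) : Tendsto (yy α) atTop atTop := by
  refine tendsto_atTop.2 fun b => ?_
  filter_upwards [LL_small hα, eventually_ge_atTop (2 * b)] with x h1 h2
  unfold yy
  omega

lemma log_yy {α : ℝ} (hα : 0 ≤ α) : Tendsto (fun x : ℕ => Real.log (yy α x) / Real.log x) atTop (𝓝 1) := by
  refine log_comp ?_ ?_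
  · filter_upwards [LL_small hα] with x h1
    unfold yy
    omega
  · filter_upwards with x
    unfold yy
    omega

lemma log_yl {α : ℝ} (hα : 0 ≤ α) : Tendsto (fun x : ℕ => Real.log ((yy α x + LL α 1 x : ℕ) : ℝ) / Real.log x) atTop (𝓝 1) := by
  refine log_comp ?_ ?_
  · filter_upwards [LL_small hα] with x h1
    unfold yy
    omega
  · filter_upwards [LL_small hα] with x h1
    unfold yy
    omega

lemma log_xl {β : ℝ} (hβ : 0 ≤ β) : Tendsto (fun x : ℕ => Real.log ((x + LL β 1 x : ℕ) : ℝ) / Real.log x) atTop (𝓝 1) := by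
  refine log_comp ?_ ?_
  · filter_upwards with x
    omega
  · filter_upwards [LL_small hβ] with x h1
    omega

lemma log_x : Tendsto (fun x : ℕ => Real.log ((id x : ℕ) : ℝ) / Real.log x) atTop (𝓝 1) := by
  refine log_comp ?_ ?_
  · filter_upwards with x
    simp only [id]
    omega
  · filter_upwards with x
    simp only [id]
    omega

section

variable {W : ℕ} {c α β b1 b2 : ℝ}

theorem pair_prob (hc : c = (W : ℝ) / Nat.totient W) (hc0 : 0 ≤ c) (hA : ∀ n, MeasurableSet[ℱ n] (A n)) (hb1 : 0 ≤ b1) (hb2 : 0 ≤ b2)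
    (hα : 0 ≤ α) (hβ : 0 ≤ β) {δ : ℝ} (hδ0 : 0 < δ) (hδ1 : δ ≤ 1 / 2) (r s : ℕ) :
    ∀ᶠ x : ℕ in atTop, ∀ B, MeasurableSet[ℱ (yy α x)] B →
      μ.real (B ∩ (EX μ ℱ A W b1 δ (Real.log x) r (yy α x) (LL α 1 x) ∩ EX μ ℱ A W b2 δ (Real.log x) s x (LL β 1 x))) ≤
        (pp δ (b1 * c) r * pp δ (b2 * c) s + δ) * μ.real B := by
  have hlim := (bd_lim (log_yy hα) (log_yl hα) δ b1 c r).mul (bd_lim log_x (log_xl hβ) δ b2 c s)
  filter_upwards [hlim.eventually_lt_const (lt_add_of_pos_right _ hδ0), LL_small hα, (yy_top hα).eventually_ge_atTop 3,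
    (tendsto_logN.comp (yy_top hα)).eventually_ge_atTop (2 * c + 1)] with x hx hx2 hy3 hyc B hB
  have hyc : 2 * c + 1 ≤ Real.log (yy α x) := hyc
  have hyx : yy α x ≤ x := by unfold yy; omega
  have hyl : yy α x + LL α 1 x ≤ x := by unfold yy; omega
  have hy3' : (3 : ℝ) ≤ yy α x := by exact_mod_cast hy3
  have hxc : 2 * c + 1 ≤ Real.log x := hyc.trans (Real.log_le_log (by linarith) (by exact_mod_cast hyx))
  have hl0 : 0 ≤ Real.log (x : ℝ) := by linarith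
  have m1 : MeasurableSet[ℱ x] (B ∩ EX μ ℱ A W b1 δ (Real.log x) r (yy α x) (LL α 1 x)) :=
    MeasurableSet.inter (ℱ.mono hyx _ hB) (ℱ.mono hyl _ (EX_meas hA _ _ _ _ _ _ _))
  have p1 := EX_prob (μ := μ) (ℱ := ℱ) (A := A) (b := b1) (y := Real.log x) (δ := δ) (l := LL α 1 x) hc hc0 hA hb1 hl0 hδ0.le hδ1 hy3 hyc r hB
  have p2 := EX_prob (μ := μ) (ℱ := ℱ) (A := A) (b := b2) (y := Real.log x) (δ := δ) (l := LL β 1 x) hc hc0 hA hb2 hl0 hδ0.le hδ1
    (hy3.trans hyx) hxc s m1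
  rw [← inter_assoc]
  refine p2.trans ?_
  refine (mul_le_mul_of_nonneg_left p1 ?_).trans ?_
  · have : 0 ≤ (1 + δ) * c / Real.log x := div_nonneg (mul_nonneg (by linarith) hc0) hl0
    positivity
  · rw [← mul_assoc, mul_comm (((1 + δ) * b2 * Real.log x * ((1 + δ) * c / Real.log x)) ^ s / (s.factorial : ℝ) * _)]
    exact mul_le_mul_of_nonneg_right hx.le measureReal_nonneg

theorem tail1 (hc : c = (W : ℝ) / Nat.totient W) (hc0 : 0 ≤ c) (hA : ∀ n, MeasurableSet[ℱ n] (A n)) (hb1 : 0 ≤ b1)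
    (hα : 0 ≤ α) {δ : ℝ} (hδ0 : 0 < δ) (hδ1 : δ ≤ 1 / 2) (r : ℕ) :
    ∀ᶠ x : ℕ in atTop, ∀ B, MeasurableSet[ℱ (yy α x)] B →
      μ.real (B ∩ TX μ ℱ A W b1 δ (Real.log x) r (yy α x) (LL α 1 x)) ≤ (pq δ (b1 * c) r + δ) * μ.real B := by
  have hlim := td_lim (log_yy hα) δ b1 c r
  filter_upwards [hlim.eventually_lt_const (lt_add_of_pos_right _ hδ0), (yy_top hα).eventually_ge_atTop 3,
    (tendsto_logN.comp (yy_top hα)).eventually_ge_atTop (2 * c + 1), log_pos_ev] with x hx hy3 hyc hl0 B hB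
  have p1 := TX_prob (μ := μ) (ℱ := ℱ) (A := A) (b := b1) (y := Real.log x) (δ := δ) (l := LL α 1 x) hc hc0 hA hb1 hl0.le hδ0.le hδ1 hy3 hyc r hB
  exact p1.trans (mul_le_mul_of_nonneg_right hx.le measureReal_nonneg)

theorem tail2 (hc : c = (W : ℝ) / Nat.totient W) (hc0 : 0 ≤ c) (hA : ∀ n, MeasurableSet[ℱ n] (A n)) (hb2 : 0 ≤ b2)
    {δ : ℝ} (hδ0 : 0 < δ) (hδ1 : δ ≤ 1 / 2) (s : ℕ) :
    ∀ᶠ x : ℕ in atTop, ∀ B, MeasurableSet[ℱ (yy α x)] B →
      μ.real (B ∩ TX μ ℱ A W b2 δ (Real.log x) s x (LL β 1 x)) ≤ (pq δ (b2 * c) s + δ) * μ.real B := by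
  have hlim := td_lim log_x δ b2 c s
  filter_upwards [hlim.eventually_lt_const (lt_add_of_pos_right _ hδ0), eventually_ge_atTop 3,
    tendsto_logN.eventually_ge_atTop (2 * c + 1), log_pos_ev] with x hx hx3 hxc hl0 B hB
  have hyx : yy α x ≤ x := by unfold yy; omega
  have p1 := TX_prob (μ := μ) (ℱ := ℱ) (A := A) (b := b2) (y := Real.log x) (δ := δ) (l := LL β 1 x) hc hc0 hA hb2 hl0.le hδ0.le hδ1 hx3 hxc s
    (ℱ.mono hyx _ hB)
  exact p1.trans (mul_le_mul_of_nonneg_right hx.le measureReal_nonneg)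

/-- the number of the candidates is deterministic -/
lemma cand (hW : 0 < W) {l : ℕ → ℕ} {a : ℝ} (hl : Tendsto (fun x : ℕ => (l x : ℝ) / Real.log x) atTop (𝓝 a)) {δ : ℝ} (hδ : 0 < δ)
    (hb : 0 < gd (Gc W) W * a) :
    ∀ᶠ x : ℕ in atTop, ∀ (z : ℕ) (ω : Ω),
      ⌈(1 - δ) * (gd (Gc W) W * a) * Real.log x⌉₊ ≤ NW A Fi (Gc W) (fun _ => l x) 0 z ω ∧
      NW A Fi (Gc W) (fun _ => l x) 0 z ω ≤ ⌊(1 + δ) * (gd (Gc W) W * a) * Real.log x⌋₊ := by
  have h1 : Tendsto (fun x : ℕ => gd (Gc W) W * ((l x : ℝ) / Real.log x) - (W : ℝ) / Real.log x) atTop (𝓝 (gd (Gc W) W * a - 0)) :=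
    (hl.const_mul _).sub (tendsto_const_nhds.div_atTop tendsto_logN)
  have h2 : Tendsto (fun x : ℕ => gd (Gc W) W * ((l x : ℝ) / Real.log x) + (W : ℝ) / Real.log x) atTop (𝓝 (gd (Gc W) W * a + 0)) :=
    (hl.const_mul _).add (tendsto_const_nhds.div_atTop tendsto_logN)
  rw [sub_zero] at h1
  rw [add_zero] at h2
  filter_upwards [h1.eventually_const_lt (show (1 - δ) * (gd (Gc W) W * a) < gd (Gc W) W * a by nlinarith),
    h2.eventually_lt_const (show gd (Gc W) W * a < (1 + δ) * (gd (Gc W) W * a) by nlinarith), log_pos_ev] with x k1 k2 hx z ω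
  have h3 := abs_le.1 (NW_zero (A := A) (F := Fi) (L := fun _ => l x) hW (good_periodic (sh {0}) W) z ω)
  have e1 : (gd (Gc W) W * ((l x : ℝ) / Real.log x) - (W : ℝ) / Real.log x) * Real.log x = gd (Gc W) W * l x - W := by
    field_simp
  have e2 : (gd (Gc W) W * ((l x : ℝ) / Real.log x) + (W : ℝ) / Real.log x) * Real.log x = gd (Gc W) W * l x + W := by
    field_simp
  have k1' := mul_lt_mul_of_pos_right k1 hx
  have k2' := mul_lt_mul_of_pos_right k2 hx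
  rw [e1] at k1'
  rw [e2] at k2'
  exact ⟨Nat.ceil_le.2 (by linarith [h3.1]), Nat.le_floor (by linarith [h3.2])⟩

/-- outside of the exceptional times the window is regular -/
lemma reg {W : ℕ} {δ : ℝ} {z l : ℕ} {ω : Ω} (h : ∀ t, z ≤ t → |dens μ ℱ A t ω - rhoW W (t + 1)| ≤ δ * rhoW W (t + 1)) :
    ω ∉ vG (TZ A W z l) (VQ μ ℱ A W δ) z l := by
  rintro ⟨t, ht1, _, ⟨m, _, _, hm3, hm4, _⟩, ht4⟩
  apply ht4
  refine ⟨?_, h t ht1⟩
  rw [← hm4]
  have h1 := good_sh.1 hm3 0 (by simp)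
  exact h1

end

end Pool.Agent.N315.PS
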