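import Mathlib
import Pool.Agent.N315.PS.TwoB

/-!
# The joint law of two windows along a sequence
-/

set_option autoImplicit false
set_option linter.unusedSectionVars false

open MeasureTheory Filter Set Polynomial ProbabilityTheory
open scoped ENNReal Topology

namespace Pool.Agent.N315.PS

open Pool.Agent.R528.RM Pool.Agent.N740.HK Pool.Agent.N315.CC Pool.Agent.N315.PL

variable {Ω : Type} {m0 : MeasurableSpace Ω} {μ : Measure Ω} [IsProbabilityMeasure μ]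
  {ℱ : Filtration ℕ m0} {A : ℕ → Set Ω} {xs : ℕ → ℕ}

lemma pp_nonneg {δ t : ℝ} (ht : 0 ≤ t) (r : ℕ) : 0 ≤ pp δ t r := by
  unfold pp
  positivity

lemma pq_nonneg {δ t : ℝ} (ht : 0 ≤ t) (r : ℕ) : 0 ≤ pq δ t r := by
  unfold pq
  positivity

lemma pp_lim (t : ℝ) (r : ℕ) : Tendsto (fun j => pp (dj j) t r) atTop (𝓝 (po t r)) := by
  have h6 : Tendsto (fun j => pp (dj j) t r) atTop (𝓝 (((1 + 0) ^ 2 * t) ^ r / (r.factorial : ℝ) * Real.exp (-((1 - 0) ^ 2 * t)))) :=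
        (((((dj_lim.const_add 1).pow 2).mul_const t).pow r).div_const _ |>.mul
          ((Real.continuous_exp.tendsto _).comp (((dj_lim.const_sub 1).pow 2).mul_const t).neg))
  simpa [po] using h6

lemma pq_lim (t : ℝ) (r : ℕ) : Tendsto (fun j => pq (dj j) t r) atTop (𝓝 (t ^ r / (r.factorial : ℝ))) := by
  have h6 : Tendsto (fun j => pq (dj j) t r) atTop (𝓝 (((1 + 0) ^ 2 * t) ^ r / (r.factorial : ℝ))) :=
        ((((dj_lim.const_add 1).pow 2).mul_const t).pow r).div_const _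
  simpa using h6

lemma po_hasSum (lam : ℝ) : HasSum (po lam) 1 := by
  have h5 := (NormedSpace.expSeries_div_hasSum_exp (𝔸 := ℝ) lam).mul_right (Real.exp (-lam))
  rw [← Real.exp_eq_exp_ℝ, ← Real.exp_add, add_neg_cancel, Real.exp_zero] at h5
  exact h5

lemma po_nn {lam : ℝ} (h : 0 ≤ lam) (r : ℕ) : 0 ≤ po lam r := by
  unfold po
  positivity

lemma sqrt_top : Tendsto Nat.sqrt atTop atTop := by
  refine tendsto_atTop.2 fun b => ?_
  filter_upwards [eventually_ge_atTop (b * b)] with R hR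
  exact Nat.le_sqrt.2 hR

/-- the joint law from upper bounds for the frequencies -/
theorem joint_lim (N1 N2 : ℕ → ℕ) {α β : ℝ} (hα : 0 ≤ α) (hβ : 0 ≤ β)
    (h : ∀ r s, UB {n | N1 n = r ∧ N2 n = s} (po α r * po β s))
    (h1 : ∀ k, UB {n | k ≤ N1 n} (α ^ k / (k.factorial : ℝ))) (h2 : ∀ k, UB {n | k ≤ N2 n} (β ^ k / (k.factorial : ℝ))) (r s : ℕ) :
    Tendsto (fun X : ℕ => (cn {n | N1 n = r ∧ N2 n = s} X : ℝ) / X) atTop (𝓝 (po α r * po β s)) := by
  have hfreq : ∀ c, Tendsto (fun X : ℕ => (cn {n | Nat.pair (N1 n) (N2 n) = c} X : ℝ) / X) atTop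
      (𝓝 (po α (Nat.unpair c).1 * po β (Nat.unpair c).2)) := by
    intro c
    refine freq_lim (fun n => Nat.pair (N1 n) (N2 n)) (p := fun c => po α (Nat.unpair c).1 * po β (Nat.unpair c).2)
      (τ := fun R => α ^ (Nat.sqrt R) / ((Nat.sqrt R).factorial : ℝ) + β ^ (Nat.sqrt R) / ((Nat.sqrt R).factorial : ℝ))
      (fun c => mul_nonneg (po_nn hα _) (po_nn hβ _)) ?_ ?_ ?_ ?_ c
    · have s3 := (po_hasSum α).mul (po_hasSum β) ((po_hasSum α).summable.mul_of_nonneg (po_hasSum β).summable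
        (fun r => po_nn hα r) (fun r => po_nn hβ r))
      have s4 := (Nat.pairEquiv.symm.hasSum_iff).2 s3
      rw [one_mul] at s4
      exact s4
    · have := ((FloorSemiring.tendsto_pow_div_factorial_atTop α).comp sqrt_top).add
        ((FloorSemiring.tendsto_pow_div_factorial_atTop β).comp sqrt_top)
      rw [add_zero] at this
      exact this
    · intro c
      refine (h (Nat.unpair c).1 (Nat.unpair c).2).mono ?_
      intro n hn
      have hn : Nat.pair (N1 n) (N2 n) = c := hn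
      exact ⟨by rw [← hn, Nat.unpair_pair], by rw [← hn, Nat.unpair_pair]⟩
    · intro R
      refine ((h1 (Nat.sqrt R)).union (h2 (Nat.sqrt R))).mono ?_
      intro n hn
      have hn : R ≤ Nat.pair (N1 n) (N2 n) := hn
      by_contra hcon
      rw [mem_union, not_or] at hcon
      have a1 : N1 n < Nat.sqrt R := not_le.1 hcon.1
      have a2 : N2 n < Nat.sqrt R := not_le.1 hcon.2
      have h3 := Nat.pair_lt_max_add_one_sq (N1 n) (N2 n)
      have h4 : max (N1 n) (N2 n) + 1 ≤ Nat.sqrt R := Nat.succ_le_of_lt (max_lt a1 a2)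
      have h5 : Nat.sqrt R * Nat.sqrt R ≤ R := Nat.sqrt_le R
      have h6 := Nat.pow_le_pow_left h4 2
      rw [pow_two (Nat.sqrt R)] at h6
      omega
  have h3 := hfreq (Nat.pair r s)
  rw [Nat.unpair_pair] at h3
  refine cn_congr_lim (n₀ := 0) (fun n _ => ?_) h3
  simp only [mem_ofPred_eq]
  rw [Nat.pair_eq_pair]

/-- **the joint law of the two windows** -/
theorem two_fixed (hA : ∀ n, MeasurableSet[ℱ n] (A n)) (Q : Finset ℕ) (hQ : ∀ p ∈ Q, p.Prime)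
    (hcop' : ∀ n, ¬ Nat.Coprime n (∏ p ∈ Q, p) → A n = ∅)
    (hprof : ∀ᵐ ω ∂μ, ∀ ε : ℝ, 0 < ε → ∀ᶠ n : ℕ in atTop,
      |dens μ ℱ A n ω - rhoW (∏ p ∈ Q, p) (n + 1)| ≤ ε * rhoW (∏ p ∈ Q, p) (n + 1))
    (hxs : StrictMono xs) (hgr : Tendsto (fun n : ℕ => ((xs (n + 1) : ℝ) - xs n) / Real.log (xs (n + 1))) atTop atTop)
    {α β : ℝ} (hα : 0 < α) (hβ : 0 < β) :
    ∀ᵐ ω ∂μ, ∀ r s : ℕ, Tendsto (fun X : ℕ => (cn {n | wn {a | ω ∈ A a} (fun _ => LL α 1 (xs n)) (yy α (xs n)) = r ∧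
      wn {a | ω ∈ A a} (LL β 1) (xs n) = s} X : ℝ) / X) atTop (𝓝 (po α r * po β s)) := by
  classical
  have hgc0 := gd_one Q hQ
  have hW : 0 < ∏ p ∈ Q, p := Finset.prod_pos fun q hq => (hQ q hq).pos
  generalize (∏ p ∈ Q, p) = W at hcop' hprof hgc0 hW
  set c : ℝ := (W : ℝ) / Nat.totient W with hc
  have hc0 : 0 < c := div_pos (by exact_mod_cast hW) (by exact_mod_cast Nat.totient_pos.2 hW)
  have hgc : gd (Gc W) W * c = 1 := hgc0
  have hg0 : 0 < gd (Gc W) W := by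
    by_contra hcon
    have : gd (Gc W) W * c ≤ 0 := mul_nonpos_of_nonpos_of_nonneg (not_lt.1 hcon) hc0.le
    linarith
  set b1 : ℝ := gd (Gc W) W * α with hb1
  set b2 : ℝ := gd (Gc W) W * β with hb2
  have e1 : b1 * c = α := by rw [hb1]; linear_combination α * hgc
  have e2 : b2 * c = β := by rw [hb2]; linear_combination β * hgc
  have hb1' : 0 < b1 := mul_pos hg0 hα
  have hb2' : 0 < b2 := mul_pos hg0 hβ
  have hsep : ∀ᶠ n in atTop, xs n + LL β 1 (xs n) ≤ yy α (xs (n + 1)) := by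
    have hx1 : Tendsto (fun n => xs (n + 1)) atTop atTop := hxs.tendsto_atTop.comp (tendsto_add_atTop_nat 1)
    filter_upwards [hgr.eventually_ge_atTop (α + β + 1), (tendsto_logN.comp hx1).eventually_ge_atTop 1] with n h1 h2
    have h2 : 1 ≤ Real.log (xs (n + 1)) := h2
    rw [le_div_iff₀ (by linarith)] at h1
    have h3 : (LL α 1 (xs (n + 1)) : ℝ) ≤ α * Real.log (xs (n + 1)) ^ 1 := Nat.floor_le (by positivity)
    have h4 : (LL β 1 (xs (n + 1)) : ℝ) ≤ β * Real.log (xs (n + 1)) ^ 1 := Nat.floor_le (by positivity)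
    have h5 : LL β 1 (xs n) ≤ LL β 1 (xs (n + 1)) := LL_mono hβ.le one_ne_zero (hxs.monotone (Nat.le_succ n))
    have h5' : (LL β 1 (xs n) : ℝ) ≤ LL β 1 (xs (n + 1)) := by exact_mod_cast h5
    rw [pow_one] at h3 h4
    have h6 : ((xs n + LL β 1 (xs n) + 1 + LL α 1 (xs (n + 1)) : ℕ) : ℝ) ≤ (xs (n + 1) : ℕ) := by
      push_cast
      linarith
    have h7 : xs n + LL β 1 (xs n) + 1 + LL α 1 (xs (n + 1)) ≤ xs (n + 1) := by exact_mod_cast h6
    unfold yy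
    omega
  have hm1 : ∀ j r, ∀ᶠ x : ℕ in atTop, MeasurableSet[ℱ (x + LL β 1 x)] (EX μ ℱ A W b1 (dj j) (Real.log x) r (yy α x) (LL α 1 x)) := by
    intro j r
    filter_upwards [LL_small hα.le] with x hx
    refine ℱ.mono ?_ _ (EX_meas hA _ _ _ _ _ _ _)
    unfold yy
    omega
  have hm2 : ∀ j r, ∀ᶠ x : ℕ in atTop, MeasurableSet[ℱ (x + LL β 1 x)] (TX μ ℱ A W b1 (dj j) (Real.log x) r (yy α x) (LL α 1 x)) := by
    intro j r
    filter_upwards [LL_small hα.le] with x hx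
    refine ℱ.mono ?_ _ (TX_meas hA _ _ _ _ _ _ _)
    unfold yy
    omega
  have h1 : ∀ᵐ ω ∂μ, ∀ j r s, UB {n | ω ∈ EX μ ℱ A W b1 (dj j) (Real.log (xs n)) r (yy α (xs n)) (LL α 1 (xs n)) ∩
      EX μ ℱ A W b2 (dj j) (Real.log (xs n)) s (xs n) (LL β 1 (xs n))} (pp (dj j) α r * pp (dj j) β s + dj j) := by
    refine ae_all_iff.2 fun j => ae_all_iff.2 fun r => ae_all_iff.2 fun s => ?_
    have hp := pair_prob (μ := μ) (ℱ := ℱ) (A := A) hc hc0.le hA hb1'.le hb2'.le hα.le hβ.le (dj_pos j) (dj_le j) r s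
    rw [e1, e2] at hp
    refine lln_blk (E := fun x => EX μ ℱ A W b1 (dj j) (Real.log x) r (yy α x) (LL α 1 x) ∩
      EX μ ℱ A W b2 (dj j) (Real.log x) s x (LL β 1 x)) hxs (LL_mono hβ.le one_ne_zero) hsep ?_ ?_ hp
    · exact add_nonneg (mul_nonneg (pp_nonneg hα.le r) (pp_nonneg hβ.le s)) (dj_pos j).le
    · filter_upwards [hm1 j r] with x hx
      exact MeasurableSet.inter hx (EX_meas hA _ _ _ _ _ _ _)
  have h2 : ∀ᵐ ω ∂μ, ∀ j r, UB {n | ω ∈ TX μ ℱ A W b1 (dj j) (Real.log (xs n)) r (yy α (xs n)) (LL α 1 (xs n))}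
      (pq (dj j) α r + dj j) := by
    refine ae_all_iff.2 fun j => ae_all_iff.2 fun r => ?_
    have hp := tail1 (μ := μ) (ℱ := ℱ) (A := A) hc hc0.le hA hb1'.le hα.le (dj_pos j) (dj_le j) r
    rw [e1] at hp
    exact lln_blk (E := fun x => TX μ ℱ A W b1 (dj j) (Real.log x) r (yy α x) (LL α 1 x)) hxs (LL_mono hβ.le one_ne_zero) hsep
      (add_nonneg (pq_nonneg hα.le r) (dj_pos j).le) (hm2 j r) hp
  have h3 : ∀ᵐ ω ∂μ, ∀ j r, UB {n | ω ∈ TX μ ℱ A W b2 (dj j) (Real.log (xs n)) r (xs n) (LL β 1 (xs n))}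
      (pq (dj j) β r + dj j) := by
    refine ae_all_iff.2 fun j => ae_all_iff.2 fun r => ?_
    have hp := tail2 (μ := μ) (ℱ := ℱ) (A := A) (α := α) (β := β) hc hc0.le hA hb2'.le (dj_pos j) (dj_le j) r
    rw [e2] at hp
    exact lln_blk (E := fun x => TX μ ℱ A W b2 (dj j) (Real.log x) r x (LL β 1 x)) hxs (LL_mono hβ.le one_ne_zero) hsep
      (add_nonneg (pq_nonneg hβ.le r) (dj_pos j).le) (Eventually.of_forall fun x => TX_meas hA _ _ _ _ _ _ _) hp
  filter_upwards [h1, h2, h3, hprof] with ω g1 g2 g3 g4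
  have hLα : Tendsto (fun x : ℕ => (LL α 1 x : ℝ) / Real.log x) atTop (𝓝 α) := by
    have := LL_lim hα.le one_ne_zero
    simpa only [pow_one] using this
  have hLβ : Tendsto (fun x : ℕ => (LL β 1 x : ℝ) / Real.log x) atTop (𝓝 β) := by
    have := LL_lim hβ.le one_ne_zero
    simpa only [pow_one] using this
  set OK : ℕ → ℕ → Prop := fun j x =>
    (⌈(1 - dj j) * b1 * Real.log x⌉₊ ≤ cG (TZ A W (yy α x) (LL α 1 x)) (yy α x) (LL α 1 x) ω ∧
      cG (TZ A W (yy α x) (LL α 1 x)) (yy α x) (LL α 1 x) ω ≤ ⌊(1 + dj j) * b1 * Real.log x⌋₊ ∧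
      ω ∉ vG (TZ A W (yy α x) (LL α 1 x)) (VQ μ ℱ A W (dj j)) (yy α x) (LL α 1 x)) ∧
    (⌈(1 - dj j) * b2 * Real.log x⌉₊ ≤ cG (TZ A W x (LL β 1 x)) x (LL β 1 x) ω ∧
      cG (TZ A W x (LL β 1 x)) x (LL β 1 x) ω ≤ ⌊(1 + dj j) * b2 * Real.log x⌋₊ ∧
      ω ∉ vG (TZ A W x (LL β 1 x)) (VQ μ ℱ A W (dj j)) x (LL β 1 x)) with hOK
  have hok : ∀ j, ∀ᶠ x : ℕ in atTop, OK j x := by
    intro j
    obtain ⟨m₀, hm₀⟩ := eventually_atTop.1 (g4 (dj j) (dj_pos j))
    filter_upwards [cand (A := A) hW hLα (dj_pos j) hb1', cand (A := A) hW hLβ (dj_pos j) hb2', (yy_top hα.le).eventually_ge_atTop m₀,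
      eventually_ge_atTop m₀] with x k1 k2 k3 k4
    simp only [hOK]
    rw [cG_TZ, cG_TZ]
    exact ⟨⟨(k1 _ ω).1, (k1 _ ω).2, reg fun t ht => hm₀ t (by omega)⟩, ⟨(k2 _ ω).1, (k2 _ ω).2, reg fun t ht => hm₀ t (by omega)⟩⟩
  have hbad : ∀ j, UB {n | ¬ OK j (xs n)} 0 := by
    intro j
    refine UB_of_eventually ?_
    filter_upwards [hxs.tendsto_atTop.eventually (hok j)] with n hn hcon
    exact hcon hn
  refine joint_lim _ _ hα.le hβ.le ?_ ?_ ?_
  · intro r s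
    refine UB_lim (p := fun j => pp (dj j) α r * pp (dj j) β s + dj j) (fun j => (g1 j r s).of_dz (hbad j) ?_) ?_
    · intro n hn
      by_cases hk : OK j (xs n)
      · left
        exact ⟨⟨⟨(SG_TZ hcop' _ _ ω).trans hn.1, hk.1.1, hk.1.2.1⟩, hk.1.2.2⟩,
          ⟨⟨(SG_TZ hcop' _ _ ω).trans hn.2, hk.2.1, hk.2.2.1⟩, hk.2.2.2⟩⟩
      · exact Or.inr hk
    · have := ((pp_lim α r).mul (pp_lim β s)).add dj_lim
      rw [add_zero] at this
      exact this
  · intro k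
    refine UB_lim (p := fun j => pq (dj j) α k + dj j) (fun j => (g2 j k).of_dz (hbad j) ?_) ?_
    · intro n hn
      by_cases hk : OK j (xs n)
      · left
        have hn : k ≤ wn {a | ω ∈ A a} (fun _ => LL α 1 (xs n)) (yy α (xs n)) := hn
        exact ⟨⟨hn.trans (SG_TZ hcop' _ _ ω).ge, hk.1.2.1⟩, hk.1.2.2⟩
      · exact Or.inr hk
    · have := (pq_lim α k).add dj_lim
      rw [add_zero] at this
      exact this
  · intro k
    refine UB_lim (p := fun j => pq (dj j) β k + dj j) (fun j => (g3 j k).of_dz (hbad j) ?_) ?_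
    · intro n hn
      by_cases hk : OK j (xs n)
      · left
        have hn : k ≤ wn {a | ω ∈ A a} (LL β 1) (xs n) := hn
        exact ⟨⟨hn.trans (SG_TZ hcop' _ _ ω).ge, hk.2.2.1⟩, hk.2.2.2⟩
      · exact Or.inr hk
    · have := (pq_lim β k).add dj_lim
      rw [add_zero] at this
      exact this

end Pool.Agent.N315.PS
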