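import Mathlib
import Pool.Agent.N315.PS.TwoC

/-!
# The joint law, for all lengths of the windows
-/

set_option autoImplicit false
set_option linter.unusedSectionVars false

open MeasureTheory Filter Set Polynomial ProbabilityTheory
open scoped ENNReal Topology

namespace Pool.Agent.N315.PS

open Pool.Agent.R528.RM Pool.Agent.N740.HK Pool.Agent.N315.CC Pool.Agent.N315.PL

lemma cn_incl (N M : ℕ → ℕ) (r s X : ℕ) :
    cn {x | N x < r + 1 ∧ M x < s + 1} X + cn {x | N x < r ∧ M x < s} X =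
      cn {x | N x = r ∧ M x = s} X + cn {x | N x < r ∧ M x < s + 1} X + cn {x | N x < r + 1 ∧ M x < s} X := by
  classical
  unfold cn
  simp only [Finset.card_filter, mem_ofPred_eq]
  rw [← Finset.sum_add_distrib, ← Finset.sum_add_distrib, ← Finset.sum_add_distrib]
  refine Finset.sum_congr rfl fun x _ => ?_
  split_ifs <;> omega

/-- the distribution function of the Poisson law (strict) -/
noncomputable def Ph (a : ℝ) (r : ℕ) : ℝ := ∑ j ∈ Finset.range r, po a j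

lemma Ph_succ (a : ℝ) (r : ℕ) : Ph a (r + 1) = Ph a r + po a r := Finset.sum_range_succ _ _

lemma Ph_cont (r : ℕ) : Continuous (fun a : ℝ => Ph a r) := continuous_finsetSum _ fun j _ => po_cont j

lemma cn_emp {E : Set ℕ} (h : E = ∅) (X : ℕ) : cn E X = 0 := by
  subst h
  unfold cn
  simp

lemma cdf2 {N M : ℕ → ℕ} {a b : ℝ}
    (h : ∀ r s, Tendsto (fun X : ℕ => (cn {x | N x = r ∧ M x = s} X : ℝ) / X) atTop (𝓝 (po a r * po b s))) (r s : ℕ) :
    Tendsto (fun X : ℕ => (cn {x | N x < r ∧ M x < s} X : ℝ) / X) atTop (𝓝 (Ph a r * Ph b s)) := by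
  induction r generalizing s with
  | zero =>
    have e : ∀ X, cn {x | N x < 0 ∧ M x < s} X = 0 := cn_emp (by ext x; simp)
    simp only [e]
    simp [Ph]
  | succ r ih =>
    induction s with
    | zero =>
      have e : ∀ X, cn {x | N x < r + 1 ∧ M x < 0} X = 0 := cn_emp (by ext x; simp)
      simp only [e]
      simp [Ph]
    | succ s ih2 =>
      have h1 := (((h r s).add (ih (s + 1))).add ih2).sub (ih s)
      have e : po a r * po b s + Ph a r * Ph b (s + 1) + Ph a (r + 1) * Ph b s - Ph a r * Ph b s = Ph a (r + 1) * Ph b (s + 1) := by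
        rw [Ph_succ, Ph_succ]
        ring
      rw [e] at h1
      refine h1.congr fun X => ?_
      have h2 : (cn {x | N x < r + 1 ∧ M x < s + 1} X : ℝ) + cn {x | N x < r ∧ M x < s} X =
          cn {x | N x = r ∧ M x = s} X + cn {x | N x < r ∧ M x < s + 1} X + cn {x | N x < r + 1 ∧ M x < s} X := by
        exact_mod_cast cn_incl N M r s X
      rw [← add_div, ← add_div, ← sub_div]
      congr 1
      linarith

lemma pmf2 {N M : ℕ → ℕ} {a b : ℝ}
    (h : ∀ r s, Tendsto (fun X : ℕ => (cn {x | N x < r ∧ M x < s} X : ℝ) / X) atTop (𝓝 (Ph a r * Ph b s))) (r s : ℕ) :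
    Tendsto (fun X : ℕ => (cn {x | N x = r ∧ M x = s} X : ℝ) / X) atTop (𝓝 (po a r * po b s)) := by
  have h1 := (((h (r + 1) (s + 1)).add (h r s)).sub (h r (s + 1))).sub (h (r + 1) s)
  have e : Ph a (r + 1) * Ph b (s + 1) + Ph a r * Ph b s - Ph a r * Ph b (s + 1) - Ph a (r + 1) * Ph b s = po a r * po b s := by
    rw [Ph_succ, Ph_succ]
    ring
  rw [e] at h1
  refine h1.congr fun X => ?_
  have h2 : (cn {x | N x < r + 1 ∧ M x < s + 1} X : ℝ) + cn {x | N x < r ∧ M x < s} X =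
      cn {x | N x = r ∧ M x = s} X + cn {x | N x < r ∧ M x < s + 1} X + cn {x | N x < r + 1 ∧ M x < s} X := by
    exact_mod_cast cn_incl N M r s X
  rw [← add_div, ← sub_div, ← sub_div]
  congr 1
  linarith

/-- the joint laws, from rational to real lengths -/
theorem two_real {N M : ℝ → ℕ → ℕ} (hN : ∀ {a b : ℝ}, a ≤ b → ∀ x, N a x ≤ N b x) (hM : ∀ {a b : ℝ}, a ≤ b → ∀ x, M a x ≤ M b x)
    (h : ∀ p q : ℚ, 0 < p → 0 < q → ∀ r s : ℕ,
      Tendsto (fun X : ℕ => (cn {x | N (p : ℝ) x = r ∧ M (q : ℝ) x = s} X : ℝ) / X) atTop (𝓝 (po (p : ℝ) r * po (q : ℝ) s)))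
    {α β : ℝ} (hα : 0 < α) (hβ : 0 < β) (r s : ℕ) :
    Tendsto (fun X : ℕ => (cn {x | N α x = r ∧ M β x = s} X : ℝ) / X) atTop (𝓝 (po α r * po β s)) := by
  refine pmf2 (fun r s => ?_) r s
  have hcont : Continuous (fun p : ℝ × ℝ => Ph p.1 r * Ph p.2 s) :=
    ((Ph_cont r).comp continuous_fst).mul ((Ph_cont s).comp continuous_snd)
  refine tendsto_order.2 ⟨fun u hu => ?_, fun u hu => ?_⟩
  · have h1 : ∀ᶠ p : ℝ × ℝ in 𝓝 (α, β), u < Ph p.1 r * Ph p.2 s := hcont.continuousAt.eventually_const_lt hu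
    obtain ⟨δ, hδ, hb⟩ := Metric.eventually_nhds_iff.1 h1
    obtain ⟨p, hp1, hp2⟩ := exists_rat_btwn (show α < α + δ by linarith)
    obtain ⟨q, hq1, hq2⟩ := exists_rat_btwn (show β < β + δ by linarith)
    have hp0 : (0 : ℚ) < p := by exact_mod_cast hα.trans hp1
    have hq0 : (0 : ℚ) < q := by exact_mod_cast hβ.trans hq1
    have h2 := hb (y := ((p : ℝ), (q : ℝ))) (by
      rw [Prod.dist_eq]
      refine max_lt ?_ ?_
      · show dist (p : ℝ) α < δ
        rw [Real.dist_eq, abs_of_pos (by linarith)]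
        linarith
      · show dist (q : ℝ) β < δ
        rw [Real.dist_eq, abs_of_pos (by linarith)]
        linarith)
    filter_upwards [(cdf2 (h p q hp0 hq0) r s).eventually_const_lt h2] with X hX
    refine hX.trans_le (div_le_div_of_nonneg_right ?_ (Nat.cast_nonneg X))
    have h3 : {x | N (p : ℝ) x < r ∧ M (q : ℝ) x < s} ⊆ {x | N α x < r ∧ M β x < s} := fun x hx =>
      ⟨(hN hp1.le x).trans_lt hx.1, (hM hq1.le x).trans_lt hx.2⟩
    exact_mod_cast cn_mono h3 X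
  · have h1 : ∀ᶠ p : ℝ × ℝ in 𝓝 (α, β), Ph p.1 r * Ph p.2 s < u := hcont.continuousAt.eventually_lt_const hu
    obtain ⟨δ, hδ, hb⟩ := Metric.eventually_nhds_iff.1 h1
    obtain ⟨p, hp1, hp2⟩ := exists_rat_btwn (show max 0 (α - δ) < α from max_lt hα (by linarith))
    obtain ⟨q, hq1, hq2⟩ := exists_rat_btwn (show max 0 (β - δ) < β from max_lt hβ (by linarith))
    have hp0 : (0 : ℚ) < p := by exact_mod_cast (le_max_left _ _).trans_lt hp1
    have hq0 : (0 : ℚ) < q := by exact_mod_cast (le_max_left _ _).trans_lt hq1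
    have hp1' : α - δ < p := (le_max_right _ _).trans_lt hp1
    have hq1' : β - δ < q := (le_max_right _ _).trans_lt hq1
    have h2 := hb (y := ((p : ℝ), (q : ℝ))) (by
      rw [Prod.dist_eq]
      refine max_lt ?_ ?_
      · show dist (p : ℝ) α < δ
        rw [Real.dist_eq, abs_sub_comm, abs_of_pos (by linarith)]
        linarith
      · show dist (q : ℝ) β < δ
        rw [Real.dist_eq, abs_sub_comm, abs_of_pos (by linarith)]
        linarith)
    filter_upwards [(cdf2 (h p q hp0 hq0) r s).eventually_lt_const h2] with X hX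
    refine lt_of_le_of_lt (div_le_div_of_nonneg_right ?_ (Nat.cast_nonneg X)) hX
    have h3 : {x | N α x < r ∧ M β x < s} ⊆ {x | N (p : ℝ) x < r ∧ M (q : ℝ) x < s} := fun x hx =>
      ⟨(hN hp2.le x).trans_lt hx.1, (hM hq2.le x).trans_lt hx.2⟩
    exact_mod_cast cn_mono h3 X

variable {Ω : Type} {m0 : MeasurableSpace Ω} {μ : Measure Ω} [IsProbabilityMeasure μ]
  {ℱ : Filtration ℕ m0} {A : ℕ → Set Ω} {xs : ℕ → ℕ}

/-- **the joint law of two windows, one on each side of the members of a sequence** -/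
theorem two_full (hA : ∀ n, MeasurableSet[ℱ n] (A n)) (Q : Finset ℕ) (hQ : ∀ p ∈ Q, p.Prime)
    (hcop : ∀ n, (∃ p ∈ Q, p ∣ n) → A n = ∅)
    (hd : ∀ᵐ ω ∂μ, Tendsto (fun n : ℕ => (μ[(A (n + 1)).indicator (fun _ => (1 : ℝ)) | ℱ n]) ω * Real.log n)
      (atTop ⊓ 𝓟 {n : ℕ | ∀ p ∈ Q, ¬ p ∣ n + 1}) (𝓝 (∏ p ∈ Q, (1 - 1 / (p : ℝ))⁻¹))) (hxs : StrictMono xs)
    (hgr : Tendsto (fun n : ℕ => ((xs (n + 1) : ℝ) - xs n) / Real.log (xs (n + 1))) atTop atTop) :
    ∀ᵐ ω ∂μ, ∀ α β : ℝ, 0 < α → 0 < β → ∀ r s : ℕ,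
      Tendsto (fun X : ℕ => (cn {n | wn {a | ω ∈ A a} (fun _ => LL α 1 (xs n)) (yy α (xs n)) = r ∧
        wn {a | ω ∈ A a} (LL β 1) (xs n) = s} X : ℝ) / X) atTop (𝓝 (po α r * po β s)) := by
  classical
  have hW : 0 < ∏ p ∈ Q, p := Finset.prod_pos fun q hq => (hQ q hq).pos
  have hc : ∀ n, Nat.Coprime n (∏ p ∈ Q, p) ↔ ∀ p ∈ Q, ¬ p ∣ n := by
    intro n
    rw [Nat.coprime_prod_right_iff]
    refine forall₂_congr fun p hp => ?_
    rw [Nat.coprime_comm]
    exact Nat.Prime.coprime_iff_not_dvd (hQ p hp)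
  have hcop' : ∀ n, ¬ Nat.Coprime n (∏ p ∈ Q, p) → A n = ∅ := fun n hn => hcop n (by
    rw [hc] at hn
    push Not at hn
    exact hn)
  have hprof := dens_profile (μ := μ) (ℱ := ℱ) hA (∏ p ∈ Q, p) hW hcop' (by
    rw [totient_prod Q hQ]
    simp_rw [hc]
    exact hd)
  have h1 : ∀ᵐ ω ∂μ, ∀ p q : ℚ, 0 < p → 0 < q → ∀ r s : ℕ,
      Tendsto (fun X : ℕ => (cn {n | wn {a | ω ∈ A a} (fun _ => LL (p : ℝ) 1 (xs n)) (yy (p : ℝ) (xs n)) = r ∧
        wn {a | ω ∈ A a} (LL (q : ℝ) 1) (xs n) = s} X : ℝ) / X) atTop (𝓝 (po (p : ℝ) r * po (q : ℝ) s)) :=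
    ae_all_iff.2 fun p => ae_all_iff.2 fun q => ae_all_iff.2 fun hp => ae_all_iff.2 fun hq =>
      two_fixed hA Q hQ hcop' hprof hxs hgr (show (0 : ℝ) < p by exact_mod_cast hp) (show (0 : ℝ) < q by exact_mod_cast hq)
  filter_upwards [h1] with ω h2 α β hα hβ r s
  refine two_real (N := fun a n => wn {a | ω ∈ A a} (fun _ => LL a 1 (xs n)) (yy a (xs n)))
    (M := fun b n => wn {a | ω ∈ A a} (LL b 1) (xs n)) (fun {a b} hab n => ?_) (fun {a b} hab n => ?_) h2 hα hβ r s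
  · have h3 : LL a 1 (xs n) ≤ LL b 1 (xs n) :=
      Nat.floor_mono (mul_le_mul_of_nonneg_right hab (pow_nonneg (Real.log_natCast_nonneg (xs n)) _))
    unfold wn
    refine Finset.card_le_card (Finset.filter_subset_filter _ (Finset.Ioc_subset_Ioc ?_ ?_))
    · unfold yy
      omega
    · show yy a (xs n) + LL a 1 (xs n) ≤ yy b (xs n) + LL b 1 (xs n)
      unfold yy
      omega
  · exact wn_mono (Nat.floor_mono (mul_le_mul_of_nonneg_right hab (pow_nonneg (Real.log_natCast_nonneg (xs n)) _)))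

end Pool.Agent.N315.PS
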