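import Mathlib
import Pool.Agent.N315.PS.TwoD
import Pool.Agent.N315.PS.Seq

/-!
# Symmetric pairs around the members of a sequence
-/

set_option autoImplicit false
set_option linter.unusedSectionVars false

open MeasureTheory Filter Set Polynomial ProbabilityTheory
open scoped ENNReal Topology

namespace Pool.Agent.N315.PS

open Pool.Agent.R528.RM Pool.Agent.N740.HK Pool.Agent.N315.CC Pool.Agent.N315.PL

variable {Ω : Type} {m0 : MeasurableSpace Ω} {μ : Measure Ω} [IsProbabilityMeasure μ]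
  {ℱ : Filtration ℕ m0} {A : ℕ → Set Ω} {xs : ℕ → ℕ}

section

variable {W : ℕ} {c b δ y : ℝ} {T : ℕ → Set Ω}

theorem GX_prob (hc : c = (W : ℝ) / Nat.totient W) (hc0 : 0 ≤ c) (hA : ∀ n, MeasurableSet[ℱ n] (A n)) (hT : ∀ t, MeasurableSet[ℱ t] (T t))
    (hb : 0 ≤ b) (hy : 0 ≤ y)
    (hδ0 : 0 ≤ δ) (hδ1 : δ ≤ 1 / 2) {z l : ℕ} (hz : 3 ≤ z) (hzc : 2 * c + 1 ≤ Real.log z) (r : ℕ) {B : Set Ω} (hB : MeasurableSet[ℱ z] B) :
    μ.real (B ∩ EQ A T (VQ μ ℱ A W δ) z l ⌈(1 - δ) * b * y⌉₊ ⌊(1 + δ) * b * y⌋₊ r) ≤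
      ((1 + δ) * b * y * ((1 + δ) * c / Real.log z)) ^ r / (r.factorial : ℝ) *
        Real.exp (-((1 - δ) * b * y * ((1 - δ) * c / Real.log ((z + l : ℕ) : ℝ))) + r * ((1 - δ) * c / Real.log ((z + l : ℕ) : ℝ))) * μ.real B := by
  have hz3 : (3 : ℝ) ≤ z := by exact_mod_cast hz
  have hzl : (z : ℝ) ≤ ((z + l : ℕ) : ℝ) := by exact_mod_cast Nat.le_add_right z l
  have hM2 : 2 * c + 1 ≤ Real.log ((z + l : ℕ) : ℝ) := hzc.trans (Real.log_le_log (by linarith) hzl)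
  have hl0 : 0 ≤ (1 - δ) * c / Real.log ((z + l : ℕ) : ℝ) := div_nonneg (mul_nonneg (by linarith) hc0) (by linarith)
  have hl1 : (1 - δ) * c / Real.log ((z + l : ℕ) : ℝ) ≤ 1 := by
    rw [div_le_one (by linarith)]
    nlinarith
  have hu0 : 0 ≤ (1 + δ) * c / Real.log z := div_nonneg (mul_nonneg (by linarith) hc0) (by linarith)
  have h1 := trial_eq (μ := μ) (ℱ := ℱ) hA hT (fun n => VQ_meas (A := A) W δ n) hl0 hl1 hu0
    l z (z_facts (μ := μ) (ℱ := ℱ) (A := A) hc hc0 hδ0 (by linarith) hz (by linarith))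
    ⌈(1 - δ) * b * y⌉₊ ⌊(1 + δ) * b * y⌋₊ r B hB
  refine h1.trans (mul_le_mul_of_nonneg_right ?_ measureReal_nonneg)
  have hf : (⌊(1 + δ) * b * y⌋₊ : ℝ) ≤ (1 + δ) * b * y := Nat.floor_le (by positivity)
  have hcl : (1 - δ) * b * y ≤ (⌈(1 - δ) * b * y⌉₊ : ℝ) := Nat.le_ceil _
  exact be_le hl0 hl1 hu0 (mul_le_mul_of_nonneg_right hf hu0) (mul_le_mul_of_nonneg_right hcl hl0)

theorem GT_prob (hc : c = (W : ℝ) / Nat.totient W) (hc0 : 0 ≤ c) (hA : ∀ n, MeasurableSet[ℱ n] (A n)) (hT : ∀ t, MeasurableSet[ℱ t] (T t))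
    (hb : 0 ≤ b) (hy : 0 ≤ y)
    (hδ0 : 0 ≤ δ) (hδ1 : δ ≤ 1 / 2) {z l : ℕ} (hz : 3 ≤ z) (hzc : 2 * c + 1 ≤ Real.log z) (r : ℕ) {B : Set Ω} (hB : MeasurableSet[ℱ z] B) :
    μ.real (B ∩ TL A T (VQ μ ℱ A W δ) z l ⌊(1 + δ) * b * y⌋₊ r) ≤
      ((1 + δ) * b * y * ((1 + δ) * c / Real.log z)) ^ r / (r.factorial : ℝ) * μ.real B := by
  have hu0 : 0 ≤ (1 + δ) * c / Real.log z := div_nonneg (mul_nonneg (by linarith) hc0) (by linarith)
  have h1 := trial_tl (μ := μ) (ℱ := ℱ) hA hT (fun n => VQ_meas (A := A) W δ n) hu0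
    l z (fun n h1 h2 ω h3 => (z_facts (μ := μ) (ℱ := ℱ) (A := A) hc hc0 hδ0 (by linarith) hz (by linarith) n h1 h2 ω h3).2)
    ⌊(1 + δ) * b * y⌋₊ r B hB
  refine h1.trans (mul_le_mul_of_nonneg_right ?_ measureReal_nonneg)
  have hf : (⌊(1 + δ) * b * y⌋₊ : ℝ) ≤ (1 + δ) * b * y := Nat.floor_le (by positivity)
  exact ch_le hu0 (mul_le_mul_of_nonneg_right hf hu0)

end

/-- the integer `x + m` is tried when `x - m` is chosen -/
def TS (A : ℕ → Set Ω) (x t : ℕ) : Set Ω := {ω | 2 * x - (t + 1) ≤ t ∧ ω ∈ A (2 * x - (t + 1))}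

lemma TS_meas (hA : ∀ n, MeasurableSet[ℱ n] (A n)) (x t : ℕ) : MeasurableSet[ℱ t] (TS A x t) := by
  by_cases h : 2 * x - (t + 1) ≤ t
  · have e : TS A x t = A (2 * x - (t + 1)) := by
      ext ω
      exact ⟨fun h2 => h2.2, fun h2 => ⟨h, h2⟩⟩
    rw [e]
    exact ℱ.mono h _ (hA _)
  · have e : TS A x t = ∅ := by
      ext ω
      exact ⟨fun h2 => absurd h2.1 h, fun h2 => absurd h2 (notMem_empty ω)⟩
    rw [e]
    exact @MeasurableSet.empty _ (ℱ t)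

open Classical in
/-- the number of the `m`, `1 ≤ m ≤ M`, with `x - m` and `x + m` in `S` -/
noncomputable def sy (S : Set ℕ) (M x : ℕ) : ℕ := ((Finset.range M).filter (fun r => x - (r + 1) ∈ S ∧ x + (r + 1) ∈ S)).card

lemma sy_mono {S : Set ℕ} {M M' : ℕ} (h : M ≤ M') (x : ℕ) : sy S M x ≤ sy S M' x := by
  classical
  unfold sy
  exact Finset.card_le_card (Finset.filter_subset_filter _ (Finset.range_subset_range.2 h))

lemma SG_TS (x M : ℕ) (ω : Ω) : SG A (TS A x) x M ω = sy {a | ω ∈ A a} M x := by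
  classical
  unfold SG sy
  rw [Finset.card_filter]
  refine Finset.sum_congr rfl fun r _ => ?_
  have e : 2 * x - (x + r + 1) = x - (r + 1) := by omega
  have h : (ω ∈ TS A x (x + r) ∧ ω ∈ A (x + r + 1)) ↔ (x - (r + 1) ∈ {a | ω ∈ A a} ∧ x + (r + 1) ∈ {a | ω ∈ A a}) := by
    unfold TS
    rw [mem_ofPred_eq, e]
    constructor
    · rintro ⟨⟨_, h2⟩, h3⟩
      exact ⟨h2, h3⟩
    · rintro ⟨h2, h3⟩
      exact ⟨⟨by omega, h2⟩, h3⟩
  by_cases g : (ω ∈ TS A x (x + r) ∧ ω ∈ A (x + r + 1))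
  · rw [if_pos g, if_pos (h.1 g)]
  · rw [if_neg g, if_neg (fun g2 => g (h.2 g2))]

lemma cG_TS {x M : ℕ} (hM : M + 1 ≤ x) (ω : Ω) : cG (TS A x) x M ω = wn {a | ω ∈ A a} (fun _ => M) (x - 1 - M) := by
  classical
  unfold cG wn
  beta_reduce
  rw [← Finset.card_filter]
  refine Finset.card_bij (fun r _ => x - (r + 1)) ?_ ?_ ?_
  · intro r hr
    have hr := Finset.mem_filter.1 hr
    have h1 := Finset.mem_range.1 hr.1
    have h2 : ω ∈ A (2 * x - (x + r + 1)) := hr.2.2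
    rw [show 2 * x - (x + r + 1) = x - (r + 1) by omega] at h2
    exact Finset.mem_filter.2 ⟨Finset.mem_Ioc.2 ⟨by omega, by omega⟩, h2⟩
  · intro a ha b hb hab
    have h1 := Finset.mem_range.1 (Finset.mem_filter.1 ha).1
    have h2 := Finset.mem_range.1 (Finset.mem_filter.1 hb).1
    have hab : x - (a + 1) = x - (b + 1) := hab
    omega
  · intro u hu
    have hu := Finset.mem_filter.1 hu
    have h1 := Finset.mem_Ioc.1 hu.1
    refine ⟨x - u - 1, Finset.mem_filter.2 ⟨Finset.mem_range.2 (by omega), ?_, ?_⟩, by omega⟩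
    · omega
    · rw [show 2 * x - (x + (x - u - 1) + 1) = u by omega]
      exact hu.2

lemma wn_add {S : Set ℕ} {a b z : ℕ} (h : a ≤ b) :
    wn S (fun _ => a) z ≤ wn S (fun _ => b) z ∧ wn S (fun _ => b) z ≤ wn S (fun _ => a) z + (b - a) := by
  classical
  constructor
  · unfold wn
    beta_reduce
    exact Finset.card_le_card (Finset.filter_subset_filter _ (Finset.Ioc_subset_Ioc le_rfl (by omega)))
  · unfold wn
    beta_reduce
    have h1 : (Finset.Ioc z (z + b)).filter (fun n => n ∈ S) ⊆ (Finset.Ioc z (z + a)).filter (fun n => n ∈ S) ∪ Finset.Ioc (z + a) (z + b) := by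
      intro u hu
      have hu := Finset.mem_filter.1 hu
      have h1 := Finset.mem_Ioc.1 hu.1
      by_cases h2 : u ≤ z + a
      · exact Finset.mem_union_left _ (Finset.mem_filter.2 ⟨Finset.mem_Ioc.2 ⟨h1.1, h2⟩, hu.2⟩)
      · exact Finset.mem_union_right _ (Finset.mem_Ioc.2 ⟨not_le.1 h2, h1.2⟩)
    refine (Finset.card_le_card h1).trans ((Finset.card_union_le _ _).trans ?_)
    rw [Nat.card_Ioc]
    exact Nat.add_le_add_left (by omega) _

end Pool.Agent.N315.PS
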