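import Mathlib
import Pool.Agent.N315.PS.Sym

/-!
# The Poisson law for the symmetric pairs around the members of a sequence
-/

set_option autoImplicit false
set_option linter.unusedSectionVars false

open MeasureTheory Filter Set Polynomial ProbabilityTheory
open scoped ENNReal Topology

namespace Pool.Agent.N315.PS

open Pool.Agent.R528.RM Pool.Agent.N740.HK Pool.Agent.N315.CC Pool.Agent.N315.PL

variable {Ω : Type} {m0 : MeasurableSpace Ω} {μ : Measure Ω} [IsProbabilityMeasure μ]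
  {ℱ : Filtration ℕ m0} {A : ℕ → Set Ω} {xs : ℕ → ℕ} {lam : ℝ}

lemma LL_near (hlam : 0 < lam) : ∀ᶠ x : ℕ in atTop, 2 * (LL lam 2 x + 1) ≤ x ∧
    (LL lam 2 x : ℝ) ≤ LL lam 2 (x - 1 - LL lam 2 x) + (8 * lam + 1) := by
  filter_upwards [L_sqrt (LL_lim hlam.le two_ne_zero), eventually_ge_atTop 4] with x h1 h4
  have hx4 : (4 : ℝ) ≤ x := by exact_mod_cast h4
  have hs2 : Real.sqrt x * Real.sqrt x = x := Real.mul_self_sqrt (by linarith)
  have hs0 : 2 ≤ Real.sqrt x := Real.le_sqrt_of_sq_le (by linarith)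
  have a5 : Real.log x ≤ 2 * Real.sqrt x := by
    have := Real.log_le_sub_one_of_pos (show 0 < Real.sqrt x by linarith)
    rw [Real.log_sqrt (by linarith)] at this
    linarith
  generalize Real.sqrt x = s at h1 hs2 hs0 a5
  push_cast at h1
  have h2 : 2 * ((LL lam 2 x : ℝ) + 1) ≤ x := by nlinarith
  have h2' : 2 * (LL lam 2 x + 1) ≤ x := by exact_mod_cast h2
  refine ⟨h2', ?_⟩
  have hz : ((x - 1 - LL lam 2 x : ℕ) : ℝ) = x - 1 - LL lam 2 x := by
    rw [Nat.cast_sub (by omega), Nat.cast_sub (by omega)]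
    push_cast
    ring
  have hL0 : (0 : ℝ) ≤ LL lam 2 x := Nat.cast_nonneg _
  generalize x - 1 - LL lam 2 x = z at hz ⊢
  have hz1 : (x : ℝ) / 2 ≤ z := by rw [hz]; linarith
  have hz0 : (0 : ℝ) < z := by linarith
  have hlz : 0 ≤ Real.log (z : ℝ) := Real.log_natCast_nonneg z
  have hlx : 0 ≤ Real.log (x : ℝ) := Real.log_natCast_nonneg x
  have a1 : (LL lam 2 x : ℝ) ≤ lam * Real.log x ^ 2 := Nat.floor_le (by positivity)
  have a2 : lam * Real.log z ^ 2 < LL lam 2 z + 1 := Nat.lt_floor_add_one _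
  have a3 : Real.log x - Real.log z ≤ ((x : ℝ) - z) / z := by
    rw [← Real.log_div (by linarith) hz0.ne', sub_div, div_self hz0.ne']
    exact Real.log_le_sub_one_of_pos (div_pos (by linarith) hz0)
  have a4 : (x : ℝ) - z ≤ s := by rw [hz]; linarith
  have a6 : ((x : ℝ) - z) / z ≤ 2 / s := by
    rw [div_le_div_iff₀ hz0 (by linarith)]
    nlinarith
  have a7 : Real.log z ≤ Real.log x := Real.log_le_log hz0 (by rw [hz]; linarith)
  have a8 : (Real.log x - Real.log z) * (Real.log x + Real.log z) ≤ 2 / s * (2 * (2 * s)) :=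
    mul_le_mul (a3.trans a6) (by linarith) (by linarith) (div_nonneg (by norm_num) (by linarith))
  have a9 : 2 / s * (2 * (2 * s)) = 8 := by
    have : s ≠ 0 := by linarith
    field_simp
    norm_num
  rw [a9] at a8
  have b1 : lam * ((Real.log x - Real.log z) * (Real.log x + Real.log z)) ≤ lam * 8 := mul_le_mul_of_nonneg_left a8 hlam.le
  nlinarith

/-- the number of the candidates, in most windows -/
theorem cand_sym (hA : ∀ n, MeasurableSet[ℱ n] (A n))
    (hd : ∀ᵐ ω ∂μ, ∀ ε : ℝ, 0 < ε → ∀ᶠ n : ℕ in atTop, |dens μ ℱ A n ω - rhoW 1 (n + 1)| ≤ ε * rhoW 1 (n + 1))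
    (hlam : 0 < lam) (hxs : StrictMono xs) :
    ∀ᵐ ω ∂μ, ∀ ε : ℝ, 0 < ε →
      UB {n | ¬ |(cG (TS A (xs n)) (xs n) (LL lam 2 (xs n)) ω : ℝ) - lam * Real.log (xs n)| ≤ ε * Real.log (xs n)} 0 := by
  classical
  have hgd : gd (fun _ => True) 1 = 1 := by
    unfold gd
    simp
  set z : ℕ → ℕ := fun n => xs n - 1 - LL lam 2 (xs n) with hzdef
  have hz2 : ∀ᶠ n in atTop, xs n ≤ 2 * z n ∧ z n ≤ xs n := by
    filter_upwards [hxs.tendsto_atTop.eventually (LL_near hlam)] with n hn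
    have := hn.1
    simp only [hzdef]
    omega
  have hz : Tendsto z atTop atTop := by
    refine tendsto_atTop.2 fun b => ?_
    filter_upwards [hz2, hxs.tendsto_atTop.eventually_ge_atTop (2 * b)] with n h1 h2
    omega
  have hzl : ∀ᶠ n : ℕ in atTop, Real.log n ≤ 2 * Real.log (z n) := by
    filter_upwards [hz2, hz.eventually_ge_atTop 2, eventually_gt_atTop 0] with n h1 h2 h3
    have h4 : n ≤ xs n := hxs.le_apply
    have h5 : n ≤ z n ^ 2 := by nlinarith
    have h6 : (n : ℝ) ≤ (z n : ℝ) ^ 2 := by exact_mod_cast h5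
    have h7 := Real.log_le_log (by exact_mod_cast h3) h6
    rw [Real.log_pow] at h7
    exact_mod_cast h7
  have hid : Tendsto (fun n : ℕ => Real.log ((id n : ℕ) : ℝ) / Real.log n) atTop (𝓝 1) := log_x
  have h0 := most_NW_sub (μ := μ) (ℱ := ℱ) (A := A) (F := Xi id) (G := fun _ => True) (L := LL lam 2) (Lam := lam) (D := fun _ => 1) (xs := z)
    (W := 1) (c := 1) one_pos (by simp) (fun n => rfl) hA hd (fun i a b hab => Nat.add_lt_add_right hab i)
    (fun i n => by unfold Xi; omega) (fun _ => one_pos) (fun i => Xi_log strictMono_id hid i) 1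
    (fun j _ n _ => Nat.coprime_one_right _) hlam.le (LL_lim hlam.le two_ne_zero) hz hzl
  have hk : lam * kap (gd (fun _ => True) 1) 1 (fun _ => 1) 1 = lam := by
    have : kap (gd (fun _ => True) 1) 1 (fun _ => 1) 1 = gd (fun _ => True) 1 * 1 / 1 := rfl
    rw [this, hgd]
    ring
  filter_upwards [h0] with ω hω ε hε
  have h1 := hω (ε / 2) (by positivity)
  rw [hk] at h1
  have hN : ∀ x, NW A (Xi id) (fun _ => True) (LL lam 2) 1 x ω = wn {a | ω ∈ A a} (fun _ => LL lam 2 x) x := by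
    intro x
    unfold NW wn
    congr 1
    ext n
    rw [mem_WS, Finset.mem_filter, Finset.mem_Ioc]
    refine and_congr_right fun _ => ?_
    constructor
    · rintro ⟨_, h4⟩
      exact h4 0 (by omega)
    · intro h4
      refine ⟨trivial, fun j hj => ?_⟩
      have : j = 0 := by omega
      subst this
      exact h4
  refine h1.of_dz (UB_of_eventually (E := {n | ¬ ((2 * (LL lam 2 (xs n) + 1) ≤ xs n ∧
    (LL lam 2 (xs n) : ℝ) ≤ LL lam 2 (z n) + (8 * lam + 1)) ∧ (xs n ≤ 2 * z n ∧ z n ≤ xs n) ∧ 2 ≤ z n ∧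
    9 * lam + 1 ≤ ε / 2 * Real.log (xs n))}) ?_) ?_
  · have h3 : Tendsto (fun n => ε / 2 * Real.log (xs n)) atTop atTop :=
      (tendsto_logN.comp hxs.tendsto_atTop).const_mul_atTop (by positivity)
    filter_upwards [hxs.tendsto_atTop.eventually (LL_near hlam), hz2, hz.eventually_ge_atTop 2, h3.eventually_ge_atTop (9 * lam + 1)]
      with n k1 k2 k3 k4 hcon
    exact hcon ⟨k1, k2, k3, k4⟩
  · intro n hn
    by_contra hcon
    rw [mem_union, not_or] at hcon
    obtain ⟨⟨k1, k2⟩, ⟨k3, k4⟩, k5, k6⟩ := not_not.1 hcon.2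
    have k7 := not_not.1 hcon.1
    apply hn
    rw [hN] at k7
    rw [cG_TS (by omega)]
    have hz3 : xs n - 1 - LL lam 2 (xs n) = z n := rfl
    rw [hz3]
    have hmono : LL lam 2 (z n) ≤ LL lam 2 (xs n) := LL_mono hlam.le two_ne_zero k4
    obtain ⟨w1, w2⟩ := wn_add (S := {a | ω ∈ A a}) (z := z n) hmono
    have w1' : (wn {a | ω ∈ A a} (fun _ => LL lam 2 (z n)) (z n) : ℝ) ≤ wn {a | ω ∈ A a} (fun _ => LL lam 2 (xs n)) (z n) := by exact_mod_cast w1
    have w2' : (wn {a | ω ∈ A a} (fun _ => LL lam 2 (xs n)) (z n) : ℝ) ≤ wn {a | ω ∈ A a} (fun _ => LL lam 2 (z n)) (z n) +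
        ((LL lam 2 (xs n) : ℝ) - LL lam 2 (z n)) := by
      rw [← Nat.cast_sub hmono]
      exact_mod_cast w2
    have hz0 : (0 : ℝ) < z n := by
      have : 0 < z n := by omega
      exact_mod_cast this
    have l1 : Real.log (z n) ≤ Real.log (xs n) := Real.log_le_log hz0 (by exact_mod_cast k4)
    have l2 : Real.log (xs n) ≤ Real.log (z n) + 1 := by
      have h3 : (xs n : ℝ) ≤ 2 * z n := by exact_mod_cast k3
      have hx0 : (0 : ℝ) < xs n := lt_of_lt_of_le hz0 (by exact_mod_cast k4)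
      have h4 := Real.log_le_log hx0 h3
      rw [Real.log_mul (by norm_num) hz0.ne'] at h4
      have h5 : Real.log 2 ≤ 1 := by
        have := Real.log_two_lt_d9
        linarith
      linarith
    have k8 := abs_le.1 k7
    have l3 : lam * Real.log (z n) ≤ lam * Real.log (xs n) := mul_le_mul_of_nonneg_left l1 hlam.le
    have l4 : lam * Real.log (xs n) ≤ lam * Real.log (z n) + lam := by nlinarith
    have l5 : ε / 2 * Real.log (z n) ≤ ε / 2 * Real.log (xs n) := mul_le_mul_of_nonneg_left l1 (by positivity)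
    rw [abs_le]
    constructor
    · linarith [k8.1]
    · linarith [k8.2]

/-- **the Poisson law for the symmetric pairs** -/
theorem sym_fixed (hA : ∀ n, MeasurableSet[ℱ n] (A n))
    (hd : ∀ᵐ ω ∂μ, ∀ ε : ℝ, 0 < ε → ∀ᶠ n : ℕ in atTop, |dens μ ℱ A n ω - rhoW 1 (n + 1)| ≤ ε * rhoW 1 (n + 1))
    (hlam : 0 < lam) (hxs : StrictMono xs) (hsep : ∀ᶠ n in atTop, xs n + LL lam 2 (xs n) ≤ xs (n + 1)) :
    ∀ᵐ ω ∂μ, ∀ r : ℕ, Tendsto (fun X : ℕ => (cn {n | sy {a | ω ∈ A a} (LL lam 2 (xs n)) (xs n) = r} X : ℝ) / X) atTop (𝓝 (po lam r)) := by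
  classical
  have hc : (1 : ℝ) = ((1 : ℕ) : ℝ) / Nat.totient 1 := by simp
  have hlg : Tendsto (fun x : ℕ => Real.log ((x + LL lam 2 x : ℕ) : ℝ) / Real.log x) atTop (𝓝 1) :=
    log_shift (LL_lim hlam.le two_ne_zero)
  have h1 : ∀ᵐ ω ∂μ, ∀ j r, UB {n | ω ∈ EQ A (TS A (xs n)) (VQ μ ℱ A 1 (dj j)) (xs n) (LL lam 2 (xs n))
      ⌈(1 - dj j) * lam * Real.log (xs n)⌉₊ ⌊(1 + dj j) * lam * Real.log (xs n)⌋₊ r} (pp (dj j) lam r + dj j) := by
    refine ae_all_iff.2 fun j => ae_all_iff.2 fun r => ?_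
    have hlim := bd_lim log_x hlg (dj j) lam 1 r
    rw [show pp (dj j) (lam * 1) r = pp (dj j) lam r by rw [mul_one]] at hlim
    refine lln_blk (E := fun x => EQ A (TS A x) (VQ μ ℱ A 1 (dj j)) x (LL lam 2 x)
      ⌈(1 - dj j) * lam * Real.log x⌉₊ ⌊(1 + dj j) * lam * Real.log x⌋₊ r) (y := id) hxs (LL_mono hlam.le two_ne_zero) hsep
      (add_nonneg (pp_nonneg hlam.le r) (dj_pos j).le)
      (Eventually.of_forall fun x => EQ_meas hA (fun t => TS_meas hA x t) (fun n => VQ_meas 1 (dj j) n) _ _ _ _ _) ?_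
    filter_upwards [hlim.eventually_lt_const (lt_add_of_pos_right _ (dj_pos j)), eventually_ge_atTop 3,
      tendsto_logN.eventually_ge_atTop (2 * 1 + 1)] with x hx hx3 hxc B hB
    have p1 := GX_prob (μ := μ) (ℱ := ℱ) (A := A) (T := TS A x) (b := lam) (y := Real.log x) (δ := dj j) (l := LL lam 2 x) (W := 1) (c := 1)
      hc zero_le_one hA (fun t => TS_meas hA x t) hlam.le (by linarith) (dj_pos j).le (dj_le j) hx3 hxc r hB
    exact p1.trans (mul_le_mul_of_nonneg_right hx.le measureReal_nonneg)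
  have h2 : ∀ᵐ ω ∂μ, ∀ j r, UB {n | ω ∈ TL A (TS A (xs n)) (VQ μ ℱ A 1 (dj j)) (xs n) (LL lam 2 (xs n))
      ⌊(1 + dj j) * lam * Real.log (xs n)⌋₊ r} (pq (dj j) lam r + dj j) := by
    refine ae_all_iff.2 fun j => ae_all_iff.2 fun r => ?_
    have hlim := td_lim log_x (dj j) lam 1 r
    rw [show pq (dj j) (lam * 1) r = pq (dj j) lam r by rw [mul_one]] at hlim
    refine lln_blk (E := fun x => TL A (TS A x) (VQ μ ℱ A 1 (dj j)) x (LL lam 2 x)
      ⌊(1 + dj j) * lam * Real.log x⌋₊ r) (y := id) hxs (LL_mono hlam.le two_ne_zero) hsep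
      (add_nonneg (pq_nonneg hlam.le r) (dj_pos j).le)
      (Eventually.of_forall fun x => TL_meas hA (fun t => TS_meas hA x t) (fun n => VQ_meas 1 (dj j) n) _ _ _ _) ?_
    filter_upwards [hlim.eventually_lt_const (lt_add_of_pos_right _ (dj_pos j)), eventually_ge_atTop 3,
      tendsto_logN.eventually_ge_atTop (2 * 1 + 1)] with x hx hx3 hxc B hB
    have p1 := GT_prob (μ := μ) (ℱ := ℱ) (A := A) (T := TS A x) (b := lam) (y := Real.log x) (δ := dj j) (l := LL lam 2 x) (W := 1) (c := 1)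
      hc zero_le_one hA (fun t => TS_meas hA x t) hlam.le (by linarith) (dj_pos j).le (dj_le j) hx3 hxc r hB
    exact p1.trans (mul_le_mul_of_nonneg_right hx.le measureReal_nonneg)
  filter_upwards [h1, h2, hd, cand_sym hA hd hlam hxs] with ω g1 g2 g3 g4
  set OK : ℕ → ℕ → Prop := fun j n =>
    ⌈(1 - dj j) * lam * Real.log (xs n)⌉₊ ≤ cG (TS A (xs n)) (xs n) (LL lam 2 (xs n)) ω ∧
      cG (TS A (xs n)) (xs n) (LL lam 2 (xs n)) ω ≤ ⌊(1 + dj j) * lam * Real.log (xs n)⌋₊ ∧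
      ω ∉ vG (TS A (xs n)) (VQ μ ℱ A 1 (dj j)) (xs n) (LL lam 2 (xs n)) with hOK
  have hbad : ∀ j, UB {n | ¬ OK j n} 0 := by
    intro j
    obtain ⟨m₀, hm₀⟩ := eventually_atTop.1 (g3 (dj j) (dj_pos j))
    refine (g4 _ (mul_pos (dj_pos j) hlam)).of_dz (UB_of_eventually (E := {n | ¬ m₀ ≤ xs n}) ?_) ?_
    · filter_upwards [hxs.tendsto_atTop.eventually_ge_atTop m₀] with n hn hcon
      exact hcon hn
    · intro n hn
      by_contra hcon
      rw [mem_union, not_or] at hcon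
      apply hn
      have h3 := abs_le.1 (not_not.1 hcon.1)
      have h4 : m₀ ≤ xs n := not_not.1 hcon.2
      refine ⟨Nat.ceil_le.2 (by linarith [h3.1]), Nat.le_floor (by linarith [h3.2]), ?_⟩
      rintro ⟨t, ht1, _, _, ht4⟩
      apply ht4
      exact ⟨Nat.coprime_one_right _, hm₀ t (by omega)⟩
  refine freq_lim (fun n => sy {a | ω ∈ A a} (LL lam 2 (xs n)) (xs n)) (p := po lam)
    (τ := fun r => lam ^ r / (r.factorial : ℝ)) (fun r => po_nn hlam.le r) (po_hasSum lam)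
    (FloorSemiring.tendsto_pow_div_factorial_atTop lam) ?_ ?_
  · intro r
    refine UB_lim (p := fun j => pp (dj j) lam r + dj j) (fun j => (g1 j r).of_dz (hbad j) ?_) ?_
    · intro n hn
      by_cases hk : OK j n
      · left
        exact ⟨⟨(SG_TS (xs n) _ ω).trans hn, hk.1, hk.2.1⟩, hk.2.2⟩
      · exact Or.inr hk
    · have := (pp_lim lam r).add dj_lim
      rw [add_zero] at this
      exact this
  · intro r
    refine UB_lim (p := fun j => pq (dj j) lam r + dj j) (fun j => (g2 j r).of_dz (hbad j) ?_) ?_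
    · intro n hn
      by_cases hk : OK j n
      · left
        have hn : r ≤ sy {a | ω ∈ A a} (LL lam 2 (xs n)) (xs n) := hn
        exact ⟨⟨hn.trans (SG_TS (xs n) _ ω).ge, hk.2.1⟩, hk.2.2⟩
      · exact Or.inr hk
    · have := (pq_lim lam r).add dj_lim
      rw [add_zero] at this
      exact this

/-- all lengths at once -/
theorem sym_full (hA : ∀ n, MeasurableSet[ℱ n] (A n))
    (hd : ∀ᵐ ω ∂μ, ∀ ε : ℝ, 0 < ε → ∀ᶠ n : ℕ in atTop, |dens μ ℱ A n ω - rhoW 1 (n + 1)| ≤ ε * rhoW 1 (n + 1))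
    (hxs : StrictMono xs) (hgr : Tendsto (fun n : ℕ => ((xs (n + 1) : ℝ) - xs n) / Real.log (xs n) ^ 2) atTop atTop) :
    ∀ᵐ ω ∂μ, ∀ lam : ℝ, 0 < lam → ∀ r : ℕ,
      Tendsto (fun X : ℕ => (cn {n | sy {a | ω ∈ A a} (LL lam 2 (xs n)) (xs n) = r} X : ℝ) / X) atTop (𝓝 (po lam r)) := by
  have hsep : ∀ lam : ℝ, 0 < lam → ∀ᶠ n in atTop, xs n + LL lam 2 (xs n) ≤ xs (n + 1) := by
    intro lam hlam
    filter_upwards [hgr.eventually_ge_atTop lam, hxs.tendsto_atTop.eventually log_pos_ev] with n hn hl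
    have hl : 0 < Real.log (xs n : ℝ) := hl
    rw [le_div_iff₀ (by positivity)] at hn
    have h2 : (LL lam 2 (xs n) : ℝ) ≤ lam * Real.log (xs n) ^ 2 := Nat.floor_le (by positivity)
    have h3 : ((xs n + LL lam 2 (xs n) : ℕ) : ℝ) ≤ (xs (n + 1) : ℕ) := by
      push_cast
      linarith
    exact_mod_cast h3
  have h1 : ∀ᵐ ω ∂μ, ∀ q : ℚ, 0 < q → ∀ r : ℕ,
      Tendsto (fun X : ℕ => (cn {n | sy {a | ω ∈ A a} (LL (q : ℝ) 2 (xs n)) (xs n) = r} X : ℝ) / X) atTop (𝓝 (po (q : ℝ) r)) :=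
    ae_all_iff.2 fun q => ae_all_iff.2 fun hq =>
      sym_fixed hA hd (show (0 : ℝ) < q by exact_mod_cast hq) hxs (hsep q (by exact_mod_cast hq))
  filter_upwards [h1] with ω g1 lam hlam r
  refine all_real_gen (N := fun l n => sy {a | ω ∈ A a} (LL l 2 (xs n)) (xs n)) (fun {a b} hab n => ?_) g1 hlam r
  exact sy_mono (Nat.floor_mono (mul_le_mul_of_nonneg_right hab (pow_nonneg (Real.log_natCast_nonneg _) _))) _

end Pool.Agent.N315.PS
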